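import Pool.Agent.Helper54.KT.Defs
import Pool.Agent.TP2.Sym
import Pool.Agent.TP2.Reps

/-!
The `l`-th roots of the cofactors at a label are fixed by the decomposition group.

Proof. Put `n = ∑ θ ∈ Ω, e θ`.

Case `c = some c₀`: `e c₀ = l * ε` (by `hec`), `A = a - b * c₀ ∈ P`, `b ∉ P`. Let
`X i = Y * b ^ ε - ζ ^ i * ρ * Z * A ^ ε` for `0 ≤ i < l`. As
`∏ i, (x - ζ ^ i * y) = x ^ l - y ^ l`,
`b ^ (n - e c₀) * ∏ i, X i = b ^ n * Y ^ l - b ^ (n - e c₀) * ρ ^ l * Z ^ l * A ^ (e c₀)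
 = γ * Z ^ l * A ^ (e c₀) * (∏ θ ≠ c₀, (a - b θ) ^ e θ - b ^ (n - e c₀) * ∏ θ ≠ c₀, (c₀ - θ) ^ e θ)`
and the last bracket is in `P` since `a - b θ ≡ b (c₀ - θ)`. So, with `N₀ = cnt P (Z * A ^ ε)`,
either some `X i = 0` or the sum of the `cnt P (X i)` is at least `l * N₀ + 1`; in both cases there
is `i` with `X i = 0` or `cnt P (X i) ≥ N₀ + 1`. Put `ρ' = ζ ^ i * ρ`. Then
`X i = Y b ^ ε - ρ' Z A ^ ε` and `σ • X i = Y b ^ ε - (σ • ρ') Z A ^ ε` (`σ` fixes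
`Y`, `Z`, `a`, `b`, `c₀`) has the same multiplicity at `σ • P = P` (`cnt_smul`), so the difference
`(σ • ρ' - ρ') Z A ^ ε` is zero or has multiplicity at least `N₀ + 1`, so `σ • ρ' - ρ' ∈ P`.
(It may be easier to use the ideals `P ^ k`: `x ∈ P ^ k` iff `x = 0` or `k ≤ cnt P x`.)
Both `ρ'` and `σ • ρ'` are `l`-th roots of the cofactor (which is fixed by `σ`, hypothesis
`hfix`), so `σ • ρ' = ζ ^ j * ρ'`, and `(ζ ^ j - 1) * ρ' ∈ P` with `ρ' ∉ P` (`hcof`) and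
`ζ ^ j - 1 ∉ P` unless `ζ ^ j = 1` (as `l ∉ P`: `l` is the product of the `1 - ζ ^ i`, `0 < i < l`).

Case `c = none`: `b ∈ P`, `a ∉ P`, `l ∣ n`, `n = l * ν`; take
`X i = Y * b ^ ν - ζ ^ i * ρ * Z * a ^ ν`, then
`∏ i, X i = Y ^ l * b ^ n - γ * Z ^ l * a ^ n = γ * Z ^ l * (∏ (a - b θ) ^ e θ - a ^ n)` and the
bracket is in `P`; `N₀ = cnt P (Z * a ^ ν)`.
-/

open NumberField
open scoped Pointwise BigOperators

namespace Pool.KT

open Pool.TP2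

namespace Leaf

theorem root_sub_notMem {R : Type} [CommRing R] [IsDomain R] (l : ℕ) (hl : l ≠ 0) (ζ : R)
    (hζ : IsPrimitiveRoot ζ l) (P : Ideal R) (hlP : (l : R) ∉ P) (η : R)
    (hη : η ^ l = 1) (hη1 : η - 1 ∈ P) : η = 1 := by
  have : NeZero l := ⟨hl⟩
  obtain ⟨i, hi, rfl⟩ := hζ.eq_pow_of_pow_eq_one hη
  rcases Nat.eq_zero_or_pos i with h0 | h0
  · rw [h0, pow_zero]
  exfalso
  apply hlP
  obtain ⟨n, rfl⟩ : ∃ n, l = n + 1 := ⟨l - 1, by omega⟩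
  have h1 := hζ.prod_one_sub_pow_eq_order
  have h2 : ((n + 1 : ℕ) : R) = ∏ k ∈ Finset.range n, (1 - ζ ^ (k + 1)) := by
    rw [h1]; push_cast; ring
  rw [h2]
  have h3 : (1 - ζ ^ i) ∣ ∏ k ∈ Finset.range n, (1 - ζ ^ (k + 1)) := by
    have h4 := Finset.dvd_prod_of_mem (fun k => 1 - ζ ^ (k + 1))
      (Finset.mem_range.2 (by omega : i - 1 < n))
    have h5 : i - 1 + 1 = i := by omega
    simp only [h5] at h4
    exact h4
  obtain ⟨d, hd⟩ := h3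
  rw [hd]
  apply P.mul_mem_right
  have h6 := P.neg_mem hη1
  rwa [neg_sub] at h6

theorem mem_pow_iff {K : Type} [Field K] [NumberField K] (P : Ideal (𝓞 K)) (hP : P.IsPrime)
    (hP0 : P ≠ ⊥) {x : 𝓞 K} (hx : x ≠ 0) (k : ℕ) : x ∈ P ^ k ↔ k ≤ cnt P x := by
  classical
  have hx0 : Ideal.span {x} ≠ (0 : Ideal (𝓞 K)) := by
    rw [Ne, Ideal.zero_eq_bot, Ideal.span_singleton_eq_bot]; exact hx
  have h2 := UniqueFactorizationMonoid.emultiplicity_eq_count_normalizedFactors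
    (Ideal.prime_of_isPrime hP0 hP).irreducible hx0
  rw [normalize_eq] at h2
  rw [← Ideal.dvd_span_singleton, pow_dvd_iff_le_emultiplicity, h2]
  unfold cnt
  exact Nat.cast_le

theorem core (K : Type) [Field K] [NumberField K] (l : ℕ) [Fact l.Prime] (ζ : 𝓞 K)
    (hζ : IsPrimitiveRoot ζ l) (P : Ideal (𝓞 K)) (hP : P.IsPrime) (hP0 : P ≠ ⊥)
    (hlP : (l : 𝓞 K) ∉ P) (σ : K ≃ₐ[ℚ] K) (hσP : σ • P = P) (U V m δ g ρ : 𝓞 K)
    (hV : V ≠ 0) (hU' : σ • U = U) (hV' : σ • V = V) (hm : m ∉ P) (hδ : δ ∈ P)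
    (h : m * (U ^ l - g * V ^ l) = V ^ l * δ) (hg : g ∉ P) (hg' : σ • g = g)
    (hρ : ρ ^ l = g) : ∃ ρ' : 𝓞 K, ρ' ^ l = g ∧ σ • ρ' = ρ' := by
  classical
  have hl : l.Prime := Fact.out
  have hm0 : m ≠ 0 := fun h0 => hm (h0 ▸ P.zero_mem)
  have hcm : cnt P m = 0 := by
    by_contra h0
    exact hm ((cnt_pos_iff P hP hP0 hm0).1 (Nat.pos_of_ne_zero h0))
  have hprod : U ^ l - g * V ^ l = ∏ η ∈ Polynomial.nthRootsFinset l (1 : 𝓞 K),
      (U - η * (ρ * V)) := by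
    rw [← hζ.pow_sub_pow_eq_prod_sub_mul _ _ hl.pos, mul_pow, hρ]
  have key : ∃ η ∈ Polynomial.nthRootsFinset l (1 : 𝓞 K),
      U - η * (ρ * V) = 0 ∨ cnt P V + 1 ≤ cnt P (U - η * (ρ * V)) := by
    by_contra hcon
    push Not at hcon
    have hne : ∏ η ∈ Polynomial.nthRootsFinset l (1 : 𝓞 K), (U - η * (ρ * V)) ≠ 0 :=
      Finset.prod_ne_zero_iff.2 fun η hη => (hcon η hη).1
    rw [hprod] at h
    have hδ0 : δ ≠ 0 := by
      rintro rfl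
      rw [mul_zero] at h
      exact (mul_ne_zero hm0 hne) h
    have h1 := congrArg (cnt P) h
    rw [cnt_mul P hm0 hne, cnt_mul P (pow_ne_zero _ hV) hδ0, hcm, zero_add,
      cnt_prod P _ _ fun η hη => (hcon η hη).1] at h1
    have h2 : 0 < cnt P δ := (cnt_pos_iff P hP hP0 hδ0).2 hδ
    have h3 : cnt P (V ^ l) = l * cnt P V := by
      have h4 := cnt_prod P (Finset.range l) (fun _ => V) fun _ _ => hV
      simpa using h4
    have h5 : ∑ η ∈ Polynomial.nthRootsFinset l (1 : 𝓞 K), cnt P (U - η * (ρ * V)) ≤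
        ∑ η ∈ Polynomial.nthRootsFinset l (1 : 𝓞 K), cnt P V :=
      Finset.sum_le_sum fun η hη => Nat.lt_succ_iff.1 (hcon η hη).2
    rw [Finset.sum_const, hζ.card_nthRootsFinset, smul_eq_mul] at h5
    omega
  obtain ⟨η, hη, hX⟩ := key
  have hηl : η ^ l = 1 := (Polynomial.mem_nthRootsFinset hl.pos 1).1 hη
  set X : 𝓞 K := U - η * (ρ * V) with hXdef
  have hrl : (η * ρ) ^ l = g := by rw [mul_pow, hηl, one_mul, hρ]
  refine ⟨η * ρ, hrl, ?_⟩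
  have hsX : σ • X = U - (σ • (η * ρ)) * V := by
    rw [hXdef, smul_sub, hU', ← mul_assoc, smul_mul', hV']
  have hdiff : (σ • (η * ρ) - η * ρ) * V = X - σ • X := by
    rw [hsX, hXdef]; ring
  -- membership in the power
  have hXm : X ∈ P ^ (cnt P V + 1) := by
    rcases hX with h0 | h0
    · rw [h0]; exact Ideal.zero_mem _
    · by_cases hX0 : X = 0
      · rw [hX0]; exact Ideal.zero_mem _
      · exact (mem_pow_iff P hP hP0 hX0 _).2 h0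
  have hsXm : σ • X ∈ P ^ (cnt P V + 1) := by
    by_cases hX0 : X = 0
    · rw [hX0, smul_zero]; exact Ideal.zero_mem _
    · have h1 : σ • X ≠ 0 := by
        intro h2
        apply hX0
        have h3 : σ⁻¹ • σ • X = σ⁻¹ • (0 : 𝓞 K) := by rw [h2]
        rwa [inv_smul_smul, smul_zero] at h3
      rw [mem_pow_iff P hP hP0 h1]
      have h2 := cnt_smul σ P X
      rw [hσP] at h2
      rw [h2]
      exact (mem_pow_iff P hP hP0 hX0 _).1 hXm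
  have hmem : σ • (η * ρ) - η * ρ ∈ P := by
    by_cases h0 : σ • (η * ρ) - η * ρ = 0
    · rw [h0]; exact P.zero_mem
    · have h1 : (σ • (η * ρ) - η * ρ) * V ∈ P ^ (cnt P V + 1) := by
        rw [hdiff]; exact Ideal.sub_mem _ hXm hsXm
      rw [mem_pow_iff P hP hP0 (mul_ne_zero h0 hV), cnt_mul P h0 hV] at h1
      exact (cnt_pos_iff P hP hP0 h0).1 (by omega)
  have hηρ : η * ρ ∉ P := by
    intro h0
    apply hg
    rw [← hrl]
    exact P.pow_mem_of_mem h0 _ hl.pos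
  have h1 : (σ • (η * ρ)) ^ l - (η * ρ) ^ l = 0 := by
    rw [← smul_pow', hrl, hg', sub_self]
  rw [hζ.pow_sub_pow_eq_prod_sub_mul _ _ hl.pos, Finset.prod_eq_zero_iff] at h1
  obtain ⟨ω, hω, hω0⟩ := h1
  have hωl : ω ^ l = 1 := (Polynomial.mem_nthRootsFinset hl.pos 1).1 hω
  have h2 : σ • (η * ρ) = ω * (η * ρ) := sub_eq_zero.1 hω0
  rw [h2] at hmem ⊢
  have h3 : (ω - 1) * (η * ρ) ∈ P := by
    have h4 : ω * (η * ρ) - η * ρ = (ω - 1) * (η * ρ) := by ring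
    rwa [h4] at hmem
  have h5 : ω - 1 ∈ P := (hP.mem_or_mem h3).resolve_right hηρ
  rw [root_sub_notMem l hl.ne_zero ζ hζ P hlP ω hωl h5, one_mul]

end Leaf

theorem leaf_root (K : Type) [Field K] [NumberField K] (l : ℕ) [Fact l.Prime] (ζ : 𝓞 K)
    (hζ : IsPrimitiveRoot ζ l) (Ω : Finset (𝓞 K)) (e : 𝓞 K → ℕ)
    (γ a b Y Z : 𝓞 K) (hY : Y ≠ 0) (hZ : Z ≠ 0) (hγ : γ ≠ 0) (hb : b ≠ 0)
    (hlin : ∀ θ ∈ Ω, a - b * θ ≠ 0)
    (h : Y ^ l * b ^ (∑ θ ∈ Ω, e θ) = γ * Z ^ l * ∏ θ ∈ Ω, (a - b * θ) ^ e θ)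
    (P : Ideal (𝓞 K)) (hP : P.IsPrime) (hP0 : P ≠ ⊥) (hlP : (l : 𝓞 K) ∉ P)
    (σ : K ≃ₐ[ℚ] K) (hσP : σ • P = P) (ha' : σ • a = a) (hb' : σ • b = b) (hY' : σ • Y = Y)
    (hZ' : σ • Z = Z) (hab : ¬ (a ∈ P ∧ b ∈ P))
    (c : Option (𝓞 K)) (hc : PtIn Ω c) (hcσ : c.map (fun θ => σ • θ) = c)
    (hcP : lin a b c ∈ P) (hec : ebar l Ω e c = 0)
    (hfix : σ • cof Ω e γ c = cof Ω e γ c) (hcof : cof Ω e γ c ∉ P)
    (ρ : 𝓞 K) (hρ : ρ ^ l = cof Ω e γ c) :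
    ∃ ρ' : 𝓞 K, ρ' ^ l = cof Ω e γ c ∧ σ • ρ' = ρ' := by
  classical
  have hl : l.Prime := Fact.out
  cases c with
  | some c₀ =>
    have hcΩ : c₀ ∈ Ω := hc c₀ rfl
    have hσc : σ • c₀ = c₀ := by simpa using hcσ
    have hcP' : a - b * c₀ ∈ P := hcP
    have hbP : b ∉ P := by
      intro hbP
      apply hab
      refine ⟨?_, hbP⟩
      have h1 := P.add_mem hcP' (P.mul_mem_right c₀ hbP)
      rwa [sub_add_cancel] at h1
    have hdvd : l ∣ e c₀ := (ZMod.natCast_eq_zero_iff _ _).1 hec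
    obtain ⟨ε, hε⟩ := hdvd
    have hcofe : cof Ω e γ (some c₀) = γ * ∏ θ ∈ Ω.erase c₀, (c₀ - θ) ^ e θ := rfl
    have hsum : ∑ θ ∈ Ω, e θ = (∑ θ ∈ Ω.erase c₀, e θ) + l * ε := by
      rw [← Finset.sum_erase_add _ _ hcΩ, hε]
    have hpr : ∏ θ ∈ Ω, (a - b * θ) ^ e θ =
        (∏ θ ∈ Ω.erase c₀, (a - b * θ) ^ e θ) * (a - b * c₀) ^ (l * ε) := by
      rw [← Finset.prod_erase_mul _ _ hcΩ, hε]
    refine Leaf.core K l ζ hζ P hP hP0 hlP σ hσP (Y * b ^ ε) (Z * (a - b * c₀) ^ ε)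
      (b ^ (∑ θ ∈ Ω.erase c₀, e θ))
      (γ * ((∏ θ ∈ Ω.erase c₀, (a - b * θ) ^ e θ) -
        b ^ (∑ θ ∈ Ω.erase c₀, e θ) * ∏ θ ∈ Ω.erase c₀, (c₀ - θ) ^ e θ))
      (cof Ω e γ (some c₀)) ρ (mul_ne_zero hZ (pow_ne_zero _ (hlin c₀ hcΩ))) ?_ ?_ ?_ ?_ ?_
      hcof hfix hρ
    · rw [smul_mul', smul_pow', hY', hb']
    · rw [smul_mul', smul_pow', smul_sub, smul_mul', hZ', ha', hb', hσc]
    · intro h1
      exact hbP (hP.mem_of_pow_mem _ h1)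
    · apply P.mul_mem_left
      have h1 : b ^ (∑ θ ∈ Ω.erase c₀, e θ) * ∏ θ ∈ Ω.erase c₀, (c₀ - θ) ^ e θ =
          ∏ θ ∈ Ω.erase c₀, (b * (c₀ - θ)) ^ e θ := by
        rw [← Finset.prod_pow_eq_pow_sum, ← Finset.prod_mul_distrib]
        exact Finset.prod_congr rfl fun θ _ => (mul_pow _ _ _).symm
      rw [h1, ← Ideal.Quotient.eq_zero_iff_mem, map_sub, map_prod, map_prod, sub_eq_zero]
      refine Finset.prod_congr rfl fun θ _ => ?_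
      rw [map_pow, map_pow]
      congr 1
      rw [Ideal.Quotient.eq]
      have h2 : a - b * θ - b * (c₀ - θ) = a - b * c₀ := by ring
      rwa [h2]
    · rw [hsum, hpr] at h
      rw [hcofe]
      have e1 : (Y * b ^ ε) ^ l = Y ^ l * b ^ (l * ε) := by
        rw [mul_pow, ← pow_mul, mul_comm ε l]
      have e2 : (Z * (a - b * c₀) ^ ε) ^ l = Z ^ l * (a - b * c₀) ^ (l * ε) := by
        rw [mul_pow, ← pow_mul, mul_comm ε l]
      rw [e1, e2]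
      rw [pow_add] at h
      linear_combination h
  | none =>
    have hbP : b ∈ P := hcP
    have haP : a ∉ P := fun h1 => hab ⟨h1, hbP⟩
    have hdvd : l ∣ ∑ θ ∈ Ω, e θ := by
      have h1 : -∑ θ ∈ Ω, (e θ : ZMod l) = 0 := hec
      rw [neg_eq_zero, ← Nat.cast_sum] at h1
      exact (ZMod.natCast_eq_zero_iff _ _).1 h1
    obtain ⟨ν, hν⟩ := hdvd
    have hcofe : cof Ω e γ none = γ := rfl
    refine Leaf.core K l ζ hζ P hP hP0 hlP σ hσP (Y * b ^ ν) (Z * a ^ ν)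
      (a ^ (∑ θ ∈ Ω, e θ))
      (γ * ((∏ θ ∈ Ω, (a - b * θ) ^ e θ) - a ^ (∑ θ ∈ Ω, e θ)))
      (cof Ω e γ none) ρ (mul_ne_zero hZ (pow_ne_zero _ ?_)) ?_ ?_ ?_ ?_ ?_
      hcof hfix hρ
    · rintro rfl
      exact haP P.zero_mem
    · rw [smul_mul', smul_pow', hY', hb']
    · rw [smul_mul', smul_pow', hZ', ha']
    · intro h1
      exact haP (hP.mem_of_pow_mem _ h1)
    · apply P.mul_mem_left
      have h1 : a ^ (∑ θ ∈ Ω, e θ) = ∏ θ ∈ Ω, a ^ e θ := (Finset.prod_pow_eq_pow_sum _ _ _).symm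
      rw [h1, ← Ideal.Quotient.eq_zero_iff_mem, map_sub, map_prod, map_prod, sub_eq_zero]
      refine Finset.prod_congr rfl fun θ _ => ?_
      rw [map_pow, map_pow]
      congr 1
      rw [Ideal.Quotient.eq]
      have h2 : a - b * θ - a = -(b * θ) := by ring
      rw [h2]
      exact P.neg_mem (P.mul_mem_right _ hbP)
    · rw [hcofe]
      have e1 : (Y * b ^ ν) ^ l = Y ^ l * b ^ (∑ θ ∈ Ω, e θ) := by
        rw [mul_pow, ← pow_mul, mul_comm ν l, hν]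
      have e2 : (Z * a ^ ν) ^ l = Z ^ l * a ^ (∑ θ ∈ Ω, e θ) := by
        rw [mul_pow, ← pow_mul, mul_comm ν l, hν]
      rw [e1, e2]
      linear_combination (a ^ (∑ θ ∈ Ω, e θ)) * h

end Pool.KT
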