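import Pool.Agent.Helper54.KT.Defs
import Pool.Agent.TP2.Sym

/-!
The equation at a prime.

Proof. Apply `cnt Q` (additive on nonzero elements: `Pool.TP2.cnt_mul`, `cnt_prod`, and
`cnt Q (x ^ n) = n * cnt Q x`) to the equation and reduce modulo `m`; `cnt Q γ = 0`, and the
multiplicities of all `lin a b c'` with `c' ≠ c` in the set are zero (`cnt_pos_iff`).
If `c = none` the left side is `cnt τ + (∑ e) * cnt b` and the right side `0`; if `c = some θ` the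
left side is `cnt τ` and the right side `e θ * cnt (a - b θ)`.
-/

open NumberField
open scoped Pointwise BigOperators

namespace Pool.KT

open Pool.TP2

theorem local_eq (K : Type) [Field K] [NumberField K] (m : ℕ) (Ω : Finset (𝓞 K)) (e : 𝓞 K → ℕ)
    (γ τ a b Y Z : 𝓞 K) (hτ : τ ≠ 0) (hY : Y ≠ 0) (hZ : Z ≠ 0) (hγ : γ ≠ 0) (hb : b ≠ 0)
    (hlin : ∀ θ ∈ Ω, a - b * θ ≠ 0)
    (h : τ * Y ^ m * b ^ (∑ θ ∈ Ω, e θ) = γ * Z ^ m * ∏ θ ∈ Ω, (a - b * θ) ^ e θ)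
    (Q : Ideal (𝓞 K)) (hQ : Q.IsPrime) (hQ0 : Q ≠ ⊥) (hγQ : γ ∉ Q) (c : Option (𝓞 K))
    (hc : PtIn Ω c) (huniq : ∀ c' : Option (𝓞 K), PtIn Ω c' → c' ≠ c → lin a b c' ∉ Q) :
    ((cnt Q τ : ℕ) : ZMod m) = ebar m Ω e c * ((cnt Q (lin a b c) : ℕ) : ZMod m) := by
  classical
  have hpow : ∀ (w : 𝓞 K) (n : ℕ), w ≠ 0 → cnt Q (w ^ n) = n * cnt Q w := by
    intro w n hw
    have h1 := cnt_prod Q (Finset.range n) (fun _ => w) (fun _ _ => hw)
    rw [Finset.prod_const, Finset.sum_const, Finset.card_range, smul_eq_mul] at h1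
    exact h1
  have hγ0 : cnt Q γ = 0 := by
    by_contra h0
    exact hγQ ((cnt_pos_iff Q hQ hQ0 hγ).1 (Nat.pos_of_ne_zero h0))
  have hne : ∀ c' : Option (𝓞 K), PtIn Ω c' → lin a b c' ≠ 0 := by
    intro c' hc'
    cases c' with
    | none => exact hb
    | some θ => exact hlin θ (hc' θ rfl)
  have hz : ∀ c' : Option (𝓞 K), PtIn Ω c' → c' ≠ c → cnt Q (lin a b c') = 0 := by
    intro c' hc' hcc
    by_contra h0
    exact huniq c' hc' hcc ((cnt_pos_iff Q hQ hQ0 (hne c' hc')).1 (Nat.pos_of_ne_zero h0))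
  have hnone : PtIn Ω (none : Option (𝓞 K)) := by
    intro θ hθ
    exact absurd hθ (by simp)
  have hsome : ∀ θ ∈ Ω, PtIn Ω (some θ) := by
    intro θ hθ θ' h'
    rw [← Option.some.inj h']
    exact hθ
  have hm : ∀ n : ℕ, ((m * n : ℕ) : ZMod m) = 0 := by
    intro n
    rw [Nat.cast_mul, ZMod.natCast_self, zero_mul]
  -- apply `cnt`
  have hL : cnt Q (τ * Y ^ m * b ^ (∑ θ ∈ Ω, e θ))
      = cnt Q τ + m * cnt Q Y + (∑ θ ∈ Ω, e θ) * cnt Q b := by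
    rw [cnt_mul Q (mul_ne_zero hτ (pow_ne_zero _ hY)) (pow_ne_zero _ hb),
      cnt_mul Q hτ (pow_ne_zero _ hY), hpow _ _ hY, hpow _ _ hb]
  have hR : cnt Q (γ * Z ^ m * ∏ θ ∈ Ω, (a - b * θ) ^ e θ)
      = cnt Q γ + m * cnt Q Z + ∑ θ ∈ Ω, e θ * cnt Q (a - b * θ) := by
    rw [cnt_mul Q (mul_ne_zero hγ (pow_ne_zero _ hZ))
        (Finset.prod_ne_zero_iff.2 fun θ hθ => pow_ne_zero _ (hlin θ hθ)),
      cnt_mul Q hγ (pow_ne_zero _ hZ), hpow _ _ hZ,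
      cnt_prod Q Ω (fun θ => (a - b * θ) ^ e θ) (fun θ hθ => pow_ne_zero _ (hlin θ hθ))]
    congr 1
    exact Finset.sum_congr rfl fun θ hθ => hpow _ _ (hlin θ hθ)
  have hE : (cnt Q τ + m * cnt Q Y + (∑ θ ∈ Ω, e θ) * cnt Q b : ℕ)
      = cnt Q γ + m * cnt Q Z + ∑ θ ∈ Ω, e θ * cnt Q (a - b * θ) := by
    rw [← hL, ← hR, h]
  rw [hγ0, zero_add] at hE
  cases c with
  | none =>
    have h1 : ∑ θ ∈ Ω, e θ * cnt Q (a - b * θ) = 0 := by
      refine Finset.sum_eq_zero fun θ hθ => ?_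
      have h2 : cnt Q (a - b * θ) = 0 := hz (some θ) (hsome θ hθ) (by simp)
      rw [h2, mul_zero]
    rw [h1, add_zero] at hE
    have h3 := congrArg (Nat.cast : ℕ → ZMod m) hE
    rw [Nat.cast_add, Nat.cast_add, hm, hm, add_zero, Nat.cast_mul, Nat.cast_sum] at h3
    have h4 : ebar m Ω e (none : Option (𝓞 K)) = - ∑ θ ∈ Ω, (e θ : ZMod m) := rfl
    have h5 : lin a b (none : Option (𝓞 K)) = b := rfl
    rw [h4, h5, neg_mul]
    exact eq_neg_of_add_eq_zero_left h3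
  | some θ₀ =>
    have hθ₀ : θ₀ ∈ Ω := hc θ₀ rfl
    have h0 : cnt Q b = 0 := hz none hnone (by simp)
    have h1 : ∑ θ ∈ Ω, e θ * cnt Q (a - b * θ) = e θ₀ * cnt Q (a - b * θ₀) := by
      refine Finset.sum_eq_single_of_mem θ₀ hθ₀ fun θ hθ hne' => ?_
      have h2 : cnt Q (a - b * θ) = 0 :=
        hz (some θ) (hsome θ hθ) (fun h => hne' (Option.some.inj h))
      rw [h2, mul_zero]
    rw [h1, h0, mul_zero, add_zero] at hE
    have h3 := congrArg (Nat.cast : ℕ → ZMod m) hE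
    rw [Nat.cast_add, Nat.cast_add, hm, hm, add_zero, zero_add, Nat.cast_mul] at h3
    exact h3

end Pool.KT
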