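import Pool.Agent.Helper54.KT.Defs
import Pool.Agent.TP2.Sym

/-!
No tangential solutions.

Proof. Let `c`, `q`, and for all `i` in `I ⊕ J` a `z i` as in the claim. Write `q = q₁ / q₂`,
`z i = Z₁ / Z₂` with nonzero algebraic integers (`z i ≠ 0` since the right side is not zero: the
cofactors are not in `Q τ`, so not zero). So
`τ i * Z₁ ^ m * q₂ ^ E i = Z₂ ^ m * q₁ ^ E i * cof i` with `E i = eexp Ω (e i) c`; `cnt (Q τ)` gives,
modulo `m`, `cnt (τ i) = E i * (cnt q₁ - cnt q₂)`, so with `k = cnt q₁ - cnt q₂` for `c = some _` and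
`k = cnt q₂ - cnt q₁` for `c = none` (in `ZMod m`):
`v τ i = ebar m Ω (e (inl i)) c * k` for `i` in `I` and `0 = ebar m Ω (e (inr j)) c * k` for `j` in `J`
(`cnt 1 = 0`). So the third hypothesis of `HB` holds. If `j` is in `J` then `m` is prime, `k ≠ 0` in
`ZMod m` by `hv` (take any `τ`), so `ebar m Ω (e (inr j)) c = 0`, so `m ∣ E (inr j)`,
`E (inr j) = m * w`, and `ρ = z (inr j) / q ^ w` has `ρ ^ m = cof`, so it is integral, and it is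
fixed by `G`.
-/

open NumberField Polynomial
open scoped Pointwise BigOperators

namespace Pool.KT

open Pool.TP2

namespace Tangent

variable {K : Type} [Field K] [NumberField K]

theorem cnt_one (Q : Ideal (𝓞 K)) : cnt Q (1 : 𝓞 K) = 0 := by
  have h := cnt_mul Q (one_ne_zero (α := 𝓞 K)) (one_ne_zero (α := 𝓞 K))
  rw [mul_one] at h
  omega

theorem cnt_pow (Q : Ideal (𝓞 K)) {w : 𝓞 K} (hw : w ≠ 0) (n : ℕ) :
    cnt Q (w ^ n) = n * cnt Q w := by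
  induction n with
  | zero => rw [pow_zero, cnt_one, zero_mul]
  | succ n ih => rw [pow_succ, cnt_mul Q (pow_ne_zero n hw) hw, ih, Nat.succ_mul]

theorem cnt_zero_of_notMem (Q : Ideal (𝓞 K)) (hQ : Q.IsPrime) (hQ0 : Q ≠ ⊥) {w : 𝓞 K}
    (hw : w ∉ Q) : cnt Q w = 0 := by
  have hw0 : w ≠ 0 := fun h => hw (h ▸ Q.zero_mem)
  by_contra h
  exact hw ((cnt_pos_iff Q hQ hQ0 hw0).1 (Nat.pos_of_ne_zero h))

theorem frac (q : K) (hq : q ≠ 0) : ∃ a b : 𝓞 K, a ≠ 0 ∧ b ≠ 0 ∧ q * (b : K) = (a : K) := by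
  obtain ⟨a, b, hb, h⟩ := IsFractionRing.div_surjective (A := 𝓞 K) q
  have hb0 : b ≠ 0 := nonZeroDivisors.ne_zero hb
  have hbK : (b : K) ≠ 0 := by
    rw [Ne, RingOfIntegers.coe_eq_zero_iff]
    exact hb0
  have h1 : q * (b : K) = (a : K) := by
    rw [← h]
    exact div_mul_cancel₀ _ hbK
  refine ⟨a, b, ?_, hb0, h1⟩
  rintro rfl
  apply mul_ne_zero hq hbK
  rw [h1]
  exact RingOfIntegers.coe_eq_zero_iff.2 rfl

theorem key (Q : Ideal (𝓞 K)) (hQ : Q.IsPrime) (hQ0 : Q ≠ ⊥) (m : ℕ) (τ cf q₁ q₂ : 𝓞 K)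
    (E : ℕ) (q z : K) (hτ : τ ≠ 0) (hcf : cf ∉ Q) (hq1 : q₁ ≠ 0) (hq2 : q₂ ≠ 0)
    (hq : q * (q₂ : K) = (q₁ : K)) (h : (τ : K) * z ^ m = q ^ E * (cf : K)) (hm : 2 ≤ m) :
    ((cnt Q τ : ℕ) : ZMod m) = (E : ZMod m) * ((cnt Q q₁ : ZMod m) - (cnt Q q₂ : ZMod m)) := by
  have hcf0 : cf ≠ 0 := fun h => hcf (h ▸ Q.zero_mem)
  have hcfK : (cf : K) ≠ 0 := by
    rw [Ne, RingOfIntegers.coe_eq_zero_iff]
    exact hcf0
  have hq1K : (q₁ : K) ≠ 0 := by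
    rw [Ne, RingOfIntegers.coe_eq_zero_iff]
    exact hq1
  have hq0 : q ≠ 0 := by
    rintro rfl
    rw [zero_mul] at hq
    exact hq1K hq.symm
  have hz : z ≠ 0 := by
    rintro rfl
    rw [zero_pow (by omega), mul_zero] at h
    exact mul_ne_zero (pow_ne_zero E hq0) hcfK h.symm
  obtain ⟨z₁, z₂, hz1, hz2, hzz⟩ := frac z hz
  have hint : τ * z₁ ^ m * q₂ ^ E = z₂ ^ m * q₁ ^ E * cf := by
    apply RingOfIntegers.ext
    have e1 : ∀ y : 𝓞 K, algebraMap (𝓞 K) K y = (y : K) := fun _ => rfl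
    simp only [map_mul, map_pow, e1]
    rw [← hzz, ← hq, mul_pow, mul_pow]
    calc (τ : K) * (z ^ m * (z₂ : K) ^ m) * (q₂ : K) ^ E
        = ((τ : K) * z ^ m) * ((z₂ : K) ^ m * (q₂ : K) ^ E) := by ring
      _ = (q ^ E * (cf : K)) * ((z₂ : K) ^ m * (q₂ : K) ^ E) := by rw [h]
      _ = _ := by ring
  have hc := congrArg (cnt Q) hint
  rw [cnt_mul Q (mul_ne_zero hτ (pow_ne_zero m hz1)) (pow_ne_zero E hq2),
    cnt_mul Q hτ (pow_ne_zero m hz1),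
    cnt_mul Q (mul_ne_zero (pow_ne_zero m hz2) (pow_ne_zero E hq1)) hcf0,
    cnt_mul Q (pow_ne_zero m hz2) (pow_ne_zero E hq1), cnt_pow Q hz1, cnt_pow Q hq2,
    cnt_pow Q hz2, cnt_pow Q hq1, cnt_zero_of_notMem Q hQ hQ0 hcf] at hc
  have hc' := congrArg (Nat.cast : ℕ → ZMod m) hc
  push_cast at hc'
  rw [ZMod.natCast_self] at hc'
  linear_combination hc'

theorem coe_smul' (s : K ≃ₐ[ℚ] K) (y : 𝓞 K) : ((s • y : 𝓞 K) : K) = s (y : K) := rfl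

end Tangent

theorem tangent (K : Type) [Field K] [NumberField K] (G : Subgroup (K ≃ₐ[ℚ] K)) (m : ℕ)
    (hm2 : 2 ≤ m) {I J : Type} [Fintype I] [Fintype J] (hmJ : m.Prime ∨ IsEmpty J)
    (Ω : Finset (𝓞 K)) (e : I ⊕ J → 𝓞 K → ℕ) (γ : I ⊕ J → 𝓞 K)
    {T' : Type} [Nonempty T'] (v : T' → I → ℕ) (hv : ∀ τ, ∃ i, ((v τ i : ℕ) : ZMod m) ≠ 0)
    (HB : ∀ c : Option (𝓞 K), PtIn Ω c → PtFixed G c →
      (∀ τ, ∃ k : ZMod m, (∀ i, ebar m Ω (e (Sum.inl i)) c * k = ((v τ i : ℕ) : ZMod m)) ∧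
        ∀ j, ebar m Ω (e (Sum.inr j)) c * k = 0) →
      (∀ j, ebar m Ω (e (Sum.inr j)) c = 0 ∧
        ∃ ρ : 𝓞 K, ρ ^ m = cof Ω (e (Sum.inr j)) (γ (Sum.inr j)) c ∧ ∀ s ∈ G, s • ρ = ρ) →
      False)
    (t : I → 𝓞 K) (ht : ∀ i, t i ≠ 0) (Q : T' → Ideal (𝓞 K)) (hQ : ∀ τ, (Q τ).IsPrime)
    (hQ0 : ∀ τ, Q τ ≠ ⊥)
    (hcof : ∀ τ i c, PtIn Ω c → cof Ω (e i) (γ i) c ∉ Q τ)
    (hcnt : ∀ τ i, cnt (Q τ) (t i) = v τ i)
    (c : Option (𝓞 K)) (hc : PtIn Ω c) (hcG : PtFixed G c) (q : K) (hq : q ≠ 0)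
    (hqG : ∀ s ∈ G, s q = q) :
    ¬ ∀ i, ∃ z : K, (∀ s ∈ G, s z = z) ∧
      ((Sum.elim t (fun _ => 1) i : 𝓞 K) : K) * z ^ m =
        q ^ eexp Ω (e i) c * ((cof Ω (e i) (γ i) c : 𝓞 K) : K) := by
  intro H
  choose z hz using H
  obtain ⟨q₁, q₂, hq1, hq2, hqq⟩ := Tangent.frac q hq
  have hne : ∀ i : I ⊕ J, (Sum.elim t (fun _ => 1) i : 𝓞 K) ≠ 0 := by
    rintro (i | j)
    · exact ht i
    · exact one_ne_zero
  have hkey : ∀ (τ : T') (i : I ⊕ J),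
      ((cnt (Q τ) (Sum.elim t (fun _ => 1) i : 𝓞 K) : ℕ) : ZMod m) =
      (eexp Ω (e i) c : ZMod m) * ((cnt (Q τ) q₁ : ZMod m) - (cnt (Q τ) q₂ : ZMod m)) :=
    fun τ i => Tangent.key (Q τ) (hQ τ) (hQ0 τ) m _ _ q₁ q₂ _ q (z i) (hne i)
      (hcof τ i c hc) hq1 hq2 hqq (hz i).2 hm2
  -- the exponents
  have hE : ∃ u : ZMod m, u * u = 1 ∧ ∀ i, ebar m Ω (e i) c = (eexp Ω (e i) c : ZMod m) * u := by
    cases c with
    | none =>
      refine ⟨-1, by ring, fun i => ?_⟩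
      simp only [ebar, eexp]
      push_cast
      ring
    | some θ => exact ⟨1, by ring, fun i => by simp only [ebar, eexp, mul_one]⟩
  obtain ⟨u, hu, hE⟩ := hE
  have h3 : ∀ τ, (∀ i, ebar m Ω (e (Sum.inl i)) c *
      (u * ((cnt (Q τ) q₁ : ZMod m) - (cnt (Q τ) q₂ : ZMod m))) = ((v τ i : ℕ) : ZMod m)) ∧
      ∀ j, ebar m Ω (e (Sum.inr j)) c *
        (u * ((cnt (Q τ) q₁ : ZMod m) - (cnt (Q τ) q₂ : ZMod m))) = 0 := by
    intro τ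
    constructor
    · intro i
      have h := hkey τ (Sum.inl i)
      rw [Sum.elim_inl, hcnt τ i] at h
      rw [h, hE]
      linear_combination (eexp Ω (e (Sum.inl i)) c : ZMod m) *
        ((cnt (Q τ) q₁ : ZMod m) - (cnt (Q τ) q₂ : ZMod m)) * hu
    · intro j
      have h := hkey τ (Sum.inr j)
      rw [Sum.elim_inr, Tangent.cnt_one, Nat.cast_zero] at h
      rw [hE]
      linear_combination (eexp Ω (e (Sum.inr j)) c : ZMod m) *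
        ((cnt (Q τ) q₁ : ZMod m) - (cnt (Q τ) q₂ : ZMod m)) * hu - h
  refine HB c hc hcG (fun τ => ⟨_, h3 τ⟩) ?_
  intro j
  have hmp : m.Prime := by
    rcases hmJ with h | h
    · exact h
    · exact (h.false j).elim
  have : Fact m.Prime := ⟨hmp⟩
  obtain ⟨τ⟩ := (inferInstance : Nonempty T')
  obtain ⟨i, hi⟩ := hv τ
  have hk : u * ((cnt (Q τ) q₁ : ZMod m) - (cnt (Q τ) q₂ : ZMod m)) ≠ 0 := by
    intro h
    apply hi
    rw [← (h3 τ).1 i, h, mul_zero]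
  have he0 : ebar m Ω (e (Sum.inr j)) c = 0 :=
    (mul_eq_zero.1 ((h3 τ).2 j)).resolve_right hk
  refine ⟨he0, ?_⟩
  have hE0 : (eexp Ω (e (Sum.inr j)) c : ZMod m) = 0 := by
    have h := hE (Sum.inr j)
    rw [he0] at h
    linear_combination -(eexp Ω (e (Sum.inr j)) c : ZMod m) * hu - u * h
  obtain ⟨w, hw⟩ := (ZMod.natCast_eq_zero_iff _ _).1 hE0
  have hzj := (hz (Sum.inr j)).2
  rw [Sum.elim_inr, hw] at hzj
  have hqw : q ^ w ≠ 0 := pow_ne_zero w hq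
  have hρ : (z (Sum.inr j) / q ^ w) ^ m =
      ((cof Ω (e (Sum.inr j)) (γ (Sum.inr j)) c : 𝓞 K) : K) := by
    rw [div_pow, div_eq_iff (pow_ne_zero m hqw)]
    have h1 : ((1 : 𝓞 K) : K) = 1 := map_one _
    rw [h1, one_mul] at hzj
    rw [hzj, ← pow_mul, mul_comm w m, mul_comm]
  have hint : IsIntegral ℤ (z (Sum.inr j) / q ^ w) := by
    apply IsIntegral.of_pow (n := m) (by omega)
    rw [hρ]
    exact RingOfIntegers.isIntegral_coe _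
  refine ⟨⟨z (Sum.inr j) / q ^ w, hint⟩, ?_, ?_⟩
  · apply RingOfIntegers.ext
    rw [← hρ]
    exact map_pow (algebraMap (𝓞 K) K) _ m
  · intro s hs
    apply RingOfIntegers.ext
    rw [Tangent.coe_smul']
    change s (z (Sum.inr j) / q ^ w) = z (Sum.inr j) / q ^ w
    rw [map_div₀, map_pow, (hz (Sum.inr j)).1 s hs, hqG s hs]

end Pool.KT
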