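import Pool.Agent.Helper54.KT.Defs
import Pool.Agent.TP2.Core

/-!
Multiplicities of products of powers of norms.

Proof: see `Pool.TP2.Core.norm_fixed`, `norm_cnt`, `norm_ne`, and `Pool.TP2.Descent.cnt_translate`,
`mem_zpowers_of`, `Pool.TP2.Next.idx_eq`. For a good prime `Q`, `cnt Q (s • (x n).π)` is `1` if
`Q = s • (x n).P` and `0` if not; `Q` is `s • (x n).P` for at most one `n`, and for exactly one
`s ∈ cosetReps (σ n)` if `Q = s₀ • (x n).P` with `s₀ ∈ G`; `cnt Q (y ^ w) = w * cnt Q y`.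
-/

open NumberField Polynomial
open scoped Pointwise BigOperators

namespace Pool.KT

open Pool.TP2

theorem prod_ne {K : Type} [Field K] [NumberField K] (G : Subgroup (K ≃ₐ[ℚ] K)) {M : ℕ}
    (σ : Fin M → G) (x : Fin M → PD K) (hx : ∀ n, (x n).π ≠ 0) (w : Fin M → ℕ) :
    ∏ n, (∏ s ∈ cosetReps (σ n), s • (x n).π) ^ w n ≠ 0 := by
  refine Finset.prod_ne_zero_iff.2 fun n _ => pow_ne_zero _ ?_
  refine Finset.prod_ne_zero_iff.2 fun s _ => ?_
  exact (smul_ne_zero_iff_ne s).2 (hx n)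

theorem prod_fixed {K : Type} [Field K] [NumberField K] (G : Subgroup (K ≃ₐ[ℚ] K)) {M : ℕ}
    (σ : Fin M → G) (x : Fin M → PD K) (hx : ∀ n, σ n • (x n).π = (x n).π) (w : Fin M → ℕ)
    (g : G) : g • ∏ n, (∏ s ∈ cosetReps (σ n), s • (x n).π) ^ w n =
      ∏ n, (∏ s ∈ cosetReps (σ n), s • (x n).π) ^ w n := by
  rw [Finset.smul_prod']
  refine Finset.prod_congr rfl fun n _ => ?_
  rw [smul_pow', Core.norm_fixed G (σ n) (x n).π (hx n) g]

namespace Val

theorem cnt_one' {K : Type} [Field K] [NumberField K] (Q : Ideal (𝓞 K)) : cnt Q (1 : 𝓞 K) = 0 := by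
  have h1 : Ideal.span {(1 : 𝓞 K)} = 1 := by
    rw [Ideal.span_singleton_one, Ideal.one_eq_top]
  rw [cnt, h1, UniqueFactorizationMonoid.normalizedFactors_one, Multiset.count_zero]

theorem cnt_pow' {K : Type} [Field K] [NumberField K] (Q : Ideal (𝓞 K)) {y : 𝓞 K} (hy : y ≠ 0)
    (w : ℕ) : cnt Q (y ^ w) = w * cnt Q y := by
  induction w with
  | zero => rw [pow_zero, zero_mul, cnt_one']
  | succ w ih => rw [pow_succ, cnt_mul Q (pow_ne_zero _ hy) hy, ih]; ring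

theorem idx {K : Type} [Field K] [NumberField K] {D D' : ℤ} {G : Subgroup (K ≃ₐ[ℚ] K)} {M : ℕ}
    (σ : Fin M → G) (x : Fin M → PD K)
    (hx : ∀ n, (x n).Good D D' (σ n)) (hdist : ∀ m n, (x m).p = (x n).p → m = n)
    {m n : Fin M} {s s' : K ≃ₐ[ℚ] K} (h : s • (x m).P = s' • (x n).P) : m = n := by
  apply hdist
  have h1 : (((x m).p : ℕ) : 𝓞 K) ∈ s • (x m).P := by
    have := (Reps.intCast_mem_smul_iff s (x m).P ((x m).p : ℤ)).2 (by simpa using (hx m).mem)
    simpa using this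
  have h2 : (((x n).p : ℕ) : 𝓞 K) ∈ s • (x m).P := by
    rw [h]
    have := (Reps.intCast_mem_smul_iff s' (x n).P ((x n).p : ℤ)).2 (by simpa using (hx n).mem)
    simpa using this
  exact Core.prime_eq (hx m).prime (hx n).prime _ (Reps.isPrime_smul s (hx m).isPrime) h1 h2

end Val

theorem prod_cnt (K : Type) [Field K] [NumberField K] (G : Subgroup (K ≃ₐ[ℚ] K)) (D D' : ℤ)
    (hDD' : D ∣ D') {M : ℕ} (σ : Fin M → G) (x : Fin M → PD K)
    (hx : ∀ n, (x n).Good D D' (σ n)) (hdist : ∀ m n, (x m).p = (x n).p → m = n) (w : Fin M → ℕ)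
    (Q : Ideal (𝓞 K)) (hQ : Q.IsPrime) (hQ0 : Q ≠ ⊥) (hDQ : (D : 𝓞 K) ∉ Q) :
    ((∀ n, ∀ s : G, Q ≠ s • (x n).P) →
      cnt Q (∏ n, (∏ s ∈ cosetReps (σ n), s • (x n).π) ^ w n) = 0) ∧
    (∀ n, ∀ s : G, Q = s • (x n).P →
      cnt Q (∏ n, (∏ s ∈ cosetReps (σ n), s • (x n).π) ^ w n) = w n) := by
  classical
  have hne : ∀ n, ∀ s ∈ cosetReps (σ n), s • (x n).π ≠ 0 := fun n s _ =>
    (smul_ne_zero_iff_ne s).2 (hx n).ne
  have hne' : ∀ n, ∏ s ∈ cosetReps (σ n), s • (x n).π ≠ 0 := fun n =>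
    Finset.prod_ne_zero_iff.2 (hne n)
  have key : ∀ n, ∀ s : G, ((Q = s • (x n).P → cnt Q (s • (x n).π) = 1) ∧
      (Q ≠ s • (x n).P → cnt Q (s • (x n).π) = 0)) := by
    intro n s
    exact Descent.cnt_translate (hx n) (s : K ≃ₐ[ℚ] K) hQ hQ0 hDQ
  have hexp : cnt Q (∏ n, (∏ s ∈ cosetReps (σ n), s • (x n).π) ^ w n) =
      ∑ n, w n * ∑ s ∈ cosetReps (σ n), cnt Q (s • (x n).π) := by
    rw [cnt_prod _ _ _ fun n _ => pow_ne_zero _ (hne' n)]
    refine Finset.sum_congr rfl fun n _ => ?_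
    rw [Val.cnt_pow' Q (hne' n), cnt_prod _ _ _ (hne n)]
  rw [hexp]
  constructor
  · intro h
    refine Finset.sum_eq_zero fun n _ => ?_
    rw [Finset.sum_eq_zero fun s _ => (key n s).2 (h n s), mul_zero]
  · intro k s₀ hs₀
    rw [Finset.sum_eq_single k]
    · have h1 : ∑ s ∈ cosetReps (σ k), cnt Q (s • (x k).π) = 1 := by
        rw [Finset.sum_eq_single (Reps.rep (σ k) s₀)]
        · refine (key k _).1 ?_
          obtain ⟨i, hi⟩ := Reps.rep_eq_mul (σ k) s₀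
          rw [hi, hs₀, mul_smul]
          congr 1
          exact (Reps.zpow_smul_of (x := (x k).P) (Descent.smul_P (hx k)) i).symm
        · intro t ht hts
          refine (key k t).2 fun h => hts ?_
          have h2 := Descent.mem_zpowers_of (hx k) (s := s₀) (s' := t) (hs₀.symm.trans h)
          rw [← Reps.rep_eq_iff] at h2
          rw [h2, Reps.rep_of_mem ht]
        · intro h
          exact absurd (Reps.rep_mem (σ k) s₀) h
      rw [h1, mul_one]
    · intro n _ hn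
      rw [Finset.sum_eq_zero fun s _ => (key n s).2 fun h => hn ?_, mul_zero]
      refine Val.idx σ x hx hdist (s := (s : K ≃ₐ[ℚ] K)) (s' := (s₀ : K ≃ₐ[ℚ] K)) ?_
      exact h.symm.trans hs₀
    · intro h
      exact absurd (Finset.mem_univ k) h

end Pool.KT
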