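import Pool.Agent.Helper54.KT.Core
import Pool.Agent.Helper54.KT.Local
import Pool.Agent.Helper54.KT.Leaf
import Pool.Agent.Helper54.KT.Val
import Pool.Agent.Helper54.KT.Tangent
import Pool.Agent.TP2.Gcd

/-!
From the core theorem to systems without solutions.

Proof. Let `X = {c // Trk m Ω e c}` (finite: `c = none` or `c = some θ` with `θ ∈ Ω`), with the
action `s • c = c.map (s • ·)`, `pt = Subtype.val`. `D₀`: a nonzero integer, multiple of `l`, of the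
integer of `Pool.TP2.exists_gcd K G`, and contained in every prime ideal `Q` which contains `γ i`
or a difference of two distinct members of `Ω` (`Pool.TP2.Core.norm_mem`); then for a prime `Q`
without `D₀` no `cof Ω (e i) (γ i) c` (`PtIn Ω c`) is in `Q`, and for `a`, `b` not both in `Q` at
most one `lin a b c` (`PtIn Ω c`) is in `Q`. Apply `core` with `A' none = {y | A none y}`,
`A' (some τ) = {y | A (some τ) y and all cofactors of J at y have roots fixed by σ τ}`, `κ`; its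
hypothesis `H` follows from `H` (image of `S`). Let `σ' n = (ty n).elim 1 σ` and
`t i = ∏ n, (∏ s ∈ cosetReps (σ' n), s • (x n).π) ^ v (ty n) i`: fixed by `G`, nonzero, and with
known multiplicities (`prod_cnt` in `Val.lean`).

First part of `NoSol`: let `x` be a solution, `x = a / b` from `exists_gcd` (`a`, `b` fixed by `G`),
`z i = Y i / Z i` with `Y i`, `Z i` fixed by `G` and nonzero (the right side is not zero), so
`τ i * Y i ^ m * b ^ n i = γ i * Z i ^ m * ∏ (a - b θ) ^ e i θ`. For a prime `Q ≠ ⊥` without `D`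
and `c` with `lin a b c ∈ Q`, `local_eq` gives `(cnt Q (τ i) : ZMod m) = ebar (e i) c * k`, with
`k = cnt Q (lin a b c)`, for all `i`; if no `lin a b c` is in `Q` then all `cnt Q (τ i)` are zero in
`ZMod m`, so `Q` is not of the form `(x n).P` by `hv`. At `Q = (x n).P`, `hlabel` shows that `c` is
tracked, `A (ty n) c`, and `(k : ZMod l) = κ c ≠ 0`. If `J` is not empty then `m` is prime, so
`m = l`, and `ebar (e (inr j)) c * k = 0` gives `ebar (e (inr j)) c = 0`; so `leaf_root` (with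
`σ = σ' n`, and `c` fixed by `σ' n` by uniqueness) gives the root fixed by `σ' n`. The last
hypothesis of `core` for a tracked `y` with `lin a b y ∈ Q`: if `Q = s • (x n).P` use `hlabel`, if
not, `ebar (e i) y * cnt = 0` for all `i` and one `ebar` is a unit, so `cnt = 0` in `ZMod m`, so in
`ZMod l`. So `core` gives a contradiction.

Second part: `tangent` with the primes `Q τ = (x n).P` where `ty n = τ`.
-/

open NumberField Polynomial
open scoped Pointwise BigOperators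

namespace Pool.KT

open Pool.TP2

namespace Bridge

section

variable {K : Type} [Field K] [NumberField K]

theorem ptIn_map {G : Subgroup (K ≃ₐ[ℚ] K)} {Ω : Finset (𝓞 K)}
    (hΩ : ∀ s ∈ G, ∀ θ ∈ Ω, s • θ ∈ Ω) {c : Option (𝓞 K)} (hc : PtIn Ω c) {s : K ≃ₐ[ℚ] K}
    (hs : s ∈ G) : PtIn Ω (c.map fun θ => s • θ) := by
  intro θ h
  rcases c with _ | c
  · simp at h
  · simp only [Option.map_some, Option.some.injEq] at h
    rw [← h]
    exact hΩ s hs c (hc c rfl)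

theorem ebar_map {G : Subgroup (K ≃ₐ[ℚ] K)} {Ω : Finset (𝓞 K)} (m : ℕ) {e : 𝓞 K → ℕ}
    (he : ∀ s ∈ G, ∀ θ ∈ Ω, e (s • θ) = e θ) {c : Option (𝓞 K)} (hc : PtIn Ω c)
    {s : K ≃ₐ[ℚ] K} (hs : s ∈ G) : ebar m Ω e (c.map fun θ => s • θ) = ebar m Ω e c := by
  rcases c with _ | c
  · rfl
  · simp only [Option.map_some, ebar]
    rw [he s hs c (hc c rfl)]

theorem lin_map {a b : 𝓞 K} {s : K ≃ₐ[ℚ] K} (ha : s • a = a) (hb : s • b = b)
    (c : Option (𝓞 K)) : lin a b (c.map fun θ => s • θ) = s • lin a b c := by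
  rcases c with _ | c
  · simp only [Option.map_none, lin]
    exact hb.symm
  · simp only [Option.map_some, lin]
    rw [smul_sub, smul_mul', ha, hb]

open Classical in
theorem cof_map {G : Subgroup (K ≃ₐ[ℚ] K)} {Ω : Finset (𝓞 K)}
    (hΩ : ∀ s ∈ G, ∀ θ ∈ Ω, s • θ ∈ Ω) {e : 𝓞 K → ℕ}
    (he : ∀ s ∈ G, ∀ θ ∈ Ω, e (s • θ) = e θ) {γ : 𝓞 K} (hγ : ∀ s ∈ G, s • γ = γ)
    {c : Option (𝓞 K)} {s : K ≃ₐ[ℚ] K} (hs : s ∈ G) :
    cof Ω e γ (c.map fun θ => s • θ) = s • cof Ω e γ c := by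
  rcases c with _ | c
  · simp only [Option.map_none, cof]
    exact (hγ s hs).symm
  · simp only [Option.map_some, cof]
    rw [smul_mul', hγ s hs, Finset.smul_prod']
    congr 1
    symm
    refine Finset.prod_nbij (fun θ => s • θ) ?_ ?_ ?_ ?_
    · intro θ hθ
      rw [Finset.mem_erase] at hθ ⊢
      exact ⟨fun h => hθ.1 (smul_left_cancel s h), hΩ s hs θ hθ.2⟩
    · intro θ _ θ' _ h
      exact smul_left_cancel s h
    · intro θ hθ
      rw [Finset.mem_coe, Finset.mem_erase] at hθ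
      refine ⟨s⁻¹ • θ, ?_, ?_⟩
      · rw [Finset.mem_coe, Finset.mem_erase]
        refine ⟨?_, hΩ _ (G.inv_mem hs) θ hθ.2⟩
        intro h
        apply hθ.1
        rw [← h, smul_inv_smul]
      · exact smul_inv_smul s θ
    · intro θ hθ
      rw [Finset.mem_erase] at hθ
      rw [smul_pow', smul_sub, he s hs θ hθ.2]

omit [NumberField K] in
theorem lin_unique {Ω : Finset (𝓞 K)} {Q : Ideal (𝓞 K)} (hQ : Q.IsPrime) {a b : 𝓞 K}
    (hab : ¬ (a ∈ Q ∧ b ∈ Q)) (hdiff : ∀ θ ∈ Ω, ∀ θ' ∈ Ω, θ ≠ θ' → θ - θ' ∉ Q)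
    {c c' : Option (𝓞 K)} (hc : PtIn Ω c) (hc' : PtIn Ω c') (h : lin a b c ∈ Q)
    (h' : lin a b c' ∈ Q) : c = c' := by
  have key : ∀ θ : 𝓞 K, a - b * θ ∈ Q → b ∉ Q := by
    intro θ h1 h2
    refine hab ⟨?_, h2⟩
    have h3 := Q.add_mem h1 (Q.mul_mem_right θ h2)
    rwa [sub_add_cancel] at h3
  rcases c with _ | θ <;> rcases c' with _ | θ'
  · rfl
  · exact absurd h (key θ' h')
  · exact absurd h' (key θ h)
  · by_contra hne
    have hne' : θ' ≠ θ := by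
      rintro rfl
      exact hne rfl
    have h1 : b * (θ' - θ) ∈ Q := by
      have h2 := Q.sub_mem h h'
      simp only [lin] at h2
      have h3 : a - b * θ - (a - b * θ') = b * (θ' - θ) := by ring
      rwa [h3] at h2
    rcases hQ.mem_or_mem h1 with h2 | h2
    · exact key θ h h2
    · exact hdiff θ' (hc' θ' rfl) θ (hc θ rfl) hne' h2

omit [NumberField K] in
theorem cof_notMem {Ω : Finset (𝓞 K)} {Q : Ideal (𝓞 K)} (hQ : Q.IsPrime) {γ : 𝓞 K}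
    (hγ : γ ∉ Q) (hdiff : ∀ θ ∈ Ω, ∀ θ' ∈ Ω, θ ≠ θ' → θ - θ' ∉ Q) (e : 𝓞 K → ℕ)
    {c : Option (𝓞 K)} (hc : PtIn Ω c) : cof Ω e γ c ∉ Q := by
  classical
  rcases c with _ | c
  · exact hγ
  · simp only [cof]
    intro h
    rcases hQ.mem_or_mem h with h1 | h1
    · exact hγ h1
    · obtain ⟨θ, hθ, h2⟩ := (hQ.prod_mem_iff).1 h1
      rw [Finset.mem_erase] at hθ
      exact hdiff c (hc c rfl) θ hθ.2 (fun h3 => hθ.1 h3.symm) (hQ.mem_of_pow_mem _ h2)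

/-- A nonzero integer in all ideals which meet a finite set of nonzero integers. -/
theorem exists_int (S : Finset (𝓞 K)) (hS : ∀ y ∈ S, y ≠ 0) :
    ∃ D : ℤ, D ≠ 0 ∧ ∀ (Q : Ideal (𝓞 K)), ∀ y ∈ S, y ∈ Q → (D : 𝓞 K) ∈ Q := by
  classical
  induction S using Finset.induction_on with
  | empty => exact ⟨1, one_ne_zero, fun Q y hy => absurd hy (Finset.notMem_empty y)⟩
  | insert z S hz ih =>
    obtain ⟨D, hD, h⟩ := ih fun y hy => hS y (Finset.mem_insert_of_mem hy)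
    obtain ⟨n, hn, h'⟩ := Pool.TP2.Core.norm_mem z (hS z (Finset.mem_insert_self z S))
    refine ⟨D * n, mul_ne_zero hD hn, fun Q y hy hyQ => ?_⟩
    rcases Finset.mem_insert.1 hy with rfl | hy
    · have h1 := h' 1 Q (by rw [one_smul]; exact hyQ)
      push_cast
      exact Q.mul_mem_left _ h1
    · push_cast
      exact Q.mul_mem_right _ (h Q y hy hyQ)

omit [NumberField K] in
/-- The equation without denominators. -/
theorem clear {Ω : Finset (𝓞 K)} {e : 𝓞 K → ℕ} {γ τ a b Y Z : 𝓞 K} {x z : K} (m : ℕ)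
    (hx : x * (b : K) = (a : K)) (hz : z * (Z : K) = (Y : K))
    (h : (τ : K) * z ^ m = (γ : K) * ∏ θ ∈ Ω, (x - (θ : K)) ^ e θ) :
    τ * Y ^ m * b ^ (∑ θ ∈ Ω, e θ) = γ * Z ^ m * ∏ θ ∈ Ω, (a - b * θ) ^ e θ := by
  change x * algebraMap (𝓞 K) K b = algebraMap (𝓞 K) K a at hx
  change z * algebraMap (𝓞 K) K Z = algebraMap (𝓞 K) K Y at hz
  change algebraMap (𝓞 K) K τ * z ^ m = algebraMap (𝓞 K) K γ *
    ∏ θ ∈ Ω, (x - algebraMap (𝓞 K) K θ) ^ e θ at h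
  apply RingOfIntegers.coe_injective
  have h1 : algebraMap (𝓞 K) K (∏ θ ∈ Ω, (a - b * θ) ^ e θ) =
      algebraMap (𝓞 K) K b ^ (∑ θ ∈ Ω, e θ) * ∏ θ ∈ Ω, (x - algebraMap (𝓞 K) K θ) ^ e θ := by
    rw [map_prod, ← Finset.prod_pow_eq_pow_sum, ← Finset.prod_mul_distrib]
    refine Finset.prod_congr rfl fun θ _ => ?_
    rw [map_pow, map_sub, map_mul, ← mul_pow, ← hx]
    congr 1
    ring
  rw [map_mul, map_mul, map_pow, map_pow, map_mul, map_mul, map_pow, h1, ← hz, mul_pow]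
  have h2 : (algebraMap (𝓞 K) K) τ * (z ^ m * algebraMap (𝓞 K) K Z ^ m) *
      algebraMap (𝓞 K) K b ^ (∑ θ ∈ Ω, e θ) = (algebraMap (𝓞 K) K τ * z ^ m) *
      (algebraMap (𝓞 K) K Z ^ m * algebraMap (𝓞 K) K b ^ (∑ θ ∈ Ω, e θ)) := by ring
  rw [h2, h]
  ring


theorem cnt_zero (Q : Ideal (𝓞 K)) (hQ : Q.IsPrime) (hQ0 : Q ≠ ⊥) {w : 𝓞 K} (hw : w ≠ 0)
    (h : w ∉ Q) : cnt Q w = 0 := by
  by_contra h1
  exact h ((cnt_pos_iff Q hQ hQ0 hw).1 (Nat.pos_of_ne_zero h1))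

theorem leaf (l m : ℕ) (hlm : l = m) [Fact l.Prime] (ζ : K)
    (hζ : IsPrimitiveRoot ζ l) {G : Subgroup (K ≃ₐ[ℚ] K)} {Ω : Finset (𝓞 K)}
    (hΩ : ∀ s ∈ G, ∀ θ ∈ Ω, s • θ ∈ Ω) {e : 𝓞 K → ℕ}
    (he : ∀ s ∈ G, ∀ θ ∈ Ω, e (s • θ) = e θ) {γ : 𝓞 K} (hγ : γ ≠ 0)
    (hγG : ∀ s ∈ G, s • γ = γ) {a b Y Z : 𝓞 K} (hY : Y ≠ 0) (hZ : Z ≠ 0) (hb : b ≠ 0)
    (hlin : ∀ θ ∈ Ω, a - b * θ ≠ 0)
    (h : Y ^ m * b ^ (∑ θ ∈ Ω, e θ) = γ * Z ^ m * ∏ θ ∈ Ω, (a - b * θ) ^ e θ)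
    (P : Ideal (𝓞 K)) (hP : P.IsPrime) (hP0 : P ≠ ⊥) (hlP : (l : 𝓞 K) ∉ P) (hγP : γ ∉ P)
    (hdiff : ∀ θ ∈ Ω, ∀ θ' ∈ Ω, θ ≠ θ' → θ - θ' ∉ P)
    (σ : K ≃ₐ[ℚ] K) (hσG : σ ∈ G) (hσP : σ • P = P) (ha' : σ • a = a) (hb' : σ • b = b)
    (hY' : σ • Y = Y) (hZ' : σ • Z = Z) (hab : ¬ (a ∈ P ∧ b ∈ P))
    (c : Option (𝓞 K)) (hc : PtIn Ω c) (hcP : lin a b c ∈ P) (k : ℕ)
    (hk : ebar m Ω e c * (k : ZMod m) = 0) (hk0 : (k : ZMod l) ≠ 0)
    (hρ : ∃ ρ : 𝓞 K, ρ ^ m = cof Ω e γ c) :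
    ∃ ρ' : 𝓞 K, ρ' ^ m = cof Ω e γ c ∧ σ • ρ' = ρ' := by
  subst hlm
  obtain ⟨ρ, hρ⟩ := hρ
  have hl0 : NeZero l := ⟨(Fact.out : l.Prime).ne_zero⟩
  have hcσ : c.map (fun θ => σ • θ) = c := by
    refine lin_unique hP hab hdiff (ptIn_map hΩ hc hσG) hc ?_ hcP
    rw [lin_map ha' hb', ← hσP]
    exact (Reps.smul_mem_smul_iff σ P _).2 hcP
  have hcof := cof_map hΩ he hγG (c := c) hσG
  rw [hcσ] at hcof
  exact leaf_root K l hζ.toInteger hζ.toInteger_isPrimitiveRoot Ω e γ a b Y Z hY hZ hγ hb hlin h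
    P hP hP0 hlP σ hσP ha' hb' hY' hZ' hab c hc hcσ hcP
    ((mul_eq_zero.1 hk).resolve_right hk0) hcof.symm (cof_notMem hP hγP hdiff e hc) ρ hρ

end

end Bridge

open Classical in
theorem bridge (K : IntermediateField ℚ Qb) [NumberField K] [IsGalois ℚ K]
    (G : Subgroup (K ≃ₐ[ℚ] K)) (m : ℕ) (hm2 : 2 ≤ m) {I J : Type} [Fintype I] [Fintype J]
    (hmJ : m.Prime ∨ IsEmpty J) (l : ℕ) [Fact l.Prime] (hlm : l ∣ m) (ζ : K)
    (hζ : IsPrimitiveRoot ζ l)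
    (Ω : Finset (𝓞 K)) (hΩ : ∀ s ∈ G, ∀ θ ∈ Ω, s • θ ∈ Ω)
    (e : I ⊕ J → 𝓞 K → ℕ) (he : ∀ i, ∀ s ∈ G, ∀ θ ∈ Ω, e i (s • θ) = e i θ)
    (γ : I ⊕ J → 𝓞 K) (hγ : ∀ i, γ i ≠ 0) (hγG : ∀ i, ∀ s ∈ G, s • γ i = γ i)
    (hroots : ∀ j : J, ∀ c : Option (𝓞 K), PtIn Ω c →
      ∃ ρ : 𝓞 K, ρ ^ m = cof Ω (e (Sum.inr j)) (γ (Sum.inr j)) c)
    {T : Type} [Fintype T] (σ : T → G) (v : Option T → I → ℕ)
    (A : Option T → Option (𝓞 K) → Prop) (κ : Option (𝓞 K) → ZMod l)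
    (hκ : ∀ c, κ c ≠ 0)
    (hκG : ∀ c, PtIn Ω c → ∀ s ∈ G, κ (c.map (fun θ => s • θ)) = κ c)
    (hv : ∀ τ, ∃ i, ((v τ i : ℕ) : ZMod m) ≠ 0)
    (hlabel : ∀ τ c, PtIn Ω c → ∀ k : ℕ,
      (∀ i, ebar m Ω (e (Sum.inl i)) c * (k : ZMod m) = ((v τ i : ℕ) : ZMod m)) →
      (∀ j, ebar m Ω (e (Sum.inr j)) c * (k : ZMod m) = 0) →
      Trk m Ω e c ∧ A τ c ∧ (k : ZMod l) = κ c)
    (H : ∀ S : Finset (Option (𝓞 K)), (∀ c ∈ S, Trk m Ω e c) →
      (∀ s ∈ G, ∀ c ∈ S, c.map (fun θ => s • θ) ∈ S) →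
      (∀ τ : T, ∃ c ∈ S, c.map (fun θ => (σ τ) • θ) = c ∧ A (some τ) c ∧
        ∀ j, ∃ ρ : 𝓞 K, ρ ^ m = cof Ω (e (Sum.inr j)) (γ (Sum.inr j)) c ∧ (σ τ) • ρ = ρ) →
      (S.filter (fun c => A none c)).card *
        (if ∀ c, Trk m Ω e c → c ∈ S then l ^ 2 else l) < l ^ S.card)
    (HB : ∀ c : Option (𝓞 K), PtIn Ω c → PtFixed G c →
      (∀ τ, ∃ k : ZMod m, (∀ i, ebar m Ω (e (Sum.inl i)) c * k = ((v τ i : ℕ) : ZMod m)) ∧
        ∀ j, ebar m Ω (e (Sum.inr j)) c * k = 0) →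
      (∀ j, ebar m Ω (e (Sum.inr j)) c = 0 ∧
        ∃ ρ : 𝓞 K, ρ ^ m = cof Ω (e (Sum.inr j)) (γ (Sum.inr j)) c ∧ ∀ s ∈ G, s • ρ = ρ) →
      False) :
    ∃ t : I → 𝓞 K, (∀ i, t i ≠ 0) ∧ (∀ i, ∀ s ∈ G, s • t i = t i) ∧
      NoSol G m Ω e γ (Sum.elim t (fun _ => 1)) := by
  classical
  obtain ⟨Dg, hDg, hgcd⟩ := exists_gcd K G
  obtain ⟨Dn, hDn, hDn'⟩ := Bridge.exists_int ((Finset.univ.image γ) ∪
    (((Ω ×ˢ Ω).image fun p => p.1 - p.2).filter fun y => y ≠ 0)) (by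
      intro y hy
      rcases Finset.mem_union.1 hy with hy | hy
      · obtain ⟨i, -, rfl⟩ := Finset.mem_image.1 hy
        exact hγ i
      · exact (Finset.mem_filter.1 hy).2)
  have hl0 : (l : ℤ) ≠ 0 := by
    have := (Fact.out : l.Prime).ne_zero
    exact_mod_cast this
  have hD₀ : (l : ℤ) * Dg * Dn ≠ 0 := mul_ne_zero (mul_ne_zero hl0 hDg) hDn
  -- the tracked points
  have hXfin : Finite {c : Option (𝓞 K) // Trk m Ω e c} := by
    have h1 : {c : Option (𝓞 K) | Trk m Ω e c} ⊆ (Finset.insertNone Ω : Finset (Option (𝓞 K))) := by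
      intro c hc
      rw [Finset.mem_coe, Finset.mem_insertNone]
      intro θ hθ
      exact hc.1 θ hθ
    exact Set.Finite.to_subtype ((Finset.finite_toSet _).subset h1)
  have hTrk : ∀ (s : G) (c : Option (𝓞 K)), Trk m Ω e c → Trk m Ω e (c.map fun θ => s • θ) := by
    intro s c hc
    obtain ⟨h1, i, h2⟩ := hc
    refine ⟨Bridge.ptIn_map hΩ h1 s.2, i, ?_⟩
    have h3 := Bridge.ebar_map m (he i) h1 s.2
    change IsUnit (ebar m Ω (e i) (c.map fun θ => (s : K ≃ₐ[ℚ] K) • θ))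
    rw [h3]
    exact h2
  let _ : Fintype {c : Option (𝓞 K) // Trk m Ω e c} := Fintype.ofFinite _
  let _ : MulAction G {c : Option (𝓞 K) // Trk m Ω e c} :=
    { smul := fun s x => ⟨x.1.map fun θ => s • θ, hTrk s x.1 x.2⟩
      one_smul := by
        intro x
        apply Subtype.ext
        change x.1.map (fun θ => (1 : G) • θ) = x.1
        simp
      mul_smul := by
        intro s s' x
        apply Subtype.ext
        change x.1.map (fun θ => (s * s') • θ) =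
          (x.1.map fun θ => s' • θ).map fun θ => s • θ
        rw [Option.map_map]
        refine congrArg (fun f => Option.map f x.1) ?_
        funext θ
        exact mul_smul s s' θ }
  have hsmul : ∀ (s : G) (x : {c : Option (𝓞 K) // Trk m Ω e c}),
      (s • x).1 = x.1.map fun θ => s • θ := fun s x => rfl
  let A' : Option T → Set {c : Option (𝓞 K) // Trk m Ω e c} := fun o => o.elim
    {y | A none y.1} fun τ => {y | A (some τ) y.1 ∧
      ∀ j, ∃ ρ : 𝓞 K, ρ ^ m = cof Ω (e (Sum.inr j)) (γ (Sum.inr j)) y.1 ∧ (σ τ) • ρ = ρ}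
  obtain ⟨D, M, ty, x, hD, hD₀D, hgood, hdist, -, hn0, hnτ, hcore⟩ :=
    core K G l ζ hζ (X := {c : Option (𝓞 K) // Trk m Ω e c}) Subtype.val
      Subtype.val_injective hsmul σ A' (fun y => κ y.1) (fun y => hκ y.1)
      (fun s y => hκG y.1 y.2.1 s s.2) (by
        intro S hS hSτ
        have h1 := H (S.map ⟨Subtype.val, Subtype.val_injective⟩) ?_ ?_ ?_
        · rw [Finset.card_map] at h1
          refine lt_of_le_of_lt (Nat.mul_le_mul (le_of_eq ?_) (le_of_eq ?_)) h1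
          · rw [Finset.filter_map, Finset.card_map]
            refine congrArg Finset.card (Finset.filter_congr fun y _ => Iff.rfl)
          · have hiff : (∀ y, y ∈ S) ↔ ∀ c, Trk m Ω e c →
                c ∈ S.map ⟨Subtype.val, Subtype.val_injective⟩ := by
              constructor
              · intro h c hc
                exact Finset.mem_map.2 ⟨⟨c, hc⟩, h ⟨c, hc⟩, rfl⟩
              · intro h y
                obtain ⟨z, hz, hzy⟩ := Finset.mem_map.1 (h y.1 y.2)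
                have : z = y := Subtype.ext hzy
                rwa [← this]
            by_cases hS' : ∀ y, y ∈ S
            · rw [if_pos hS', if_pos (hiff.1 hS')]
            · rw [if_neg hS', if_neg fun h => hS' (hiff.2 h)]
        · intro c hc
          obtain ⟨z, hz, rfl⟩ := Finset.mem_map.1 hc
          exact z.2
        · intro s hs c hc
          obtain ⟨z, hz, rfl⟩ := Finset.mem_map.1 hc
          exact Finset.mem_map.2 ⟨_, hS ⟨s, hs⟩ z hz, rfl⟩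
        · intro τ
          obtain ⟨z, hz, hz1, hz2⟩ := hSτ τ
          exact ⟨z.1, Finset.mem_map.2 ⟨z, hz, rfl⟩, congrArg Subtype.val hz1, hz2⟩)
      ((l : ℤ) * Dg * Dn) hD₀ 0
  have hbad : ∀ Q : Ideal (𝓞 K), (D : 𝓞 K) ∉ Q → (l : 𝓞 K) ∉ Q ∧ (Dg : 𝓞 K) ∉ Q ∧
      (∀ i, γ i ∉ Q) ∧ ∀ θ ∈ Ω, ∀ θ' ∈ Ω, θ ≠ θ' → θ - θ' ∉ Q := by
    intro Q hQ
    have h1 : ∀ n : ℤ, n ∣ (l : ℤ) * Dg * Dn → (n : 𝓞 K) ∉ Q := by
      intro n hn h
      exact hQ (Pool.TP2.Core.dvd_mem (hn.trans hD₀D) Q h)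
    have h2 : (Dn : 𝓞 K) ∉ Q := h1 Dn ⟨(l : ℤ) * Dg, by ring⟩
    refine ⟨?_, h1 Dg ⟨(l : ℤ) * Dn, by ring⟩, ?_, ?_⟩
    · have h3 := h1 (l : ℤ) ⟨Dg * Dn, by ring⟩
      rwa [Int.cast_natCast] at h3
    · intro i h
      exact h2 (hDn' Q _ (Finset.mem_union_left _
        (Finset.mem_image_of_mem γ (Finset.mem_univ i))) h)
    · intro θ hθ θ' hθ' hne h
      exact h2 (hDn' Q _ (Finset.mem_union_right _ (Finset.mem_filter.2
        ⟨Finset.mem_image.2 ⟨(θ, θ'), Finset.mem_product.2 ⟨hθ, hθ'⟩, rfl⟩,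
          sub_ne_zero.2 hne⟩)) h)
  have hP0 : ∀ n, (x n).P ≠ ⊥ := fun n => Reps.ne_bot_of_mem (hgood n).prime (hgood n).mem
  have hDP : ∀ n, (D : 𝓞 K) ∉ (x n).P := fun n => (hgood n).notMem
  -- the twists
  obtain ⟨t, ht0, htG, htc⟩ : ∃ t : I → 𝓞 K, (∀ i, t i ≠ 0) ∧ (∀ i, ∀ g : G, g • t i = t i) ∧
      ∀ (i : I) (Q : Ideal (𝓞 K)), Q.IsPrime → Q ≠ ⊥ → (D : 𝓞 K) ∉ Q →
        ((∀ n, ∀ s : G, Q ≠ s • (x n).P) → cnt Q (t i) = 0) ∧
        (∀ n, ∀ s : G, Q = s • (x n).P → cnt Q (t i) = v (ty n) i) :=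
    ⟨fun i => ∏ n, (∏ s ∈ cosetReps ((ty n).elim 1 σ), s • (x n).π) ^ v (ty n) i,
      fun i => prod_ne G (fun n => (ty n).elim 1 σ) x (fun n => (hgood n).ne) _,
      fun i g => prod_fixed G (fun n => (ty n).elim 1 σ) x (fun n => (hgood n).fixed) _ g,
      fun i Q hQ hQ0 hDQ => prod_cnt K G D D (dvd_refl D) (fun n => (ty n).elim 1 σ) x hgood
        hdist (fun n => v (ty n) i) Q hQ hQ0 hDQ⟩
  refine ⟨t, ht0, fun i s hs => htG i ⟨s, hs⟩, ?_, ?_⟩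
  · intro x₀ hx₀ hx₀Ω hcon
    choose z hzG hz using hcon
    obtain ⟨a, b, hb0, ha, hb, hab, hQ⟩ := hgcd x₀ hx₀
    have hbK : (b : K) ≠ 0 := fun h => hb0 (RingOfIntegers.coe_eq_zero_iff.1 h)
    have hlin : ∀ θ ∈ Ω, a - b * θ ≠ 0 := by
      intro θ hθ h
      apply hx₀Ω θ hθ
      have h1 : algebraMap (𝓞 K) K a - algebraMap (𝓞 K) K b * algebraMap (𝓞 K) K θ = 0 := by
        rw [← map_mul, ← map_sub, h, map_zero]
      have h2 : x₀ * algebraMap (𝓞 K) K b = algebraMap (𝓞 K) K a := hab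
      have h3 : algebraMap (𝓞 K) K b ≠ 0 := hbK
      change x₀ = algebraMap (𝓞 K) K θ
      apply mul_right_cancel₀ h3
      rw [h2, mul_comm]
      exact sub_eq_zero.1 h1
    have hz0 : ∀ i, z i ≠ 0 := by
      intro i h0
      have h1 := hz i
      rw [h0, zero_pow (by omega), mul_zero] at h1
      rcases mul_eq_zero.1 h1.symm with h2 | h2
      · exact hγ i (RingOfIntegers.coe_eq_zero_iff.1 h2)
      · obtain ⟨θ, hθ, h3⟩ := Finset.prod_eq_zero_iff.1 h2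
        exact pow_ne_zero _ (sub_ne_zero.2 (hx₀Ω θ hθ)) h3
    have hYZ : ∀ i, ∃ Y Z : 𝓞 K, Y ≠ 0 ∧ Z ≠ 0 ∧ (∀ s ∈ G, s • Y = Y) ∧ (∀ s ∈ G, s • Z = Z) ∧
        z i * (Z : K) = (Y : K) := by
      intro i
      obtain ⟨Y, Z, hZ0, hY, hZ, hYZ, -⟩ := hgcd (z i) (hzG i)
      refine ⟨Y, Z, ?_, hZ0, hY, hZ, hYZ⟩
      rintro rfl
      have h1 : z i * algebraMap (𝓞 K) K Z = algebraMap (𝓞 K) K 0 := hYZ
      rw [map_zero] at h1
      rcases mul_eq_zero.1 h1 with h2 | h2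
      · exact hz0 i h2
      · exact hZ0 (RingOfIntegers.coe_eq_zero_iff.1 h2)
    choose Y Z hY hZ hYG hZG hYZ' using hYZ
    have heq : ∀ i : I ⊕ J, (Sum.elim t (fun _ => 1) i : 𝓞 K) * Y i ^ m * b ^ (∑ θ ∈ Ω, e i θ) =
        γ i * Z i ^ m * ∏ θ ∈ Ω, (a - b * θ) ^ e i θ :=
      fun i => Bridge.clear m hab (hYZ' i) (hz i)
    have hτ0 : ∀ i : I ⊕ J, (Sum.elim t (fun _ => 1) i : 𝓞 K) ≠ 0 := by
      rintro (i | j)
      · exact ht0 i
      · exact one_ne_zero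
    have hnab : ∀ Q : Ideal (𝓞 K), Q.IsPrime → (D : 𝓞 K) ∉ Q → ¬ (a ∈ Q ∧ b ∈ Q) :=
      fun Q hQp hDQ h => (hbad Q hDQ).2.1 (hQ Q hQp h.1 h.2)
    have hloc : ∀ Q : Ideal (𝓞 K), Q.IsPrime → Q ≠ ⊥ → (D : 𝓞 K) ∉ Q → ∀ c, PtIn Ω c →
        lin a b c ∈ Q → ∀ i : I ⊕ J, ((cnt Q (Sum.elim t (fun _ => 1) i : 𝓞 K) : ℕ) : ZMod m) =
          ebar m Ω (e i) c * ((cnt Q (lin a b c) : ℕ) : ZMod m) := by
      intro Q hQp hQ0 hDQ c hc hcQ i
      exact local_eq K m Ω (e i) (γ i) _ a b (Y i) (Z i) (hτ0 i) (hY i) (hZ i) (hγ i) hb0 hlin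
        (heq i) Q hQp hQ0 ((hbad Q hDQ).2.2.1 i) c hc fun c' hc' hne h =>
          hne (Bridge.lin_unique hQp (hnab Q hQp hDQ) (hbad Q hDQ).2.2.2 hc' hc h hcQ)
    have hcnt1 : ∀ Q : Ideal (𝓞 K), Q.IsPrime → Q ≠ ⊥ → cnt Q (1 : 𝓞 K) = 0 :=
      fun Q hQp hQ0 => Bridge.cnt_zero Q hQp hQ0 one_ne_zero fun h =>
        hQp.ne_top ((Ideal.eq_top_iff_one Q).2 h)
    -- the labels
    have hlab : ∀ Q : Ideal (𝓞 K), Q.IsPrime → Q ≠ ⊥ → (D : 𝓞 K) ∉ Q → ∀ n, ∀ s : G,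
        Q = s • (x n).P → ∀ c, PtIn Ω c → lin a b c ∈ Q →
        (Trk m Ω e c ∧ A (ty n) c ∧ ((cnt Q (lin a b c) : ℕ) : ZMod l) = κ c) ∧
        ∀ j, ebar m Ω (e (Sum.inr j)) c * ((cnt Q (lin a b c) : ℕ) : ZMod m) = 0 := by
      intro Q hQp hQ0 hDQ n s hs c hc hcQ
      have h1 : ∀ j, ebar m Ω (e (Sum.inr j)) c * ((cnt Q (lin a b c) : ℕ) : ZMod m) = 0 := by
        intro j
        rw [← hloc Q hQp hQ0 hDQ c hc hcQ (Sum.inr j)]
        change ((cnt Q (1 : 𝓞 K) : ℕ) : ZMod m) = 0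
        rw [hcnt1 Q hQp hQ0, Nat.cast_zero]
      refine ⟨hlabel (ty n) c hc _ ?_ h1, h1⟩
      intro i
      rw [← hloc Q hQp hQ0 hDQ c hc hcQ (Sum.inl i)]
      change ((cnt Q (t i) : ℕ) : ZMod m) = _
      rw [(htc i Q hQp hQ0 hDQ).2 n s hs]
    refine hcore a b (fun s => ha s s.2) (fun s => hb s s.2) ?_ ?_ ?_ ?_
    · intro Q hQp haQ hbQ
      by_contra hDQ
      exact hnab Q hQp hDQ ⟨haQ, hbQ⟩
    · rintro ⟨c, hc⟩
      rcases c with _ | θ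
      · exact hb0
      · exact hlin θ (hc.1 θ rfl)
    · intro n
      have hPp := (hgood n).isPrime
      have h1 : ∃ c, PtIn Ω c ∧ lin a b c ∈ (x n).P := by
        by_contra hno
        push Not at hno
        obtain ⟨i, hi⟩ := hv (ty n)
        apply hi
        have h2 := local_eq K m Ω (e (Sum.inl i)) (γ (Sum.inl i)) _ a b (Y (Sum.inl i))
          (Z (Sum.inl i)) (hτ0 _) (hY _) (hZ _) (hγ _) hb0 hlin (heq (Sum.inl i)) (x n).P hPp
          (hP0 n) ((hbad _ (hDP n)).2.2.1 _) none (fun θ h => by simp at h)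
          fun c' hc' _ => hno c' hc'
        have h3 : cnt (x n).P (lin a b none) = 0 :=
          Bridge.cnt_zero _ hPp (hP0 n) hb0 (hno none fun θ h => by simp at h)
        rw [h3, Nat.cast_zero, mul_zero] at h2
        rw [← h2]
        change _ = ((cnt (x n).P (t i) : ℕ) : ZMod m)
        rw [(htc i (x n).P hPp (hP0 n) (hDP n)).2 n 1 (one_smul G _).symm]
      obtain ⟨c, hc, hcP⟩ := h1
      obtain ⟨⟨h2, h3, h4⟩, h5⟩ := hlab (x n).P hPp (hP0 n) (hDP n) n 1 (one_smul G _).symm c hc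
        hcP
      refine ⟨⟨c, h2⟩, hcP, ?_⟩
      rcases hty : ty n with _ | τ
      · rw [hty] at h3
        exact h3
      · rw [hty] at h3
        refine ⟨h3, fun j => ?_⟩
        rcases hmJ with hmp | hJ
        · have hlm' : l = m := (Nat.prime_dvd_prime_iff_eq Fact.out hmp).1 hlm
          have hστ : ((σ τ : G) : K ≃ₐ[ℚ] K) • (x n).P = (x n).P := by
            have h6 := Descent.smul_P (hgood n)
            rw [hty] at h6
            exact h6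
          have h7 := heq (Sum.inr j)
          rw [Sum.elim_inr, one_mul] at h7
          exact Bridge.leaf l m hlm' ζ hζ hΩ (he (Sum.inr j)) (hγ _) (hγG _) (hY _) (hZ _) hb0
            hlin h7 (x n).P hPp (hP0 n) (hbad _ (hDP n)).1 ((hbad _ (hDP n)).2.2.1 _)
            (hbad _ (hDP n)).2.2.2 (σ τ) (σ τ).2 hστ (ha _ (σ τ).2) (hb _ (σ τ).2)
            (hYG _ _ (σ τ).2) (hZG _ _ (σ τ).2) (hnab _ hPp (hDP n)) c hc hcP _ (h5 j)
            (by rw [h4]; exact hκ c) (hroots j c hc)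
        · exact hJ.elim j
    · intro y Q hQp hQ0 hDQ hyQ
      refine ⟨?_, ?_⟩
      · rintro ⟨n, s, hs⟩
        exact (hlab Q hQp hQ0 hDQ n s hs y.1 y.2.1 hyQ).1.2.2
      · intro hno
        push Not at hno
        obtain ⟨-, i, hi⟩ := y.2
        have h1 := hloc Q hQp hQ0 hDQ y.1 y.2.1 hyQ i
        have h2 : cnt Q (Sum.elim t (fun _ => 1) i : 𝓞 K) = 0 := by
          rcases i with i | j
          · exact (htc i Q hQp hQ0 hDQ).1 hno
          · exact hcnt1 Q hQp hQ0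
        rw [h2, Nat.cast_zero] at h1
        have h3 : ((cnt Q (lin a b y.1) : ℕ) : ZMod m) = 0 := by
          have h4 := hi.mul_right_eq_zero.1 h1.symm
          exact h4
        rw [ZMod.natCast_eq_zero_iff] at h3 ⊢
        exact hlm.trans h3
  · have hn : ∀ τ : Option T, ∃ n, ty n = τ := by
      rintro (_ | τ)
      · exact hn0
      · exact hnτ τ
    choose N hN using hn
    intro c hc hcG q hq hqG
    refine tangent K G m hm2 hmJ Ω e γ v hv HB t ht0 (fun τ => (x (N τ)).P)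
      (fun τ => (hgood _).isPrime) (fun τ => hP0 _) ?_ ?_ c hc hcG q hq hqG
    · intro τ i c' hc'
      exact Bridge.cof_notMem (hgood _).isPrime ((hbad _ (hDP _)).2.2.1 i)
        (hbad _ (hDP _)).2.2.2 _ hc'
    · intro τ i
      have h1 := (htc i (x (N τ)).P (hgood _).isPrime (hP0 _) (hDP _)).2 (N τ) 1
        (one_smul G _).symm
      rw [h1, hN τ]

end Pool.KT
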