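import Pool.Agent.Helper54.KT.Bridge

/-!
A case of the theorem over the fixed field, by `bridge`. Write `E i c = ebar m Ω (e i) c`.

Case a (`m = l` prime, `i₁ ≠ i₂` in `I`): `T = Bool`, `σ = 1`, `v none` = indicator of `i₁`,
`v (some false)` = indicator of `i₂`, `v (some true)` = the sum of the two;
`κ c = (E (inl i₁) c)⁻¹` if this is not zero, else `(E (inl i₂) c)⁻¹` if this is not zero, else `1`;
`A τ c` = there is `k : ZMod m` with `E (inl i) c * k = v τ i` for all `i` and `E (inr j) c * k = 0`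
for all `j`. No `c` satisfies `A` for two of the three types, so `S` has at least two elements more
than `S.filter (A none)`, and `n * l ^ 2 < l ^ (n + 2)`. `HB`: the `k` for `none` is not zero, so
`E (inl i₂) c = 0`, but then there is no `k` for `some false`.
-/

open NumberField Polynomial
open scoped Pointwise BigOperators

namespace Pool.KT

open Pool.TP2

namespace CaseA

theorem pow_aux {l : ℕ} (hl : 2 ≤ l) (n : ℕ) : n * l ^ 2 < l ^ (n + 2) := by
  have h1 : n < l ^ n := Nat.lt_pow_self (by omega)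
  rw [pow_add]
  exact Nat.mul_lt_mul_of_pos_right h1 (by positivity)

theorem ebar_map {K : Type} [Field K] [NumberField K] {G : Subgroup (K ≃ₐ[ℚ] K)}
    {m : ℕ} {Ω : Finset (𝓞 K)} {e : 𝓞 K → ℕ} (he : ∀ s ∈ G, ∀ θ ∈ Ω, e (s • θ) = e θ)
    {c : Option (𝓞 K)} (hc : PtIn Ω c) {s : K ≃ₐ[ℚ] K} (hs : s ∈ G) :
    ebar m Ω e (c.map (fun θ => s • θ)) = ebar m Ω e c := by
  cases c with
  | none => rfl
  | some θ =>
    show ((e (s • θ) : ℕ) : ZMod m) = ((e θ : ℕ) : ZMod m)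
    rw [he s hs θ (hc θ rfl)]

open Classical in
/-- The exponents of the twists. -/
noncomputable def vec {I : Type} (i₁ i₂ : I) : Option Bool → I → ℕ
  | none, i => if i = i₁ then 1 else 0
  | some false, i => if i = i₂ then 1 else 0
  | some true, i => if i = i₁ ∨ i = i₂ then 1 else 0

theorem vec_none_1 {I : Type} (i₁ i₂ : I) : vec i₁ i₂ none i₁ = 1 := by simp [vec]

theorem vec_none_2 {I : Type} {i₁ i₂ : I} (h : i₁ ≠ i₂) : vec i₁ i₂ none i₂ = 0 := by
  simp [vec, h.symm]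

theorem vec_false_1 {I : Type} {i₁ i₂ : I} (h : i₁ ≠ i₂) : vec i₁ i₂ (some false) i₁ = 0 := by
  simp [vec, h]

theorem vec_false_2 {I : Type} (i₁ i₂ : I) : vec i₁ i₂ (some false) i₂ = 1 := by simp [vec]

theorem vec_true_1 {I : Type} (i₁ i₂ : I) : vec i₁ i₂ (some true) i₁ = 1 := by simp [vec]

theorem vec_true_2 {I : Type} (i₁ i₂ : I) : vec i₁ i₂ (some true) i₂ = 1 := by simp [vec]

end CaseA

section

variable (K : IntermediateField ℚ Qb) [NumberField K] [IsGalois ℚ K]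
    (G : Subgroup (K ≃ₐ[ℚ] K)) (m : ℕ) (hm2 : 2 ≤ m) {I J : Type} [Fintype I] [Fintype J]
    (ζ : K) (hζ : IsPrimitiveRoot ζ m)
    (Ω : Finset (𝓞 K)) (hΩ : ∀ s ∈ G, ∀ θ ∈ Ω, s • θ ∈ Ω)
    (e : I ⊕ J → 𝓞 K → ℕ) (he : ∀ i, ∀ s ∈ G, ∀ θ ∈ Ω, e i (s • θ) = e i θ)
    (γ : I ⊕ J → 𝓞 K) (hγ : ∀ i, γ i ≠ 0) (hγG : ∀ i, ∀ s ∈ G, s • γ i = γ i)
    (hroots : ∀ j : J, ∀ c : Option (𝓞 K), PtIn Ω c →
      ∃ ρ : 𝓞 K, ρ ^ m = cof Ω (e (Sum.inr j)) (γ (Sum.inr j)) c)

include hm2 hζ hΩ he hγ hγG hroots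

theorem case_a (hm : m.Prime) (i₁ i₂ : I) (h12 : i₁ ≠ i₂) :
    ∃ t : I → 𝓞 K, (∀ i, t i ≠ 0) ∧ (∀ i, ∀ s ∈ G, s • t i = t i) ∧
      NoSol G m Ω e γ (Sum.elim t (fun _ => 1)) := by
  classical
  have : Fact m.Prime := ⟨hm⟩
  have hmpos : 0 < m := hm.pos
  set E : I ⊕ J → Option (𝓞 K) → ZMod m := fun i c => ebar m Ω (e i) c with hE
  have hEG : ∀ i c, PtIn Ω c → ∀ s ∈ G, E i (c.map (fun θ => s • θ)) = E i c := by
    intro i c hc s hs
    exact CaseA.ebar_map (he i) hc hs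
  let κ : Option (𝓞 K) → ZMod m := fun c =>
    if E (Sum.inl i₁) c = 0 then (if E (Sum.inl i₂) c = 0 then 1 else (E (Sum.inl i₂) c)⁻¹)
    else (E (Sum.inl i₁) c)⁻¹
  let A : Option Bool → Option (𝓞 K) → Prop := fun τ c =>
    ∃ k : ZMod m, (∀ i, E (Sum.inl i) c * k = ((CaseA.vec i₁ i₂ τ i : ℕ) : ZMod m)) ∧
      ∀ j, E (Sum.inr j) c * k = 0
  -- consequences of the conditions
  have hAn : ∀ c, A none c → E (Sum.inl i₁) c ≠ 0 ∧ E (Sum.inl i₂) c = 0 := by
    rintro c ⟨k, h1, -⟩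
    have h3 := h1 i₁
    have h4 := h1 i₂
    rw [CaseA.vec_none_1, Nat.cast_one] at h3
    rw [CaseA.vec_none_2 h12, Nat.cast_zero] at h4
    exact ⟨left_ne_zero_of_mul_eq_one h3,
      (mul_eq_zero.1 h4).resolve_right (right_ne_zero_of_mul_eq_one h3)⟩
  have hAf : ∀ c, A (some false) c → E (Sum.inl i₁) c = 0 ∧ E (Sum.inl i₂) c ≠ 0 := by
    rintro c ⟨k, h1, -⟩
    have h3 := h1 i₁
    have h4 := h1 i₂
    rw [CaseA.vec_false_1 h12, Nat.cast_zero] at h3
    rw [CaseA.vec_false_2, Nat.cast_one] at h4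
    exact ⟨(mul_eq_zero.1 h3).resolve_right (right_ne_zero_of_mul_eq_one h4),
      left_ne_zero_of_mul_eq_one h4⟩
  have hAt : ∀ c, A (some true) c → E (Sum.inl i₁) c ≠ 0 ∧ E (Sum.inl i₂) c ≠ 0 := by
    rintro c ⟨k, h1, -⟩
    have h3 := h1 i₁
    have h4 := h1 i₂
    rw [CaseA.vec_true_1, Nat.cast_one] at h3
    rw [CaseA.vec_true_2, Nat.cast_one] at h4
    exact ⟨left_ne_zero_of_mul_eq_one h3, left_ne_zero_of_mul_eq_one h4⟩
  refine bridge K G m hm2 (Or.inl hm) m dvd_rfl ζ hζ Ω hΩ e he γ hγ hγG hroots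
    (T := Bool) (σ := fun _ => 1) (v := CaseA.vec i₁ i₂) (A := A) (κ := κ) ?_ ?_ ?_ ?_ ?_ ?_
  · intro c
    simp only [κ]
    split_ifs with h h'
    · exact one_ne_zero
    · exact inv_ne_zero h'
    · exact inv_ne_zero h
  · intro c hc s hs
    simp only [κ]
    rw [hEG _ c hc s hs, hEG _ c hc s hs]
  · intro τ
    rcases τ with _ | τ
    · refine ⟨i₁, ?_⟩
      rw [CaseA.vec_none_1, Nat.cast_one]
      exact one_ne_zero
    · rcases τ with _ | _
      · refine ⟨i₂, ?_⟩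
        rw [CaseA.vec_false_2, Nat.cast_one]
        exact one_ne_zero
      · refine ⟨i₁, ?_⟩
        rw [CaseA.vec_true_1, Nat.cast_one]
        exact one_ne_zero
  · intro τ c hc k h1 h2
    have hA : A τ c := ⟨(k : ZMod m), h1, h2⟩
    have hcase : (E (Sum.inl i₁) c ≠ 0 ∧ E (Sum.inl i₁) c * (k : ZMod m) = 1) ∨
        (E (Sum.inl i₁) c = 0 ∧ E (Sum.inl i₂) c ≠ 0 ∧ E (Sum.inl i₂) c * (k : ZMod m) = 1) := by
      rcases τ with _ | τ
      · left
        have h3 := h1 i₁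
        rw [CaseA.vec_none_1, Nat.cast_one] at h3
        exact ⟨(hAn c hA).1, h3⟩
      · rcases τ with _ | _
        · right
          have h3 := h1 i₂
          rw [CaseA.vec_false_2, Nat.cast_one] at h3
          exact ⟨(hAf c hA).1, (hAf c hA).2, h3⟩
        · left
          have h3 := h1 i₁
          rw [CaseA.vec_true_1, Nat.cast_one] at h3
          exact ⟨(hAt c hA).1, h3⟩
    rcases hcase with ⟨h3, h4⟩ | ⟨h3, h4, h5⟩
    · refine ⟨⟨hc, Sum.inl i₁, isUnit_iff_ne_zero.2 h3⟩, hA, ?_⟩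
      simp only [κ]
      rw [if_neg h3]
      exact (inv_eq_of_mul_eq_one_right h4).symm
    · refine ⟨⟨hc, Sum.inl i₂, isUnit_iff_ne_zero.2 h4⟩, hA, ?_⟩
      simp only [κ]
      rw [if_pos h3, if_neg h4]
      exact (inv_eq_of_mul_eq_one_right h5).symm
  · intro S hS hSG hfix
    obtain ⟨c1, hc1, -, hA1, -⟩ := hfix false
    obtain ⟨c2, hc2, -, hA2, -⟩ := hfix true
    have h1 := hAf c1 hA1
    have h2 := hAt c2 hA2
    have hne : c1 ≠ c2 := by
      rintro rfl
      exact h2.1 h1.1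
    set S' := S.filter (fun c => A none c) with hS'
    have hn1 : c1 ∉ S' := by
      intro h
      exact (hAn c1 (Finset.mem_filter.1 h).2).1 h1.1
    have hn2 : c2 ∉ S' := by
      intro h
      exact h2.2 (hAn c2 (Finset.mem_filter.1 h).2).2
    have h3 : S'.card + 2 ≤ S.card := by
      have h4 : insert c1 (insert c2 S') ⊆ S := by
        intro c hc
        rcases Finset.mem_insert.1 hc with rfl | hc
        · exact hc1
        · rcases Finset.mem_insert.1 hc with rfl | hc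
          · exact hc2
          · exact (Finset.mem_filter.1 hc).1
      have h5 := Finset.card_le_card h4
      rw [Finset.card_insert_of_notMem, Finset.card_insert_of_notMem hn2] at h5
      · omega
      · intro h
        rcases Finset.mem_insert.1 h with h | h
        · exact hne h
        · exact hn1 h
    have key : ∀ d : DecidablePred (fun c => A none c),
        (@Finset.filter _ _ d S).card = S'.card := by
      intro d
      rw [hS']
      congr
    rw [key]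
    have h6 : (if ∀ c, Trk m Ω e c → c ∈ S then m ^ 2 else m) ≤ m ^ 2 := by
      split_ifs
      · exact le_rfl
      · exact Nat.le_self_pow (by norm_num) m
    calc S'.card * (if ∀ c, Trk m Ω e c → c ∈ S then m ^ 2 else m) ≤ S'.card * m ^ 2 :=
          Nat.mul_le_mul_left _ h6
      _ < m ^ (S'.card + 2) := CaseA.pow_aux hm2 _
      _ ≤ m ^ S.card := Nat.pow_le_pow_right hmpos h3
  · intro c hc hf h1 h2
    have h3 := hAn c (h1 none)
    have h4 := hAf c (h1 (some false))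
    exact h3.1 h4.1

end

end Pool.KT
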