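import Pool.Agent.Helper54.KT.Defs

/-!
Group theory of the labels.

Proof of `three_le`. Let `H` be the subgroup of the `s ∈ G` with `s ζ = ζ`. For `s ∈ H`, `x ∈ S`
fixed by `s`: `s` fixes one `l`-th root of `g j x` iff it fixes all of them.
(0) `S` is not empty. (1) If `x ∈ S` is fixed by all `s ∈ G` and for all `s ∈ H` and all `j`, `s`
fixes all `l`-th roots of `g j x`, then for every `j` there is an `l`-th root of `g j x` fixed by
`G`, contradiction to `h2`. Indeed the image of `G` in `(ZMod l)ˣ` (`s ζ = ζ ^ χ(s)`) is cyclic, so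
there is `s₀ ∈ G` such that `G` is generated by `H` and `s₀`; if `s₀ ∈ H` any root works;
otherwise `s₀ ρ = ζ ^ b ρ`, `s₀ ζ = ζ ^ a`, `a ≠ 1` modulo `l`, and `ζ ^ i ρ` with
`a i + b = i` modulo `l` is fixed by `s₀` and by `H`. (2) If `S = {x}` then `x` is fixed by `G` and
every `s ∈ H` fixes an `l`-th root of every `g j x`, hence all: contradiction by (1). (3) If
`S = {x, y}`, `x ≠ y`, and some `s ∈ G` exchanges them then `h1` fails for `s`; so both are
fixed by `G`, and `H` is the union of the subgroup of the elements fixing all `l`-th roots of all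
`g j x` and the same for `y`; so one of the two is `H`: contradiction by (1).
-/

open NumberField
open scoped Pointwise BigOperators

namespace Pool.KT

open Pool.TP2

private theorem three_pow {K : Type} [Field K] {l : ℕ} [Fact l.Prime] {ζ : K}
    (hζ : IsPrimitiveRoot ζ l) (a b : ℕ) : ζ ^ a = ζ ^ b ↔ (a : ZMod l) = (b : ZMod l) := by
  have hl : 0 < l := (Fact.out : l.Prime).pos
  rw [ZMod.natCast_eq_natCast_iff, pow_eq_pow_mod a hζ.pow_eq_one,
    pow_eq_pow_mod b hζ.pow_eq_one]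
  constructor
  · intro h
    exact hζ.pow_inj (Nat.mod_lt _ hl) (Nat.mod_lt _ hl) h
  · intro h
    have h' : a % l = b % l := h
    rw [h']

private theorem three_root {K : Type} [Field K] {l : ℕ} [Fact l.Prime] {ζ : K}
    (hζ : IsPrimitiveRoot ζ l) {a ρ ρ' : K} (ha : a ≠ 0) (h : ρ ^ l = a) (h' : ρ' ^ l = a) :
    ∃ n : ℕ, ρ' = ζ ^ n * ρ := by
  have hl : l ≠ 0 := (Fact.out : l.Prime).ne_zero
  have hρ : ρ ≠ 0 := by
    rintro rfl
    rw [zero_pow hl] at h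
    exact ha h.symm
  have h1 : (ρ' / ρ) ^ l = 1 := by
    rw [div_pow, h, h', div_self ha]
  obtain ⟨i, -, hi⟩ := hζ.eq_pow_of_pow_eq_one h1
  exact ⟨i, by rw [hi, div_mul_cancel₀ _ hρ]⟩

private theorem three_desc {K : Type} [Field K] [NumberField K]
    (G : Subgroup (K ≃ₐ[ℚ] K)) {l : ℕ} [Fact l.Prime] {ζ : K} (hζ : IsPrimitiveRoot ζ l)
    {a ρ : K} (ha : a ≠ 0) (hρ : ρ ^ l = a) (haG : ∀ s ∈ G, s a = a)
    (hP : ∀ s ∈ G, s ζ = ζ → s ρ = ρ) :
    ∃ ρ' : K, ρ' ^ l = a ∧ ∀ s ∈ G, s ρ' = ρ' := by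
  have hl : l ≠ 0 := (Fact.out : l.Prime).ne_zero
  have hρ0 : ρ ≠ 0 := by
    rintro rfl
    rw [zero_pow hl] at hρ
    exact ha hρ.symm
  have hm : ∀ s : K ≃ₐ[ℚ] K, ∃ m : ℕ, s ζ = ζ ^ m := by
    intro s
    have h1 : (s ζ) ^ l = 1 := by rw [← map_pow, hζ.pow_eq_one, map_one]
    obtain ⟨i, -, hi⟩ := hζ.eq_pow_of_pow_eq_one h1
    exact ⟨i, hi.symm⟩
  have hn : ∀ s ∈ G, ∃ n : ℕ, s ρ = ζ ^ n * ρ := by
    intro s hs
    apply three_root hζ ha hρ
    rw [← map_pow, hρ, haG s hs]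
  by_cases hall : ∀ s ∈ G, s ζ = ζ
  · exact ⟨ρ, hρ, fun s hs => hP s hs (hall s hs)⟩
  · push Not at hall
    obtain ⟨s0, hs0, hne⟩ := hall
    obtain ⟨m0, hm0⟩ := hm s0
    obtain ⟨n0, hn0⟩ := hn s0 hs0
    have hm1 : (m0 : ZMod l) - 1 ≠ 0 := by
      intro h
      apply hne
      have h2 : (m0 : ZMod l) = ((1 : ℕ) : ZMod l) := by
        rw [Nat.cast_one]; exact sub_eq_zero.mp h
      rw [hm0, (three_pow hζ m0 1).mpr h2, pow_one]
    set i : ZMod l := -(n0 : ZMod l) / ((m0 : ZMod l) - 1) with hi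
    have hiv : ((i.val : ℕ) : ZMod l) = i := by
      have : NeZero l := ⟨hl⟩
      exact ZMod.natCast_zmod_val i
    refine ⟨ζ ^ i.val * ρ, ?_, ?_⟩
    · rw [mul_pow, ← pow_mul, mul_comm i.val l, pow_mul, hζ.pow_eq_one, one_pow, one_mul, hρ]
    · intro t ht
      obtain ⟨m, hmt⟩ := hm t
      obtain ⟨n, hnt⟩ := hn t ht
      have hcomm : s0 (t ζ) = t (s0 ζ) := by
        rw [hmt, hm0, map_pow, map_pow, hm0, hmt, ← pow_mul, ← pow_mul, mul_comm]
      have hh : s0 (t ρ) = t (s0 ρ) := by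
        have hmem : (s0 * t) * (t * s0)⁻¹ ∈ G :=
          G.mul_mem (G.mul_mem hs0 ht) (G.inv_mem (G.mul_mem ht hs0))
        have e0 : ∀ z : K, ((s0 * t) * (t * s0)⁻¹) (t (s0 z)) = s0 (t z) := by
          intro z
          have : t (s0 z) = (t * s0) z := rfl
          rw [this, ← AlgEquiv.mul_apply, inv_mul_cancel_right]
          rfl
        have hζ' : ((s0 * t) * (t * s0)⁻¹) ζ = ζ := by
          have e1 := e0 ((t * s0)⁻¹ ζ)
          have e2 : t (s0 ((t * s0)⁻¹ ζ)) = ζ := by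
            have : t (s0 ((t * s0)⁻¹ ζ)) = ((t * s0) * (t * s0)⁻¹) ζ := rfl
            rw [this, mul_inv_cancel]
            rfl
          rw [e2] at e1
          rw [e1]
          obtain ⟨k, hk⟩ := hm ((t * s0)⁻¹)
          have e3 : s0 (t ((t * s0)⁻¹ ζ)) = t (s0 ((t * s0)⁻¹ ζ)) := by
            rw [hk, map_pow, map_pow, map_pow, map_pow, hcomm]
          rw [e3, e2]
        have hρ' := hP _ hmem hζ'
        have e4 := e0 ρ
        obtain ⟨k, hk⟩ := hn (t * s0) (G.mul_mem ht hs0)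
        have e5 : t (s0 ρ) = ζ ^ k * ρ := hk
        rw [e5, map_mul, map_pow, hζ', hρ'] at e4
        rw [← e4, e5]
      rw [hnt, hn0, map_mul, map_mul, map_pow, map_pow, hn0, hnt, hm0, hmt, ← pow_mul,
        ← pow_mul, ← mul_assoc, ← mul_assoc, ← pow_add, ← pow_add] at hh
      have h1 := (three_pow hζ _ _).mp (mul_right_cancel₀ hρ0 hh)
      push_cast at h1
      rw [map_mul, map_pow, hmt, hnt, ← pow_mul, ← mul_assoc, ← pow_add]
      congr 1
      rw [three_pow hζ]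
      push_cast
      rw [hiv, hi]
      field_simp
      linear_combination h1

theorem three_le {K X J : Type} [Field K] [NumberField K] [IsGalois ℚ K]
    (G : Subgroup (K ≃ₐ[ℚ] K)) (l : ℕ) [Fact l.Prime] (ζ : K) (hζ : IsPrimitiveRoot ζ l)
    [MulAction G X] (S : Finset X) (hS : ∀ (s : G), ∀ x ∈ S, s • x ∈ S)
    (g : J → X → K) (hg0 : ∀ j, ∀ x ∈ S, g j x ≠ 0)
    (hgG : ∀ j (s : G), ∀ x ∈ S, g j (s • x) = (s : K ≃ₐ[ℚ] K) (g j x))
    (hroot : ∀ j, ∀ x ∈ S, ∃ ρ : K, ρ ^ l = g j x)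
    (h1 : ∀ s : G, ∃ x ∈ S, s • x = x ∧
      ∀ j, ∃ ρ : K, ρ ^ l = g j x ∧ (s : K ≃ₐ[ℚ] K) ρ = ρ)
    (h2 : ∀ x ∈ S, (∀ s : G, s • x = x) →
      ¬ ∀ j, ∃ ρ : K, ρ ^ l = g j x ∧ ∀ s : G, (s : K ≃ₐ[ℚ] K) ρ = ρ) : 3 ≤ S.card := by
  classical
  have hgfix : ∀ x ∈ S, (∀ s : G, s • x = x) → ∀ j, ∀ s ∈ G, s (g j x) = g j x := by
    intro x hx hfix j s hs
    have := hgG j ⟨s, hs⟩ x hx
    rw [hfix] at this
    exact this.symm
  have hall : ∀ x ∈ S, ∀ s : G, (s : K ≃ₐ[ℚ] K) ζ = ζ →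
      (∀ j, ∃ ρ : K, ρ ^ l = g j x ∧ (s : K ≃ₐ[ℚ] K) ρ = ρ) →
      ∀ j, ∀ ρ : K, ρ ^ l = g j x → (s : K ≃ₐ[ℚ] K) ρ = ρ := by
    intro x hx s hs hex j ρ hρ
    obtain ⟨ρ0, h0, h0'⟩ := hex j
    obtain ⟨n, hn⟩ := three_root hζ (hg0 j x hx) h0 hρ
    rw [hn, map_mul, map_pow, hs, h0']
  have hB : ∀ x ∈ S, (∀ s : G, s • x = x) →
      (∀ s : G, (s : K ≃ₐ[ℚ] K) ζ = ζ → ∀ j, ∀ ρ : K, ρ ^ l = g j x →
        (s : K ≃ₐ[ℚ] K) ρ = ρ) → False := by
    intro x hx hfix hP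
    apply h2 x hx hfix
    intro j
    obtain ⟨ρ, hρ⟩ := hroot j x hx
    obtain ⟨ρ', h1', h2'⟩ := three_desc G hζ (hg0 j x hx) hρ (hgfix x hx hfix j)
      (fun s hs hsζ => hP ⟨s, hs⟩ hsζ j ρ hρ)
    exact ⟨ρ', h1', fun s => h2' s s.2⟩
  by_contra hcard
  have hc : S.card = 0 ∨ S.card = 1 ∨ S.card = 2 := by omega
  rcases hc with hc | hc | hc
  · obtain ⟨x, hx, -⟩ := h1 1
    rw [Finset.card_eq_zero] at hc
    rw [hc] at hx
    exact absurd hx (Finset.notMem_empty x)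
  · obtain ⟨x, hSx⟩ := Finset.card_eq_one.mp hc
    have hx : x ∈ S := by rw [hSx]; exact Finset.mem_singleton_self x
    have hmem : ∀ y ∈ S, y = x := by
      intro y hy
      rw [hSx] at hy
      exact Finset.mem_singleton.mp hy
    apply hB x hx (fun s => hmem _ (hS s x hx))
    intro s hs
    obtain ⟨x', hx', -, hr⟩ := h1 s
    rw [hmem x' hx'] at hr
    exact hall x hx s hs hr
  · obtain ⟨x, y, hxy, hSxy⟩ := Finset.card_eq_two.mp hc
    have hx : x ∈ S := by rw [hSxy]; simp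
    have hy : y ∈ S := by rw [hSxy]; simp
    have hmem : ∀ z ∈ S, z = x ∨ z = y := by
      intro z hz
      rw [hSxy] at hz
      simpa using hz
    have hinj : ∀ (s : G) (z w : X), s • z = s • w → z = w := by
      intro s z w h
      have := congrArg (fun t => s⁻¹ • t) h
      simpa using this
    have hfx : ∀ s : G, s • x = x := by
      intro s
      by_contra hne
      have h3 : s • x = y := (hmem _ (hS s x hx)).resolve_left hne
      obtain ⟨x', hx', hf, -⟩ := h1 s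
      rcases hmem x' hx' with rfl | rfl
      · exact hne hf
      · exact hxy (hinj s _ _ (h3.trans hf.symm))
    have hfy : ∀ s : G, s • y = y := by
      intro s
      rcases hmem _ (hS s y hy) with h3 | h3
      · exact absurd (hinj s _ _ ((hfx s).trans h3.symm)) hxy
      · exact h3
    have hor : ∀ s : G, (s : K ≃ₐ[ℚ] K) ζ = ζ →
        (∀ j, ∀ ρ : K, ρ ^ l = g j x → (s : K ≃ₐ[ℚ] K) ρ = ρ) ∨
        (∀ j, ∀ ρ : K, ρ ^ l = g j y → (s : K ≃ₐ[ℚ] K) ρ = ρ) := by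
      intro s hs
      obtain ⟨x', hx', -, hr⟩ := h1 s
      rcases hmem x' hx' with rfl | rfl
      · exact Or.inl (hall _ hx s hs hr)
      · exact Or.inr (hall _ hy s hs hr)
    by_cases hA : ∀ s : G, (s : K ≃ₐ[ℚ] K) ζ = ζ → ∀ j, ∀ ρ : K, ρ ^ l = g j x →
        (s : K ≃ₐ[ℚ] K) ρ = ρ
    · exact hB x hx hfx hA
    · push Not at hA
      obtain ⟨s, hs, js, ρs, hρs, hne⟩ := hA
      apply hB y hy hfy
      intro t ht j ρ hρ
      have hsy : ∀ j, ∀ ρ : K, ρ ^ l = g j y → (s : K ≃ₐ[ℚ] K) ρ = ρ :=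
        (hor s hs).resolve_left (fun h => hne (h js ρs hρs))
      by_contra hnt
      have htx : ∀ j, ∀ ρ : K, ρ ^ l = g j x → (t : K ≃ₐ[ℚ] K) ρ = ρ :=
        (hor t ht).resolve_right (fun h => hnt (h j ρ hρ))
      have hmul : ∀ z : K, ((s * t : G) : K ≃ₐ[ℚ] K) z =
          (s : K ≃ₐ[ℚ] K) ((t : K ≃ₐ[ℚ] K) z) := fun z => rfl
      have hst : ((s * t : G) : K ≃ₐ[ℚ] K) ζ = ζ := by rw [hmul, ht, hs]
      rcases hor (s * t) hst with h | h
      · apply hne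
        have h4 := h js ρs hρs
        rw [hmul, htx js ρs hρs] at h4
        exact h4
      · apply hnt
        have h4 := h j ρ hρ
        rw [hmul] at h4
        apply (s : K ≃ₐ[ℚ] K).injective
        rw [h4, hsy j ρ hρ]

end Pool.KT
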