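import Pool.Agent.Helper54.KT.Bridge
import Pool.Agent.Helper54.KT.Three

/-!
A case of the theorem over the fixed field, by `bridge`. Write `E i c = ebar m Ω (e i) c`.

Case b (`m = l` prime, `I` has one element `i₀`, `J` not empty): `T = G`, `σ = id`, `v = 1`,
`κ c = (E (inl i₀) c)⁻¹` or `1`, `A τ c = (E (inl i₀) c ≠ 0 ∧ ∀ j, E (inr j) c = 0)`.
`H`: let `S' = S.filter (A none)`, stable under `G` (`A` is invariant on points of `Ω`); `three_le`
(`X = Option (𝓞 K)` or `{c // PtIn Ω c}` with the action by `Option.map`, `g j c` the cofactors,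
`cof` is equivariant) gives `3 ≤ S'.card`: the hypothesis `h2` is `hnot`. By `hst` there is a
tracked `c` with `E (inr j) c ≠ 0`, not in `S'`. So if `S` contains all tracked points then
`S'.card + 1 ≤ S.card`; and `n * l < l ^ n` for `n ≥ 3`, `l ≥ 2`. `HB` is `hnot`
(`E (inl i₀) c * k = 1`).
-/

open NumberField Polynomial
open scoped Pointwise BigOperators

namespace Pool.KT

open Pool.TP2

namespace CaseB

theorem pow_aux {l n : ℕ} (hl : 2 ≤ l) (hn : 3 ≤ n) : n * l < l ^ n := by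
  obtain ⟨k, rfl⟩ : ∃ k, n = k + 3 := ⟨n - 3, by omega⟩
  have h1 : ∀ k : ℕ, k + 3 < 2 ^ (k + 2) := by
    intro k
    induction k with
    | zero => norm_num
    | succ k ih =>
      rw [pow_succ]
      omega
  have h2 : 2 ^ (k + 2) ≤ l ^ (k + 2) := Nat.pow_le_pow_left hl _
  have h3 : l ^ (k + 3) = l ^ (k + 2) * l := by rw [← pow_succ]
  rw [h3]
  exact Nat.mul_lt_mul_of_pos_right ((h1 k).trans_le h2) (by positivity)

theorem ebar_map {K : Type} [Field K] [NumberField K] {G : Subgroup (K ≃ₐ[ℚ] K)}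
    {m : ℕ} {Ω : Finset (𝓞 K)} {e : 𝓞 K → ℕ} (he : ∀ s ∈ G, ∀ θ ∈ Ω, e (s • θ) = e θ)
    {c : Option (𝓞 K)} (hc : PtIn Ω c) {s : K ≃ₐ[ℚ] K} (hs : s ∈ G) :
    ebar m Ω e (c.map (fun θ => s • θ)) = ebar m Ω e c := by
  cases c with
  | none => rfl
  | some θ =>
    show ((e (s • θ) : ℕ) : ZMod m) = ((e θ : ℕ) : ZMod m)
    rw [he s hs θ (hc θ rfl)]

theorem cof_map {K : Type} [Field K] [NumberField K] {G : Subgroup (K ≃ₐ[ℚ] K)}
    {Ω : Finset (𝓞 K)} (hΩ : ∀ s ∈ G, ∀ θ ∈ Ω, s • θ ∈ Ω) {e : 𝓞 K → ℕ}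
    (he : ∀ s ∈ G, ∀ θ ∈ Ω, e (s • θ) = e θ) {γ : 𝓞 K} {s : K ≃ₐ[ℚ] K} (hs : s ∈ G)
    (hγ : s • γ = γ) (c : Option (𝓞 K)) :
    cof Ω e γ (c.map (fun θ => s • θ)) = s • cof Ω e γ c := by
  classical
  cases c with
  | none => exact hγ.symm
  | some c =>
    show γ * ∏ θ ∈ Ω.erase (s • c), (s • c - θ) ^ e θ =
      s • (γ * ∏ θ ∈ Ω.erase c, (c - θ) ^ e θ)
    rw [smul_mul', hγ, Finset.smul_prod']
    congr 1
    refine Finset.prod_nbij' (fun θ => s⁻¹ • θ) (fun θ => s • θ) ?_ ?_ ?_ ?_ ?_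
    · intro θ hθ
      rw [Finset.mem_erase] at hθ ⊢
      refine ⟨fun h => hθ.1 ?_, hΩ _ (G.inv_mem hs) θ hθ.2⟩
      rw [← h, smul_inv_smul]
    · intro θ hθ
      rw [Finset.mem_erase] at hθ ⊢
      exact ⟨fun h => hθ.1 (MulAction.injective s h), hΩ s hs θ hθ.2⟩
    · intro θ _
      exact smul_inv_smul s θ
    · intro θ _
      exact inv_smul_smul s θ
    · intro θ hθ
      rw [Finset.mem_erase] at hθ
      rw [he _ (G.inv_mem hs) θ hθ.2, smul_pow', smul_sub, smul_inv_smul]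

theorem cof_ne_zero {K : Type} [Field K] [NumberField K] (Ω : Finset (𝓞 K)) (e : 𝓞 K → ℕ)
    {γ : 𝓞 K} (hγ : γ ≠ 0) (c : Option (𝓞 K)) : cof Ω e γ c ≠ 0 := by
  classical
  cases c with
  | none => exact hγ
  | some c =>
    show γ * ∏ θ ∈ Ω.erase c, (c - θ) ^ e θ ≠ 0
    refine mul_ne_zero hγ (Finset.prod_ne_zero_iff.2 fun θ hθ => pow_ne_zero _ ?_)
    rw [sub_ne_zero]
    exact (Finset.ne_of_mem_erase hθ).symm

/-- roots in the field are integral -/
theorem lift_root {K : Type} [Field K] [NumberField K] {m : ℕ} (hm : 0 < m) {x : 𝓞 K} {ρ : K}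
    (h : ρ ^ m = (x : K)) : ∃ ρ' : 𝓞 K, (ρ' : K) = ρ ∧ ρ' ^ m = x := by
  have h1 : IsIntegral ℤ (ρ ^ m) := by
    rw [h]
    exact NumberField.RingOfIntegers.isIntegral_coe x
  have h2 : IsIntegral ℤ ρ := IsIntegral.of_pow hm h1
  refine ⟨⟨ρ, h2⟩, rfl, ?_⟩
  apply NumberField.RingOfIntegers.coe_injective
  exact h

end CaseB

section

variable (K : IntermediateField ℚ Qb) [NumberField K] [IsGalois ℚ K]
    (G : Subgroup (K ≃ₐ[ℚ] K)) (m : ℕ) (hm2 : 2 ≤ m) {I J : Type} [Fintype I] [Fintype J]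
    (ζ : K) (hζ : IsPrimitiveRoot ζ m)
    (Ω : Finset (𝓞 K)) (hΩ : ∀ s ∈ G, ∀ θ ∈ Ω, s • θ ∈ Ω)
    (e : I ⊕ J → 𝓞 K → ℕ) (he : ∀ i, ∀ s ∈ G, ∀ θ ∈ Ω, e i (s • θ) = e i θ)
    (γ : I ⊕ J → 𝓞 K) (hγ : ∀ i, γ i ≠ 0) (hγG : ∀ i, ∀ s ∈ G, s • γ i = γ i)
    (hroots : ∀ j : J, ∀ c : Option (𝓞 K), PtIn Ω c →
      ∃ ρ : 𝓞 K, ρ ^ m = cof Ω (e (Sum.inr j)) (γ (Sum.inr j)) c)

include hm2 hζ hΩ he hγ hγG hroots

theorem case_b (hm : m.Prime) (i₀ : I) (hI : ∀ i, i = i₀) [Nonempty J]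
    (hst : ∀ j : J, ∃ θ ∈ Ω, ¬ m ∣ e (Sum.inr j) θ) (hnot : ¬ KFixed G m Ω e γ) :
    ∃ t : I → 𝓞 K, (∀ i, t i ≠ 0) ∧ (∀ i, ∀ s ∈ G, s • t i = t i) ∧
      NoSol G m Ω e γ (Sum.elim t (fun _ => 1)) := by
  classical
  have : Fact m.Prime := ⟨hm⟩
  have : Fintype G := Fintype.ofFinite G
  have hmpos : 0 < m := hm.pos
  set E : I ⊕ J → Option (𝓞 K) → ZMod m := fun i c => ebar m Ω (e i) c with hE
  let κ : Option (𝓞 K) → ZMod m := fun c =>
    if E (Sum.inl i₀) c = 0 then 1 else (E (Sum.inl i₀) c)⁻¹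
  have hEG : ∀ i c, PtIn Ω c → ∀ s ∈ G, E i (c.map (fun θ => s • θ)) = E i c := by
    intro i c hc s hs
    exact CaseB.ebar_map (he i) hc hs
  refine bridge K G m hm2 (Or.inl hm) m dvd_rfl ζ hζ Ω hΩ e he γ hγ hγG hroots
    (T := G) (σ := fun g => g) (v := fun _ _ => 1)
    (A := fun _ c => E (Sum.inl i₀) c ≠ 0 ∧ ∀ j, E (Sum.inr j) c = 0) (κ := κ) ?_ ?_ ?_ ?_ ?_ ?_
  · intro c
    simp only [κ]
    split_ifs with h
    · exact one_ne_zero
    · exact inv_ne_zero h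
  · intro c hc s hs
    simp only [κ]
    rw [hEG _ c hc s hs]
  · intro τ
    refine ⟨i₀, ?_⟩
    simp
  · intro τ c hc k h1 h2
    have h3 : E (Sum.inl i₀) c * (k : ZMod m) = 1 := by
      have := h1 i₀
      simpa using this
    have h4 : E (Sum.inl i₀) c ≠ 0 := left_ne_zero_of_mul_eq_one h3
    have h5 : (k : ZMod m) ≠ 0 := right_ne_zero_of_mul_eq_one h3
    refine ⟨⟨hc, Sum.inl i₀, isUnit_iff_ne_zero.2 h4⟩, ⟨h4, fun j => ?_⟩, ?_⟩
    · exact (mul_eq_zero.1 (h2 j)).resolve_right h5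
    · simp only [κ]
      rw [if_neg h4]
      exact (inv_eq_of_mul_eq_one_right h3).symm
  · intro S hS hSG hfix
    have hpt : ∀ x ∈ S, PtIn Ω x := fun x hx => (hS x hx).1
    set S' := S.filter (fun c => E (Sum.inl i₀) c ≠ 0 ∧ ∀ j, E (Sum.inr j) c = 0) with hS'
    have h3 : 3 ≤ S'.card := by
      refine three_le (K := K) (X := Option (𝓞 K)) (J := J) G m ζ hζ S' ?_
        (fun j c => ((cof Ω (e (Sum.inr j)) (γ (Sum.inr j)) c : 𝓞 K) : K)) ?_ ?_ ?_ ?_ ?_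
      · intro s x hx
        rw [hS', Finset.mem_filter] at hx ⊢
        have hx1 : x.map (fun θ => (s : K ≃ₐ[ℚ] K) • θ) ∈ S := hSG s s.2 x hx.1
        refine ⟨hx1, ?_, ?_⟩
        · have := hEG (Sum.inl i₀) x (hpt x hx.1) s s.2
          show E (Sum.inl i₀) (x.map (fun θ => (s : K ≃ₐ[ℚ] K) • θ)) ≠ 0
          rw [this]
          exact hx.2.1
        · intro j
          have := hEG (Sum.inr j) x (hpt x hx.1) s s.2
          show E (Sum.inr j) (x.map (fun θ => (s : K ≃ₐ[ℚ] K) • θ)) = 0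
          rw [this]
          exact hx.2.2 j
      · intro j x _
        have := CaseB.cof_ne_zero Ω (e (Sum.inr j)) (hγ (Sum.inr j)) x
        exact fun h => this (NumberField.RingOfIntegers.coe_injective h)
      · intro j s x hx
        have := CaseB.cof_map hΩ (he (Sum.inr j)) s.2 (hγG (Sum.inr j) s s.2) x
        show ((cof Ω (e (Sum.inr j)) (γ (Sum.inr j))
          (x.map (fun θ => (s : K ≃ₐ[ℚ] K) • θ)) : 𝓞 K) : K) = _
        rw [this]
        rfl
      · intro j x hx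
        rw [hS', Finset.mem_filter] at hx
        obtain ⟨ρ, hρ⟩ := hroots j x (hpt x hx.1)
        refine ⟨(ρ : K), ?_⟩
        rw [← hρ]
        rfl
      · intro s
        obtain ⟨c, hc, h1, h2, h4⟩ := hfix s
        refine ⟨c, ?_, h1, fun j => ?_⟩
        · rw [hS', Finset.mem_filter]
          exact ⟨hc, h2⟩
        · obtain ⟨ρ, hρ1, hρ2⟩ := h4 j
          refine ⟨(ρ : K), ?_, ?_⟩
          · rw [← hρ1]
            rfl
          · have := congrArg (fun z : 𝓞 K => (z : K)) hρ2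
            exact this
      · intro x hx hfx hcon
        rw [hS', Finset.mem_filter] at hx
        refine hnot ⟨i₀, hI, x, hpt x hx.1, fun s hs => hfx ⟨s, hs⟩,
          isUnit_iff_ne_zero.2 hx.2.1, fun j => ⟨hx.2.2 j, ?_⟩⟩
        obtain ⟨ρ, hρ1, hρ2⟩ := hcon j
        obtain ⟨ρ', h1, h2⟩ := CaseB.lift_root hmpos hρ1
        refine ⟨ρ', h2, fun s hs => ?_⟩
        apply NumberField.RingOfIntegers.coe_injective
        have := hρ2 ⟨s, hs⟩
        rw [← h1] at this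
        exact this
    have h4 : S'.card * m < m ^ S'.card := CaseB.pow_aux hm2 h3
    have h5 : S'.card ≤ S.card := Finset.card_filter_le _ _
    have key : ∀ d : DecidablePred (fun c => E (Sum.inl i₀) c ≠ 0 ∧ ∀ j, E (Sum.inr j) c = 0),
        (@Finset.filter _ _ d S).card = S'.card := by
      intro d
      rw [hS']
      congr
    split_ifs with hall
    · rw [key]
      obtain ⟨j⟩ := (inferInstance : Nonempty J)
      obtain ⟨θ, hθ, hθm⟩ := hst j
      have h6 : E (Sum.inr j) (some θ) ≠ 0 := by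
        intro h
        have h' : ((e (Sum.inr j) θ : ℕ) : ZMod m) = 0 := h
        exact hθm ((ZMod.natCast_eq_zero_iff _ _).1 h')
      have h7 : Trk m Ω e (some θ) := by
        refine ⟨?_, Sum.inr j, isUnit_iff_ne_zero.2 h6⟩
        intro θ' h
        rw [← Option.some.inj h]
        exact hθ
      have h8 : some θ ∈ S := hall _ h7
      have h9 : some θ ∉ S' := by
        rw [hS', Finset.mem_filter]
        exact fun h => h6 (h.2.2 j)
      have h10 : S'.card < S.card := by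
        refine Finset.card_lt_card ⟨Finset.filter_subset _ _, fun h => h9 (h h8)⟩
      calc S'.card * m ^ 2 = (S'.card * m) * m := by ring
        _ < m ^ S'.card * m := Nat.mul_lt_mul_of_pos_right h4 hmpos
        _ = m ^ (S'.card + 1) := by rw [pow_succ]
        _ ≤ m ^ S.card := Nat.pow_le_pow_right hmpos h10
    · rw [key]
      exact h4.trans_le (Nat.pow_le_pow_right hmpos h5)
  · intro c hc hf h1 h2
    obtain ⟨k, h3, -⟩ := h1 none
    have h4 : E (Sum.inl i₀) c * k = 1 := by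
      have := h3 i₀
      simpa using this
    exact hnot ⟨i₀, hI, c, hc, hf, isUnit_iff_ne_zero.2 (left_ne_zero_of_mul_eq_one h4), h2⟩

end

end Pool.KT
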