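import Pool.Agent.Helper54.KT.Defs
import Pool.Agent.TP2.Weights

/-!
Group theory of the labels.

Proof of `five_le`. Every orbit in `S` has at least two elements, and `S` is not empty. If `S`
(or rather a union of orbits) is a single orbit with at least two elements then some `g` has no
fixed point in it (Burnside: the number of fixed points is one on average, `1` has at least two).
So `S` has at least two orbits, each with at least two elements, and if `S` has at most four
elements, there are exactly two orbits `{x, x'}`, `{y, y'}` with two elements. Then the group is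
the union of the stabilizer of `x` (an element fixing `x` or `x'` fixes both) and the stabilizer of
`y`, so one of them is everything (a group is not the union of two proper subgroups),
contradiction.
-/

open NumberField
open scoped Pointwise BigOperators

namespace Pool.KT

open Pool.TP2

theorem five_le_aux {G Y : Type} [Group G] [Fintype G] [Fintype Y] [DecidableEq Y] [MulAction G Y]
    (h1 : ∀ g : G, ∃ x : Y, g • x = x)
    (h2 : ∀ x : Y, ∃ g : G, g • x ≠ x) : 5 ≤ Fintype.card Y := by
  classical
  by_contra hlt
  rw [not_le] at hlt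
  set π : Y → Quotient (MulAction.orbitRel G Y) := fun y => Quotient.mk _ y with hπ
  have hrel : ∀ a b : Y, π a = π b ↔ ∃ g : G, g • b = a := by
    intro a b
    rw [hπ]
    simp only [Quotient.eq]
    rfl
  have hsm : ∀ (g : G) (a : Y), π (g • a) = π a := fun g a => (hrel _ _).2 ⟨g, rfl⟩
  have hfib : ∀ ω : Quotient (MulAction.orbitRel G Y),
      2 ≤ (Finset.univ.filter (fun y => π y = ω)).card := by
    intro ω
    obtain ⟨y, hy⟩ := Quotient.exists_rep ω
    obtain ⟨g, hg⟩ := h2 y
    have hsub : ({y, g • y} : Finset Y) ⊆ Finset.univ.filter (fun y => π y = ω) := by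
      intro z hz
      rw [Finset.mem_insert, Finset.mem_singleton] at hz
      rw [Finset.mem_filter]
      refine ⟨Finset.mem_univ _, ?_⟩
      rcases hz with rfl | rfl
      · exact hy
      · rw [hsm]; exact hy
    calc 2 = ({y, g • y} : Finset Y).card := (Finset.card_pair (Ne.symm hg)).symm
      _ ≤ _ := Finset.card_le_card hsub
  have hsum : Fintype.card Y = ∑ ω : Quotient (MulAction.orbitRel G Y),
      (Finset.univ.filter (fun y => π y = ω)).card := by
    rw [← Finset.card_univ]
    exact Finset.card_eq_sum_card_fiberwise (fun _ _ => Finset.mem_coe.2 (Finset.mem_univ _))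
  have hburn := MulAction.sum_card_fixedBy_eq_card_orbits_mul_card_group G Y
  have hone : ∀ g : G, 1 ≤ Fintype.card (MulAction.fixedBy Y g) := by
    intro g
    obtain ⟨x, hx⟩ := h1 g
    exact Fintype.card_pos_iff.2 ⟨⟨x, hx⟩⟩
  have hid : Fintype.card (MulAction.fixedBy Y (1 : G)) = Fintype.card Y := by
    apply Fintype.card_congr
    exact ⟨fun x => x.1, fun x => ⟨x, one_smul G x⟩, fun x => rfl, fun x => rfl⟩
  obtain ⟨y0, hy0⟩ := h1 1
  have hn2 : 2 * Fintype.card (Quotient (MulAction.orbitRel G Y)) ≤ Fintype.card Y := by
    rw [hsum, ← Finset.card_univ, mul_comm]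
    have := Finset.card_nsmul_le_sum (Finset.univ : Finset (Quotient (MulAction.orbitRel G Y)))
      (fun ω => (Finset.univ.filter (fun y => π y = ω)).card) 2 (fun ω _ => hfib ω)
    simpa using this
  have hpos : 1 ≤ Fintype.card (Quotient (MulAction.orbitRel G Y)) :=
    Fintype.card_pos_iff.2 ⟨π y0⟩
  have key : ∀ k : ℕ, (∀ g : G, k ≤ Fintype.card (MulAction.fixedBy Y g)) →
      Fintype.card (Quotient (MulAction.orbitRel G Y)) = k → k < Fintype.card Y → False := by
    intro k hk1 hk2 hk3
    have hlt2 : ∑ _g : G, k < ∑ g : G, Fintype.card (MulAction.fixedBy Y g) := by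
      apply Finset.sum_lt_sum
      · intro g _
        exact hk1 g
      · exact ⟨1, Finset.mem_univ _, by rw [hid]; exact hk3⟩
    rw [hburn, Finset.sum_const, Finset.card_univ, smul_eq_mul, hk2, mul_comm] at hlt2
    exact lt_irrefl _ hlt2
  have hcases : Fintype.card (Quotient (MulAction.orbitRel G Y)) = 1 ∨
      Fintype.card (Quotient (MulAction.orbitRel G Y)) = 2 := by omega
  rcases hcases with h | h
  · exact key 1 hone h (by omega)
  · have h4 : Fintype.card Y = 4 := by omega
    have hfib2 : ∀ ω : Quotient (MulAction.orbitRel G Y),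
        (Finset.univ.filter (fun y => π y = ω)).card = 2 := by
      have hs2 : ∑ ω : Quotient (MulAction.orbitRel G Y), 2 =
          ∑ ω : Quotient (MulAction.orbitRel G Y),
            (Finset.univ.filter (fun y => π y = ω)).card := by
        rw [← hsum, h4, Finset.sum_const, Finset.card_univ, h]
        rfl
      have := (Finset.sum_eq_sum_iff_of_le (fun ω _ => hfib ω)).1 hs2
      intro ω
      exact (this ω (Finset.mem_univ _)).symm
    refine key 2 ?_ h (by omega)
    intro g
    obtain ⟨x, hx⟩ := h1 g
    obtain ⟨k, hk⟩ := h2 x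
    have hfx : g • (k • x) = k • x := by
      by_contra hne
      have hsub : ({x, k • x, g • (k • x)} : Finset Y) ⊆
          Finset.univ.filter (fun y => π y = π x) := by
        intro z hz
        rw [Finset.mem_insert, Finset.mem_insert, Finset.mem_singleton] at hz
        rw [Finset.mem_filter]
        refine ⟨Finset.mem_univ _, ?_⟩
        rcases hz with rfl | rfl | rfl
        · rfl
        · exact hsm _ _
        · rw [hsm, hsm]
      have hcard : ({x, k • x, g • (k • x)} : Finset Y).card = 3 := by
        rw [Finset.card_eq_three]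
        refine ⟨x, k • x, g • (k • x), Ne.symm hk, ?_, fun h => hne h.symm, rfl⟩
        intro h
        have h5 : g • x = g • (k • x) := by rw [hx]; exact h
        exact hk (smul_left_cancel g h5).symm
      have := Finset.card_le_card hsub
      rw [hcard, hfib2] at this
      omega
    have : 1 < Fintype.card (MulAction.fixedBy Y g) := by
      rw [Fintype.one_lt_card_iff]
      refine ⟨⟨x, hx⟩, ⟨k • x, hfx⟩, ?_⟩
      intro h
      exact hk (congrArg Subtype.val h).symm
    omega

theorem five_le {G X : Type} [Group G] [Finite G] [MulAction G X] (S : Finset X)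
    (hS : ∀ (g : G), ∀ x ∈ S, g • x ∈ S) (h1 : ∀ g : G, ∃ x ∈ S, g • x = x)
    (h2 : ∀ x ∈ S, ∃ g : G, g • x ≠ x) : 5 ≤ S.card := by
  classical
  haveI := Fintype.ofFinite G
  letI : MulAction G S :=
    { smul := fun g x => ⟨g • x.1, hS g x.1 x.2⟩
      one_smul := fun x => Subtype.ext (one_smul G x.1)
      mul_smul := fun g h x => Subtype.ext (mul_smul g h x.1) }
  have h := five_le_aux (G := G) (Y := S)
    (fun g => by
      obtain ⟨x, hx, hg⟩ := h1 g
      exact ⟨⟨x, hx⟩, Subtype.ext hg⟩)
    (fun x => by
      obtain ⟨g, hg⟩ := h2 x.1 x.2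
      exact ⟨g, fun h => hg (congrArg Subtype.val h)⟩)
  rwa [Fintype.card_coe] at h

end Pool.KT
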