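import Pool.Agent.Helper54.KT.Bridge
import Pool.Agent.Helper54.KT.Five

/-!
A case of the theorem over the fixed field, by `bridge`. Write `E i c = ebar m Ω (e i) c`.

Case c (`J` empty, `I` has one element `i₀`): `l` a prime divisor of `m`, `T = G`, `σ = id`,
`v = 1`, `κ c` = the inverse of `E (inl i₀) c` mapped to `ZMod l` (`ZMod.castHom hlm (ZMod l)`) if
this image is not zero, else `1`; `A τ c = IsUnit (E (inl i₀) c)`. `H`: `five_le` for `S`
(every tracked point satisfies `A`, and no point of `S` is fixed by `G` by `hnot`) gives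
`5 ≤ S.card`; `n * l ^ 2 < l ^ n` for `n ≥ 5`, `l ≥ 2`. The root of unity is `ζ ^ (m / l)`.
-/

open NumberField Polynomial
open scoped Pointwise BigOperators

namespace Pool.KT

open Pool.TP2

private theorem caseC_pow {l n : ℕ} (hl : 2 ≤ l) (hn : 5 ≤ n) : n * l ^ 2 < l ^ n := by
  obtain ⟨k, rfl⟩ : ∃ k, n = k + 5 := ⟨n - 5, by omega⟩
  have h1 : ∀ k : ℕ, k + 5 < 2 ^ (k + 3) := by
    intro k
    induction k with
    | zero => norm_num
    | succ k ih =>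
      rw [pow_succ]
      omega
  have h2 : 2 ^ (k + 3) ≤ l ^ (k + 3) := Nat.pow_le_pow_left hl _
  have h3 : l ^ (k + 5) = l ^ (k + 3) * l ^ 2 := by
    rw [← pow_add]
  rw [h3]
  exact Nat.mul_lt_mul_of_pos_right ((h1 k).trans_le h2) (by positivity)

private theorem caseC_ebar {K : Type} [Field K] [NumberField K] {G : Subgroup (K ≃ₐ[ℚ] K)}
    {m : ℕ} {Ω : Finset (𝓞 K)} {e : 𝓞 K → ℕ} (he : ∀ s ∈ G, ∀ θ ∈ Ω, e (s • θ) = e θ)
    {c : Option (𝓞 K)} (hc : PtIn Ω c) {s : K ≃ₐ[ℚ] K} (hs : s ∈ G) :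
    ebar m Ω e (c.map (fun θ => s • θ)) = ebar m Ω e c := by
  cases c with
  | none => rfl
  | some θ =>
    show ((e (s • θ) : ℕ) : ZMod m) = ((e θ : ℕ) : ZMod m)
    rw [he s hs θ (hc θ rfl)]

section

variable (K : IntermediateField ℚ Qb) [NumberField K] [IsGalois ℚ K]
    (G : Subgroup (K ≃ₐ[ℚ] K)) (m : ℕ) (hm2 : 2 ≤ m) {I J : Type} [Fintype I] [Fintype J]
    (ζ : K) (hζ : IsPrimitiveRoot ζ m)
    (Ω : Finset (𝓞 K)) (hΩ : ∀ s ∈ G, ∀ θ ∈ Ω, s • θ ∈ Ω)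
    (e : I ⊕ J → 𝓞 K → ℕ) (he : ∀ i, ∀ s ∈ G, ∀ θ ∈ Ω, e i (s • θ) = e i θ)
    (γ : I ⊕ J → 𝓞 K) (hγ : ∀ i, γ i ≠ 0) (hγG : ∀ i, ∀ s ∈ G, s • γ i = γ i)
    (hroots : ∀ j : J, ∀ c : Option (𝓞 K), PtIn Ω c →
      ∃ ρ : 𝓞 K, ρ ^ m = cof Ω (e (Sum.inr j)) (γ (Sum.inr j)) c)

include hm2 hζ hΩ he hγ hγG hroots

theorem case_c (hJ : IsEmpty J) (i₀ : I) (hI : ∀ i, i = i₀) (hnot : ¬ KFixed G m Ω e γ) :
    ∃ t : I → 𝓞 K, (∀ i, t i ≠ 0) ∧ (∀ i, ∀ s ∈ G, s • t i = t i) ∧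
      NoSol G m Ω e γ (Sum.elim t (fun _ => 1)) := by
  classical
  have hm1 : m ≠ 1 := by omega
  have hm0 : m ≠ 0 := by omega
  obtain ⟨l, hl, hlm⟩ := Nat.exists_prime_and_dvd hm1
  haveI : Fact l.Prime := ⟨hl⟩
  haveI : Nontrivial (ZMod m) := by
    haveI : Fact (1 < m) := ⟨by omega⟩
    infer_instance
  haveI : Fintype G := Fintype.ofFinite G
  obtain ⟨d, hd⟩ := hlm
  have hζl : IsPrimitiveRoot (ζ ^ d) l :=
    hζ.pow (Nat.pos_of_ne_zero hm0) (by rw [hd]; ring)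
  have hlm : l ∣ m := ⟨d, hd⟩
  have hkf : ∀ c, PtIn Ω c → PtFixed G c → IsUnit (ebar m Ω (e (Sum.inl i₀)) c) → False := by
    intro c h1 h2 h3
    exact hnot ⟨i₀, hI, c, h1, h2, h3, fun j => (hJ.false j).elim⟩
  let κ : Option (𝓞 K) → ZMod l := fun c =>
    if ZMod.castHom hlm (ZMod l) (ebar m Ω (e (Sum.inl i₀)) c)⁻¹ = 0 then 1
    else ZMod.castHom hlm (ZMod l) (ebar m Ω (e (Sum.inl i₀)) c)⁻¹
  refine bridge K G m hm2 (Or.inr hJ) l hlm (ζ ^ d) hζl Ω hΩ e he γ hγ hγG hroots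
    (T := G) (σ := fun g => g) (v := fun _ _ => 1)
    (A := fun _ c => IsUnit (ebar m Ω (e (Sum.inl i₀)) c)) (κ := κ) ?_ ?_ ?_ ?_ ?_ ?_
  · intro c
    simp only [κ]
    split_ifs with h
    · exact one_ne_zero
    · exact h
  · intro c hc s hs
    simp only [κ]
    rw [caseC_ebar (he (Sum.inl i₀)) hc hs]
  · intro τ
    refine ⟨i₀, ?_⟩
    simp
  · intro τ c hc k h1 _
    have h2 : ebar m Ω (e (Sum.inl i₀)) c * (k : ZMod m) = 1 := by
      have := h1 i₀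
      simpa using this
    have h3 : IsUnit (ebar m Ω (e (Sum.inl i₀)) c) := IsUnit.of_mul_eq_one _ h2
    refine ⟨⟨hc, Sum.inl i₀, h3⟩, h3, ?_⟩
    have h4 : (ebar m Ω (e (Sum.inl i₀)) c)⁻¹ = (k : ZMod m) := by
      have h5 : (ebar m Ω (e (Sum.inl i₀)) c)⁻¹ * ebar m Ω (e (Sum.inl i₀)) c = 1 :=
        ZMod.inv_mul_of_unit _ h3
      calc (ebar m Ω (e (Sum.inl i₀)) c)⁻¹
          = (ebar m Ω (e (Sum.inl i₀)) c)⁻¹ * (ebar m Ω (e (Sum.inl i₀)) c * (k : ZMod m)) := by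
            rw [h2, mul_one]
        _ = (k : ZMod m) := by rw [← mul_assoc, h5, one_mul]
    have h6 : ZMod.castHom hlm (ZMod l) (ebar m Ω (e (Sum.inl i₀)) c)⁻¹ = (k : ZMod l) := by
      rw [h4, map_natCast]
    have h7 : (k : ZMod l) ≠ 0 := by
      intro h8
      have h9 := congrArg (ZMod.castHom hlm (ZMod l)) h2
      rw [map_mul, map_natCast, h8, mul_zero, map_one] at h9
      exact zero_ne_one h9
    simp only [κ]
    rw [h6, if_neg h7]
  · intro S hS hSG hfix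
    have h5 : 5 ≤ S.card := by
      refine five_le (G := G) (X := Option (𝓞 K)) S ?_ ?_ ?_
      · intro g x hx
        exact hSG g g.2 x hx
      · intro g
        obtain ⟨c, hc, h1, -⟩ := hfix g
        exact ⟨c, hc, h1⟩
      · intro x hx
        by_contra hcon
        push Not at hcon
        obtain ⟨h1, i, h2⟩ := hS x hx
        rcases i with i | j
        · rw [hI i] at h2
          exact hkf x h1 (fun s hs => hcon ⟨s, hs⟩) h2
        · exact (hJ.false j).elim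
    have h6 : (S.filter (fun c => IsUnit (ebar m Ω (e (Sum.inl i₀)) c))).card ≤ S.card :=
      Finset.card_filter_le _ _
    have h7 := caseC_pow hl.two_le h5
    refine lt_of_le_of_lt ?_ h7
    refine Nat.mul_le_mul h6 ?_
    split_ifs
    · exact le_rfl
    · nlinarith [hl.two_le]
  · intro c hc hf h1 _
    obtain ⟨k, h2, -⟩ := h1 none
    have h3 : ebar m Ω (e (Sum.inl i₀)) c * k = 1 := by
      have := h2 i₀
      simpa using this
    exact hkf c hc hf (IsUnit.of_mul_eq_one _ h3)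

end

end Pool.KT
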