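import Pool.Agent.Helper54.KT.Defs
import Pool.Agent.TP2.Comb

/-!
The combinatorial core: there is no strategy in the game with symbols.
-/

open scoped BigOperators

namespace Pool.KT

/-- A play of `M` rounds: in every round a type and an element of `Y` for every round. -/
abbrev Ply (T Y : Type) (M : ℕ) : Type := Fin M → Option T × (Fin M → Y)

namespace Comb

open Classical Pool.TP2.Comb

set_option linter.unusedSectionVars false

theorem card_fiber {Z A : Type} [AddCommGroup Z] [Fintype Z] [AddCommGroup A] [Fintype A]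
    (L : Z →+ A) (hL : Function.Surjective L) (a : A) :
    (Finset.univ.filter fun y : Z => L y = a).card * Fintype.card A = Fintype.card Z := by
  have h0 : ∀ b : A, (Finset.univ.filter fun y : Z => L y = b).card =
      (Finset.univ.filter fun y : Z => L y = a).card := by
    intro b
    obtain ⟨yb, hyb⟩ := hL b
    obtain ⟨ya, hya⟩ := hL a
    refine Finset.card_bij' (fun y _ => y - yb + ya) (fun y _ => y - ya + yb) ?_ ?_ ?_ ?_
    · intro y hy
      rw [Finset.mem_filter] at hy ⊢
      refine ⟨Finset.mem_univ _, ?_⟩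
      rw [map_add, map_sub, hy.2, hyb, hya, sub_self, zero_add]
    · intro y hy
      rw [Finset.mem_filter] at hy ⊢
      refine ⟨Finset.mem_univ _, ?_⟩
      rw [map_add, map_sub, hy.2, hyb, hya, sub_self, zero_add]
    · intro y _; abel
    · intro y _; abel
  have h1 : Fintype.card Z = ∑ b : A, (Finset.univ.filter fun y : Z => L y = b).card := by
    rw [← Finset.card_univ]
    exact Finset.card_eq_sum_card_fiberwise (fun y _ => Finset.mem_univ (L y))
  rw [h1, Finset.sum_congr rfl fun b _ => h0 b, Finset.sum_const, Finset.card_univ, smul_eq_mul,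
    mul_comm]

section

variable {I X T Y V : Type} [Fintype I] [Fintype X] [Fintype T] [AddCommGroup Y]
    [Fintype Y] [Fintype V] (l : ℕ) [Fact l.Prime] (π : X → I) (fix : Option T → X → Prop)
    (bit : Option T → X → X → Y → ZMod l)

/-- The weight of a label. -/
noncomputable def wt (α : X) (S : Finset I) : ℝ :=
  (if ∀ θ, θ ≠ α → π θ ∈ S then (l : ℝ) else 1) *
    (1 / (l : ℝ)) ^ (Finset.univ.filter fun θ : X => θ ≠ α ∧ π θ ∈ S).card

/-- Good sets of colours. -/
def Gd (S : Finset I) : Prop := ∀ τ : T, ∃ α, fix (some τ) α ∧ π α ∈ S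

/-- The modified weight. -/
noncomputable def wt' (α : X) (S : Finset I) : ℝ :=
  if fix none α ∧ Gd π fix S then wt l π α S else 0

theorem wt_nonneg (α : X) (S : Finset I) : 0 ≤ wt l π α S := by
  unfold wt
  have : (0 : ℝ) ≤ l := Nat.cast_nonneg l
  split_ifs <;> positivity

theorem wt'_nonneg (α : X) (S : Finset I) : 0 ≤ wt' l π fix α S := by
  unfold wt'
  split_ifs
  · exact wt_nonneg l π α S
  · exact le_rfl

theorem diag (hW : ∀ S : Finset I, (∀ τ : T, ∃ α, fix (some τ) α ∧ π α ∈ S) →
      (Finset.univ.filter fun α => fix none α ∧ π α ∈ S).card *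
        (if ∀ θ, π θ ∈ S then l ^ 2 else l) < l ^ (Finset.univ.filter fun θ => π θ ∈ S).card)
    (S : Finset I) : (∑ α with π α ∈ S, wt' l π fix α S) < 1 := by
  have hl : 0 < (l : ℝ) := by exact_mod_cast (Fact.out : l.Prime).pos
  by_cases hS : Gd π fix S
  · have h := hW S hS
    set n := (Finset.univ.filter fun θ => π θ ∈ S).card with hn
    set a := (Finset.univ.filter fun α => fix none α ∧ π α ∈ S).card with ha
    -- the weight of a member
    have h1 : ∀ α, π α ∈ S → wt l π α S = (if ∀ θ, π θ ∈ S then (l : ℝ) ^ 2 else l) / (l : ℝ) ^ n := by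
      intro α hα
      have h2 : (Finset.univ.filter fun θ : X => θ ≠ α ∧ π θ ∈ S).card + 1 = n := by
        have h3 : (Finset.univ.filter fun θ => π θ ∈ S) =
            insert α (Finset.univ.filter fun θ : X => θ ≠ α ∧ π θ ∈ S) := by
          ext θ
          simp only [Finset.mem_filter, Finset.mem_univ, true_and, Finset.mem_insert]
          constructor
          · intro h4
            by_cases h5 : θ = α
            · exact Or.inl h5
            · exact Or.inr ⟨h5, h4⟩
          · rintro (rfl | ⟨-, h4⟩)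
            · exact hα
            · exact h4
        rw [hn, h3, Finset.card_insert_of_notMem]
        simp
      have h3 : (∀ θ, θ ≠ α → π θ ∈ S) ↔ ∀ θ, π θ ∈ S := by
        constructor
        · intro h4 θ
          by_cases h5 : θ = α
          · rw [h5]; exact hα
          · exact h4 θ h5
        · exact fun h4 θ _ => h4 θ
      unfold wt
      rw [← h2, pow_succ]
      by_cases h4 : ∀ θ, π θ ∈ S
      · rw [if_pos (h3.2 h4), if_pos h4, one_div, inv_pow]
        field_simp
        ring
      · rw [if_neg (fun h5 => h4 (h3.1 h5)), if_neg h4, one_div, inv_pow]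
        field_simp
        ring
    have h2 : (∑ α with π α ∈ S, wt' l π fix α S) =
        ∑ α with fix none α ∧ π α ∈ S, (if ∀ θ, π θ ∈ S then (l : ℝ) ^ 2 else l) / (l : ℝ) ^ n := by
      have h3 : (Finset.univ.filter fun α => fix none α ∧ π α ∈ S) =
          (Finset.univ.filter fun α => π α ∈ S).filter fun α => fix none α := by
        ext α
        simp only [Finset.mem_filter, Finset.mem_univ, true_and]
        tauto
      rw [h3, Finset.sum_filter (s := Finset.univ.filter fun α => π α ∈ S)]
      refine Finset.sum_congr rfl fun α hα => ?_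
      rw [Finset.mem_filter] at hα
      unfold wt'
      by_cases h4 : fix none α
      · rw [if_pos ⟨h4, hS⟩, if_pos h4, h1 α hα.2]
      · rw [if_neg (fun h5 => h4 h5.1), if_neg h4]
    rw [h2, Finset.sum_const, nsmul_eq_mul, ← mul_div_assoc, div_lt_one (pow_pos hl n)]
    have h3 : ((a * (if ∀ θ, π θ ∈ S then l ^ 2 else l) : ℕ) : ℝ) < ((l ^ n : ℕ) : ℝ) := by
      exact_mod_cast h
    push_cast at h3
    exact h3
  · have h1 : (∑ α with π α ∈ S, wt' l π fix α S) = 0 := by
      refine Finset.sum_eq_zero fun α _ => ?_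
      unfold wt'
      rw [if_neg (fun h => hS h.2)]
    rw [h1]
    exact one_pos

/-- Choice of the number of rounds. -/
theorem exists_rounds (hdiag : ∀ S : Finset I, (∑ α with π α ∈ S, wt' l π fix α S) < 1) (A : ℝ)
    (hA : 0 ≤ A) : ∃ N : ℕ, 0 < N ∧ ∀ S : Finset I, A * part π (wt' l π fix) N S < 1 := by
  obtain ⟨δ, hδ0, hδ1, hδ⟩ : ∃ δ : ℝ, 0 ≤ δ ∧ δ < 1 ∧
      ∀ S : Finset I, (∑ α with π α ∈ S, wt' l π fix α S) ≤ δ := by
    obtain ⟨S0, -, hS0⟩ := Finset.exists_max_image (Finset.univ : Finset (Finset I))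
      (fun S => ∑ α with π α ∈ S, wt' l π fix α S) ⟨∅, Finset.mem_univ _⟩
    exact ⟨_, Finset.sum_nonneg fun z _ => wt'_nonneg l π fix z S0, hdiag S0,
      fun S => hS0 S (Finset.mem_univ _)⟩
  obtain ⟨M, hM0, hM⟩ : ∃ M : ℝ, 0 ≤ M ∧
      ∀ S : Finset I, (∑ α with π α ∉ S, wt' l π fix α S) ≤ M := by
    obtain ⟨S0, -, hS0⟩ := Finset.exists_max_image (Finset.univ : Finset (Finset I))
      (fun S => ∑ α with π α ∉ S, wt' l π fix α S) ⟨∅, Finset.mem_univ _⟩
    exact ⟨_, Finset.sum_nonneg fun z _ => wt'_nonneg l π fix z S0,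
      fun S => hS0 S (Finset.mem_univ _)⟩
  set K : ℝ := 2 * M / (1 - δ) + 1 with hK
  have h1δ : 0 < 1 - δ := by linarith
  have hK1 : 1 ≤ K := by
    rw [hK]
    have : 0 ≤ 2 * M / (1 - δ) := by positivity
    linarith
  have hK0 : 0 < K := by linarith
  have hlam : δ + M / K < 1 := by
    have h1 : M / K ≤ (1 - δ) / 2 := by
      rw [div_le_div_iff₀ hK0 (by norm_num), hK]
      have : (1 - δ) * (2 * M / (1 - δ) + 1) = 2 * M + (1 - δ) := by field_simp
      rw [this]; linarith
    linarith
  have hlam0 : 0 ≤ δ + M / K := by positivity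
  set C : ℝ := A * K ^ (Fintype.card I) + 1 with hC
  have hC0 : 0 < C := by rw [hC]; positivity
  obtain ⟨N, hN⟩ := exists_pow_lt_of_lt_one (show (0 : ℝ) < 1 / C by positivity) hlam
  refine ⟨N + 1, Nat.succ_pos N, fun S => ?_⟩
  have hp := part_bound π (wt' l π fix) (wt'_nonneg l π fix) M δ K hδ0 hM0 hK1 hδ hM (N + 1) S
  have hp2 : K ^ (Fintype.card I - S.card) ≤ K ^ (Fintype.card I) :=
    pow_le_pow_right₀ hK1 (Nat.sub_le _ _)
  have hp3 : (δ + M / K) ^ (N + 1) ≤ (δ + M / K) ^ N :=
    pow_le_pow_of_le_one hlam0 hlam.le (Nat.le_succ N)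
  have hp4 : 0 ≤ (δ + M / K) ^ N := pow_nonneg hlam0 N
  calc A * part π (wt' l π fix) (N + 1) S
      ≤ A * (K ^ (Fintype.card I) * (δ + M / K) ^ N) := by
        refine mul_le_mul_of_nonneg_left (hp.trans ?_) hA
        exact mul_le_mul hp2 hp3 (pow_nonneg hlam0 _) (by positivity)
    _ = A * K ^ (Fintype.card I) * (δ + M / K) ^ N := by ring
    _ ≤ C * (δ + M / K) ^ N := mul_le_mul_of_nonneg_right (by rw [hC]; linarith) hp4
    _ < C * (1 / C) := mul_lt_mul_of_pos_left hN hC0
    _ = 1 := by field_simp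

/-- The types of the rounds. -/
noncomputable def tyf (N : ℕ) : Fin (N + Fintype.card T) → Option T :=
  Fin.addCases (fun _ => none) (fun i => some ((Fintype.equivFin T).symm i))

/-- The play attached to bits. -/
noncomputable def ply (N : ℕ) (z : Fin N → Fin (N + Fintype.card T) → Y) :
    Ply T Y (N + Fintype.card T) := fun m =>
  (tyf N m, fun k => if h : (k : ℕ) < N ∧ k < m then z ⟨k, h.1⟩ m else 0)

theorem ply_congr (N : ℕ) (z z' : Fin N → Fin (N + Fintype.card T) → Y) (k : Fin N)
    (h : ∀ j < k, z j = z' j) (m : Fin (N + Fintype.card T)) (hm : m ≤ Fin.castAdd _ k) :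
    ply N z m = ply N z' m := by
  unfold ply
  refine Prod.ext rfl (funext fun j => ?_)
  change (if h : (j : ℕ) < N ∧ j < m then z ⟨j, h.1⟩ m else 0) =
    if h : (j : ℕ) < N ∧ j < m then z' ⟨j, h.1⟩ m else 0
  by_cases hj : (j : ℕ) < N ∧ j < m
  · rw [dif_pos hj, dif_pos hj, h]
    have h1 : j < Fin.castAdd (Fintype.card T) k := lt_of_lt_of_le hj.2 hm
    exact h1
  · rw [dif_neg hj, dif_neg hj]

theorem ty_castAdd (N : ℕ) (k : Fin N) : tyf (T := T) N (Fin.castAdd _ k) = none := by
  unfold tyf
  rw [Fin.addCases_left]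

/-- Orbits used after `k`. -/
noncomputable def used (N : ℕ) (c0 : Fin (N + Fintype.card T) → X) (k : Fin N) : Finset I :=
  (Finset.univ.filter (fun m => Fin.castAdd _ k < m)).image (fun m => π (c0 m))

theorem used_eq (N : ℕ) (c : Fin N → X) (d : Fin (Fintype.card T) → X) (k : Fin N) :
    used (T := T) π N (Fin.append c d) k = ugt π (Finset.univ.image fun i => π (d i)) c k := by
  ext O
  simp only [used, ugt, Finset.mem_union, Finset.mem_image, Finset.mem_filter, Finset.mem_univ,
    true_and]
  constructor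
  · rintro ⟨m, hm, rfl⟩
    induction m using Fin.addCases with
    | left m =>
      right
      refine ⟨m, ?_, by rw [Fin.append_left]⟩
      exact hm
    | right m => left; exact ⟨m, by rw [Fin.append_right]⟩
  · rintro (⟨m, rfl⟩ | ⟨m, hm, rfl⟩)
    · refine ⟨Fin.natAdd N m, ?_, by rw [Fin.append_right]⟩
      change (k : ℕ) < N + m
      have := k.2
      omega
    · exact ⟨Fin.castAdd _ m, hm, by rw [Fin.append_left]⟩


/-- The row of bits is determined up to few possibilities. -/
theorem row_card (hadd : ∀ τ α θ y y', bit τ α θ (y + y') = bit τ α θ y + bit τ α θ y')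
    (hbit : ∀ τ α, fix τ α → ∀ a : X → ZMod l, ∃ y, ∀ θ, π θ = π α → bit τ α θ y = a θ)
    (N : ℕ) (c0 : Fin (N + Fintype.card T) → X) (hc0 : ∀ m, fix (tyf N m) (c0 m)) (k : Fin N)
    (α : X) (a : X → ZMod l) :
    ((Finset.univ.filter fun y : Fin (N + Fintype.card T) → Y =>
      ∀ θ, θ ≠ α → π θ ∈ used (T := T) π N c0 k →
        (∑ m with Fin.castAdd _ k < m ∧ π (c0 m) = π θ, bit (tyf N m) (c0 m) θ (y m)) = a θ).card : ℝ) =
      Fintype.card (Fin (N + Fintype.card T) → Y) *
        (1 / (l : ℝ)) ^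
          (Finset.univ.filter fun θ : X => θ ≠ α ∧ π θ ∈ used (T := T) π N c0 k).card := by
  have hl : (0 : ℝ) < l := by exact_mod_cast (Fact.out : l.Prime).pos
  let E : Type := {θ : X // θ ≠ α ∧ π θ ∈ used (T := T) π N c0 k}
  have hb0 : ∀ τ β θ, bit τ β θ 0 = 0 := by
    intro τ β θ
    have h := hadd τ β θ 0 0
    rw [add_zero] at h
    exact left_eq_add.1 h
  let L : (Fin (N + Fintype.card T) → Y) →+ (E → ZMod l) :=
    { toFun := fun y θ => ∑ m with Fin.castAdd _ k < m ∧ π (c0 m) = π θ.1,
        bit (tyf N m) (c0 m) θ.1 (y m)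
      map_zero' := by
        funext θ
        exact Finset.sum_eq_zero fun m _ => hb0 _ _ _
      map_add' := by
        intro y y'
        funext θ
        change _ = (∑ m with Fin.castAdd _ k < m ∧ π (c0 m) = π θ.1,
          bit (tyf N m) (c0 m) θ.1 (y m)) + (∑ m with Fin.castAdd _ k < m ∧ π (c0 m) = π θ.1,
          bit (tyf N m) (c0 m) θ.1 (y' m))
        rw [← Finset.sum_add_distrib]
        exact Finset.sum_congr rfl fun m _ => hadd _ _ _ _ _ }
  have hL : Function.Surjective L := by
    intro b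
    let b' : X → ZMod l := fun θ => if h : θ ≠ α ∧ π θ ∈ used (T := T) π N c0 k then b ⟨θ, h⟩ else 0
    have hm : ∀ i : I, i ∈ used (T := T) π N c0 k → ∃ m : Fin (N + Fintype.card T),
        Fin.castAdd _ k < m ∧ π (c0 m) = i := by
      intro i hi
      unfold used at hi
      rw [Finset.mem_image] at hi
      obtain ⟨m, hm, rfl⟩ := hi
      rw [Finset.mem_filter] at hm
      exact ⟨m, hm.2, rfl⟩
    choose m hm1 hm2 using hm
    choose y hy using fun n => hbit (tyf N n) (c0 n) (hc0 n) b'
    refine ⟨fun n => if h : π (c0 n) ∈ used (T := T) π N c0 k then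
      (if n = m _ h then y n else 0) else 0, ?_⟩
    funext θ
    change (∑ n with Fin.castAdd _ k < n ∧ π (c0 n) = π θ.1,
      bit (tyf N n) (c0 n) θ.1 (if h : π (c0 n) ∈ used (T := T) π N c0 k then
      (if n = m _ h then y n else 0) else 0)) = b θ
    have hu := θ.2.2
    rw [Finset.sum_eq_single (m _ hu)]
    · have h1 : π (c0 (m _ hu)) ∈ used (T := T) π N c0 k := by rw [hm2]; exact hu
      have h2 : m _ hu = m _ h1 := by
        congr 1
        exact (hm2 _ hu).symm
      rw [dif_pos h1, if_pos h2, hy _ θ.1 (hm2 _ hu).symm]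
      simp only [b']
      rw [dif_pos θ.2]
    · intro n hn hne
      rw [Finset.mem_filter] at hn
      have h1 : π (c0 n) ∈ used (T := T) π N c0 k := by rw [hn.2.2]; exact hu
      rw [dif_pos h1, if_neg, hb0]
      intro h2
      apply hne
      rw [h2]
      congr 1
      exact hn.2.2
    · intro h1
      exact absurd (Finset.mem_filter.2 ⟨Finset.mem_univ _, hm1 _ hu, hm2 _ hu⟩) h1
  have h1 := card_fiber L hL (fun θ => a θ.1)
  have h2 : (Finset.univ.filter fun y : Fin (N + Fintype.card T) → Y =>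
      ∀ θ, θ ≠ α → π θ ∈ used (T := T) π N c0 k →
        (∑ m with Fin.castAdd _ k < m ∧ π (c0 m) = π θ, bit (tyf N m) (c0 m) θ (y m)) = a θ) =
      Finset.univ.filter fun y => L y = fun θ => a θ.1 := by
    ext y
    simp only [Finset.mem_filter, Finset.mem_univ, true_and]
    constructor
    · intro h
      funext θ
      exact h θ.1 θ.2.1 θ.2.2
    · intro h θ h3 h4
      exact congrFun h ⟨θ, h3, h4⟩
  have h3 : Fintype.card (E → ZMod l) = l ^ (Finset.univ.filter fun θ : X =>
      θ ≠ α ∧ π θ ∈ used (T := T) π N c0 k).card := by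
    rw [Fintype.card_fun, ZMod.card, Fintype.card_subtype]
  rw [h2]
  rw [h3] at h1
  have h4 : ((Finset.univ.filter fun y => L y = fun θ => a θ.1).card : ℝ) *
      (l : ℝ) ^ (Finset.univ.filter fun θ : X =>
        θ ≠ α ∧ π θ ∈ used (T := T) π N c0 k).card =
      Fintype.card (Fin (N + Fintype.card T) → Y) := by
    have h5 : (((Finset.univ.filter fun y => L y = fun θ => a θ.1).card *
      l ^ (Finset.univ.filter fun θ : X =>
        θ ≠ α ∧ π θ ∈ used (T := T) π N c0 k).card : ℕ) : ℝ) =
        ((Fintype.card (Fin (N + Fintype.card T) → Y) : ℕ) : ℝ) := by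
      congr 1
      convert h1
    rw [Nat.cast_mul, Nat.cast_pow] at h5
    exact h5
  rw [← h4, one_div, inv_pow]
  field_simp

end

end Comb

open Classical Comb Pool.TP2.Comb in
theorem no_strategy {I X T Y V : Type} [Fintype I] [Fintype X] [Fintype T] [AddCommGroup Y]
    [Fintype Y] [Fintype V] (l : ℕ) [Fact l.Prime] (π : X → I) (fix : Option T → X → Prop)
    (bit : Option T → X → X → Y → ZMod l)
    (hadd : ∀ τ α θ y y', bit τ α θ (y + y') = bit τ α θ y + bit τ α θ y')
    (hbit : ∀ τ α, fix τ α → ∀ a : X → ZMod l, ∃ y, ∀ θ, π θ = π α → bit τ α θ y = a θ)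
    (κ : X → ZMod l) (hκ : ∀ θ, κ θ ≠ 0)
    (hW : ∀ S : Finset I, (∀ τ : T, ∃ α, fix (some τ) α ∧ π α ∈ S) →
      (Finset.univ.filter fun α => fix none α ∧ π α ∈ S).card *
        (if ∀ θ, π θ ∈ S then l ^ 2 else l) < l ^ (Finset.univ.filter fun θ => π θ ∈ S).card) :
    ∃ (M : ℕ) (ty : Fin M → Option T), (∃ k, ty k = none) ∧ (∀ τ, ∃ k, ty k = some τ) ∧
      ∀ (c : Ply T Y M → Fin M → X) (v : Ply T Y M → V) (β : Ply T Y M → Fin M → ZMod l)
        (χ : Fin M → Fin M → X → X → Ply T Y M → ZMod l)
        (f : Fin M → X → V → X → Ply T Y M → ZMod l),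
      (∀ x : Ply T Y M, (∀ k, (x k).1 = ty k) → ∀ k, fix (ty k) (c x k)) →
      (∀ k m α θ (x : Ply T Y M), (∀ k, (x k).1 = ty k) → ty k = none → k < m →
        fix (ty m) α → χ k m α θ x = bit (ty m) α θ ((x m).2 k)) →
      (∀ k m α θ (x y : Ply T Y M), m ≤ k → (∀ j ≤ k, x j = y j) → χ k m α θ x = χ k m α θ y) →
      (∀ k θ v α (x y : Ply T Y M), (∀ j ≤ k, x j = y j) → f k θ v α x = f k θ v α y) →
      (∀ x : Ply T Y M, (∀ k, (x k).1 = ty k) → ∀ k, ty k = none → ∀ θ, θ ≠ c x k →
        (∑ m with π (c x m) = π θ, χ k m (c x m) θ x) = κ θ * β x k + f k θ (v x) (c x k) x) →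
      False := by
  have hlpos : (0 : ℝ) < l := by exact_mod_cast (Fact.out : l.Prime).pos
  have hl1 : (1 : ℝ) ≤ l := by exact_mod_cast (Fact.out : l.Prime).one_lt.le
  obtain ⟨N, hN0, hN⟩ := exists_rounds (T := T) l π fix (diag l π fix hW)
    ((Fintype.card V : ℝ) * (Fintype.card (Fin (Fintype.card T) → X) : ℝ)) (by positivity)
  refine ⟨N + Fintype.card T, tyf N, ⟨Fin.castAdd _ ⟨0, hN0⟩, ty_castAdd N _⟩, ?_, ?_⟩
  · intro τ
    refine ⟨Fin.natAdd N (Fintype.equivFin T τ), ?_⟩
    unfold tyf
    rw [Fin.addCases_right, Equiv.symm_apply_apply]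
  intro c v β χ f h1 h2 h3 h4 h5
  set Z : Type := Fin (N + Fintype.card T) → Y with hZ
  have hZpos : (0 : ℝ) < Fintype.card Z := by exact_mod_cast Fintype.card_pos
  -- classes of plays
  let Acl : (Fin (N + Fintype.card T) → X) → V → Finset (Fin N → Z) := fun c0 v0 =>
    Finset.univ.filter fun z => c (ply N z) = c0 ∧ v (ply N z) = v0
  have hty : ∀ z : Fin N → Z, ∀ k, (ply (T := T) N z k).1 = tyf N k := fun z k => rfl
  -- the bound for a class
  have hbound : ∀ (c0 : Fin (N + Fintype.card T) → X) (v0 : V),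
      ((Acl c0 v0).card : ℝ) ≤ ∏ k : Fin N, ((Fintype.card Z : ℝ) *
        wt' l π fix (c0 (Fin.castAdd _ k)) (used (T := T) π N c0 k)) := by
    intro c0 v0
    by_cases hA : (Acl c0 v0).Nonempty
    swap
    · rw [Finset.not_nonempty_iff_eq_empty] at hA
      rw [hA, Finset.card_empty, Nat.cast_zero]
      exact Finset.prod_nonneg fun k _ => mul_nonneg hZpos.le (wt'_nonneg l π fix _ _)
    obtain ⟨z1, hz1⟩ := hA
    have hz1' := (Finset.mem_filter.1 hz1).2
    have hfix : ∀ m, fix (tyf N m) (c0 m) := by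
      intro m
      have := h1 (ply N z1) (hty z1) m
      rwa [hz1'.1] at this
    refine seq_count N _ _ (fun k => mul_nonneg hZpos.le (wt'_nonneg l π fix _ _)) ?_
    intro k z0 hz0
    have hz0' := (Finset.mem_filter.1 hz0).2
    have hgd : fix none (c0 (Fin.castAdd _ k)) ∧ Gd π fix (used (T := T) π N c0 k) := by
      refine ⟨?_, fun τ => ?_⟩
      · have := hfix (Fin.castAdd _ k)
        rwa [ty_castAdd] at this
      · refine ⟨c0 (Fin.natAdd N (Fintype.equivFin T τ)), ?_, ?_⟩
        · have := hfix (Fin.natAdd N (Fintype.equivFin T τ))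
          unfold tyf at this
          rwa [Fin.addCases_right, Equiv.symm_apply_apply] at this
        · unfold used
          refine Finset.mem_image_of_mem _ (Finset.mem_filter.2 ⟨Finset.mem_univ _, ?_⟩)
          change (k : ℕ) < N + _
          have := k.2
          omega
    unfold wt'
    rw [if_pos hgd]
    -- the constant part of the conditions
    set kk : Fin (N + Fintype.card T) := Fin.castAdd _ k with hkk
    let Cst : X → ZMod l := fun θ => f kk θ v0 (c0 kk) (ply N z0) -
      ∑ m with m ≤ kk ∧ π (c0 m) = π θ, χ kk m (c0 m) θ (ply N z0)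
    have key : ∀ z ∈ Acl c0 v0, (∀ j < k, z j = z0 j) → ∀ θ, θ ≠ c0 kk →
        (∑ m with kk < m ∧ π (c0 m) = π θ, bit (tyf N m) (c0 m) θ (z k m)) =
          κ θ * β (ply N z) kk + Cst θ := by
      intro z hz hj θ hθ
      have hz' := (Finset.mem_filter.1 hz).2
      have hply : ∀ m ≤ kk, ply (T := T) N z m = ply N z0 m := fun m hm => ply_congr N z z0 k hj m hm
      have e1 := h5 (ply N z) (hty z) kk (ty_castAdd N k) θ (by rw [hz'.1]; exact hθ)
      rw [hz'.1, hz'.2] at e1
      have e2 : (∑ m with π (c0 m) = π θ, χ kk m (c0 m) θ (ply N z)) =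
          (∑ m with kk < m ∧ π (c0 m) = π θ, bit (tyf N m) (c0 m) θ (z k m)) +
          ∑ m with m ≤ kk ∧ π (c0 m) = π θ, χ kk m (c0 m) θ (ply N z0) := by
        rw [← Finset.sum_filter_add_sum_filter_not (Finset.univ.filter fun m => π (c0 m) = π θ)
          (fun m => kk < m)]
        congr 1
        · have e3 : (Finset.univ.filter fun m => π (c0 m) = π θ).filter (fun m => kk < m) =
              Finset.univ.filter fun m => kk < m ∧ π (c0 m) = π θ := by
            ext m
            simp only [Finset.mem_filter, Finset.mem_univ, true_and]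
            tauto
          rw [e3]
          refine Finset.sum_congr rfl fun m hm => ?_
          rw [Finset.mem_filter] at hm
          rw [h2 kk m (c0 m) θ (ply N z) (hty z) (ty_castAdd N k) hm.2.1 (hfix m)]
          congr 1
          change (if h : (kk : ℕ) < N ∧ kk < m then z ⟨kk, h.1⟩ m else 0) = z k m
          have e4 : (kk : ℕ) < N ∧ kk < m := ⟨k.2, hm.2.1⟩
          rw [dif_pos e4]
          rfl
        · have e3 : (Finset.univ.filter fun m => π (c0 m) = π θ).filter (fun m => ¬ kk < m) =
              Finset.univ.filter fun m => m ≤ kk ∧ π (c0 m) = π θ := by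
            ext m
            simp only [Finset.mem_filter, Finset.mem_univ, true_and, not_lt]
            tauto
          rw [e3]
          refine Finset.sum_congr rfl fun m hm => ?_
          rw [Finset.mem_filter] at hm
          exact h3 kk m (c0 m) θ _ _ hm.2.1 hply
      have e5 : f kk θ v0 (c0 kk) (ply N z) = f kk θ v0 (c0 kk) (ply N z0) :=
        h4 kk θ v0 (c0 kk) _ _ hply
      rw [e2, e5] at e1
      simp only [Cst]
      rw [← add_sub_assoc, ← e1, add_sub_cancel_right]
    -- the possible rows for a given value of the free parameter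
    let Row : ZMod l → Finset Z := fun b => Finset.univ.filter fun y : Z =>
      ∀ θ, θ ≠ c0 kk → π θ ∈ used (T := T) π N c0 k →
        (∑ m with kk < m ∧ π (c0 m) = π θ, bit (tyf N m) (c0 m) θ (y m)) = κ θ * b + Cst θ
    have hRow : ∀ b, ((Row b).card : ℝ) = Fintype.card Z *
        (1 / (l : ℝ)) ^ (Finset.univ.filter fun θ : X =>
          θ ≠ c0 kk ∧ π θ ∈ used (T := T) π N c0 k).card := fun b =>
      row_card l π fix bit hadd hbit N c0 hfix k (c0 kk) (fun θ => κ θ * b + Cst θ)
    have hsub : ∀ y : Z, (∃ z ∈ Acl c0 v0, (∀ j < k, z j = z0 j) ∧ z k = y) →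
        ∃ z ∈ Acl c0 v0, (∀ j < k, z j = z0 j) ∧ y ∈ Row (β (ply N z) kk) := by
      rintro y ⟨z, hz, hj, rfl⟩
      exact ⟨z, hz, hj, Finset.mem_filter.2 ⟨Finset.mem_univ _, fun θ hθ _ => key z hz hj θ hθ⟩⟩
    have hmain : ∀ B : Finset Z, (∀ y ∈ B, ∃ z ∈ Acl c0 v0, (∀ j < k, z j = z0 j) ∧ z k = y) →
        (B.card : ℝ) ≤ (Fintype.card Z : ℝ) *
          Pool.KT.Comb.wt l π (c0 kk) (used (T := T) π N c0 k) := by
      intro B hB
      unfold Pool.KT.Comb.wt
      by_cases hall : ∀ θ, θ ≠ c0 kk → π θ ∈ used (T := T) π N c0 k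
      · rw [if_pos hall]
        have e1 : B ⊆ Finset.univ.biUnion Row := by
          intro y hy
          obtain ⟨z, hz, hj, h6⟩ := hsub y (hB y hy)
          exact Finset.mem_biUnion.2 ⟨_, Finset.mem_univ _, h6⟩
        have e2 : B.card ≤ ∑ b : ZMod l, (Row b).card :=
          (Finset.card_le_card e1).trans Finset.card_biUnion_le
        have e3 : (B.card : ℝ) ≤ ∑ b : ZMod l, ((Row b).card : ℝ) := by
          rw [← Nat.cast_sum]
          exact Nat.cast_le.2 e2
        refine e3.trans (le_of_eq ?_)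
        rw [Finset.sum_congr rfl fun b _ => hRow b, Finset.sum_const, Finset.card_univ, ZMod.card,
          nsmul_eq_mul]
        ring
      · rw [if_neg hall, one_mul]
        push Not at hall
        obtain ⟨θ1, hθ1, hθ1u⟩ := hall
        have hb : ∀ z ∈ Acl c0 v0, (∀ j < k, z j = z0 j) →
            β (ply N z) kk = - (κ θ1)⁻¹ * Cst θ1 := by
          intro z hz hj
          have e1 := key z hz hj θ1 hθ1
          have e2 : (∑ m with kk < m ∧ π (c0 m) = π θ1, bit (tyf N m) (c0 m) θ1 (z k m)) = 0 := by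
            refine Finset.sum_eq_zero fun m hm => ?_
            exfalso
            rw [Finset.mem_filter] at hm
            apply hθ1u
            rw [← hm.2.2]
            exact Finset.mem_image_of_mem _ (Finset.mem_filter.2 ⟨Finset.mem_univ _, hm.2.1⟩)
          rw [e2] at e1
          have e3 : κ θ1 * β (ply N z) kk = - Cst θ1 := by
            rw [eq_neg_iff_add_eq_zero]
            exact e1.symm
          have e4 : β (ply N z) kk = (κ θ1)⁻¹ * (κ θ1 * β (ply N z) kk) := by
            rw [← mul_assoc, inv_mul_cancel₀ (hκ θ1), one_mul]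
          rw [e4, e3]
          ring
        have e1 : B ⊆ Row (- (κ θ1)⁻¹ * Cst θ1) := by
          intro y hy
          obtain ⟨z, hz, hj, h6⟩ := hsub y (hB y hy)
          rwa [hb z hz hj] at h6
        rw [← hRow (- (κ θ1)⁻¹ * Cst θ1)]
        exact Nat.cast_le.2 (Finset.card_le_card e1)
    refine hmain _ fun y hy => ?_
    simp only [Finset.mem_filter, Finset.mem_univ, true_and] at hy
    exact hy
  -- the total count
  have htot : (Fintype.card Z : ℝ) ^ N ≤ ∑ v0 : V, ∑ c0 : Fin (N + Fintype.card T) → X,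
      ∏ k : Fin N, ((Fintype.card Z : ℝ) *
        wt' l π fix (c0 (Fin.castAdd _ k)) (used (T := T) π N c0 k)) := by
    have e1 : (Fintype.card Z : ℝ) ^ N = ((Finset.univ : Finset (Fin N → Z)).card : ℝ) := by
      have e0 : Fintype.card (Fin N → Z) = Fintype.card Z ^ N := by
        rw [Fintype.card_fun, Fintype.card_fin]
      rw [Finset.card_univ, e0, Nat.cast_pow]
    rw [e1]
    clear e1
    have e2 : (Finset.univ : Finset (Fin N → Z)) ⊆
        (Finset.univ : Finset (V × (Fin (N + Fintype.card T) → X))).biUnion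
          (fun q => Acl q.2 q.1) := by
      intro z _
      exact Finset.mem_biUnion.2 ⟨(v (ply N z), c (ply N z)), Finset.mem_univ _,
        Finset.mem_filter.2 ⟨Finset.mem_univ _, rfl, rfl⟩⟩
    have e3 : ((Finset.univ : Finset (Fin N → Z)).card : ℝ) ≤
        ∑ q : V × (Fin (N + Fintype.card T) → X), ((Acl q.2 q.1).card : ℝ) := by
      exact_mod_cast (Finset.card_le_card e2).trans Finset.card_biUnion_le
    refine e3.trans ?_
    rw [Fintype.sum_prod_type]
    exact Finset.sum_le_sum fun v0 _ => Finset.sum_le_sum fun c0 _ => hbound c0 v0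
  have hsum : (∑ c0 : Fin (N + Fintype.card T) → X,
      ∏ k : Fin N, ((Fintype.card Z : ℝ) *
        wt' l π fix (c0 (Fin.castAdd _ k)) (used (T := T) π N c0 k))) =
      (Fintype.card Z : ℝ) ^ N * ∑ d : Fin (Fintype.card T) → X,
        part π (wt' l π fix) N (Finset.univ.image fun i => π (d i)) := by
    rw [← (Fin.appendEquiv N (Fintype.card T)).sum_comp, Fintype.sum_prod_type,
      Finset.sum_comm, Finset.mul_sum]
    refine Finset.sum_congr rfl fun d _ => ?_
    unfold part
    rw [Finset.mul_sum]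
    refine Finset.sum_congr rfl fun c1 _ => ?_
    rw [Finset.prod_mul_distrib, Finset.prod_const, Finset.card_univ, Fintype.card_fin]
    congr 1
    refine Finset.prod_congr rfl fun k _ => ?_
    have e1 : (Fin.appendEquiv N (Fintype.card T)) (c1, d) = Fin.append c1 d := rfl
    rw [e1, used_eq, Fin.append_left]
  rw [Finset.sum_const, Finset.card_univ, nsmul_eq_mul, hsum] at htot
  -- every partition function is small
  have hZN : 0 < (Fintype.card Z : ℝ) ^ N := pow_pos hZpos N
  by_cases hV : Fintype.card V = 0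
  · rw [hV, Nat.cast_zero, zero_mul] at htot
    linarith
  by_cases hD : Fintype.card (Fin (Fintype.card T) → X) = 0
  · have : IsEmpty (Fin (Fintype.card T) → X) := Fintype.card_eq_zero_iff.1 hD
    rw [Fintype.sum_empty, mul_zero, mul_zero] at htot
    linarith
  have hVp : (0 : ℝ) < Fintype.card V := by exact_mod_cast Nat.pos_of_ne_zero hV
  have hDp : (0 : ℝ) < Fintype.card (Fin (Fintype.card T) → X) := by
    exact_mod_cast Nat.pos_of_ne_zero hD
  have hDne : Nonempty (Fin (Fintype.card T) → X) := Fintype.card_pos_iff.1 (Nat.pos_of_ne_zero hD)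
  have e1 : (∑ d : Fin (Fintype.card T) → X,
      part π (wt' l π fix) N (Finset.univ.image fun i => π (d i))) <
      ∑ d : Fin (Fintype.card T) → X,
        (1 / ((Fintype.card V : ℝ) * (Fintype.card (Fin (Fintype.card T) → X) : ℝ))) := by
    refine Finset.sum_lt_sum_of_nonempty Finset.univ_nonempty fun d _ => ?_
    rw [lt_div_iff₀ (mul_pos hVp hDp), mul_comm]
    exact hN _
  rw [Finset.sum_const, Finset.card_univ, nsmul_eq_mul] at e1
  have e2 : (Fintype.card V : ℝ) * ((Fintype.card Z : ℝ) ^ N * ∑ d : Fin (Fintype.card T) → X,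
        part π (wt' l π fix) N (Finset.univ.image fun i => π (d i))) <
      (Fintype.card Z : ℝ) ^ N := by
    calc (Fintype.card V : ℝ) * ((Fintype.card Z : ℝ) ^ N * ∑ d : Fin (Fintype.card T) → X,
        part π (wt' l π fix) N (Finset.univ.image fun i => π (d i)))
        < (Fintype.card V : ℝ) * ((Fintype.card Z : ℝ) ^ N *
          ((Fintype.card (Fin (Fintype.card T) → X) : ℝ) *
          (1 / ((Fintype.card V : ℝ) * (Fintype.card (Fin (Fintype.card T) → X) : ℝ))))) :=
          mul_lt_mul_of_pos_left (mul_lt_mul_of_pos_left e1 hZN) hVp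
      _ = (Fintype.card Z : ℝ) ^ N := by field_simp
  linarith

end Pool.KT
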