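import Pool.Agent.Helper54.KT.Defs
import Pool.Agent.TP2.Descent

/-!
The descent relations.

Proof (see `Pool.TP2.Descent`, the lemmas `good_notMem`, `smul_ne_bot`, `cnt_translate`, `smul_P`,
`mem_zpowers_of` and the lemmas of `Pool.TP2.Reps` can be reused; `sum_translate` etc. are to be
adapted). Call a prime `Q` good if it is nonzero and does not contain `D`. Write
`L y = lin a b (pt y)`. (1) For `x ≠ y` and `Q` good not both `L x`, `L y` are in `Q`: if
`L x ∈ Q` then `L y` is congruent modulo `Q` to `b * det (pt x) (pt y)` if `pt x` is finite and to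
`a * det (pt x) (pt y)` if `pt x = none` (then `b ∈ Q`); `a`, `b` are not both in `Q`, and if
`pt x = some θ`, `a - b θ ∈ Q`, then `b ∉ Q`. (2) `s • L y = L (s • y)`; as `σ n` fixes
`(x n).P`, `σ n • c n = c n` by uniqueness. `L y ∈ s • (x n).P` iff `y = s • c n`.
(3) Let `g y = ((-κ y : ZMod l)).val` and
`w y = L y * ∏ m, ∏ s ∈ cosetReps (σ m) with s • c m = y, (s • (x m).π) ^ g y`. For `Q` good,
`l ∣ cnt Q (w y)`: if `Q = s₀ • (x n).P` (then `n` is unique and `s₀` is unique modulo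
`zpowers (σ n)`, so exactly one representative `s = rep (σ n) s₀` of `cosetReps (σ n)` has
`s • (x n).P = Q`) and `y = s₀ • c n` then `cnt Q (w y) = cnt Q (L y) + g y` is zero modulo `l` by
`h2`; if `y ≠ s₀ • c n` then `L y ∉ Q` and no factor of the product is in `Q`; if `Q` is not of
this form then no factor of the product is in `Q` and `cnt Q (L y)` is zero or divisible by `l`
by `h2`. By `hU` there are `u y ∈ U` with `w y * u y` an `l`-th power `z ^ l`.
(4) Let `(x k).P` have a symbol and `y ≠ c k`. Then `L y`, all the factors of `w y` (if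
`s • (x m).π ∈ (x k).P` then `m = k` and `s ∈ zpowers (σ k)`, so `y = s • c k = c k`), `u y` and
`det (pt (c k)) (pt y)` are not in `(x k).P`, `sy k (z ^ l) = 0`, and
`sy k (L y) = sy k b + sy k (det ..)` if `pt (c k)` is finite, `sy k a + sy k (det ..)` if not.
So the relation holds with `β k = sy k b`, resp. `sy k a`.
-/

open NumberField
open scoped Pointwise BigOperators

namespace Pool.KT

open Pool.TP2

namespace DescentAux

open Pool.TP2.Reps Pool.TP2.Descent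

/-- the data of the descent -/
structure Data (K : Type) [Field K] [NumberField K] (G : Subgroup (K ≃ₐ[ℚ] K)) (l : ℕ)
    (X : Type) [MulAction G X] (M : ℕ) where
  pt : X → Option (𝓞 K)
  hinj : Function.Injective pt
  hpt : ∀ (s : G) (x : X), pt (s • x) = (pt x).map (fun θ => s • θ)
  D : ℤ
  D' : ℤ
  hDD' : D ∣ D'
  hdiff : ∀ x y : X, x ≠ y → ∀ Q : Ideal (𝓞 K), Q.IsPrime →
      det (pt x) (pt y) ∈ Q → (D : 𝓞 K) ∈ Q
  κ : X → ZMod l
  σ : Fin M → G
  x : Fin M → PD K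
  hx : ∀ n, (x n).Good D D' (σ n)
  hdist : ∀ m n, (x m).p = (x n).p → m = n
  a : 𝓞 K
  b : 𝓞 K
  ha : ∀ s : G, s • a = a
  hb : ∀ s : G, s • b = b
  hab : ∀ Q : Ideal (𝓞 K), Q.IsPrime → a ∈ Q → b ∈ Q → (D : 𝓞 K) ∈ Q
  hne : ∀ y : X, lin a b (pt y) ≠ 0
  c : Fin M → X
  hc : ∀ n, lin a b (pt (c n)) ∈ (x n).P
  h2 : ∀ (y : X) (Q : Ideal (𝓞 K)), Q.IsPrime → Q ≠ ⊥ → (D : 𝓞 K) ∉ Q →
      lin a b (pt y) ∈ Q →
      ((∃ n, ∃ s : G, Q = s • (x n).P) → ((cnt Q (lin a b (pt y)) : ℕ) : ZMod l) = κ y) ∧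
      ((¬ ∃ n, ∃ s : G, Q = s • (x n).P) → ((cnt Q (lin a b (pt y)) : ℕ) : ZMod l) = 0)

namespace Data

variable {K : Type} [Field K] [NumberField K] {G : Subgroup (K ≃ₐ[ℚ] K)} {l : ℕ}
  {X : Type} [MulAction G X] {M : ℕ} (d : Data K G l X M)

/-- the linear forms -/
noncomputable def z (y : X) : 𝓞 K := lin d.a d.b (d.pt y)

lemma smul_z (s : G) (y : X) : s • d.z y = d.z (s • y) := by
  unfold z
  rw [d.hpt]
  cases h : d.pt y with
  | none => exact d.hb s
  | some θ =>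
    change s • (d.a - d.b * θ) = d.a - d.b * (s • θ)
    rw [smul_sub, smul_mul', d.ha, d.hb]

/-- good primes -/
def good (Q : Ideal (𝓞 K)) : Prop := Q.IsPrime ∧ Q ≠ ⊥ ∧ (d.D : 𝓞 K) ∉ Q

lemma good_smul (s : K ≃ₐ[ℚ] K) {Q : Ideal (𝓞 K)} (hQ : d.good Q) : d.good (s • Q) :=
  ⟨isPrime_smul s hQ.1, smul_ne_bot s hQ.2.1, by rw [intCast_mem_smul_iff]; exact hQ.2.2⟩

lemma good_P (n : Fin M) : d.good (d.x n).P :=
  ⟨(d.hx n).isPrime, ne_bot_of_mem (d.hx n).prime (d.hx n).mem, good_notMem d.hDD' (d.hx n)⟩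

lemma b_notMem {Q : Ideal (𝓞 K)} (hQ : d.good Q) {y : X} {θ : 𝓞 K} (hy : d.pt y = some θ)
    (h1 : d.z y ∈ Q) : d.b ∉ Q := by
  intro hb
  apply hQ.2.2
  refine d.hab Q hQ.1 ?_ hb
  have : d.a = d.z y + d.b * θ := by
    unfold z
    rw [hy]
    change d.a = d.a - d.b * θ + d.b * θ
    ring
  rw [this]
  exact Q.add_mem h1 (Q.mul_mem_right _ hb)

lemma a_notMem {Q : Ideal (𝓞 K)} (hQ : d.good Q) (hb : d.b ∈ Q) : d.a ∉ Q :=
  fun ha => hQ.2.2 (d.hab Q hQ.1 ha hb)

/-- the linear form at another point, modulo a prime -/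
lemma z_congr {Q : Ideal (𝓞 K)} {x y : X} (hne : x ≠ y) (h1 : d.z x ∈ Q) :
    d.z y - (if (d.pt x).isSome then d.b else d.a) * det (d.pt x) (d.pt y) ∈ Q := by
  unfold z at h1 ⊢
  cases hx : d.pt x with
  | none =>
    rw [hx] at h1
    change d.b ∈ Q at h1
    cases hy : d.pt y with
    | none => exact absurd (d.hinj (hx.trans hy.symm)) hne
    | some θ =>
      have : lin d.a d.b (some θ) - (if (none : Option (𝓞 K)).isSome then d.b else d.a) *
          det (none : Option (𝓞 K)) (some θ) = d.b * (-θ) := by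
        simp only [Option.isSome_none, Bool.false_eq_true, if_false, lin, det]
        ring
      rw [this]
      exact Q.mul_mem_right _ h1
  | some c =>
    rw [hx] at h1
    change d.a - d.b * c ∈ Q at h1
    cases hy : d.pt y with
    | none =>
      have : lin d.a d.b none - (if (some c : Option (𝓞 K)).isSome then d.b else d.a) *
          det (some c : Option (𝓞 K)) none = 0 := by
        simp only [Option.isSome_some, if_true, lin, det]
        ring
      rw [this]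
      exact Q.zero_mem
    | some θ =>
      have : lin d.a d.b (some θ) - (if (some c : Option (𝓞 K)).isSome then d.b else d.a) *
          det (some c : Option (𝓞 K)) (some θ) = d.a - d.b * c := by
        simp only [Option.isSome_some, if_true, lin, det]
        ring
      rw [this]
      exact h1

lemma coef_notMem {Q : Ideal (𝓞 K)} (hQ : d.good Q) {x : X} (h1 : d.z x ∈ Q) :
    (if (d.pt x).isSome then d.b else d.a) ∉ Q := by
  cases hx : d.pt x with
  | none =>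
    simp only [Option.isSome_none, Bool.false_eq_true, if_false]
    apply d.a_notMem hQ
    unfold z at h1
    rw [hx] at h1
    exact h1
  | some c =>
    simp only [Option.isSome_some, if_true]
    exact d.b_notMem hQ hx h1

lemma det_notMem {Q : Ideal (𝓞 K)} (hQ : d.good Q) {x y : X} (hne : x ≠ y) :
    det (d.pt x) (d.pt y) ∉ Q := fun h => hQ.2.2 (d.hdiff x y hne Q hQ.1 h)

lemma z_unique {Q : Ideal (𝓞 K)} (hQ : d.good Q) {x y : X} (h1 : d.z x ∈ Q) (h2 : d.z y ∈ Q) :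
    x = y := by
  by_contra hne
  have h3 := Q.sub_mem h2 (d.z_congr hne h1)
  rw [sub_sub_cancel] at h3
  rcases hQ.1.mem_or_mem h3 with h4 | h4
  · exact d.coef_notMem hQ h1 h4
  · exact d.det_notMem hQ hne h4

lemma z_ne (y : X) : d.z y ≠ 0 := d.hne y

lemma cnt_z_zero {Q : Ideal (𝓞 K)} (hQ : d.good Q) {y : X} (h : d.z y ∉ Q) :
    cnt Q (d.z y) = 0 := by
  by_contra h0
  exact h ((cnt_pos_iff Q hQ.1 hQ.2.1 (d.z_ne y)).1 (Nat.pos_of_ne_zero h0))

open Classical in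
lemma cnt_pi {Q : Ideal (𝓞 K)} (hQ : d.good Q) (n : Fin M) (s : G) :
    cnt Q (s • (d.x n).π) = if Q = (s : K ≃ₐ[ℚ] K) • (d.x n).P then 1 else 0 := by
  have h := cnt_translate (d.hx n) (s : K ≃ₐ[ℚ] K) hQ.1 hQ.2.1 hQ.2.2
  rw [Subgroup.smul_def]
  split_ifs with h1
  · exact h.1 h1
  · exact h.2 h1

lemma idx_eq {m n : Fin M} {s s' : K ≃ₐ[ℚ] K} (h : s • (d.x m).P = s' • (d.x n).P) : m = n := by
  apply d.hdist
  have h1 : (((d.x m).p : ℕ) : 𝓞 K) ∈ s • (d.x m).P := by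
    have := (intCast_mem_smul_iff s (d.x m).P ((d.x m).p : ℤ)).2 (by simpa using (d.hx m).mem)
    simpa using this
  have h2 : (((d.x n).p : ℕ) : 𝓞 K) ∈ s • (d.x m).P := by
    rw [h]
    have := (intCast_mem_smul_iff s' (d.x n).P ((d.x n).p : ℤ)).2 (by simpa using (d.hx n).mem)
    simpa using this
  exact prime_eq (isPrime_smul s (d.hx m).isPrime) (d.hx m).prime (d.hx n).prime h1 h2

open Classical in
lemma sum_translate {n : Fin M} {s : G} (f : Fin M → G → ℕ) :
    (∑ m, ∑ t ∈ cosetReps (d.σ m), if (s : K ≃ₐ[ℚ] K) • (d.x n).P = (t : K ≃ₐ[ℚ] K) • (d.x m).P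
      then f m t else 0) = f n (rep (d.σ n) s) := by
  rw [Finset.sum_eq_single n]
  · rw [Finset.sum_eq_single (rep (d.σ n) s)]
    · rw [if_pos]
      obtain ⟨k, hk⟩ := rep_eq_mul (d.σ n) s
      rw [hk]
      push_cast
      rw [mul_smul, zpow_smul_of (smul_P (d.hx n))]
    · intro t ht hts
      rw [if_neg]
      intro h
      apply hts
      have := mem_zpowers_of (d.hx n) h
      rw [← rep_eq_iff] at this
      rw [this, rep_of_mem ht]
    · intro h
      exact absurd (rep_mem _ _) h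
  · intro m _ hm
    refine Finset.sum_eq_zero fun t _ => ?_
    rw [if_neg]
    intro h
    exact hm (d.idx_eq h).symm
  · intro h
    exact absurd (Finset.mem_univ n) h

lemma pi_ne (n : Fin M) (s : G) : s • (d.x n).π ≠ 0 := fun h =>
  (d.hx n).ne ((smul_eq_zero_iff_eq s).1 h)

lemma c_spec (n : Fin M) : d.z (d.c n) ∈ (d.x n).P := d.hc n

lemma c_unique (n : Fin M) {y : X} (h : d.z y ∈ (d.x n).P) : y = d.c n :=
  d.z_unique (d.good_P n) h (d.c_spec n)

lemma c_fixed (n : Fin M) : d.σ n • d.c n = d.c n := by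
  apply d.c_unique
  rw [← d.smul_z]
  have h := (smul_mem_smul_iff (d.σ n : K ≃ₐ[ℚ] K) (d.x n).P (d.z (d.c n))).2 (d.c_spec n)
  rw [smul_P (d.hx n)] at h
  exact h

lemma z_mem_translate (n : Fin M) (s : G) (y : X) :
    d.z y ∈ (s : K ≃ₐ[ℚ] K) • (d.x n).P ↔ y = s • d.c n := by
  have h1 : d.z y = (s : K ≃ₐ[ℚ] K) • d.z (s⁻¹ • y) := by
    have := d.smul_z s (s⁻¹ • y)
    rw [smul_inv_smul] at this
    exact this.symm
  rw [h1, smul_mem_smul_iff]
  constructor
  · intro h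
    rw [← d.c_unique n h, smul_inv_smul]
  · intro h
    rw [h, inv_smul_smul]
    exact d.c_spec n

/-- the exponent -/
noncomputable def g (y : X) : ℕ := (- d.κ y).val

open Classical in
/-- the elements which become powers up to units and bad primes -/
noncomputable def w (y : X) : 𝓞 K :=
  d.z y * ∏ m, ∏ s ∈ (cosetReps (d.σ m)).filter (fun s => s • d.c m = y), (s • (d.x m).π) ^ d.g y

lemma w_ne (y : X) : d.w y ≠ 0 :=
  mul_ne_zero (d.z_ne y) (Finset.prod_ne_zero_iff.2 fun m _ => Finset.prod_ne_zero_iff.2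
    fun s _ => pow_ne_zero _ (d.pi_ne m s))

lemma cnt_pow (Q : Ideal (𝓞 K)) {t : 𝓞 K} (ht : t ≠ 0) (k : ℕ) :
    cnt Q (t ^ k) = k * cnt Q t := by
  have h := cnt_prod Q (Finset.range k) (fun _ => t) (fun _ _ => ht)
  rw [Finset.prod_const, Finset.sum_const, Finset.card_range, smul_eq_mul] at h
  exact h

open Classical in
lemma w_dvd [NeZero l] {Q : Ideal (𝓞 K)} (hQ : d.good Q) (y : X) : l ∣ cnt Q (d.w y) := by
  have h1 : cnt Q (d.w y) = cnt Q (d.z y) + ∑ m, ∑ t ∈ cosetReps (d.σ m),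
      if Q = (t : K ≃ₐ[ℚ] K) • (d.x m).P then (if t • d.c m = y then d.g y else 0) else 0 := by
    unfold w
    rw [cnt_mul, cnt_prod]
    · congr 1
      refine Finset.sum_congr rfl fun m _ => ?_
      rw [cnt_prod, Finset.sum_filter]
      · refine Finset.sum_congr rfl fun t _ => ?_
        rw [cnt_pow Q (d.pi_ne m t), d.cnt_pi hQ]
        split_ifs <;> simp
      · exact fun s _ => pow_ne_zero _ (d.pi_ne m s)
    · exact fun m _ => Finset.prod_ne_zero_iff.2 fun s _ => pow_ne_zero _ (d.pi_ne m s)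
    · exact d.z_ne y
    · exact Finset.prod_ne_zero_iff.2 fun m _ => Finset.prod_ne_zero_iff.2
        fun s _ => pow_ne_zero _ (d.pi_ne m s)
  have hg : ((d.g y : ℕ) : ZMod l) = - d.κ y := by
    unfold g
    exact ZMod.natCast_zmod_val _
  rw [h1]
  by_cases hex : ∃ (n : Fin M) (s : G), Q = (s : K ≃ₐ[ℚ] K) • (d.x n).P
  · have hex' : ∃ n, ∃ s : G, Q = s • (d.x n).P := by
      obtain ⟨n, s, h⟩ := hex
      exact ⟨n, s, h⟩
    obtain ⟨n, s, rfl⟩ := hex
    rw [d.sum_translate (n := n) (s := s) (fun m t => if t • d.c m = y then d.g y else 0),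
      rep_smul (d.c_fixed n)]
    have hz := d.z_mem_translate n s y
    by_cases hy : y = s • d.c n
    · rw [if_pos hy.symm]
      have h2 := (d.h2 y _ hQ.1 hQ.2.1 hQ.2.2 (hz.2 hy)).1 hex'
      rw [← ZMod.natCast_eq_zero_iff]
      push_cast
      rw [hg]
      unfold z
      rw [h2]
      ring
    · rw [if_neg (fun h => hy h.symm), d.cnt_z_zero hQ (fun h => hy (hz.1 h))]
      simp
  · have hex' : ¬ ∃ n, ∃ s : G, Q = s • (d.x n).P := by
      rintro ⟨n, s, h⟩
      exact hex ⟨n, s, h⟩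
    push Not at hex
    have h2 : (∑ m, ∑ t ∈ cosetReps (d.σ m),
      if Q = (t : K ≃ₐ[ℚ] K) • (d.x m).P then (if t • d.c m = y then d.g y else 0) else 0) = 0 :=
      Finset.sum_eq_zero fun m _ => Finset.sum_eq_zero fun t _ => if_neg (hex m t)
    rw [h2, add_zero]
    by_cases hz : d.z y ∈ Q
    · have h3 := (d.h2 y _ hQ.1 hQ.2.1 hQ.2.2 hz).2 hex'
      rw [← ZMod.natCast_eq_zero_iff]
      exact h3
    · rw [d.cnt_z_zero hQ hz]; simp

/-- an element selected by another point is not in the prime -/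
lemma pi_notMem (k m : Fin M) {y : X} (hy : y ≠ d.c k) {s : G} (hs : s • d.c m = y) :
    s • (d.x m).π ∉ (d.x k).P := by
  intro h
  have hQ := d.good_P k
  have h1 := (cnt_pos_iff (d.x k).P hQ.1 hQ.2.1 (d.pi_ne m s)).2 h
  have h3 : (d.x k).P = (s : K ≃ₐ[ℚ] K) • (d.x m).P := by
    classical
    by_contra hne
    rw [d.cnt_pi hQ, if_neg hne] at h1
    exact lt_irrefl _ h1
  apply hy
  apply d.c_unique
  rw [h3, d.z_mem_translate m s y]
  exact hs.symm

end Data

section sym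

variable {K : Type} [Field K] {l : ℕ} {P : Ideal (𝓞 K)} {sy : 𝓞 K → ZMod l}

lemma sym_one (hP : P.IsPrime) (h : IsSym l P sy) : sy 1 = 0 := by
  have h1 : (1 : 𝓞 K) ∉ P := fun h1 => hP.ne_top ((Ideal.eq_top_iff_one P).2 h1)
  have h2 := h.mul 1 1 h1 h1
  rw [mul_one] at h2
  exact left_eq_add.1 h2

lemma sym_prod (hP : P.IsPrime) (h : IsSym l P sy) {ι : Type} (s : Finset ι) (f : ι → 𝓞 K)
    (hf : ∀ i ∈ s, f i ∉ P) : sy (∏ i ∈ s, f i) = ∑ i ∈ s, sy (f i) := by
  classical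
  induction s using Finset.induction_on with
  | empty =>
    rw [Finset.prod_empty, Finset.sum_empty]
    exact sym_one hP h
  | insert a s ha ih =>
    have h2 : ∀ i ∈ s, f i ∉ P := fun i hi => hf i (Finset.mem_insert_of_mem hi)
    have h3 : (∏ i ∈ s, f i) ∉ P := by
      intro h
      obtain ⟨i, hi, hi'⟩ := hP.prod_mem_iff.1 h
      exact h2 i hi hi'
    rw [Finset.prod_insert ha, Finset.sum_insert ha,
      h.mul _ _ (hf a (Finset.mem_insert_self _ _)) h3, ih h2]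

lemma sym_pow (hP : P.IsPrime) (h : IsSym l P sy) {t : 𝓞 K} (ht : t ∉ P) (k : ℕ) :
    sy (t ^ k) = k * sy t := by
  have h1 := sym_prod hP h (Finset.range k) (fun _ => t) (fun _ _ => ht)
  rw [Finset.prod_const, Finset.sum_const, Finset.card_range, nsmul_eq_mul] at h1
  exact h1

end sym

namespace Data

variable {K : Type} [Field K] [NumberField K] {G : Subgroup (K ≃ₐ[ℚ] K)} {l : ℕ}
  {X : Type} [MulAction G X] {M : ℕ} (d : Data K G l X M)

open Classical in
lemma relation [NeZero l] (k : Fin M) (sy : 𝓞 K → ZMod l) (hs : IsSym l (d.x k).P sy)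
    {y : X} (hy : y ≠ d.c k) {u t : 𝓞 K} (hu : u ∉ (d.x k).P) (hwu : d.w y * u = t ^ l) :
    d.κ y * (∑ m, ∑ s ∈ (cosetReps (d.σ m)).filter (fun s => s • d.c m = y),
        sy (s • (d.x m).π)) =
      sy (if (d.pt (d.c k)).isSome then d.b else d.a) + sy (det (d.pt (d.c k)) (d.pt y)) +
        sy u := by
  have hQ := d.good_P k
  have hP := hQ.1
  have hg : ((d.g y : ℕ) : ZMod l) = - d.κ y := by
    unfold g
    exact ZMod.natCast_zmod_val _
  have hz : d.z y ∉ (d.x k).P := fun h => hy (d.c_unique k h)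
  have hpi : ∀ m, ∀ s ∈ (cosetReps (d.σ m)).filter (fun s => s • d.c m = y),
      s • (d.x m).π ∉ (d.x k).P := by
    intro m s hs
    rw [Finset.mem_filter] at hs
    exact d.pi_notMem k m hy hs.2
  have hpg : ∀ m, ∀ s ∈ (cosetReps (d.σ m)).filter (fun s => s • d.c m = y),
      (s • (d.x m).π) ^ d.g y ∉ (d.x k).P := fun m s hs h => hpi m s hs (hP.mem_of_pow_mem _ h)
  have hpr : ∀ m ∈ (Finset.univ : Finset (Fin M)),
      (∏ s ∈ (cosetReps (d.σ m)).filter (fun s => s • d.c m = y), (s • (d.x m).π) ^ d.g y) ∉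
        (d.x k).P := by
    intro m _ h
    obtain ⟨i, hi, hi'⟩ := hP.prod_mem_iff.1 h
    exact hpg m i hi hi'
  have hpr2 : (∏ m, ∏ s ∈ (cosetReps (d.σ m)).filter (fun s => s • d.c m = y),
      (s • (d.x m).π) ^ d.g y) ∉ (d.x k).P := by
    intro h
    obtain ⟨i, hi, hi'⟩ := hP.prod_mem_iff.1 h
    exact hpr i hi hi'
  have hw : d.w y ∉ (d.x k).P := by
    unfold w
    intro h
    rcases hP.mem_or_mem h with h | h
    · exact hz h
    · exact hpr2 h
  have ht : t ∉ (d.x k).P := by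
    intro h
    have h1 : d.w y * u ∈ (d.x k).P := by
      rw [hwu]
      exact Ideal.pow_mem_of_mem _ h _ (Nat.pos_of_ne_zero (NeZero.ne l))
    rcases hP.mem_or_mem h1 with h | h
    · exact hw h
    · exact hu h
  have h1 : sy (d.w y * u) = 0 := by
    rw [hwu, sym_pow hP hs ht, CharP.cast_eq_zero, zero_mul]
  have h2 : sy (d.w y) = sy (d.z y) - d.κ y *
      (∑ m, ∑ s ∈ (cosetReps (d.σ m)).filter (fun s => s • d.c m = y), sy (s • (d.x m).π)) := by
    unfold w
    rw [hs.mul _ _ hz hpr2, sym_prod hP hs _ _ hpr]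
    have h3 : ∀ m ∈ (Finset.univ : Finset (Fin M)),
        sy (∏ s ∈ (cosetReps (d.σ m)).filter (fun s => s • d.c m = y),
          (s • (d.x m).π) ^ d.g y) =
        - d.κ y * ∑ s ∈ (cosetReps (d.σ m)).filter (fun s => s • d.c m = y),
          sy (s • (d.x m).π) := by
      intro m _
      rw [sym_prod hP hs _ _ (hpg m), Finset.mul_sum]
      refine Finset.sum_congr rfl fun s hs' => ?_
      rw [sym_pow hP hs (hpi m s hs'), hg]
    rw [Finset.sum_congr rfl h3, ← Finset.mul_sum]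
    ring
  have h4 : sy (d.z y) = sy (if (d.pt (d.c k)).isSome then d.b else d.a) +
      sy (det (d.pt (d.c k)) (d.pt y)) := by
    rw [hs.congr _ _ (d.z_congr (Ne.symm hy) (d.c_spec k))]
    exact hs.mul _ _ (d.coef_notMem hQ (d.c_spec k)) (d.det_notMem hQ (Ne.symm hy))
  rw [hs.mul _ _ hw hu, h2, h4] at h1
  linear_combination -h1

end Data

end DescentAux

open Classical in
theorem descent (K : Type) [Field K] [NumberField K] [IsGalois ℚ K]
    (G : Subgroup (K ≃ₐ[ℚ] K)) (l : ℕ) [Fact l.Prime]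
    {X : Type} [Fintype X] [MulAction G X] (pt : X → Option (𝓞 K))
    (hinj : Function.Injective pt)
    (hpt : ∀ (s : G) (x : X), pt (s • x) = (pt x).map (fun θ => s • θ))
    (D D' : ℤ) (hDD' : D ∣ D')
    (hdiff : ∀ x y : X, x ≠ y → ∀ Q : Ideal (𝓞 K), Q.IsPrime →
      det (pt x) (pt y) ∈ Q → (D : 𝓞 K) ∈ Q)
    (κ : X → ZMod l) (hκG : ∀ (s : G) (x : X), κ (s • x) = κ x)
    (U : Finset (𝓞 K))
    (hU : ∀ w : 𝓞 K, w ≠ 0 →
      (∀ Q : Ideal (𝓞 K), Q.IsPrime → Q ≠ ⊥ → (D : 𝓞 K) ∉ Q → l ∣ cnt Q w) →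
      ∃ u ∈ U, ∃ g : 𝓞 K, w * u = g ^ l)
    (hUD : ∀ u ∈ U, ∀ Q : Ideal (𝓞 K), Q.IsPrime → u ∈ Q → (D' : 𝓞 K) ∈ Q)
    {M : ℕ} (σ : Fin M → G) (x : Fin M → PD K) (sy : Fin M → 𝓞 K → ZMod l)
    (hx : ∀ n, (x n).Good D D' (σ n)) (hdist : ∀ m n, (x m).p = (x n).p → m = n)
    (a b : 𝓞 K) (ha : ∀ s : G, s • a = a) (hb : ∀ s : G, s • b = b)
    (hab : ∀ Q : Ideal (𝓞 K), Q.IsPrime → a ∈ Q → b ∈ Q → (D : 𝓞 K) ∈ Q)
    (hne : ∀ y : X, lin a b (pt y) ≠ 0)
    (c : Fin M → X) (hc : ∀ n, lin a b (pt (c n)) ∈ (x n).P)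
    (h2 : ∀ (y : X) (Q : Ideal (𝓞 K)), Q.IsPrime → Q ≠ ⊥ → (D : 𝓞 K) ∉ Q →
      lin a b (pt y) ∈ Q →
      ((∃ n, ∃ s : G, Q = s • (x n).P) → ((cnt Q (lin a b (pt y)) : ℕ) : ZMod l) = κ y) ∧
      ((¬ ∃ n, ∃ s : G, Q = s • (x n).P) → ((cnt Q (lin a b (pt y)) : ℕ) : ZMod l) = 0)) :
    (∀ n, σ n • c n = c n) ∧
    ∃ (u : X → 𝓞 K) (β : Fin M → ZMod l), (∀ y, u y ∈ U) ∧
      ∀ k, IsSym l (x k).P (sy k) → ∀ y, y ≠ c k →
        κ y * (∑ m, ∑ s ∈ (cosetReps (σ m)).filter (fun s => s • c m = y),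
            sy k (s • (x m).π)) =
          β k + sy k (det (pt (c k)) (pt y)) + sy k (u y) := by
  have hl : Fact l.Prime := inferInstance
  have : NeZero l := ⟨hl.out.ne_zero⟩
  set d : DescentAux.Data K G l X M :=
    { pt := pt, hinj := hinj, hpt := hpt, D := D, D' := D', hDD' := hDD', hdiff := hdiff,
      κ := κ, σ := σ, x := x, hx := hx, hdist := hdist, a := a, b := b, ha := ha, hb := hb,
      hab := hab, hne := hne, c := c, hc := hc, h2 := h2 } with hd
  refine ⟨d.c_fixed, ?_⟩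
  have hex : ∀ y : X, ∃ u ∈ U, ∃ g : 𝓞 K, d.w y * u = g ^ l := fun y =>
    hU (d.w y) (d.w_ne y) fun Q hQ hQ0 hD => d.w_dvd ⟨hQ, hQ0, hD⟩ y
  choose u hu t ht using hex
  refine ⟨u, fun k => sy k (if (pt (c k)).isSome then b else a), hu, ?_⟩
  intro k hs y hy
  exact d.relation k (sy k) hs hy (fun h => (hx k).notMem (hUD _ (hu y) _ (hx k).isPrime h)) (ht y)

end Pool.KT
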