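import Pool.Agent.Helper54.KT.Defs
import Pool.Agent.TP2.Choose

/-!
A totally split prime with prescribed `l`-th power symbols.

Proof (the case `l = 2` is `Pool.TP2.exists_prime` in `TP2/Choose.lean`, adapt it; reuse the lemmas
of the namespace `Pool.TP2.Choose`). Let `M` be a finite Galois extension of `ℚ` in `Qb` which
contains `K` and all `r j`, `τM` the restriction of `τ` to `M`. `Pool.TP.frobenius_exists M τM`
gives infinitely many primes `p` with a prime ideal `Q` of `𝓞 M` above `p`, trivial inertia group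
and decomposition group `zpowers τM`; take `p` outside of a finite set (`p > B`, `p > l`, `p`
does not divide the norms of the `y j`, `p` unramified in `K`). Put `P = Q ∩ 𝓞 K`; its
decomposition group is `zpowers 1` (`stab_below` with `σ = 1`). By
`Pool.TP2.residue_of_fixed` (with `σ = 1`) every element of `𝓞 K` is congruent to an integer
modulo `P`, so `𝓞 K / P` has `p` elements, `y ^ (p - 1) - 1 ∈ P` for `y ∉ P`, and as `ζ` has order
`l` modulo `P` (`l ∉ P`; the product of `1 - ζ ^ i`, `0 < i < l`, is `l`) `l` divides `p - 1`.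
For `y ∉ P` the element `y ^ ((p - 1) / l)` is an `l`-th root of unity modulo `P`, hence
congruent to `ζ ^ (c y).val` for a unique `c y : ZMod l`; `c` is a symbol (`IsSym`), put
`c y = 0` for `y ∈ P`. Let `φ` be a Frobenius element at `Q` (`IsArithFrobAt.exists_of_isInvariant`
as in the proof of `residue_of_fixed`): `φ` is in the decomposition group, so `φ = τM ^ i`; then
`r j ^ p ≡ φ (r j) = ζ ^ (i * a j) * r j` modulo `Q`, so
`y j ^ ((p - 1) / l) = r j ^ (p - 1) ≡ ζ ^ (i * a j)`, i.e. `c (y j) = i * a j`. If `i ≠ 0` in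
`ZMod l`, take `sy y = i⁻¹ * c y`. If `i = 0` in `ZMod l`, then `φ` fixes all `r j`; the
decomposition group is generated by `φ` (an element `g` of it acts on the residue field as a power
of `φ`, and the inertia group is trivial), so `τM` is a power of `φ` and fixes all `r j`, so all
`a j = 0` (as `ζ ^ (a j).val = 1`), and `sy = c` works.
-/

open NumberField Polynomial
open scoped Pointwise BigOperators

namespace Pool.KT

open Pool.TP2

namespace Prime

theorem pow_val_add {R : Type} [CommRing R] {l : ℕ} [NeZero l] {z : R} (hz : z ^ l = 1)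
    (e f : ZMod l) : z ^ e.val * z ^ f.val = z ^ (e + f).val := by
  rw [← pow_add, ZMod.val_add]
  exact pow_eq_pow_mod _ hz

theorem exists_log {k : Type} [Field k] (l : ℕ) [Fact l.Prime] {z : k}
    (hz : IsPrimitiveRoot z l) (m : ℕ) (hm : ∀ u : k, u ≠ 0 → (u ^ m) ^ l = 1) :
    ∃ c : k → ZMod l, (∀ u, u ≠ 0 → z ^ (c u).val = u ^ m) ∧
      ∀ u v, u ≠ 0 → v ≠ 0 → c (u * v) = c u + c v := by
  classical
  have hl : NeZero l := ⟨(Fact.out : l.Prime).ne_zero⟩
  have h1 : ∀ u : k, ∃ e : ZMod l, u ≠ 0 → z ^ e.val = u ^ m := by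
    intro u
    by_cases hu : u = 0
    · exact ⟨0, fun h => absurd hu h⟩
    · obtain ⟨i, hi, hi'⟩ := hz.eq_pow_of_pow_eq_one (hm u hu)
      refine ⟨(i : ZMod l), fun _ => ?_⟩
      rw [ZMod.val_natCast_of_lt hi, hi']
  choose c hc using h1
  refine ⟨c, hc, fun u v hu hv => ?_⟩
  have h2 := hc (u * v) (mul_ne_zero hu hv)
  rw [mul_pow, ← hc u hu, ← hc v hv, pow_val_add hz.pow_eq_one] at h2
  exact ZMod.val_injective l (hz.pow_inj (ZMod.val_lt _) (ZMod.val_lt _) h2)

end Prime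

open Prime Pool.TP2.Choose in
attribute [local instance] Ideal.Quotient.field in
theorem exists_split_prime (K : IntermediateField ℚ Qb) [NumberField K] [IsGalois ℚ K]
    (l : ℕ) [Fact l.Prime] (ζ : K) (hζ : IsPrimitiveRoot ζ l)
    (τ : Qb ≃ₐ[ℚ] Qb) (hτ : ∀ x : K, τ x = x)
    {J : Type} [Finite J] (y : J → 𝓞 K) (hy : ∀ j, y j ≠ 0) (r : J → Qb)
    (hr : ∀ j, r j ^ l = ((y j : K) : Qb)) (a : J → ZMod l)
    (ha : ∀ j, τ (r j) = (ζ : Qb) ^ (a j).val * r j) (B : ℕ) :
    ∃ (p : ℕ) (P : Ideal (𝓞 K)) (sy : 𝓞 K → ZMod l), p.Prime ∧ B < p ∧ P.IsPrime ∧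
      (p : 𝓞 K) ∈ P ∧ P.inertia (K ≃ₐ[ℚ] K) = ⊥ ∧
      MulAction.stabilizer (K ≃ₐ[ℚ] K) P = Subgroup.zpowers 1 ∧ IsSym l P sy ∧
      ∀ j, y j ∉ P ∧ sy (y j) = a j := by
  classical
  have hlp : l.Prime := Fact.out
  have hl0 : NeZero l := ⟨hlp.ne_zero⟩
  have hgal := isGalQb
  -- the field `M`
  let L : IntermediateField ℚ Qb := K ⊔ IntermediateField.adjoin ℚ (Set.range r)
  have hrint : ∀ x ∈ Set.range r, IsIntegral ℚ x := by
    intro x _
    exact Algebra.IsIntegral.isIntegral x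
  have hLfin : FiniteDimensional ℚ L := by
    have : FiniteDimensional ℚ (IntermediateField.adjoin ℚ (Set.range r)) :=
      IntermediateField.finiteDimensional_adjoin hrint
    exact IntermediateField.finiteDimensional_sup _ _
  let M : IntermediateField ℚ Qb := IntermediateField.normalClosure ℚ L Qb
  have hLM : L ≤ M := IntermediateField.le_normalClosure L
  have hMfin : FiniteDimensional ℚ M := inferInstance
  have hMnorm' : @Normal ℚ M _ _ M.algebra' := inferInstance
  have hMnum : NumberField M := ⟨⟩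
  have hMnorm : Normal ℚ M := by
    have e : (DivisionRing.toRatAlgebra : Algebra ℚ M) = M.algebra' := Subsingleton.elim _ _
    rw [e]
    exact hMnorm'
  have hMgal : IsGalois ℚ M := { to_normal := hMnorm, to_isSeparable := inferInstance }
  have hKM : K ≤ M := le_sup_left.trans hLM
  have hrM : ∀ j, r j ∈ M := fun j =>
    hLM ((le_sup_right : _ ≤ L) (IntermediateField.subset_adjoin _ _ (Set.mem_range_self j)))
  have hrI : ∀ j, IsIntegral ℤ (⟨r j, hrM j⟩ : M) := by
    intro j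
    have h1 : IsIntegral ℤ (r j) := by
      have h2 : IsIntegral ℤ (r j ^ l) := by
        rw [hr j]
        exact (RingOfIntegers.isIntegral_coe (y j)).map ((algebraMap K Qb).toIntAlgHom)
      exact h2.of_pow hlp.pos
    exact (isIntegral_algHom_iff ((algebraMap M Qb).toIntAlgHom)
      (algebraMap M Qb).injective).1 h1
  let rM : J → 𝓞 M := fun j => ⟨⟨r j, hrM j⟩, hrI j⟩
  have hrM2 : ∀ j, rM j ^ l = io K M hKM (y j) := by
    intro j
    apply RingOfIntegers.ext
    apply Subtype.ext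
    exact hr j
  -- the root of unity
  let ζO : 𝓞 K := ⟨ζ, hζ.isIntegral hlp.pos⟩
  have hζO1 : ζO ^ l = 1 := by
    apply RingOfIntegers.ext
    exact hζ.pow_eq_one
  have hζOs : ∑ i ∈ Finset.range l, ζO ^ i = 0 := by
    apply RingOfIntegers.ext
    have h1 := hζ.geom_sum_eq_zero hlp.one_lt
    have h2 : ((∑ i ∈ Finset.range l, ζO ^ i : 𝓞 K) : K) = ∑ i ∈ Finset.range l, ζ ^ i := by
      push_cast
      rfl
    rw [h2, h1]
    rfl
  set ζM : 𝓞 M := io K M hKM ζO with hζM
  have hζM1 : ζM ^ l = 1 := by rw [hζM, ← map_pow, hζO1, map_one]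
  set τM : M ≃ₐ[ℚ] M := τ.restrictNormal M with hτM
  have hτ1 : ∀ x : K, τ x = ((1 : K ≃ₐ[ℚ] K) x : K) := fun x => hτ x
  have hτζ : τM • ζM = ζM := by
    rw [hζM, hτM, io_smul K M hKM τ 1 hτ1, one_smul]
  have hτr : ∀ j, τM • rM j = ζM ^ (a j).val * rM j := by
    intro j
    apply RingOfIntegers.ext
    apply Subtype.ext
    refine (AlgEquiv.restrictNormal_commutes τ M (⟨r j, hrM j⟩ : M)).trans ?_
    refine (ha j).trans ?_
    have e1 : (((ζM : 𝓞 M) : M) : Qb) = (ζ : Qb) := io_coe K M hKM ζO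
    have e2 : (((rM j : 𝓞 M) : M) : Qb) = r j := rfl
    rw [← e1, ← e2]
    push_cast
    rfl
  have hτn : ∀ (n : ℕ) (j : J), (τM ^ n) • rM j = ζM ^ ((n : ZMod l) * a j).val * rM j := by
    intro n
    induction n with
    | zero => intro j; simp
    | succ n ih =>
      intro j
      rw [pow_succ', mul_smul, ih, smul_mul', smul_pow', hτζ, hτr, ← mul_assoc,
        pow_val_add hζM1]
      congr 3
      push_cast
      ring
  -- choice of the prime
  have hinf := Pool.TP.frobenius_exists M τM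
  have hf1 := Pool.TP.finite_ramified K
  have hf2 : (⋃ j, (((Ideal.absNorm (Ideal.span {y j})).divisors : Finset ℕ) : Set ℕ)).Finite :=
    Set.finite_iUnion fun j => Finset.finite_toSet _
  obtain ⟨p, ⟨hp, Q, hQ, hpQ, hin, hst⟩, hpB⟩ :=
    hinf.exists_notMem_finite ((hf1.union hf2).union (Set.finite_le_nat (max B l)))
  simp only [Set.mem_union, not_or, Set.mem_ofPred_eq, not_le, max_lt_iff] at hpB
  obtain ⟨⟨hb1, hb2⟩, hb3, hb4⟩ := hpB
  have hpf : Fact p.Prime := ⟨hp⟩
  set P : Ideal (𝓞 K) := Q.comap (io K M hKM) with hPdef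
  have hP : P.IsPrime := Ideal.comap_isPrime _ _
  have hpP : (p : 𝓞 K) ∈ P := by
    rw [hPdef, Ideal.mem_comap, map_natCast]
    exact hpQ
  have hPne : P ≠ ⊥ := by
    intro h
    rw [h, Ideal.mem_bot] at hpP
    exact hp.ne_zero (by exact_mod_cast hpP)
  have hmax : P.IsMaximal := hP.isMaximal hPne
  have hcp : CharP (𝓞 K ⧸ P) p := Sym.charP hp P hP hpP
  have hQne : Q ≠ ⊥ := by
    intro h
    rw [h, Ideal.mem_bot] at hpQ
    exact hp.ne_zero (by exact_mod_cast hpQ)
  have hmaxQ : Q.IsMaximal := hQ.isMaximal hQne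
  have hcpQ : CharP (𝓞 M ⧸ Q) p := Sym.charP hp Q hQ hpQ
  have hstP : MulAction.stabilizer (K ≃ₐ[ℚ] K) P = Subgroup.zpowers 1 :=
    stab_below K M hKM τ 1 hτ1 Q hQ hst
  have hyP : ∀ j, y j ∉ P := by
    intro j hmem
    apply hb2
    rw [Set.mem_iUnion]
    refine ⟨j, ?_⟩
    rw [Finset.mem_coe, Nat.mem_divisors]
    refine ⟨Pool.TP.Ramif.dvd_absNorm hp hP hpP hmem, ?_⟩
    rw [Ne, Ideal.absNorm_eq_zero_iff, Ideal.span_singleton_eq_bot]
    exact hy j
  have hstQ : τM • Q = Q := by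
    have : τM ∈ MulAction.stabilizer (M ≃ₐ[ℚ] M) Q := by
      rw [hst]; exact Subgroup.mem_zpowers _
    exact this
  -- the residue field of `P` is the prime field
  have hres : ∀ u : 𝓞 K ⧸ P, u ^ p = u := by
    intro u
    obtain ⟨x, rfl⟩ := Ideal.Quotient.mk_surjective u
    obtain ⟨n, hn⟩ := residue_of_fixed hp P hP hpP 1 hstP x (one_smul _ x)
    rw [← Ideal.Quotient.eq, map_intCast] at hn
    apply (Subfield.mem_bot_iff_pow_eq_self (𝓞 K ⧸ P) p).1
    exact (mem_bot_iff_intCast p (𝓞 K ⧸ P)).2 ⟨n, hn.symm⟩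
  have hres1 : ∀ u : 𝓞 K ⧸ P, u ≠ 0 → u ^ (p - 1) = 1 := by
    intro u hu
    have h1 := hres u
    have h2 : u ^ (p - 1) * u = 1 * u := by
      rw [← pow_succ, Nat.sub_add_cancel hp.one_lt.le, h1, one_mul]
    exact mul_right_cancel₀ hu h2
  set z : 𝓞 K ⧸ P := Ideal.Quotient.mk P ζO with hz
  have hz1 : z ^ l = 1 := by rw [hz, ← map_pow, hζO1, map_one]
  have hzne : z ≠ 1 := by
    intro h
    have h1 := congrArg (Ideal.Quotient.mk P) hζOs
    rw [map_sum, map_zero] at h1
    simp only [map_pow] at h1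
    rw [← hz, h] at h1
    simp only [one_pow, Finset.sum_const, Finset.card_range, nsmul_eq_mul, mul_one] at h1
    rw [CharP.cast_eq_zero_iff (𝓞 K ⧸ P) p] at h1
    exact absurd (Nat.le_of_dvd hlp.pos h1) (not_le.2 hb4)
  have hord : orderOf z = l := orderOf_eq_prime hz1 hzne
  have hzprim : IsPrimitiveRoot z l := by
    rw [← hord]
    exact IsPrimitiveRoot.orderOf z
  have hz0 : z ≠ 0 := by
    intro h
    rw [h, zero_pow hlp.ne_zero] at hz1
    exact zero_ne_one hz1
  obtain ⟨m, hm⟩ : l ∣ p - 1 := by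
    rw [← hord]
    exact orderOf_dvd_of_pow_eq_one (hres1 z hz0)
  obtain ⟨c, hc1, hc2⟩ := exists_log l hzprim m (by
    intro u hu
    rw [← pow_mul, mul_comm, ← hm]
    exact hres1 u hu)
  -- the Frobenius element
  have hfinq : Finite (𝓞 M ⧸ Q) := inferInstance
  obtain ⟨φ, hφ⟩ := IsArithFrobAt.exists_of_isInvariant ℤ (M ≃ₐ[ℚ] M) Q
  have hφ1 : φ ∈ Subgroup.zpowers τM := by
    rw [← hst]
    exact hφ.mem_stabilizer
  obtain ⟨n, hn⟩ : ∃ n : ℕ, τM ^ n = φ := by
    rw [← mem_powers_iff_mem_zpowers] at hφ1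
    exact (Submonoid.mem_powers_iff _ _).1 hφ1
  have hint := Sym.int_mem hp Q hQ hpQ
  have hcard : Nat.card (ℤ ⧸ Q.under ℤ) = p := by
    have h1 : Q.under ℤ = Ideal.span {(p : ℤ)} := by
      ext n
      rw [Ideal.under_def, Ideal.mem_comap, Ideal.mem_span_singleton, eq_intCast, hint,
        ZMod.intCast_zmod_eq_zero_iff_dvd]
    rw [h1, Nat.card_congr (Int.quotientSpanNatEquivZMod p).toEquiv, Nat.card_zmod]
  have hφp : ∀ x : 𝓞 M, Ideal.Quotient.mk Q (φ • x) = Ideal.Quotient.mk Q x ^ p := by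
    intro x
    have := hφ x
    rw [hcard] at this
    rw [← map_pow, Ideal.Quotient.eq]
    exact this
  have hrQ : ∀ j, Ideal.Quotient.mk Q (rM j) ≠ 0 := by
    intro j h
    rw [Ideal.Quotient.eq_zero_iff_mem] at h
    apply hyP j
    rw [hPdef, Ideal.mem_comap, ← hrM2]
    exact Ideal.pow_mem_of_mem _ h l hlp.pos
  -- the embedding of residue fields
  have hmem : ∀ x x' : 𝓞 K, Ideal.Quotient.mk Q (io K M hKM x) = Ideal.Quotient.mk Q (io K M hKM x')
      → Ideal.Quotient.mk P x = Ideal.Quotient.mk P x' := by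
    intro x x' h
    rw [Ideal.Quotient.eq, ← map_sub] at h
    rw [Ideal.Quotient.eq, hPdef, Ideal.mem_comap]
    exact h
  have hcy : ∀ j, c (Ideal.Quotient.mk P (y j)) = (n : ZMod l) * a j := by
    intro j
    have hy0 : Ideal.Quotient.mk P (y j) ≠ 0 := by
      rw [Ne, Ideal.Quotient.eq_zero_iff_mem]
      exact hyP j
    have h1 := hφp (rM j)
    rw [← hn, hτn, map_mul] at h1
    have h2 : Ideal.Quotient.mk Q (rM j) ^ (p - 1) =
        Ideal.Quotient.mk Q (ζM ^ ((n : ZMod l) * a j).val) := by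
      apply mul_right_cancel₀ (hrQ j)
      rw [h1, ← pow_succ, Nat.sub_add_cancel hp.one_lt.le]
    have h3 : Ideal.Quotient.mk P (y j ^ m) =
        Ideal.Quotient.mk P (ζO ^ ((n : ZMod l) * a j).val) := by
      apply hmem
      rw [map_pow (io K M hKM), map_pow (io K M hKM), ← hrM2, ← hζM, ← h2, ← pow_mul, ← hm,
        map_pow]
    have h4 := hc1 _ hy0
    rw [← map_pow (Ideal.Quotient.mk P) (y j) m, h3, map_pow (Ideal.Quotient.mk P) ζO, ← hz] at h4
    exact ZMod.val_injective l (hzprim.pow_inj (ZMod.val_lt _) (ZMod.val_lt _) h4)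
  -- case distinction
  have hmain : ∃ b : ZMod l, ∀ j, b * ((n : ZMod l) * a j) = a j := by
    by_cases hn0 : (n : ZMod l) = 0
    · refine ⟨1, fun j => ?_⟩
      rw [hn0, zero_mul, mul_zero]
      -- `φ` fixes `rM j`
      have h1 := hφp (rM j)
      rw [← hn, hτn, hn0, zero_mul, ZMod.val_zero, pow_zero, one_mul] at h1
      have h2 := (Subfield.mem_bot_iff_pow_eq_self (𝓞 M ⧸ Q) p).2 h1.symm
      obtain ⟨w, hw⟩ := (mem_bot_iff_intCast p (𝓞 M ⧸ Q)).1 h2
      have h3 : rM j - (w : 𝓞 M) ∈ Q := by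
        rw [← Ideal.Quotient.eq, map_intCast, hw]
      have h4 : τM • (rM j - (w : 𝓞 M)) ∈ Q := by
        rw [← hstQ]
        exact Ideal.smul_mem_pointwise_smul _ _ _ h3
      have hint' : τM • (w : 𝓞 M) = (w : 𝓞 M) :=
        map_intCast (MulSemiringAction.toRingHom (M ≃ₐ[ℚ] M) (𝓞 M) τM) w
      rw [smul_sub, hint', hτr] at h4
      have h5 := Q.sub_mem h4 h3
      have h6 : ζM ^ (a j).val * rM j - (w : 𝓞 M) - (rM j - (w : 𝓞 M)) =
          (ζM ^ (a j).val - 1) * rM j := by ring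
      rw [h6] at h5
      rcases hQ.mem_or_mem h5 with h7 | h7
      · have h8 : Ideal.Quotient.mk P (ζO ^ (a j).val) = Ideal.Quotient.mk P (1 : 𝓞 K) := by
          apply hmem
          rw [Ideal.Quotient.eq, map_pow, map_one, ← hζM]
          exact h7
        rw [map_pow, ← hz, map_one] at h8
        have h9 : z ^ (a j).val = z ^ 0 := by rw [h8, pow_zero]
        have h10 := hzprim.pow_inj (ZMod.val_lt _) hlp.pos h9
        exact ((ZMod.val_eq_zero (a j)).1 h10).symm
      · exact absurd (Ideal.Quotient.eq_zero_iff_mem.2 h7) (hrQ j)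
    · refine ⟨(n : ZMod l)⁻¹, fun j => ?_⟩
      rw [← mul_assoc, inv_mul_cancel₀ hn0, one_mul]
  obtain ⟨b, hb⟩ := hmain
  refine ⟨p, P, fun x => b * c (Ideal.Quotient.mk P x), hp, hb3, hP, hpP, ?_, hstP, ⟨?_, ?_⟩,
    fun j => ⟨hyP j, ?_⟩⟩
  · by_contra hne
    exact hb1 ⟨hp, _, hP, hpP, hne⟩
  · intro x x' h
    have : Ideal.Quotient.mk P x = Ideal.Quotient.mk P x' := Ideal.Quotient.eq.2 h
    simp only [this]
  · intro x x' h h'
    have hx : Ideal.Quotient.mk P x ≠ 0 := by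
      rw [Ne, Ideal.Quotient.eq_zero_iff_mem]; exact h
    have hx' : Ideal.Quotient.mk P x' ≠ 0 := by
      rw [Ne, Ideal.Quotient.eq_zero_iff_mem]; exact h'
    simp only [map_mul, hc2 _ _ hx hx', mul_add]
  · simp only [hcy, hb]

end Pool.KT
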