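import Pool.Agent.Helper54.KT.Kummer
import Pool.Agent.Helper54.KT.Prime
import Pool.Agent.TP2.Next

/-!
Choice of the next prime in the tree.

Proof (the case `l = 2` is `Pool.TP2.exists_next`, adapt it; its auxiliary lemmas in
`Pool.TP2.Next`, `Pool.TP2.Reps`, `Pool.TP2.Descent` can be reused).
For `σ = 1`: let `I = Σ j : J, {s : G // s ∈ cosetReps (τ j)}` and `v i = s • (x j).π` (in `K`).
The `v i` are independent modulo `l`-th powers: if `∏ v i ^ (a i).val = y ^ l` with `a i₀ ≠ 0`,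
then `y` is integral, and the multiplicity of the prime `Q = s₀ • (x j₀).P` in the left side is
`(a i₀).val` (`cnt_translate`, `idx_eq`, `mem_zpowers_of`, `eq_of_mem_zpowers`, as in `not_square`),
which is not divisible by `l` (`0 < (a i₀).val < l`). So `exists_kummer` gives `χ` fixing `K` with
`χ (r i) = ζ ^ (ε i).val * r i`, `exists_split_prime` gives the prime (with bound
`max B D'.natAbs`), and `hgen` gives the element `π` (inertia is trivial).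
For `σ ≠ 1` there is no condition on the symbols: take `Pool.TP2.exists_prime` with `J = Empty`
and an extension `τ₀` of `σ` to `Qb` (`AlgEquiv.restrictNormalHom_surjective`, see the proof of
`Pool.TP2.exists_signs`), `sy = fun _ => 0`. (Or use this for all `σ`, `hsym` is only wanted if
`spl` holds.)
-/

open NumberField Polynomial
open scoped Pointwise BigOperators

namespace Pool.KT

open Pool.TP2

namespace NextAux

open Pool.TP2.Reps Pool.TP2.Descent Pool.TP2.Next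

lemma root_integral {K : Type} [Field K] {l : ℕ} (hl : 0 < l) {w : 𝓞 K} {y : K}
    (h : (w : K) = y ^ l) : ∃ y0 : 𝓞 K, w = y0 ^ l := by
  have hint : IsIntegral ℤ y := by
    refine IsIntegral.of_pow hl ?_
    rw [← h]
    exact w.2
  refine ⟨⟨y, hint⟩, ?_⟩
  apply RingOfIntegers.ext
  rw [h]
  rfl

lemma cnt_pow {K : Type} [Field K] [NumberField K] (Q : Ideal (𝓞 K)) {w : 𝓞 K} (hw : w ≠ 0)
    (n : ℕ) : cnt Q (w ^ n) = n * cnt Q w := by
  have h := cnt_prod Q (Finset.range n) (fun _ => w) (fun _ _ => hw)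
  rw [Finset.prod_const, Finset.sum_const, Finset.card_range, smul_eq_mul] at h
  exact h

lemma coe_prod_pow {K : Type} [Field K] [NumberField K] {ι : Type} (s : Finset ι) (f : ι → 𝓞 K)
    (n : ι → ℕ) : ((∏ i ∈ s, f i ^ n i : 𝓞 K) : K) = ∏ i ∈ s, ((f i : 𝓞 K) : K) ^ n i := by
  rw [coe_prod']
  refine Finset.prod_congr rfl fun i _ => ?_
  exact map_pow (algebraMap (𝓞 K) K) (f i) (n i)

section

variable {K : Type} [Field K] [NumberField K] {G : Subgroup (K ≃ₐ[ℚ] K)} {D D' : ℤ}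
  {J : Type} {τ : J → G} {x : J → PD K}

lemma not_power (l : ℕ) [Fact l.Prime] (hDD' : D ∣ D') (hx : ∀ j, (x j).Good D D' (τ j))
    (hdist : ∀ i j, (x i).p = (x j).p → i = j)
    [Fintype (Σ j : J, {s : G // s ∈ cosetReps (τ j)})]
    (a : (Σ j : J, {s : G // s ∈ cosetReps (τ j)}) → ZMod l) (ha : a ≠ 0) :
    ¬ ∃ y : K, ∏ i, ((i.2.1 • (x i.1).π : 𝓞 K) : K) ^ (a i).val = y ^ l := by
  classical
  have hl : l.Prime := Fact.out
  have : NeZero l := ⟨hl.ne_zero⟩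
  rintro ⟨y, hy⟩
  rw [← coe_prod_pow] at hy
  obtain ⟨y0, hy0⟩ := root_integral hl.pos hy
  obtain ⟨⟨j, s, hs⟩, hi⟩ : ∃ i, a i ≠ 0 := by
    by_contra hcon
    apply ha
    funext i
    by_contra h
    exact hcon ⟨i, h⟩
  have hpi : ∀ (j : J) (s : G), s • (x j).π ≠ 0 := fun j s h => (hx j).ne ((smul_eq_zero_iff_eq s).1 h)
  set Q : Ideal (𝓞 K) := (s : K ≃ₐ[ℚ] K) • (x j).P with hQdef
  have hP0 : (x j).P ≠ ⊥ := ne_bot_of_mem (hx j).prime (hx j).mem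
  have hQ : Q.IsPrime := isPrime_smul _ (hx j).isPrime
  have hQ0 : Q ≠ ⊥ := smul_ne_bot _ hP0
  have hQD : (D : 𝓞 K) ∉ Q := by
    rw [hQdef, intCast_mem_smul_iff]; exact good_notMem hDD' (hx j)
  have hne : ∏ i, (i.2.1 • (x i.1).π : 𝓞 K) ^ (a i).val ≠ 0 :=
    Finset.prod_ne_zero_iff.2 fun i _ => pow_ne_zero _ (hpi i.1 i.2.1)
  have hy00 : y0 ≠ 0 := by
    rintro rfl
    apply hne
    rw [hy0, zero_pow hl.ne_zero]
  have h1 : cnt Q (∏ i, (i.2.1 • (x i.1).π : 𝓞 K) ^ (a i).val) = (a ⟨j, s, hs⟩).val := by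
    rw [cnt_prod Q Finset.univ _ (fun i _ => pow_ne_zero _ (hpi i.1 i.2.1)),
      Finset.sum_eq_single ⟨j, s, hs⟩]
    · rw [cnt_pow Q (hpi _ _)]
      have h3 := (cnt_translate (hx j) (s : K ≃ₐ[ℚ] K) hQ hQ0 hQD).1 rfl
      have h4 : cnt Q (s • (x j).π) = 1 := h3
      show (a ⟨j, s, hs⟩).val * cnt Q (s • (x j).π) = _
      rw [h4, mul_one]
    · rintro ⟨i, t, ht⟩ _ hne'
      rw [cnt_pow Q (hpi _ _)]
      have h3 : cnt Q (t • (x i).π) = 0 := by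
        refine (cnt_translate (hx i) (t : K ≃ₐ[ℚ] K) hQ hQ0 hQD).2 ?_
        intro hQ'
        apply hne'
        obtain rfl := Pool.TP2.Next.idx_eq hx hdist hQ'
        have h4 := eq_of_mem_zpowers hs ht (mem_zpowers_of (hx j) hQ')
        subst h4
        rfl
      show (a ⟨i, t, ht⟩).val * cnt Q (t • (x i).π) = 0
      rw [h3, mul_zero]
    · intro h; exact absurd (Finset.mem_univ _) h
  rw [hy0, cnt_pow Q hy00] at h1
  have h2 : 0 < (a ⟨j, s, hs⟩).val := by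
    rw [Nat.pos_iff_ne_zero, Ne, ZMod.val_eq_zero]
    exact hi
  have h3 := ZMod.val_lt (a ⟨j, s, hs⟩)
  have h4 : l ∣ (a ⟨j, s, hs⟩).val := ⟨_, h1.symm⟩
  have h5 := Nat.le_of_dvd h2 h4
  omega

lemma good_of (hD' : D' ≠ 0)
    (hgen : ∀ (σ : K ≃ₐ[ℚ] K) (P : Ideal (𝓞 K)), P.IsPrime → P ≠ ⊥ →
      P.inertia (K ≃ₐ[ℚ] K) = ⊥ →
      MulAction.stabilizer (K ≃ₐ[ℚ] K) P = Subgroup.zpowers σ →
      ∃ π : 𝓞 K, π ≠ 0 ∧ σ • π = π ∧ ∀ Q : Ideal (𝓞 K), Q.IsPrime → Q ≠ ⊥ → (D : 𝓞 K) ∉ Q →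
        (Q = P → cnt Q π = 1) ∧ (Q ≠ P → cnt Q π = 0))
    (σ : K ≃ₐ[ℚ] K) (B p : ℕ) (P : Ideal (𝓞 K)) (hp : p.Prime) (hBp : max B D'.natAbs < p)
    (hPp : P.IsPrime) (hpP : (p : 𝓞 K) ∈ P) (hin : P.inertia (K ≃ₐ[ℚ] K) = ⊥)
    (hst : MulAction.stabilizer (K ≃ₐ[ℚ] K) P = Subgroup.zpowers σ) :
    ∃ z : PD K, z.Good D D' σ ∧ B < z.p ∧ z.P = P := by
  have hP0 : P ≠ ⊥ := ne_bot_of_mem hp hpP
  obtain ⟨π, hπ0, hπf, hπc⟩ := hgen σ P hPp hP0 hin hst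
  refine ⟨⟨p, P, π⟩, ⟨hp, hPp, hpP, ?_, hst, hπ0, hπf, hπc⟩,
    lt_of_le_of_lt (le_max_left _ _) hBp, rfl⟩
  intro h
  have hc : IsCoprime (p : ℤ) D' := by
    rw [Int.isCoprime_iff_gcd_eq_one, Int.gcd_eq_natAbs]
    have h1 : (p : ℤ).natAbs = p := rfl
    rw [h1]
    refine (Nat.Prime.coprime_iff_not_dvd hp).2 fun hdvd => ?_
    have := Nat.le_of_dvd (Int.natAbs_pos.2 hD') hdvd
    have h2 := lt_of_le_of_lt (le_max_right B D'.natAbs) hBp
    omega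
  obtain ⟨u, w, huw⟩ := hc
  apply hPp.ne_top
  rw [Ideal.eq_top_iff_one]
  have h3 : (1 : 𝓞 K) = (u : 𝓞 K) * (p : 𝓞 K) + (w : 𝓞 K) * (D' : 𝓞 K) := by
    have := congrArg (fun z : ℤ => (z : 𝓞 K)) huw
    push_cast at this
    exact this.symm
  rw [h3]
  exact P.add_mem (P.mul_mem_left _ hpP) (P.mul_mem_left _ h)

end

end NextAux

theorem exists_next (K : IntermediateField ℚ Qb) [NumberField K] [IsGalois ℚ K]
    (G : Subgroup (K ≃ₐ[ℚ] K)) (l : ℕ) [Fact l.Prime] (ζ : K) (hζ : IsPrimitiveRoot ζ l)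
    (D D' : ℤ) (hD' : D' ≠ 0) (hDD' : D ∣ D')
    (hgen : ∀ (σ : K ≃ₐ[ℚ] K) (P : Ideal (𝓞 K)), P.IsPrime → P ≠ ⊥ →
      P.inertia (K ≃ₐ[ℚ] K) = ⊥ →
      MulAction.stabilizer (K ≃ₐ[ℚ] K) P = Subgroup.zpowers σ →
      ∃ π : 𝓞 K, π ≠ 0 ∧ σ • π = π ∧ ∀ Q : Ideal (𝓞 K), Q.IsPrime → Q ≠ ⊥ → (D : 𝓞 K) ∉ Q →
        (Q = P → cnt Q π = 1) ∧ (Q ≠ P → cnt Q π = 0))
    {J : Type} [Finite J] (τ : J → G) (x : J → PD K)
    (hx : ∀ j, (x j).Good D D' (τ j)) (hdist : ∀ i j, (x i).p = (x j).p → i = j)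
    (σ : G) (spl : Prop) (hspl : spl → σ = 1) (ε : J → G → ZMod l) (B : ℕ) :
    ∃ (z : PD K) (sy : 𝓞 K → ZMod l), z.Good D D' σ ∧ B < z.p ∧
      (spl → IsSym l z.P sy ∧
        ∀ (j : J), ∀ s ∈ cosetReps (τ j), sy (s • (x j).π) = ε j s) := by
  classical
  by_cases hs : spl
  · have hσ := hspl hs
    subst hσ
    have := Fintype.ofFinite J
    have hl : l.Prime := Fact.out
    let I : Type := Σ j : J, {s : G // s ∈ cosetReps (τ j)}
    let v : I → K := fun i => ((i.2.1 • (x i.1).π : 𝓞 K) : K)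
    have hpi : ∀ (j : J) (s : G), s • (x j).π ≠ 0 :=
      fun j s h => (hx j).ne ((smul_eq_zero_iff_eq s).1 h)
    have hv : ∀ i, v i ≠ 0 := by
      intro i h
      apply hpi i.1 i.2.1
      exact RingOfIntegers.coe_eq_zero_iff.1 h
    have hind : ∀ a : I → ZMod l, a ≠ 0 → ¬ ∃ y : K, ∏ j, v j ^ (a j).val = y ^ l :=
      fun a ha => NextAux.not_power l hDD' hx hdist a ha
    have hsq : ∀ y : 𝓞 K, ∃ r : Qb, r ^ l = ((y : K) : Qb) := fun y =>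
      IsAlgClosed.exists_pow_nat_eq _ hl.pos
    choose sq hsq using hsq
    obtain ⟨χ, hχK, hχr⟩ := exists_kummer K l ζ hζ v hv hind
      (fun i => sq (i.2.1 • (x i.1).π)) (fun i => hsq _) (fun i => ε i.1 i.2.1)
    obtain ⟨p, P, sy, hp, hBp, hPp, hpP, hin, hst, hsym, hval⟩ :=
      exists_split_prime K l ζ hζ χ hχK (fun i : I => i.2.1 • (x i.1).π)
        (fun i => hpi i.1 i.2.1) (fun i => sq (i.2.1 • (x i.1).π)) (fun i => hsq _)
        (fun i => ε i.1 i.2.1) hχr (max B D'.natAbs)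
    obtain ⟨z, hz, hBz, hzP⟩ := NextAux.good_of hD' hgen 1 B p P hp hBp hPp hpP hin hst
    refine ⟨z, sy, hz, hBz, fun _ => ⟨?_, fun j s hs => ?_⟩⟩
    · rw [hzP]; exact hsym
    · exact (hval ⟨j, s, hs⟩).2
  · have hnorm : Normal ℚ Qb := Kummer.normal
    obtain ⟨τ₀, hτ₀⟩ :=
      AlgEquiv.restrictNormalHom_surjective (F := ℚ) (K₁ := K) Qb (σ : K ≃ₐ[ℚ] K)
    have h0 : ∀ x : K, τ₀ x = (((σ : K ≃ₐ[ℚ] K) x : K) : Qb) := by
      intro x
      rw [← hτ₀]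
      exact (AlgEquiv.restrictNormal_commutes τ₀ K x).symm
    obtain ⟨p, P, hp, hBp, hPp, hpP, hin, hst, -⟩ :=
      Pool.TP2.exists_prime K τ₀ (σ : K ≃ₐ[ℚ] K) h0 (J := Empty) (fun e => e.elim)
        (fun e => e.elim) (fun e => e.elim) (fun e => e.elim) (fun e => e.elim)
        (fun e => e.elim) (max B D'.natAbs)
    obtain ⟨z, hz, hBz, -⟩ := NextAux.good_of hD' hgen (σ : K ≃ₐ[ℚ] K) B p P hp hBp hPp hpP hin hst
    exact ⟨z, fun _ => 0, hz, hBz, fun h => absurd h hs⟩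

end Pool.KT
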