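import Pool.Agent.Helper54.KT.Defs
import Pool.Agent.TP2.Selmer
import Pool.Agent.TP2.Sym

/-!
Finiteness of the classes modulo `l`-th powers of the algebraic integers whose valuations outside
of finitely many primes are divisible by `l`.

Proof (the case `l = 2` is `Pool.TP2.Selmer.finCls_good`, adapt it; the general lemmas `FinCls.fiber`
and `FinCls.pick` can be reused). To `w` attach: the valuations modulo `l` at the finitely many
primes which contain `D`; then `(w) = ∏ Q ^ (n Q) * B ^ l` with `0 ≤ n Q < l`, and take the ideal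
class of `B`; if `w`, `w0` have the same valuations modulo `l` and the same class then
`w * x ^ l * u = w0 * x0 ^ l` with nonzero `x`, `x0` and a unit `u`; units modulo `l`-th powers are
finite in number. For `w`, `w'` with all data equal, `w * w' ^ (l - 1)` is an `l`-th power
(of an element of `𝓞 K`, which is integrally closed: `IsIntegrallyClosed.pow_dvd_pow_iff`).
So `U = {u z ^ (l - 1)}` works, `u z` a representative of the class `z` (nonzero).
-/

open NumberField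
open scoped Pointwise BigOperators nonZeroDivisors

namespace Pool.KT

open Pool.TP2

namespace Selmer

open Pool.TP2.Selmer

variable {K : Type} [Field K] [NumberField K]

/-- extraction of a root of a quotient -/
private theorem exists_root {l : ℕ} (hl : l ≠ 0) {a b c : 𝓞 K} (ha : a ≠ 0)
    (h : c * a ^ l = b ^ l) : ∃ g : 𝓞 K, c = g ^ l := by
  have h1 : a ^ l ∣ b ^ l := ⟨c, by rw [← h, mul_comm]⟩
  obtain ⟨g, hg⟩ := (IsIntegrallyClosed.pow_dvd_pow_iff hl).1 h1
  refine ⟨g, ?_⟩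
  have h2 : c * a ^ l = g ^ l * a ^ l := by
    rw [h, hg]
    ring
  exact mul_right_cancel₀ (pow_ne_zero l ha) h2

/-- units modulo powers -/
private theorem units_mod_powers {l : ℕ} (hl : l ≠ 0) :
    ∃ (E : Type) (_ : Finite E) (e : (𝓞 K)ˣ → E),
    ∀ u v : (𝓞 K)ˣ, e u = e v → ∃ δ : (𝓞 K)ˣ, v = u * δ ^ l := by
  set N : Subgroup (𝓞 K)ˣ := (powMonoidHom l : (𝓞 K)ˣ →* (𝓞 K)ˣ).range with hN
  have hfg : Group.FG (𝓞 K)ˣ := by
    rw [Group.fg_iff_monoid_fg]
    infer_instance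
  have hfg' : Group.FG ((𝓞 K)ˣ ⧸ N) := QuotientGroup.fg N
  have htor : IsMulTorsion ((𝓞 K)ˣ ⧸ N) := by
    intro x
    obtain ⟨u, rfl⟩ := QuotientGroup.mk_surjective x
    rw [isOfFinOrder_iff_pow_eq_one]
    refine ⟨l, Nat.pos_of_ne_zero hl, ?_⟩
    rw [← QuotientGroup.mk_pow, QuotientGroup.eq_one_iff]
    exact ⟨u, rfl⟩
  have hfin : Finite ((𝓞 K)ˣ ⧸ N) := CommGroup.finite_of_fg_isMulTorsion ((𝓞 K)ˣ ⧸ N) htor
  refine ⟨(𝓞 K)ˣ ⧸ N, hfin, fun u => (u : (𝓞 K)ˣ ⧸ N), fun u v huv => ?_⟩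
  rw [QuotientGroup.eq] at huv
  obtain ⟨δ, hδ⟩ := huv
  refine ⟨δ, ?_⟩
  have h1 : δ ^ l = u⁻¹ * v := hδ
  rw [h1]
  group

/-- the residues of the multiplicities -/
private noncomputable def resM {α : Type} [DecidableEq α] (l : ℕ) (m : Multiset α) :
    Multiset α :=
  Finsupp.toMultiset (Finsupp.mapRange (fun n => n % l) (Nat.zero_mod l) (Multiset.toFinsupp m))

private theorem count_resM {α : Type} [DecidableEq α] (l : ℕ) (m : Multiset α) (a : α) :
    (resM l m).count a = m.count a % l := by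
  unfold resM
  rw [Finsupp.count_toMultiset, Finsupp.mapRange_apply, Multiset.toFinsupp_apply]

/-- multisets: residual part and quotient part -/
private theorem exists_quot {α : Type} [DecidableEq α] (l : ℕ) (m : Multiset α) :
    ∃ b : Multiset α, m = resM l m + l • b := by
  refine ⟨Finsupp.toMultiset (Finsupp.mapRange (fun n => n / l) (Nat.zero_div l)
    (Multiset.toFinsupp m)), ?_⟩
  ext a
  rw [Multiset.count_add, Multiset.count_nsmul, Finsupp.count_toMultiset, Finsupp.mapRange_apply,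
    Multiset.toFinsupp_apply, count_resM]
  exact (Nat.mod_add_div _ _).symm

/-- the elements with valuations divisible by `l` outside of `D` -/
private def GoodL (l : ℕ) (D : ℤ) (w : 𝓞 K) : Prop :=
  w ≠ 0 ∧ ∀ Q : Ideal (𝓞 K), Q.IsPrime → Q ≠ ⊥ → (D : 𝓞 K) ∉ Q → l ∣ cnt Q w

open Classical in
/-- the residual part of the factorisation -/
private noncomputable def resPart (l : ℕ) (w : 𝓞 K) : Multiset (Ideal (𝓞 K)) :=
  resM l (UniqueFactorizationMonoid.normalizedFactors (Ideal.span {w}))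

open Classical in
private theorem count_resPart_eq_zero {l : ℕ} {D : ℤ} (hD : D ≠ 0) {w : 𝓞 K}
    (hw : GoodL l D w) (Q : Ideal (𝓞 K))
    (hQ : Q ∉ (UniqueFactorizationMonoid.normalizedFactors
      (Ideal.span {(D : 𝓞 K)})).toFinset) :
    (resPart l w).count Q = 0 := by
  unfold resPart
  rw [count_resM]
  by_cases hQ' : Q ∈ UniqueFactorizationMonoid.normalizedFactors (Ideal.span {w})
  · have hprime : Prime Q := UniqueFactorizationMonoid.prime_of_normalized_factor Q hQ'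
    have hQp : Q.IsPrime := Ideal.isPrime_of_prime hprime
    have hQ0 : Q ≠ ⊥ := by
      rw [← Ideal.zero_eq_bot]
      exact hprime.ne_zero
    have hDQ : (D : 𝓞 K) ∉ Q := by
      intro hDQ
      apply hQ
      rw [Multiset.mem_toFinset]
      have hD' : Ideal.span {(D : 𝓞 K)} ≠ 0 := by
        rw [Ideal.zero_eq_bot, Ne, Ideal.span_singleton_eq_bot]
        exact_mod_cast hD
      rw [UniqueFactorizationMonoid.mem_normalizedFactors_iff hD']
      refine ⟨hprime, ?_⟩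
      rw [Ideal.dvd_span_singleton]
      exact hDQ
    have h1 := hw.2 Q hQp hQ0 hDQ
    unfold cnt at h1
    exact Nat.mod_eq_zero_of_dvd h1
  · rw [Multiset.count_eq_zero_of_notMem hQ', Nat.zero_mod]

open Classical in
/-- the power part of the factorisation -/
private theorem exists_powPart {l : ℕ} (hl : l ≠ 0) {w : 𝓞 K} (hw : w ≠ 0) :
    ∃ B : Ideal (𝓞 K), B ≠ 0 ∧ Ideal.span {w} = (resPart l w).prod * B ^ l := by
  have hspan : Ideal.span {w} ≠ 0 := by
    rw [Ideal.zero_eq_bot, Ne, Ideal.span_singleton_eq_bot]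
    exact hw
  obtain ⟨b, hb⟩ := exists_quot l
    (UniqueFactorizationMonoid.normalizedFactors (Ideal.span {w}))
  have h1 : Ideal.span {w} = (resPart l w).prod * b.prod ^ l := by
    have h2 : (UniqueFactorizationMonoid.normalizedFactors (Ideal.span {w})).prod =
        Ideal.span {w} := by
      have h3 := UniqueFactorizationMonoid.prod_normalizedFactors hspan
      exact associated_iff_eq.1 h3
    have h4 := congrArg Multiset.prod hb
    rw [Multiset.prod_add, Multiset.prod_nsmul, h2] at h4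
    exact h4
  refine ⟨b.prod, ?_, h1⟩
  intro h0
  rw [h0, zero_pow hl, mul_zero] at h1
  exact hspan h1

open Classical in
/-- the class of the power part -/
private noncomputable def powClass (l : ℕ) (w : 𝓞 K) : ClassGroup (𝓞 K) :=
  if h : l ≠ 0 ∧ w ≠ 0 then
    ClassGroup.mk0 ⟨(exists_powPart h.1 h.2).choose, mem_nonZeroDivisors_iff_ne_zero.2
      (exists_powPart h.1 h.2).choose_spec.1⟩
  else 1

private theorem exists_unitL {l : ℕ} (hl : l ≠ 0) {w w0 : 𝓞 K} (hw : w ≠ 0) (hw0 : w0 ≠ 0)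
    (hres : resPart l w = resPart l w0) (hcl : powClass l w = powClass l w0) :
    ∃ (x x0 : 𝓞 K) (u : (𝓞 K)ˣ), x ≠ 0 ∧ x0 ≠ 0 ∧ w * x ^ l * u = w0 * x0 ^ l := by
  unfold powClass at hcl
  rw [dif_pos ⟨hl, hw⟩, dif_pos ⟨hl, hw0⟩, ClassGroup.mk0_eq_mk0_iff] at hcl
  obtain ⟨x, x0, hx, hx0, h⟩ := hcl
  have h1 := (exists_powPart hl hw).choose_spec.2
  have h2 := (exists_powPart hl hw0).choose_spec.2
  set B := (exists_powPart hl hw).choose with hB
  set B0 := (exists_powPart hl hw0).choose with hB0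
  have h' : Ideal.span {x} * B = Ideal.span {x0} * B0 := h
  have h3 : Ideal.span {w * x ^ l} = Ideal.span {w0 * x0 ^ l} := by
    rw [← Ideal.span_singleton_mul_span_singleton, ← Ideal.span_singleton_mul_span_singleton,
      ← Ideal.span_singleton_pow, ← Ideal.span_singleton_pow, h1, h2, hres]
    calc (resPart l w0).prod * B ^ l * Ideal.span {x} ^ l =
        (resPart l w0).prod * (Ideal.span {x} * B) ^ l := by ring
      _ = (resPart l w0).prod * (Ideal.span {x0} * B0) ^ l := by rw [h']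
      _ = _ := by ring
  rw [Ideal.span_singleton_eq_span_singleton] at h3
  obtain ⟨u, hu⟩ := h3
  exact ⟨x, x0, u, hx, hx0, hu⟩

/-- the product is a power -/
private def IsPw (l : ℕ) (w w' : 𝓞 K) : Prop := ∃ κ : 𝓞 K, w * w' ^ (l - 1) = κ ^ l

private theorem finCls_goodL {l : ℕ} (hl : l ≠ 0) (D : ℤ) (hD : D ≠ 0) :
    FinCls {w : 𝓞 K | GoodL l D w} (IsPw l) := by
  classical
  set bad := (UniqueFactorizationMonoid.normalizedFactors (Ideal.span {(D : 𝓞 K)})).toFinset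
    with hbad
  have hfinl : ∀ n : ℕ, n % l < l := fun n => Nat.mod_lt _ (Nat.pos_of_ne_zero hl)
  refine FinCls.fiber (Z := bad → Fin l) (fun w Q =>
    ⟨(UniqueFactorizationMonoid.normalizedFactors (Ideal.span {w})).count Q.1 % l,
      hfinl _⟩) fun A => ?_
  refine FinCls.fiber (Z := ClassGroup (𝓞 K)) (powClass l) fun c => ?_
  refine FinCls.pick fun w0 hw0 => ?_
  obtain ⟨E, hE, e, he⟩ := units_mod_powers (K := K) hl
  have hset : ∀ w, w ∈ ({w : 𝓞 K | GoodL l D w} ∩ (fun w (Q : bad) =>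
      (⟨(UniqueFactorizationMonoid.normalizedFactors (Ideal.span {w})).count Q.1 % l,
        hfinl _⟩ : Fin l)) ⁻¹' {A}) ∩ (powClass l) ⁻¹' {c} →
      ∃ (u : (𝓞 K)ˣ) (x x0 : 𝓞 K), x ≠ 0 ∧ x0 ≠ 0 ∧ w * x ^ l * u = w0 * x0 ^ l := by
    intro w hw
    have hres : resPart l w = resPart l w0 := by
      ext Q
      by_cases hQ : Q ∈ bad
      · have h1 := congrFun hw.1.2 ⟨Q, hQ⟩
        have h2 := congrFun hw0.1.2 ⟨Q, hQ⟩
        have h3 := congrArg Fin.val (h1.trans h2.symm)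
        unfold resPart
        rw [count_resM, count_resM]
        exact h3
      · rw [count_resPart_eq_zero hD hw.1.1 Q hQ, count_resPart_eq_zero hD hw0.1.1 Q hQ]
    have hcl : powClass l w = powClass l w0 := by
      have h4 : powClass l w = c := hw.2
      have h5 : powClass l w0 = c := hw0.2
      rw [h4, h5]
    obtain ⟨x, x0, u, h⟩ := exists_unitL hl hw.1.1.1 hw0.1.1.1 hres hcl
    exact ⟨u, x, x0, h⟩
  refine ⟨E, hE, fun w => if h : ∃ (u : (𝓞 K)ˣ) (x x0 : 𝓞 K), x ≠ 0 ∧ x0 ≠ 0 ∧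
        w * x ^ l * u = w0 * x0 ^ l then e h.choose else e 1, ?_⟩
  intro w hw w' hw' heq
  have h1 := hset w hw
  have h2 := hset w' hw'
  simp only [dif_pos h1, dif_pos h2] at heq
  obtain ⟨δ, hδ⟩ := he _ _ heq
  obtain ⟨x, x0, hx, hx0, hxx⟩ := h1.choose_spec
  obtain ⟨y, y0, hy, hy0, hyy⟩ := h2.choose_spec
  set u := h1.choose with hu
  set v := h2.choose with hv
  obtain ⟨n, rfl⟩ : ∃ n, l = n + 1 := ⟨l - 1, by omega⟩
  have hδ' : ((v : (𝓞 K)ˣ) : 𝓞 K) = ((u : (𝓞 K)ˣ) : 𝓞 K) * ((δ : (𝓞 K)ˣ) : 𝓞 K) ^ (n + 1) := by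
    rw [hδ, Units.val_mul, Units.val_pow_eq_pow_val]
  have h3 : w * w' ^ n * (x * y ^ n * (u * δ ^ n)) ^ (n + 1) =
      (w0 * x0 * y0 ^ n) ^ (n + 1) := by
    calc w * w' ^ n * (x * y ^ n * (u * δ ^ n)) ^ (n + 1)
        = (w * x ^ (n + 1) * u) * (w' * y ^ (n + 1) * (u * δ ^ (n + 1))) ^ n := by ring
      _ = (w * x ^ (n + 1) * u) * (w' * y ^ (n + 1) * v) ^ n := by rw [hδ']
      _ = (w0 * x0 ^ (n + 1)) * (w0 * y0 ^ (n + 1)) ^ n := by rw [hxx, hyy]
      _ = _ := by ring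
  have h4 : x * y ^ n * ((u : 𝓞 K) * (δ : 𝓞 K) ^ n) ≠ 0 :=
    mul_ne_zero (mul_ne_zero hx (pow_ne_zero n hy))
      (mul_ne_zero u.ne_zero (pow_ne_zero n δ.ne_zero))
  obtain ⟨g, hg⟩ := exists_root hl h4 h3
  exact ⟨g, hg⟩

end Selmer

open Selmer Pool.TP2.Selmer in
theorem finite_classes (K : Type) [Field K] [NumberField K] (l : ℕ) (hl : l.Prime) (D : ℤ)
    (hD : D ≠ 0) :
    ∃ U : Finset (𝓞 K), (∀ u ∈ U, u ≠ 0) ∧ ∀ w : 𝓞 K, w ≠ 0 →
      (∀ Q : Ideal (𝓞 K), Q.IsPrime → Q ≠ ⊥ → (D : 𝓞 K) ∉ Q → l ∣ cnt Q w) →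
      ∃ u ∈ U, ∃ g : 𝓞 K, w * u = g ^ l := by
  classical
  obtain ⟨Z, hZ, φ, hφ⟩ := finCls_goodL (K := K) hl.ne_zero D hD
  have := Fintype.ofFinite Z
  have hex : ∀ z : Z, ∃ u : 𝓞 K, u ≠ 0 ∧
      ((∃ w ∈ {w : 𝓞 K | GoodL l D w}, φ w = z) → u ∈ {w : 𝓞 K | GoodL l D w} ∧ φ u = z) := by
    intro z
    by_cases h : ∃ w ∈ {w : 𝓞 K | GoodL l D w}, φ w = z
    · obtain ⟨w, hw, hz⟩ := h
      exact ⟨w, hw.1, fun _ => ⟨hw, hz⟩⟩
    · exact ⟨1, one_ne_zero, fun h' => absurd h' h⟩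
  choose u hu0 hu using hex
  refine ⟨Finset.univ.image (fun z => u z ^ (l - 1)), ?_, ?_⟩
  · intro v hv
    obtain ⟨z, -, rfl⟩ := Finset.mem_image.1 hv
    exact pow_ne_zero _ (hu0 z)
  · intro w hw hQ
    have hwS : w ∈ {w : 𝓞 K | GoodL l D w} := ⟨hw, hQ⟩
    obtain ⟨h1, h2⟩ := hu (φ w) ⟨w, hwS, rfl⟩
    obtain ⟨g, hg⟩ := hφ w hwS (u (φ w)) h1 h2.symm
    exact ⟨u (φ w) ^ (l - 1), Finset.mem_image_of_mem _ (Finset.mem_univ _), g, hg⟩

end Pool.KT
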