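import Pool.Agent.Helper54.KT.Comb
import Pool.Agent.Helper54.KT.Next
import Pool.Agent.Helper54.KT.Selmer
import Pool.Agent.Helper54.KT.Descent
import Pool.Agent.TP2.Core

/-!
The core theorem: primes without consistent labels.

Proof (see `Pool.TP2.Core`, in particular `setup`, `game` and `exists_T`). Setup: `D₁` from
`Pool.TP2.exists_gen K`; `D₂` a nonzero integer in every prime ideal which contains some
`det (pt x) (pt y)`, `x ≠ y` (`det` is `1` or the difference of two distinct algebraic integers as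
`pt` is injective; use `Pool.TP2.Core.norm_mem`), `D = D₁ * D₂ * D₀`, `U` from `finite_classes K l D`,
`D' = D * (product of integers in the ideals of the members of U)`. Then
`Good D D'` implies `Good D D`. The game: `no_strategy` with `I` the set of orbits
(`MulAction.orbitRel.Quotient G X`), `Y = G → ZMod l`, `V = X → U`, `σ' = fun τ => τ.elim 1 σ`,
`fix τ α = (σ' τ • α = α ∧ α ∈ A τ)`,
`bit τ α θ y = ∑ s ∈ cosetReps (σ' τ) with s • α = θ, y s` (`hbit`: if `σ' τ • α = α`, every `θ` in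
the orbit of `α` is `s • α` for some `s ∈ cosetReps (σ' τ)`; put `y` at one such `s` equal to
`a θ` and zero elsewhere), and `κ⁻¹` instead of `κ`; `hW` follows from `H` for
`S = {x | π x ∈ S₀}`. The tree: `Pool.TP2.exists_tree` with moves
`Option T × (Fin M → G → ZMod l)`, `Z = PD K × (𝓞 K → ZMod l)`,
`good m z = (z.1.Good D D' (σ' m.1) ∧ (m.1 = none → IsSym l z.1.P z.2))`, `rk z = z.1.p` and
`R k m mj z z' = (m.1 = none → ∀ s ∈ cosetReps (σ' mj.1),
  z.2 (s • z'.1.π) = if h : k < M then mj.2 ⟨k, h⟩ s else 0)` (by `exists_next` with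
`spl = (m.1 = none)`). If for every play `x` with the right types there are `a`, `b`
contradicting the claim (for the primes of the play), then `descent` gives labels, `u` and `β`, and
`no_strategy` is contradicted with
`χ k m α θ x = ∑ s ∈ cosetReps (σ' (x m).1) with s • α = θ, (F x k).2 (s • (F x m).1.π)` and
`f k θ v α x = (κ θ)⁻¹ * ((F x k).2 (det (pt α) (pt θ)) + (F x k).2 (v θ))`.
-/

open NumberField Polynomial
open scoped Pointwise BigOperators

namespace Pool.KT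

open Pool.TP2

namespace Core

/-- The bad integers and the finite set of classes. -/
theorem setup (K : Type) [Field K] [NumberField K] [IsGalois ℚ K] (l : ℕ) (hl : l.Prime)
    {X : Type} [Fintype X] (pt : X → Option (𝓞 K)) (hinj : Function.Injective pt)
    (D₀ : ℤ) (hD₀ : D₀ ≠ 0) :
    ∃ (D D' : ℤ) (U : Finset (𝓞 K)), D ≠ 0 ∧ D' ≠ 0 ∧ D ∣ D' ∧ D₀ ∣ D ∧
      (∀ (σ : K ≃ₐ[ℚ] K) (P : Ideal (𝓞 K)), P.IsPrime → P ≠ ⊥ →
        P.inertia (K ≃ₐ[ℚ] K) = ⊥ →
        MulAction.stabilizer (K ≃ₐ[ℚ] K) P = Subgroup.zpowers σ →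
        ∃ π : 𝓞 K, π ≠ 0 ∧ σ • π = π ∧ ∀ Q : Ideal (𝓞 K), Q.IsPrime → Q ≠ ⊥ → (D : 𝓞 K) ∉ Q →
          (Q = P → cnt Q π = 1) ∧ (Q ≠ P → cnt Q π = 0)) ∧
      (∀ x y : X, x ≠ y → ∀ Q : Ideal (𝓞 K), Q.IsPrime →
        det (pt x) (pt y) ∈ Q → (D : 𝓞 K) ∈ Q) ∧
      (∀ w : 𝓞 K, w ≠ 0 →
        (∀ Q : Ideal (𝓞 K), Q.IsPrime → Q ≠ ⊥ → (D : 𝓞 K) ∉ Q → l ∣ cnt Q w) →
        ∃ u ∈ U, ∃ g : 𝓞 K, w * u = g ^ l) ∧
      (∀ u ∈ U, ∀ Q : Ideal (𝓞 K), Q.IsPrime → u ∈ Q → (D' : 𝓞 K) ∈ Q) := by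
  classical
  obtain ⟨D₁, hD₁, hgen⟩ := exists_gen K
  have hn : ∀ y : 𝓞 K, ∃ n : ℤ, (y ≠ 0 → n ≠ 0) ∧ ∀ (Q : Ideal (𝓞 K)),
      y ≠ 0 → y ∈ Q → (n : 𝓞 K) ∈ Q := by
    intro y
    by_cases hy : y = 0
    · exact ⟨0, fun h => absurd hy h, fun Q h => absurd hy h⟩
    · obtain ⟨n, hn, h⟩ := Pool.TP2.Core.norm_mem y hy
      exact ⟨n, fun _ => hn, fun Q _ hQ => h 1 Q (by rw [one_smul]; exact hQ)⟩
  choose nm hnm hnm' using hn
  have hdet : ∀ x y : X, x ≠ y → det (pt x) (pt y) ≠ 0 := by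
    intro x y hxy h
    have h1 : pt x ≠ pt y := fun h => hxy (hinj h)
    rcases hx : pt x with _ | c
    · rw [hx] at h
      rcases hy : pt y with _ | d
      · rw [hy] at h
        exact one_ne_zero (α := 𝓞 K) h
      · rw [hy] at h
        exact one_ne_zero (α := 𝓞 K) h
    · rw [hx] at h
      rcases hy : pt y with _ | d
      · rw [hy] at h
        exact one_ne_zero (α := 𝓞 K) h
      · rw [hy] at h
        have h2 : c - d = 0 := h
        exact h1 (by rw [hx, hy, sub_eq_zero.1 h2])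
  let D₂ : ℤ := ∏ x : X × X, if x.1 = x.2 then 1 else nm (det (pt x.1) (pt x.2))
  have hD₂ : D₂ ≠ 0 := by
    refine Finset.prod_ne_zero_iff.2 fun x _ => ?_
    split_ifs with h
    · exact one_ne_zero
    · exact hnm _ (hdet _ _ h)
  let D : ℤ := D₁ * D₂ * D₀
  have hD : D ≠ 0 := mul_ne_zero (mul_ne_zero hD₁ hD₂) hD₀
  have hd₁ : D₁ ∣ D := ⟨D₂ * D₀, by simp only [D]; ring⟩
  have hd₂ : D₂ ∣ D := ⟨D₁ * D₀, by simp only [D]; ring⟩
  have hd₀ : D₀ ∣ D := ⟨D₁ * D₂, by simp only [D]; ring⟩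
  obtain ⟨U, hUne, hU⟩ := finite_classes K l hl D hD
  let D' : ℤ := D * ∏ u ∈ U, nm u
  refine ⟨D, D', U, hD, mul_ne_zero hD (Finset.prod_ne_zero_iff.2 fun u hu => hnm u (hUne u hu)),
    dvd_mul_right _ _, hd₀, ?_, ?_, hU, ?_⟩
  · intro σ P hP hP0 hin hst
    obtain ⟨π, hπ0, hπ, hcnt⟩ := hgen σ P hP hP0 hin hst
    exact ⟨π, hπ0, hπ, fun Q hQ hQ0 hDQ => hcnt Q hQ hQ0 fun h =>
      hDQ (Pool.TP2.Core.dvd_mem hd₁ Q h)⟩
  · intro x y hxy Q _ hmem
    have h1 : nm (det (pt x) (pt y)) ∣ D₂ := by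
      have h2 := Finset.dvd_prod_of_mem
        (fun x : X × X => if x.1 = x.2 then 1 else nm (det (pt x.1) (pt x.2)))
        (Finset.mem_univ (x, y))
      simp only [if_neg hxy] at h2
      exact h2
    exact Pool.TP2.Core.dvd_mem (h1.trans hd₂) Q (hnm' _ Q (hdet x y hxy) hmem)
  · intro u hu Q _ hmem
    refine Pool.TP2.Core.dvd_mem ?_ Q (hnm' u Q (hUne u hu) hmem)
    exact (Finset.dvd_prod_of_mem nm hu).trans (dvd_mul_left _ _)

open Classical in
/-- Prescribed values of the sums over the coset representatives. -/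
theorem exists_bits {G X : Type} [Group G] [Finite G] [MulAction G X] {l : ℕ} (σ : G) (α : X)
    (hα : σ • α = α) (a : X → ZMod l) :
    ∃ y : G → ZMod l, ∀ θ : X, θ ∈ MulAction.orbit G α →
      ∑ s ∈ (cosetReps σ).filter (fun s => s • α = θ), y s = a θ := by
  have h1 : ∀ θ : X, ∃ s : G, θ ∈ MulAction.orbit G α → s ∈ cosetReps σ ∧ s • α = θ := by
    intro θ
    by_cases h : θ ∈ MulAction.orbit G α
    · obtain ⟨g, rfl⟩ := h
      exact ⟨Reps.rep σ g, fun _ => ⟨Reps.rep_mem σ g, Reps.rep_smul hα g⟩⟩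
    · exact ⟨1, fun h' => absurd h' h⟩
  choose ch hch using h1
  refine ⟨fun s => if s = ch (s • α) then a (s • α) else 0, fun θ hθ => ?_⟩
  obtain ⟨h2, h3⟩ := hch θ hθ
  rw [Finset.sum_eq_single (ch θ)]
  · rw [h3, if_pos rfl]
  · intro s hs hne
    rw [Finset.mem_filter] at hs
    rw [hs.2, if_neg hne]
  · intro h
    exact absurd (Finset.mem_filter.2 ⟨h2, h3⟩) h

/-- Good data stay good if the second bad integer is replaced by the first. -/
theorem good_mono {K : Type} [Field K] [NumberField K] {D D' : ℤ} (h : D ∣ D')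
    {σ : K ≃ₐ[ℚ] K} {x : PD K} (hx : x.Good D D' σ) : x.Good D D σ where
  prime := hx.prime
  isPrime := hx.isPrime
  mem := hx.mem
  notMem := fun h' => hx.notMem (Pool.TP2.Core.dvd_mem h _ h')
  stab := hx.stab
  ne := hx.ne
  fixed := hx.fixed
  cnt_eq := hx.cnt_eq

end Core

open Classical in
theorem core (K : IntermediateField ℚ Qb) [NumberField K] [IsGalois ℚ K]
    (G : Subgroup (K ≃ₐ[ℚ] K)) (l : ℕ) [Fact l.Prime] (ζ : K) (hζ : IsPrimitiveRoot ζ l)
    {X : Type} [Fintype X] [MulAction G X] (pt : X → Option (𝓞 K))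
    (hinj : Function.Injective pt)
    (hpt : ∀ (s : G) (x : X), pt (s • x) = (pt x).map (fun θ => s • θ))
    {T : Type} [Fintype T] (σ : T → G) (A : Option T → Set X)
    (κ : X → ZMod l) (hκ : ∀ x, κ x ≠ 0) (hκG : ∀ (s : G) (x : X), κ (s • x) = κ x)
    (H : ∀ S : Finset X, (∀ (s : G), ∀ x ∈ S, s • x ∈ S) →
      (∀ τ : T, ∃ x ∈ S, σ τ • x = x ∧ x ∈ A (some τ)) →
      (S.filter (fun x => x ∈ A none)).card * (if ∀ x, x ∈ S then l ^ 2 else l) < l ^ S.card)
    (D₀ : ℤ) (hD₀ : D₀ ≠ 0) (B : ℕ) :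
    ∃ (D : ℤ) (M : ℕ) (ty : Fin M → Option T) (x : Fin M → PD K), D ≠ 0 ∧ D₀ ∣ D ∧
      (∀ n, (x n).Good D D (((ty n).elim 1 σ : G) : K ≃ₐ[ℚ] K)) ∧
      (∀ m n, (x m).p = (x n).p → m = n) ∧ (∀ n, B < (x n).p) ∧
      (∃ n, ty n = none) ∧ (∀ τ, ∃ n, ty n = some τ) ∧
      ∀ a b : 𝓞 K, (∀ s : G, s • a = a) → (∀ s : G, s • b = b) →
        (∀ Q : Ideal (𝓞 K), Q.IsPrime → a ∈ Q → b ∈ Q → (D : 𝓞 K) ∈ Q) →
        (∀ y : X, lin a b (pt y) ≠ 0) →
        (∀ n, ∃ y : X, lin a b (pt y) ∈ (x n).P ∧ y ∈ A (ty n)) →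
        (∀ (y : X) (Q : Ideal (𝓞 K)), Q.IsPrime → Q ≠ ⊥ → (D : 𝓞 K) ∉ Q →
          lin a b (pt y) ∈ Q →
          ((∃ n, ∃ s : G, Q = s • (x n).P) → ((cnt Q (lin a b (pt y)) : ℕ) : ZMod l) = κ y) ∧
          ((¬ ∃ n, ∃ s : G, Q = s • (x n).P) →
            ((cnt Q (lin a b (pt y)) : ℕ) : ZMod l) = 0)) → False := by
  have hfinG : Finite G := inferInstance
  let _ : Fintype G := Fintype.ofFinite G
  obtain ⟨D, D', U, hD, hD', hDD', hD₀D, hgen, hdiff, hU, hUD⟩ :=
    Core.setup (K := K) l (Fact.out : l.Prime) pt hinj D₀ hD₀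
  let σ' : Option T → G := fun τ => τ.elim 1 σ
  let π : X → MulAction.orbitRel.Quotient G X := fun x => Quotient.mk'' x
  have hπ : ∀ x y, π x = π y ↔ x ∈ MulAction.orbit G y := by
    intro x y
    exact Quotient.eq''
  let _ : Fintype (MulAction.orbitRel.Quotient G X) := Fintype.ofFinite _
  let fx : Option T → X → Prop := fun τ α => σ' τ • α = α ∧ α ∈ A τ
  let bit : Option T → X → X → (G → ZMod l) → ZMod l := fun τ α θ y =>
    ∑ s ∈ (cosetReps (σ' τ)).filter (fun s => s • α = θ), y s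
  obtain ⟨M, ty, hty0, hty1, hgame⟩ := no_strategy (I := MulAction.orbitRel.Quotient G X)
    (X := X) (T := T) (Y := G → ZMod l) (V := X → U) l π fx bit
    (by
      intro τ α θ y y'
      simp only [bit, Pi.add_apply, Finset.sum_add_distrib])
    (by
      intro τ α hα a
      obtain ⟨y, hy⟩ := Core.exists_bits (σ' τ) α hα.1 a
      exact ⟨y, fun θ hθ => hy θ ((hπ _ _).1 hθ)⟩)
    (fun θ => (κ θ)⁻¹) (fun θ => inv_ne_zero (hκ θ))
    (by
      intro S hS
      have h := H (Finset.univ.filter fun x => π x ∈ S) (by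
        intro s x hx
        rw [Finset.mem_filter] at hx ⊢
        refine ⟨Finset.mem_univ _, ?_⟩
        have h1 : π (s • x) = π x := (hπ _ _).2 ⟨s, rfl⟩
        rw [h1]
        exact hx.2) (by
        intro τ
        obtain ⟨α, hα, hαS⟩ := hS τ
        exact ⟨α, Finset.mem_filter.2 ⟨Finset.mem_univ _, hαS⟩, hα.1, hα.2⟩)
      have h3 : (∀ θ, π θ ∈ S) ↔ ∀ x, x ∈ Finset.univ.filter fun x => π x ∈ S := by
        simp only [Finset.mem_filter, Finset.mem_univ, true_and]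
      refine lt_of_eq_of_lt ?_ (h.trans_eq ?_)
      · refine congrArg₂ (fun a b : ℕ => a * b) (congrArg Finset.card ?_) ?_
        · ext α
          simp only [Finset.mem_filter, Finset.mem_univ, true_and, fx]
          constructor
          · rintro ⟨⟨-, h3⟩, h4⟩
            exact ⟨h4, h3⟩
          · rintro ⟨h4, h3⟩
            exact ⟨⟨one_smul G α, h3⟩, h4⟩
        · by_cases h4 : ∀ θ, π θ ∈ S
          · rw [if_pos h4, if_pos (h3.1 h4)]
          · rw [if_neg h4, if_neg (fun h5 => h4 (h3.2 h5))]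
      · congr!)
  let Mv : Type := Option T × (Fin M → G → ZMod l)
  let R : ℕ → Mv → Mv → PD K × (𝓞 K → ZMod l) → PD K × (𝓞 K → ZMod l) → Prop :=
    fun k m mj z z' => m.1 = none → ∀ s ∈ cosetReps (σ' mj.1),
      z.2 (s • z'.1.π) = if h : k < M then mj.2 ⟨k, h⟩ s else 0
  obtain ⟨F, hF1, hF2, hF3, hF4⟩ := exists_tree (M := Mv) (Z := PD K × (𝓞 K → ZMod l))
    (fun m z => z.1.Good D D' ((σ' m.1 : G) : K ≃ₐ[ℚ] K) ∧ (m.1 = none → IsSym l z.1.P z.2))
    (fun z => z.1.p) R (by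
      intro J _ mv z hgood hdist k m B'
      obtain ⟨z', sy, h1, h2, h3⟩ := exists_next K G l ζ hζ D D' hD' hDD' hgen
        (fun j => σ' (mv j).1) (fun j => (z j).1) (fun j => (hgood j).1) hdist (σ' m.1)
        (m.1 = none) (by
          intro h
          simp only [σ', h, Option.elim_none])
        (fun j s => if h : k < M then (mv j).2 ⟨k, h⟩ s else 0) B'
      exact ⟨(z', sy), ⟨h1, fun h => (h3 h).1⟩, h2, fun j h s hs => (h3 h).2 j s hs⟩) M B
  by_contra hcon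
  let fixty : Ply T (G → ZMod l) M → Fin M → Mv := fun x k => (ty k, (x k).2)
  have hfixty : ∀ x : Ply T (G → ZMod l) M, (∀ k, (x k).1 = ty k) → fixty x = x := by
    intro x hx
    funext k
    exact Prod.ext (hx k).symm rfl
  have hsol : ∀ x : Ply T (G → ZMod l) M, ∃ (c : Fin M → X) (u : X → U) (β : Fin M → ZMod l),
      (∀ k, fx (ty k) (c k)) ∧
      ∀ k, ty k = none → ∀ θ, θ ≠ c k →
        κ θ * (∑ m, ∑ s ∈ (cosetReps (σ' (ty m))).filter (fun s => s • c m = θ),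
            (F (fixty x) k).2 (s • (F (fixty x) m).1.π)) =
          β k + (F (fixty x) k).2 (det (pt (c k)) (pt θ)) + (F (fixty x) k).2 (u θ) := by
    intro x
    have hgood : ∀ n, (F (fixty x) n).1.Good D D' ((σ' (ty n) : G) : K ≃ₐ[ℚ] K) :=
      fun n => (hF1 (fixty x) n).1.1
    have hdist : ∀ m n, (F (fixty x) m).1.p = (F (fixty x) n).1.p → m = n :=
      fun m n => hF3 (fixty x) m n
    by_contra hc2
    refine hcon ⟨D, M, ty, fun n => (F (fixty x) n).1, hD, hD₀D,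
      fun n => Core.good_mono hDD' (hgood n), hdist, fun n => (hF1 (fixty x) n).2,
      hty0, hty1, ?_⟩
    intro a b ha hb hab hne hlab h2
    choose c hc hcA using hlab
    apply hc2
    obtain ⟨hcf, u, β, hu, hrel⟩ := descent K G l pt hinj hpt D D' hDD' hdiff κ hκG U hU hUD
      (fun n => σ' (ty n)) (fun n => (F (fixty x) n).1) (fun n => (F (fixty x) n).2) hgood hdist
      a b ha hb hab hne c hc h2
    refine ⟨c, fun y => ⟨u y, hu y⟩, β, fun k => ⟨hcf k, hcA k⟩, ?_⟩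
    intro k hk θ hθ
    exact hrel k ((hF1 (fixty x) k).1.2 hk) θ hθ
  choose c u β hc hrel using hsol
  refine hgame c u β
    (fun k m α θ x => ∑ s ∈ (cosetReps (σ' (ty m))).filter (fun s => s • α = θ),
      (F (fixty x) k).2 (s • (F (fixty x) m).1.π))
    (fun k θ v α x => (κ θ)⁻¹ * ((F (fixty x) k).2 (det (pt α) (pt θ)) +
      (F (fixty x) k).2 (v θ))) ?_ ?_ ?_ ?_ ?_
  · intro x _
    exact hc x
  · intro k m α θ x hx hk hkm hα
    simp only [bit]
    refine Finset.sum_congr rfl fun s hs => ?_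
    rw [Finset.mem_filter] at hs
    have h := hF4 (fixty x) k m hkm hk s hs.1
    rw [h, dif_pos k.2]
  · intro k m α θ x y hmk hxy
    have e1 : F (fixty x) k = F (fixty y) k := hF2 _ _ k fun j hj => by
      simp only [fixty, hxy j hj]
    have e2 : F (fixty x) m = F (fixty y) m := hF2 _ _ m fun j hj => by
      simp only [fixty, hxy j (hj.trans hmk)]
    rw [e1, e2]
  · intro k θ v α x y hxy
    have e1 : F (fixty x) k = F (fixty y) k := hF2 _ _ k fun j hj => by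
      simp only [fixty, hxy j hj]
    rw [e1]
  · intro x hx k hk θ hθ
    have h := hrel x k hk θ hθ
    have h1 : (∑ m, ∑ s ∈ (cosetReps (σ' (ty m))).filter (fun s => s • c x m = θ),
            (F (fixty x) k).2 (s • (F (fixty x) m).1.π)) =
        ∑ m ∈ Finset.univ.filter (fun m => π (c x m) = π θ),
          ∑ s ∈ (cosetReps (σ' (ty m))).filter (fun s => s • c x m = θ),
            (F (fixty x) k).2 (s • (F (fixty x) m).1.π) := by
      refine (Finset.sum_subset (Finset.filter_subset _ _) fun m _ hm => ?_).symm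
      refine Finset.sum_eq_zero fun s hs => ?_
      exfalso
      apply hm
      rw [Finset.mem_filter] at hs ⊢
      refine ⟨Finset.mem_univ _, ((hπ _ _).2 ?_).symm⟩
      exact ⟨s, hs.2⟩
    rw [h1] at h
    have h2 := hκ θ
    have h3 : ∀ S t w : ZMod l, κ θ * S = t + w → S = (κ θ)⁻¹ * t + (κ θ)⁻¹ * w := by
      intro S t w hS
      rw [← mul_add, ← hS, ← mul_assoc, inv_mul_cancel₀ h2, one_mul]
    refine h3 _ _ _ (Eq.trans (congrArg (fun t => κ θ * t) ?_) (h.trans (add_assoc _ _ _)))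
    congr!

end Pool.KT
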