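import Pool.Agent.TP2.Reps

/-!
Definitions for project KT: Kummer twist families of abelian covers of the line.
-/

open NumberField Polynomial
open scoped Pointwise BigOperators

namespace Pool.KT

/-- The linear form attached to a point of the projective line; the point at infinity is
`none`. -/
noncomputable def lin {R : Type} [CommRing R] (a b : R) : Option R → R
  | none => b
  | some θ => a - b * θ

/-- The cross term of two points of the projective line. -/
noncomputable def det {R : Type} [CommRing R] : Option R → Option R → R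
  | some c, some θ => c - θ
  | some _, none => 1
  | none, _ => 1

/-- A symbol at a prime ideal: a homomorphism from the units modulo `P` to `ZMod l`. -/
structure IsSym {K : Type} [Field K] (l : ℕ) (P : Ideal (𝓞 K)) (sy : 𝓞 K → ZMod l) : Prop where
  congr : ∀ y z : 𝓞 K, y - z ∈ P → sy y = sy z
  mul : ∀ y z : 𝓞 K, y ∉ P → z ∉ P → sy (y * z) = sy y + sy z

/-- The point is the point at infinity or a member of `Ω`. -/
def PtIn {R : Type} (Ω : Finset R) (c : Option R) : Prop := ∀ θ, c = some θ → θ ∈ Ω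

/-- The exponent at a point of the rational function `∏ θ ∈ Ω, (x - θ) ^ e θ`, modulo `m`. -/
noncomputable def ebar {R : Type} (m : ℕ) (Ω : Finset R) (e : R → ℕ) : Option R → ZMod m
  | none => - ∑ θ ∈ Ω, (e θ : ZMod m)
  | some θ => (e θ : ZMod m)

open Classical in
/-- The value of the cofactor of `γ * ∏ θ ∈ Ω, (x - θ) ^ e θ` at a point. -/
noncomputable def cof {R : Type} [CommRing R] (Ω : Finset R) (e : R → ℕ) (γ : R) : Option R → R
  | none => γ
  | some c => γ * ∏ θ ∈ Ω.erase c, (c - θ) ^ e θ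

/-- The integral exponent at a point. -/
noncomputable def eexp {R : Type} (Ω : Finset R) (e : R → ℕ) : Option R → ℕ
  | none => ∑ θ ∈ Ω, e θ
  | some θ => e θ

/-- The point is fixed by the group. -/
def PtFixed {K : Type} [Field K] [NumberField K] (G : Subgroup (K ≃ₐ[ℚ] K))
    (c : Option (𝓞 K)) : Prop := ∀ s ∈ G, c.map (fun θ => s • θ) = c

/-- No solutions over the fixed field of `G` of the system
`τ i * z ^ m = γ i * ∏ θ ∈ Ω, (x - θ) ^ e i θ`, neither outside of `Ω` nor tangential ones at the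
points of `Ω` and at infinity. -/
def NoSol {K : Type} [Field K] [NumberField K] (G : Subgroup (K ≃ₐ[ℚ] K)) (m : ℕ) {E : Type}
    (Ω : Finset (𝓞 K)) (e : E → 𝓞 K → ℕ) (γ τ : E → 𝓞 K) : Prop :=
  (∀ x : K, (∀ s ∈ G, s x = x) → (∀ θ ∈ Ω, x ≠ (θ : K)) →
    ¬ ∀ i, ∃ z : K, (∀ s ∈ G, s z = z) ∧
      (τ i : K) * z ^ m = (γ i : K) * ∏ θ ∈ Ω, (x - (θ : K)) ^ e i θ) ∧
  (∀ c : Option (𝓞 K), PtIn Ω c → PtFixed G c → ∀ q : K, q ≠ 0 → (∀ s ∈ G, s q = q) →
    ¬ ∀ i, ∃ z : K, (∀ s ∈ G, s z = z) ∧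
      (τ i : K) * z ^ m = q ^ eexp Ω (e i) c * ((cof Ω (e i) (γ i) c : 𝓞 K) : K))

/-- Tracked points: some exponent is a unit. -/
def Trk {R E : Type} (m : ℕ) (Ω : Finset R) (e : E → R → ℕ) (c : Option R) : Prop :=
  PtIn Ω c ∧ ∃ i, IsUnit (ebar m Ω (e i) c)

/-- A point fixed by the twisting group exists over the fixed field of `G`. -/
def KFixed {K : Type} [Field K] [NumberField K] (G : Subgroup (K ≃ₐ[ℚ] K)) (m : ℕ) {I J : Type}
    (Ω : Finset (𝓞 K)) (e : I ⊕ J → 𝓞 K → ℕ) (γ : I ⊕ J → 𝓞 K) : Prop :=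
  ∃ i₀ : I, (∀ i, i = i₀) ∧ ∃ c : Option (𝓞 K), PtIn Ω c ∧ PtFixed G c ∧
    IsUnit (ebar m Ω (e (Sum.inl i₀)) c) ∧
    ∀ j, ebar m Ω (e (Sum.inr j)) c = 0 ∧
      ∃ ρ : 𝓞 K, ρ ^ m = cof Ω (e (Sum.inr j)) (γ (Sum.inr j)) c ∧ ∀ s ∈ G, s • ρ = ρ

end Pool.KT
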