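import Mathlib

/-!
Kummer twist families of abelian covers of the line: definitions over the ground field.
-/

open Polynomial

namespace Pool.KT

section

variable {F : Type} [Field F] {I J : Type}

/-- The smooth projective model of the curve `t i * y i ^ m = P i (x)` (`i` in `I`),
`z j ^ m = R j (x)` (`j` in `J`) over the extension field `L` has an `L`-point: the open part where
all `P i (x)` and `R j (x)` are not zero has a point over the field of formal Laurent series
over `L`. -/
def HasPoint (m : ℕ) (P : I → F[X]) (R : J → F[X]) (L : Type) [Field L] [Algebra F L]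
    (t : I → L) : Prop :=
  ∃ (x : LaurentSeries L) (y : I → LaurentSeries L) (z : J → LaurentSeries L),
    (∀ i, aeval x (P i) ≠ 0 ∧ HahnSeries.C (t i) * y i ^ m = aeval x (P i)) ∧
    (∀ j, aeval x (R j) ≠ 0 ∧ z j ^ m = aeval x (R j))

/-- The family of these curves over the open set `h ≠ 0` of the torus (all `t i` not zero) is
arithmetically surjective. -/
def ArithSurj (m : ℕ) (P : I → F[X]) (R : J → F[X]) (h : MvPolynomial I F) : Prop :=
  ∀ (L : Type) [Field L] [NumberField L] [Algebra F L] (t : I → L), (∀ i, t i ≠ 0) →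
    MvPolynomial.aeval t h ≠ 0 → HasPoint m P R L t

/-- The family has a section: the generic fibre has a point over the field of rational functions
in the `t i`. -/
def HasSection (m : ℕ) (P : I → F[X]) (R : J → F[X]) : Prop :=
  HasPoint m P R (FractionRing (MvPolynomial I F))
    (fun i => algebraMap (MvPolynomial I F) (FractionRing (MvPolynomial I F))
      (MvPolynomial.X i))

/-- There is exactly one twisting parameter, and the curve `y ^ m = P (x)`, `z j ^ m = R j (x)` has
an `F`-rational point fixed by the twisting group: a point above `x = θ` or `x = ∞` totally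
ramified in `y` and unramified, with rational coordinates, in the `z j`. -/
def HasFixed (m : ℕ) (P : I → F[X]) (R : J → F[X]) : Prop :=
  ∃ i₀ : I, (∀ i, i = i₀) ∧
    ((∃ θ : F, Nat.Coprime m ((P i₀).rootMultiplicity θ) ∧
        ∀ j, m ∣ (R j).rootMultiplicity θ ∧
          ∃ ρ : F, ρ ^ m = (R j /ₘ (X - C θ) ^ (R j).rootMultiplicity θ).eval θ) ∨
      (Nat.Coprime m (P i₀).natDegree ∧
        ∀ j, m ∣ (R j).natDegree ∧ ∃ ρ : F, ρ ^ m = (R j).leadingCoeff))

/-- The curve `y i ^ m = P i (x)`, `z j ^ m = R j (x)` is geometrically irreducible: no product of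
powers of the polynomials with exponents not all divisible by `m` has all its root multiplicities
in an algebraic closure divisible by `m`. -/
def GeomIrred (m : ℕ) (P : I → F[X]) (R : J → F[X]) [Fintype I] [Fintype J] : Prop :=
  ∀ (a : I → ℕ) (b : J → ℕ), ((∃ i, ¬ m ∣ a i) ∨ ∃ j, ¬ m ∣ b j) →
    ∃ θ : AlgebraicClosure F,
      ¬ m ∣ ∑ i, a i * ((P i).map (algebraMap F (AlgebraicClosure F))).rootMultiplicity θ +
        ∑ j, b j * ((R j).map (algebraMap F (AlgebraicClosure F))).rootMultiplicity θ

/-- The explicit criterion for points of the curves `τ i * z ^ m = Q i (x)`. -/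
def Expl (m : ℕ) {E : Type} (Q : E → F[X]) (L : Type) [Field L] [Algebra F L] (τ : E → L) :
    Prop :=
  (∃ θ q : L, q ≠ 0 ∧ ∀ i, ∃ z : L,
    τ i * z ^ m = q ^ ((Q i).map (algebraMap F L)).rootMultiplicity θ *
      (((Q i).map (algebraMap F L)) /ₘ
        (X - C θ) ^ ((Q i).map (algebraMap F L)).rootMultiplicity θ).eval θ) ∨
  (∃ q : L, q ≠ 0 ∧ ∀ i, ∃ z : L,
    τ i * z ^ m = q ^ (Q i).natDegree * algebraMap F L (Q i).leadingCoeff)

end

end Pool.KT
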