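import Pool.Agent.TP2.Final

/-!
The big number field.

Proof: as `Pool.TP2.Final.exists_field`. Embed `F` in `Qb` by `i : F →ₐ[ℚ] Qb`. Let `S` be the
finite set of: the roots in `Qb` of all `(P k).map i`; a primitive `m`-th root of unity of `Qb`; for
every `k` an `m`-th root in `Qb` of the leading coefficient of `(P k).map i`, and for every
`k` and every root `θ` in `Qb` of some `(P k').map i` an `m`-th root of the value at `θ` of
`(P k).map i /ₘ (X - C θ) ^ rootMultiplicity θ`. `K` is the normal closure of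
`i.fieldRange ⊔ adjoin ℚ S`. Multiplicities and quotients commute with the embedding `K → Qb`.
-/

open NumberField Polynomial
open scoped Pointwise BigOperators

namespace Pool.KT

open Pool.TP2

namespace Setup

/-- The number field generated by the image of `F` and a finite set. -/
theorem exists_field_finset (F : Type) [Field F] [NumberField F] (i : F →ₐ[ℚ] Qb)
    (S : Finset Qb) :
    ∃ (K : IntermediateField ℚ Qb) (_ : NumberField K) (_ : IsGalois ℚ K) (j : F →+* K),
      (∀ f, ((j f : K) : Qb) = i f) ∧ (∀ x ∈ S, x ∈ K) ∧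
      ∀ x : K, (∀ s : K ≃ₐ[ℚ] K, (∀ f, s (j f) = j f) → s x = x) → ∃ f, j f = x := by
  classical
  let K₀ : IntermediateField ℚ Qb := i.fieldRange ⊔ IntermediateField.adjoin ℚ (S : Set Qb)
  have hf1 : FiniteDimensional ℚ i.fieldRange :=
    LinearEquiv.finiteDimensional (AlgEquiv.ofInjectiveField i).toLinearEquiv
  have hf2 : FiniteDimensional ℚ (IntermediateField.adjoin ℚ (S : Set Qb)) := by
    have hfin : Finite (S : Set Qb) := S.finite_toSet.to_subtype
    apply IntermediateField.finiteDimensional_adjoin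
    intro x _
    exact Algebra.IsIntegral.isIntegral x
  have hf3 : FiniteDimensional ℚ K₀ := IntermediateField.finiteDimensional_sup _ _
  let K : IntermediateField ℚ Qb := IntermediateField.normalClosure ℚ K₀ Qb
  have hK₀ : K₀ ≤ K := IntermediateField.le_normalClosure K₀
  have hnorm : Normal ℚ K := normalClosure.normal ℚ K₀ Qb
  have hfd : FiniteDimensional ℚ K := normalClosure.is_finiteDimensional ℚ K₀ Qb
  have hnf : NumberField K := ⟨⟩
  have hgal : IsGalois ℚ K := ⟨⟩
  have hiK : i.fieldRange ≤ K := le_sup_left.trans hK₀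
  have hi : ∀ f, i f ∈ K := fun f => hiK ⟨f, rfl⟩
  let j : F →+* K := (i : F →+* Qb).codRestrict K.toSubring hi
  have hj : ∀ f, ((j f : K) : Qb) = i f := fun f => rfl
  refine ⟨K, hnf, hgal, j, hj, ?_, ?_⟩
  · intro x hx
    exact hK₀ (le_sup_right (a := i.fieldRange) (IntermediateField.subset_adjoin _ _ hx))
  · intro x hx
    have h1 : x ∈ IntermediateField.restrict hiK := by
      rw [← IsGalois.fixedField_fixingSubgroup (IntermediateField.restrict hiK),
        IntermediateField.mem_fixedField_iff]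
      intro s hs
      refine hx s fun f => ?_
      rw [IntermediateField.mem_fixingSubgroup_iff] at hs
      apply hs
      rw [IntermediateField.mem_restrict]
      exact ⟨f, rfl⟩
    rw [IntermediateField.mem_restrict] at h1
    obtain ⟨f, hf⟩ := h1
    exact ⟨f, Subtype.ext hf⟩

/-- The value at `θ` of the cofactor of `(X - θ) ^ n`, `n` the multiplicity of `θ`. -/
noncomputable def cofVal {L : Type} [Field L] (Q : L[X]) (θ : L) : L :=
  (Q /ₘ (X - C θ) ^ Q.rootMultiplicity θ).eval θ

theorem cofVal_map {K L : Type} [Field K] [Field L] (φ : K →+* L) (Q : K[X]) (θ : K) :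
    cofVal (Q.map φ) (φ θ) = φ (cofVal Q θ) := by
  unfold cofVal
  have h1 : (Q.map φ).rootMultiplicity (φ θ) = Q.rootMultiplicity θ :=
    (Polynomial.eq_rootMultiplicity_map φ.injective θ).symm
  rw [h1]
  have h2 : (X - C (φ θ)) ^ Q.rootMultiplicity θ =
      ((X - C θ) ^ Q.rootMultiplicity θ).map φ := by
    rw [Polynomial.map_pow, Polynomial.map_sub, Polynomial.map_X, Polynomial.map_C]
  rw [h2, ← Polynomial.map_divByMonic φ ((monic_X_sub_C θ).pow _), Polynomial.eval_map,
    Polynomial.eval₂_at_apply]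

end Setup

open Setup in
theorem exists_setup (F : Type) [Field F] [NumberField F] (m : ℕ) (hm : 0 < m) {E : Type}
    [Finite E] (P : E → F[X]) (hP : ∀ k, P k ≠ 0) :
    ∃ (K : IntermediateField ℚ Qb) (_ : NumberField K) (_ : IsGalois ℚ K) (j : F →+* K) (ζ : K),
      IsPrimitiveRoot ζ m ∧ (∀ k, ((P k).map j).Splits) ∧
      (∀ x : K, (∀ s : K ≃ₐ[ℚ] K, (∀ f, s (j f) = j f) → s x = x) → ∃ f, j f = x) ∧
      (∀ k, ∃ ρ : K, ρ ^ m = j (P k).leadingCoeff) ∧
      (∀ k, ∀ θ : K, (∃ k', ((P k').map j).eval θ = 0) → ∃ ρ : K,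
        ρ ^ m = (((P k).map j) /ₘ
          (X - C θ) ^ ((P k).map j).rootMultiplicity θ).eval θ) := by
  classical
  have : Fintype E := Fintype.ofFinite E
  let i : F →ₐ[ℚ] Qb := IsAlgClosed.lift
  let Q : E → Qb[X] := fun k => (P k).map (i : F →+* Qb)
  have hQ : ∀ k, Q k ≠ 0 := fun k => (Polynomial.map_ne_zero_iff i.injective).2 (hP k)
  let R : Finset Qb := Finset.univ.biUnion fun k => (Q k).roots.toFinset
  let S : Finset Qb := R ∪ (nthRoots m (1 : Qb)).toFinset ∪
    (Finset.univ.biUnion fun k => (nthRoots m (i (P k).leadingCoeff)).toFinset) ∪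
    (Finset.univ.biUnion fun k => R.biUnion fun θ => (nthRoots m (cofVal (Q k) θ)).toFinset)
  obtain ⟨K, hnf, hgal, j, hj, hSK, hfix⟩ := exists_field_finset F i S
  have hmap : ∀ k, ((P k).map j).map (algebraMap K Qb) = Q k := by
    intro k
    have h1 : (algebraMap K Qb).comp j = (i : F →+* Qb) := RingHom.ext fun f => hj f
    rw [Polynomial.map_map, h1]
  have hR : ∀ x k, (Q k).eval x = 0 → x ∈ R := by
    intro x k hx
    rw [Finset.mem_biUnion]
    refine ⟨k, Finset.mem_univ _, ?_⟩
    rw [Multiset.mem_toFinset, mem_roots (hQ k)]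
    exact hx
  have hSR : ∀ x ∈ R, x ∈ S := by
    intro x hx
    simp only [S, Finset.mem_union]
    exact Or.inl (Or.inl (Or.inl hx))
  have : NeZero (m : Qb) := ⟨by exact_mod_cast hm.ne'⟩
  have : NeZero m := ⟨hm.ne'⟩
  obtain ⟨ζ₀, hζ₀⟩ := HasEnoughRootsOfUnity.exists_primitiveRoot Qb m
  have hζK : ζ₀ ∈ K := by
    apply hSK
    simp only [S, Finset.mem_union]
    refine Or.inl (Or.inl (Or.inr ?_))
    rw [Multiset.mem_toFinset, mem_nthRoots hm]
    exact hζ₀.pow_eq_one
  refine ⟨K, hnf, hgal, j, ⟨ζ₀, hζK⟩, ?_, ?_, hfix, ?_, ?_⟩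
  · apply IsPrimitiveRoot.of_map_of_injective (f := algebraMap K Qb) _
      (algebraMap K Qb).injective
    exact hζ₀
  · intro k
    refine Splits.of_splits_map (algebraMap K Qb) (IsAlgClosed.splits _) ?_
    intro x hx
    rw [hmap] at hx
    have h2 : x ∈ R := hR x k (by
      rw [mem_roots (hQ k)] at hx
      exact hx)
    exact ⟨⟨x, hSK x (hSR x h2)⟩, rfl⟩
  · intro k
    obtain ⟨ρ, hρ⟩ := IsAlgClosed.exists_pow_nat_eq (i (P k).leadingCoeff) hm
    have hρK : ρ ∈ K := by
      apply hSK
      simp only [S, Finset.mem_union]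
      refine Or.inl (Or.inr ?_)
      rw [Finset.mem_biUnion]
      refine ⟨k, Finset.mem_univ _, ?_⟩
      rw [Multiset.mem_toFinset, mem_nthRoots hm]
      exact hρ
    exact ⟨⟨ρ, hρK⟩, Subtype.ext (hρ.trans (hj _).symm)⟩
  · rintro k θ ⟨k', hθ⟩
    have hθR : (θ : Qb) ∈ R := by
      apply hR _ k'
      rw [← hmap k']
      change ((map j (P k')).map (algebraMap K Qb)).eval ((algebraMap K Qb) θ) = 0
      rw [Polynomial.eval_map, Polynomial.eval₂_at_apply, hθ, map_zero]
    obtain ⟨ρ, hρ⟩ := IsAlgClosed.exists_pow_nat_eq (cofVal (Q k) (θ : Qb)) hm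
    have hρK : ρ ∈ K := by
      apply hSK
      simp only [S, Finset.mem_union]
      refine Or.inr ?_
      rw [Finset.mem_biUnion]
      refine ⟨k, Finset.mem_univ _, ?_⟩
      rw [Finset.mem_biUnion]
      refine ⟨θ, hθR, ?_⟩
      rw [Multiset.mem_toFinset, mem_nthRoots hm]
      exact hρ
    refine ⟨⟨ρ, hρK⟩, ?_⟩
    apply (algebraMap K Qb).injective
    have h1 := cofVal_map (algebraMap K Qb) ((P k).map j) θ
    rw [hmap k] at h1
    rw [map_pow]
    exact hρ.trans h1

end Pool.KT
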