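import Pool.Agent.Helper54.KT.FDefs
import Pool.Agent.Helper54.KT.CaseA
import Pool.Agent.Helper54.KT.CaseB
import Pool.Agent.Helper54.KT.CaseC
import Pool.Agent.Helper54.KT.Setup

/-!
The theorem over the number field `F`, from the theorems over the fixed field of a group.

Proof. Let `Q = Sum.elim P R : I ⊕ J → F[X]`, and `K`, `j`, `ζ` from `exists_setup` for `Q`;
`G = {s | ∀ f, s (j f) = j f}`, `Z` the finite set of all roots in `K` of the `(Q k).map j`,
`d` a nonzero integer with `d * θ` integral for `θ ∈ Z`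
(`Pool.TP2.Final.exists_denominator`); replace `d` by `D = d ^ m`. `Ω = {D * θ | θ ∈ Z}`
(as a `Finset (𝓞 K)`), `e k (D * θ) = rootMultiplicity θ ((Q k).map j)` (e.g.
`e k w = rootMultiplicity (w / D) ((Q k).map j)`), `n k = natDegree (Q k) = ∑ θ ∈ Ω, e k θ`
(`(Q k).map j` splits), and `γ k = w ^ m * lc (Q k) * D ^ (- n k)` where `w` is a nonzero integer
making all the `γ k` integral. Then for `x : K`
`w ^ m * ((Q k).map j).eval x = γ k * ∏ θ ∈ Ω, (D * x - θ) ^ e k θ`, and for `θ ∈ Z`, with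
`S = ((Q k).map j) /ₘ (X - C θ) ^ e`, `e = e k (D * θ)`:
`cof Ω (e k) (γ k) (some (D * θ)) = w ^ m * D ^ (- e) * S.eval θ = (w / d ^ e) ^ m * S.eval θ`, and
`cof Ω (e k) (γ k) none = γ k = w ^ m * D ^ (- n k) * lc (Q k)`. So `hroots` holds by
`exists_setup` (an `m`-th root in `K` of an element of `𝓞 K` is integral).
If `Expl m Q F (Sum.elim t 1)` for `t = ` the elements of `F` corresponding to the `t i ∈ 𝓞 K`
given by `case_a`, `case_b`, `case_c`, then `NoSol` is contradicted: for `θ : F` not a root of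
any `Q k`, `x = D * θ` and `z ↦ w * z`; for `θ` a root of some `Q k`, `c = some (D * θ)`,
`q ↦ q * D`; `c = none`, `q ↦ q * D`. (In the equation of `Expl` the right side is
`q ^ e * S.eval θ`, times `w ^ m` this is `(q * D) ^ e * cof`.)
`KFixed G m Ω e γ` implies `HasFixed m P R`: `c` is `none` or `some (D * θ)` with `θ` fixed by `G`,
so `θ ∈ F`; `IsUnit (ebar ..)` means that the exponent is prime to `m`, `ebar .. = 0` that it is
divisible by `m`; `rootMultiplicity` and `/ₘ` commute with `map j`; the root of the cofactor of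
`R j'` gives, divided by `w / d ^ e` resp. `w / d ^ n`, a root in `F` of `S.eval θ`, resp. of the
leading coefficient.
`hst` of `case_b` follows from `GeomIrred` for the indicator of `j`: there is a
`θ' : AlgebraicClosure F` with `¬ m ∣ rootMultiplicity θ' ((R j).map ..)`; `K` is algebraic over
`F`, so it embeds in `AlgebraicClosure F` over `F`, `(R j).map` splits in `K`, so `θ'` is the image
of an element of `Z` with the same multiplicity.
Cases: if `I` has two different elements then `m` is prime: `case_a`. Otherwise `I` has exactly one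
element: `case_c` if `J` is empty, `case_b` if not (then `m` is prime).
-/

open NumberField Polynomial
open scoped Pointwise BigOperators

namespace Pool.KT

open Pool.TP2

namespace FLevel

theorem eq_prod {K : Type} [Field K] (p : K[X]) (hs : p.Splits) (hp : p ≠ 0)
    (Z : Finset K) (hZ : ∀ x, p.eval x = 0 → x ∈ Z) :
    p = C p.leadingCoeff * ∏ θ ∈ Z, (X - C θ) ^ p.rootMultiplicity θ := by
  classical
  have h1 := hs.eq_prod_roots
  rw [Finset.prod_multiset_map_count] at h1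
  have h2 : ∏ m ∈ p.roots.toFinset, (X - C m) ^ Multiset.count m p.roots =
      ∏ θ ∈ Z, (X - C θ) ^ p.rootMultiplicity θ := by
    have h3 : ∏ m ∈ p.roots.toFinset, (X - C m) ^ Multiset.count m p.roots =
        ∏ m ∈ p.roots.toFinset, (X - C m) ^ p.rootMultiplicity m :=
      Finset.prod_congr rfl fun m _ => by rw [count_roots]
    rw [h3]
    refine Finset.prod_subset ?_ ?_
    · intro x hx
      rw [Multiset.mem_toFinset, mem_roots hp, IsRoot.def] at hx
      exact hZ x hx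
    · intro x _ hx
      rw [Multiset.mem_toFinset, mem_roots hp] at hx
      rw [rootMultiplicity_eq_zero hx, pow_zero]
  rw [← h2]
  exact h1

theorem deg_eq {K : Type} [Field K] (p : K[X]) (hs : p.Splits) (hp : p ≠ 0)
    (Z : Finset K) (hZ : ∀ x, p.eval x = 0 → x ∈ Z) :
    p.natDegree = ∑ θ ∈ Z, p.rootMultiplicity θ := by
  classical
  rw [hs.natDegree_eq_card_roots, ← Multiset.toFinset_sum_count_eq]
  have h3 : ∑ m ∈ p.roots.toFinset, Multiset.count m p.roots =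
      ∑ m ∈ p.roots.toFinset, p.rootMultiplicity m :=
    Finset.sum_congr rfl fun m _ => by rw [count_roots]
  rw [h3]
  refine Finset.sum_subset ?_ ?_
  · intro x hx
    rw [Multiset.mem_toFinset, mem_roots hp, IsRoot.def] at hx
    exact hZ x hx
  · intro x _ hx
    rw [Multiset.mem_toFinset, mem_roots hp] at hx
    exact rootMultiplicity_eq_zero hx

open Classical in
theorem cof_eq {K : Type} [Field K] (p : K[X]) (hs : p.Splits) (hp : p ≠ 0)
    (Z : Finset K) (hZ : ∀ x, p.eval x = 0 → x ∈ Z) (x : K) (hx : x ∈ Z) :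
    (p /ₘ (X - C x) ^ p.rootMultiplicity x).eval x =
      p.leadingCoeff * ∏ θ ∈ Z.erase x, (x - θ) ^ p.rootMultiplicity θ := by
  have h1 := eq_prod p hs hp Z hZ
  rw [← Finset.mul_prod_erase Z _ hx] at h1
  have h2 : p = (X - C x) ^ p.rootMultiplicity x *
      (C p.leadingCoeff * ∏ θ ∈ Z.erase x, (X - C θ) ^ p.rootMultiplicity θ) := by
    rw [← mul_assoc, mul_comm (_ ^ _) (C _), mul_assoc]
    exact h1
  have h3 : p /ₘ (X - C x) ^ p.rootMultiplicity x =
      C p.leadingCoeff * ∏ θ ∈ Z.erase x, (X - C θ) ^ p.rootMultiplicity θ := by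
    calc p /ₘ (X - C x) ^ p.rootMultiplicity x =
        ((X - C x) ^ p.rootMultiplicity x *
          (C p.leadingCoeff * ∏ θ ∈ Z.erase x, (X - C θ) ^ p.rootMultiplicity θ)) /ₘ
            (X - C x) ^ p.rootMultiplicity x := by rw [← h2]
      _ = _ := mul_divByMonic_cancel_left _ ((monic_X_sub_C x).pow _)
  rw [h3, eval_mul, eval_C, eval_prod]
  simp

theorem prod_image {K : Type} [Field K] [NumberField K] [DecidableEq (𝓞 K)] (D : K) (hD : D ≠ 0)
    (Z : Finset K)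
    (φ : K → 𝓞 K) (hφ : ∀ x ∈ Z, ((φ x : 𝓞 K) : K) = D * x) (e : 𝓞 K → ℕ) (f : K → ℕ)
    (he : ∀ x ∈ Z, e (φ x) = f x) (y : K) :
    ∏ θ ∈ Z.image φ, (D * y - (θ : K)) ^ e θ = D ^ (∑ x ∈ Z, f x) * ∏ x ∈ Z, (y - x) ^ f x := by
  rw [Finset.prod_image]
  · rw [← Finset.prod_pow_eq_pow_sum, ← Finset.prod_mul_distrib]
    refine Finset.prod_congr rfl fun x hx => ?_
    rw [hφ x hx, he x hx, ← mul_pow, mul_sub]
  · intro x hx y hy hxy
    have h1 : ((φ x : 𝓞 K) : K) = ((φ y : 𝓞 K) : K) := by rw [hxy]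
    rw [hφ x hx, hφ y hy] at h1
    exact mul_left_cancel₀ hD h1

theorem map_mult {F K : Type} [Field F] [Field K] (j : F →+* K) (p : F[X]) (θ : F) :
    (p.map j).rootMultiplicity (j θ) = p.rootMultiplicity θ :=
  (eq_rootMultiplicity_map j.injective θ).symm

theorem map_cof {F K : Type} [Field F] [Field K] (j : F →+* K) (p : F[X]) (θ : F) :
    ((p.map j) /ₘ (X - C (j θ)) ^ (p.map j).rootMultiplicity (j θ)).eval (j θ) =
      j ((p /ₘ (X - C θ) ^ p.rootMultiplicity θ).eval θ) := by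
  rw [map_mult]
  have h1 : (X - C (j θ)) ^ p.rootMultiplicity θ =
      ((X - C θ) ^ p.rootMultiplicity θ).map j := by simp
  rw [h1, ← map_divByMonic j ((monic_X_sub_C θ).pow _), eval_map_apply]


/-- The integral model of a system of polynomials which split. -/
structure Mdl {F K : Type} [Field F] [Field K] [NumberField K] (m : ℕ) (j : F →+* K) {E : Type}
    (Q : E → F[X]) (Ω : Finset (𝓞 K)) (e : E → 𝓞 K → ℕ) (γ : E → 𝓞 K) (Z : Finset K)
    (φ : K → 𝓞 K) (d w : K) : Prop where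
  d0 : d ≠ 0
  w0 : w ≠ 0
  dfix : ∀ s : K →+* K, s d = d
  wfix : ∀ s : K →+* K, s w = w
  Z1 : ∀ k x, ((Q k).map j).eval x = 0 → x ∈ Z
  Z2 : ∀ x ∈ Z, ∃ k, ((Q k).map j).eval x = 0
  O1 : ∀ v ∈ Ω, ∃ x ∈ Z, φ x = v
  O2 : ∀ x ∈ Z, φ x ∈ Ω
  phi : ∀ x ∈ Z, ((φ x : 𝓞 K) : K) = d ^ m * x
  ee : ∀ k, ∀ x ∈ Z, e k (φ x) = ((Q k).map j).rootMultiplicity x
  g0 : ∀ k, γ k ≠ 0
  gv : ∀ k, ((γ k : 𝓞 K) : K) =
    w ^ m * (j (Q k).leadingCoeff * ((d ^ m) ^ (Q k).natDegree)⁻¹)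
  I1 : ∀ k y, ((γ k : 𝓞 K) : K) * ∏ θ ∈ Ω, (d ^ m * y - (θ : K)) ^ e k θ =
    w ^ m * ((Q k).map j).eval y
  I2 : ∀ k, ∀ x ∈ Z, ((cof Ω (e k) (γ k) (some (φ x)) : 𝓞 K) : K) =
    w ^ m * ((d ^ m) ^ ((Q k).map j).rootMultiplicity x)⁻¹ *
      (((Q k).map j) /ₘ (X - C x) ^ ((Q k).map j).rootMultiplicity x).eval x
  sum : ∀ k, ∑ θ ∈ Ω, e k θ = (Q k).natDegree

theorem exists_mdl {F K : Type} [Field F] [Field K] [NumberField K] (m : ℕ) (hm0 : 0 < m)
    (j : F →+* K) {E : Type} [Fintype E] (Q : E → F[X]) (hQ0 : ∀ k, Q k ≠ 0)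
    (hspl : ∀ k, ((Q k).map j).Splits) :
    ∃ (Ω : Finset (𝓞 K)) (e : E → 𝓞 K → ℕ) (γ : E → 𝓞 K) (Z : Finset K) (φ : K → 𝓞 K)
      (d w : K), Mdl m j Q Ω e γ Z φ d w := by
  classical
  let Pk : E → K[X] := fun k => (Q k).map j
  have hPk0 : ∀ k, Pk k ≠ 0 := fun k => map_ne_zero (hQ0 k)
  have hPkl : ∀ k, (Pk k).leadingCoeff = j (Q k).leadingCoeff := fun k => leadingCoeff_map j
  have hPkd : ∀ k, (Pk k).natDegree = (Q k).natDegree := fun k => natDegree_map j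
  have hPks : ∀ k, (Pk k).Splits := hspl
  let Z : Finset K := Finset.univ.biUnion fun k => (Pk k).roots.toFinset
  have hZ : ∀ k x, (Pk k).eval x = 0 → x ∈ Z := by
    intro k x hx
    refine Finset.mem_biUnion.2 ⟨k, Finset.mem_univ _, ?_⟩
    rw [Multiset.mem_toFinset, mem_roots (hPk0 k)]
    exact hx
  have hZ' : ∀ x ∈ Z, ∃ k, (Pk k).eval x = 0 := by
    intro x hx
    obtain ⟨k, _, hk⟩ := Finset.mem_biUnion.1 hx
    rw [Multiset.mem_toFinset, mem_roots (hPk0 k)] at hk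
    exact ⟨k, hk⟩
  obtain ⟨d, hd, hdint⟩ := Final.exists_denominator Z
  have hdK : (d : K) ≠ 0 := by exact_mod_cast hd
  obtain ⟨D, hDd⟩ : ∃ D : K, D = (d : K) ^ m := ⟨_, rfl⟩
  have hD : D ≠ 0 := by rw [hDd]; exact pow_ne_zero _ hdK
  have hDint : ∀ x ∈ Z, IsIntegral ℤ (D * x) := by
    intro x hx
    have h1 : D * x = (d : K) ^ (m - 1) * ((d : K) * x) := by
      rw [hDd, ← mul_assoc, ← pow_succ, Nat.sub_add_cancel hm0]
    rw [h1]
    have h2 : IsIntegral ℤ ((d : K)) := isIntegral_algebraMap (R := ℤ) (A := K) (x := d)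
    exact (h2.pow _).mul (hdint x hx)
  let φ : K → 𝓞 K := fun x => if h : IsIntegral ℤ (D * x) then Final.mkO (D * x) h else 0
  have hφ : ∀ x ∈ Z, ((φ x : 𝓞 K) : K) = D * x := by
    intro x hx
    simp only [φ]
    rw [dif_pos (hDint x hx), Final.coe_mkO]
  let Ω : Finset (𝓞 K) := Z.image φ
  have hφinj : ∀ x ∈ Z, ∀ y ∈ Z, φ x = φ y → x = y := by
    intro x hx y hy hxy
    have h1 : ((φ x : 𝓞 K) : K) = ((φ y : 𝓞 K) : K) := by rw [hxy]
    rw [hφ x hx, hφ y hy] at h1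
    exact mul_left_cancel₀ hD h1
  have hΩ1 : ∀ w ∈ Ω, ∃ x ∈ Z, φ x = w := fun w hw => Finset.mem_image.1 hw
  have hΩ2 : ∀ x ∈ Z, φ x ∈ Ω := fun x hx => Finset.mem_image_of_mem φ hx
  let e : E → 𝓞 K → ℕ := fun k w => (Pk k).rootMultiplicity ((w : K) / D)
  have heφ : ∀ k, ∀ x ∈ Z, e k (φ x) = (Pk k).rootMultiplicity x := by
    intro k x hx
    simp only [e]
    rw [hφ x hx, mul_div_cancel_left₀ _ hD]
  obtain ⟨w, hw, hwint⟩ := Final.exists_denominator
    (Finset.univ.image fun k => j (Q k).leadingCoeff * (D ^ (Q k).natDegree)⁻¹)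
  have hwK : (w : K) ≠ 0 := by exact_mod_cast hw
  have hgint : ∀ k, IsIntegral ℤ
      ((w : K) ^ m * (j (Q k).leadingCoeff * (D ^ (Q k).natDegree)⁻¹)) := by
    intro k
    have h1 : (w : K) ^ m * (j (Q k).leadingCoeff * (D ^ (Q k).natDegree)⁻¹) =
        (w : K) ^ (m - 1) * ((w : K) * (j (Q k).leadingCoeff * (D ^ (Q k).natDegree)⁻¹)) := by
      rw [← mul_assoc ((w : K) ^ (m - 1)), ← pow_succ, Nat.sub_add_cancel hm0]
    rw [h1]
    have h2 : IsIntegral ℤ ((w : K)) := isIntegral_algebraMap (R := ℤ) (A := K) (x := w)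
    exact (h2.pow _).mul (hwint _ (Finset.mem_image_of_mem _ (Finset.mem_univ k)))
  let γ : E → 𝓞 K := fun k => Final.mkO _ (hgint k)
  have hγv : ∀ k, ((γ k : 𝓞 K) : K) =
      (w : K) ^ m * (j (Q k).leadingCoeff * (D ^ (Q k).natDegree)⁻¹) := fun k => rfl
  have hγ0 : ∀ k, γ k ≠ 0 := by
    intro k h
    have h1 : ((γ k : 𝓞 K) : K) = 0 := by rw [h]; rfl
    rw [hγv] at h1
    have h2 : j (Q k).leadingCoeff ≠ 0 := by
      rw [Ne, map_eq_zero]
      exact leadingCoeff_ne_zero.2 (hQ0 k)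
    exact mul_ne_zero (pow_ne_zero _ hwK) (mul_ne_zero h2 (inv_ne_zero (pow_ne_zero _ hD))) h1
  have hsum : ∀ k, ∑ x ∈ Z, (Pk k).rootMultiplicity x = (Q k).natDegree := by
    intro k
    rw [← hPkd, deg_eq (Pk k) (hPks k) (hPk0 k) Z (hZ k)]
  have hI1 : ∀ k y, ((γ k : 𝓞 K) : K) * ∏ θ ∈ Ω, (D * y - (θ : K)) ^ e k θ =
      (w : K) ^ m * (Pk k).eval y := by
    intro k y
    have h1 := prod_image D hD Z φ hφ (e k) (fun x => (Pk k).rootMultiplicity x) (heφ k) y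
    have h2 : (Pk k).eval y = j (Q k).leadingCoeff *
        ∏ x ∈ Z, (y - x) ^ (Pk k).rootMultiplicity x := by
      conv_lhs => rw [eq_prod (Pk k) (hPks k) (hPk0 k) Z (hZ k)]
      rw [eval_mul, eval_C, eval_prod, hPkl]
      simp
    rw [h1, hγv, h2, hsum]
    have h3 : D ^ (Q k).natDegree ≠ 0 := pow_ne_zero _ hD
    field_simp
  have herase : ∀ x ∈ Z, Ω.erase (φ x) = (Z.erase x).image φ := by
    intro x hx
    ext v
    constructor
    · intro h
      obtain ⟨h1, h2⟩ := Finset.mem_erase.1 h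
      obtain ⟨y, hy, rfl⟩ := hΩ1 v h2
      refine Finset.mem_image.2 ⟨y, Finset.mem_erase.2 ⟨?_, hy⟩, rfl⟩
      rintro rfl
      exact h1 rfl
    · intro h
      obtain ⟨y, hy, rfl⟩ := Finset.mem_image.1 h
      rw [Finset.mem_erase] at hy
      exact Finset.mem_erase.2 ⟨fun h => hy.1 (hφinj y hy.2 x hx h), hΩ2 y hy.2⟩
  have hI2 : ∀ k, ∀ x ∈ Z, ((cof Ω (e k) (γ k) (some (φ x)) : 𝓞 K) : K) =
      (w : K) ^ m * (D ^ (Pk k).rootMultiplicity x)⁻¹ *
        ((Pk k) /ₘ (X - C x) ^ (Pk k).rootMultiplicity x).eval x := by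
    intro k x hx
    have h0 : cof Ω (e k) (γ k) (some (φ x)) =
        γ k * ∏ θ ∈ (Z.erase x).image φ, (φ x - θ) ^ e k θ := by
      rw [← herase x hx]
      rfl
    have h1 := prod_image D hD (Z.erase x) φ (fun y hy => hφ y (Finset.mem_of_mem_erase hy))
      (e k) (fun x => (Pk k).rootMultiplicity x)
      (fun y hy => heφ k y (Finset.mem_of_mem_erase hy)) x
    have h2 := cof_eq (Pk k) (hPks k) (hPk0 k) Z (hZ k) x hx
    have h3 : (Q k).natDegree = (Pk k).rootMultiplicity x +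
        ∑ y ∈ Z.erase x, (Pk k).rootMultiplicity y := by
      rw [← hsum, Finset.add_sum_erase Z (fun x => (Pk k).rootMultiplicity x) hx]
    have h5 : ∏ θ ∈ (Z.erase x).image φ, algebraMap (𝓞 K) K ((φ x - θ) ^ e k θ) =
        ∏ θ ∈ (Z.erase x).image φ, (D * x - (θ : K)) ^ e k θ := by
      refine Finset.prod_congr rfl fun θ _ => ?_
      rw [map_pow, map_sub]
      change (((φ x : 𝓞 K) : K) - _) ^ _ = _
      rw [hφ x hx]
    rw [h0, RingOfIntegers.coe_eq_algebraMap, map_mul, map_prod, h5, h1, h2, hPkl]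
    change ((γ k : 𝓞 K) : K) * _ = _
    rw [hγv, h3, pow_add]
    have h6 : D ^ (Pk k).rootMultiplicity x ≠ 0 := pow_ne_zero _ hD
    have h7 : D ^ (∑ y ∈ Z.erase x, (Pk k).rootMultiplicity y) ≠ 0 := pow_ne_zero _ hD
    field_simp
  have hsum' : ∀ k, ∑ θ ∈ Ω, e k θ = (Q k).natDegree := by
    intro k
    rw [← hsum k]
    simp only [Ω]
    rw [Finset.sum_image fun x hx y hy => hφinj x hx y hy]
    exact Finset.sum_congr rfl fun x hx => heφ k x hx
  subst hDd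
  exact ⟨Ω, e, γ, Z, φ, d, w,
    { d0 := hdK, w0 := hwK, dfix := fun s => map_intCast s d, wfix := fun s => map_intCast s w,
      Z1 := hZ, Z2 := hZ', O1 := hΩ1, O2 := hΩ2, phi := hφ, ee := heφ, g0 := hγ0, gv := hγv,
      I1 := hI1, I2 := hI2, sum := hsum' }⟩

section

variable {F K : Type} [Field F] [Field K] [NumberField K] {m : ℕ} {j : F →+* K} {E : Type}
    {Q : E → F[X]} {Ω : Finset (𝓞 K)} {e : E → 𝓞 K → ℕ} {γ : E → 𝓞 K} {Z : Finset K}
    {φ : K → 𝓞 K} {d w : K}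

theorem Mdl.D0 (M : Mdl m j Q Ω e γ Z φ d w) : d ^ m ≠ 0 := pow_ne_zero _ M.d0

theorem Mdl.phi_eq (M : Mdl m j Q Ω e γ Z φ d w) {v : 𝓞 K} {x : K} (hx : x ∈ Z)
    (h : (v : K) = d ^ m * x) : v = φ x := by
  apply RingOfIntegers.ext
  rw [h, M.phi x hx]

omit [NumberField K] in
theorem Mdl.mult (s : K →+* K) (hs : ∀ f, s (j f) = j f) (k : E) (x : K) :
    ((Q k).map j).rootMultiplicity (s x) = ((Q k).map j).rootMultiplicity x := by
  have h1 : ((Q k).map j).map s = (Q k).map j := by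
    rw [Polynomial.map_map]
    congr 1
    exact RingHom.ext hs
  have h2 := eq_rootMultiplicity_map (p := (Q k).map j) (f := s) s.injective x
  rw [h1] at h2
  exact h2.symm

theorem Mdl.memZ (M : Mdl m j Q Ω e γ Z φ d w) (hQ0 : ∀ k, Q k ≠ 0) (s : K →+* K)
    (hs : ∀ f, s (j f) = j f) {x : K} (hx : x ∈ Z) : s x ∈ Z := by
  obtain ⟨k, hk⟩ := M.Z2 x hx
  apply M.Z1 k
  have h0 : (Q k).map j ≠ 0 := map_ne_zero (hQ0 k)
  have h1 : 0 < ((Q k).map j).rootMultiplicity x := (rootMultiplicity_pos h0).2 hk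
  rw [← Mdl.mult s hs k x] at h1
  exact (rootMultiplicity_pos h0).1 h1

theorem Mdl.phi_fix (M : Mdl m j Q Ω e γ Z φ d w) (hQ0 : ∀ k, Q k ≠ 0) (s : K →+* K)
    (hs : ∀ f, s (j f) = j f) {x : K} (hx : x ∈ Z) {v : 𝓞 K} (hv : (v : K) = s (φ x : 𝓞 K)) :
    v = φ (s x) := by
  apply M.phi_eq (M.memZ hQ0 s hs hx)
  rw [hv, M.phi x hx, map_mul, map_pow, M.dfix]

theorem Mdl.e_fix (M : Mdl m j Q Ω e γ Z φ d w) (hQ0 : ∀ k, Q k ≠ 0) (s : K →+* K)
    (hs : ∀ f, s (j f) = j f) (k : E) {θ : 𝓞 K} (hθ : θ ∈ Ω) {v : 𝓞 K}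
    (hv : (v : K) = s (θ : K)) : e k v = e k θ := by
  obtain ⟨x, hx, rfl⟩ := M.O1 θ hθ
  rw [M.phi_fix hQ0 s hs hx hv, M.ee k _ (M.memZ hQ0 s hs hx), M.ee k x hx, Mdl.mult s hs]

theorem Mdl.g_fix (M : Mdl m j Q Ω e γ Z φ d w) (s : K →+* K)
    (hs : ∀ f, s (j f) = j f) (k : E) : s (γ k : K) = (γ k : K) := by
  rw [M.gv, map_mul, map_mul, map_pow, map_inv₀, map_pow, map_pow, M.dfix, M.wfix, hs]

/-- The cofactors are `m`-th powers if the cofactors of the polynomials are. -/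
theorem Mdl.root (M : Mdl m j Q Ω e γ Z φ d w) (hm0 : 0 < m)
    (hlc : ∀ k, ∃ ρ : K, ρ ^ m = j (Q k).leadingCoeff)
    (hcofr : ∀ k, ∀ θ : K, (∃ k', ((Q k').map j).eval θ = 0) → ∃ ρ : K,
        ρ ^ m = (((Q k).map j) /ₘ
          (X - C θ) ^ ((Q k).map j).rootMultiplicity θ).eval θ)
    (k : E) (c : Option (𝓞 K)) (hc : PtIn Ω c) :
    ∃ ρ : 𝓞 K, ρ ^ m = cof Ω (e k) (γ k) c := by
  have key : ∀ (a : 𝓞 K) (r : K), r ^ m = (a : K) → ∃ ρ : 𝓞 K, ρ ^ m = a := by
    intro a r hr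
    have h1 : IsIntegral ℤ (r ^ m) := by
      rw [hr]
      exact RingOfIntegers.isIntegral_coe _
    have h2 : IsIntegral ℤ r := IsIntegral.of_pow hm0 h1
    refine ⟨Final.mkO r h2, ?_⟩
    apply RingOfIntegers.ext
    rw [RingOfIntegers.coe_eq_algebraMap, map_pow]
    exact hr
  rcases c with _ | v
  · obtain ⟨ρ, hρ⟩ := hlc k
    apply key _ (w * (ρ * (d ^ (Q k).natDegree)⁻¹))
    change _ = ((γ k : 𝓞 K) : K)
    rw [M.gv, mul_pow, mul_pow, hρ, inv_pow, ← pow_mul, ← pow_mul, mul_comm m]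
  · obtain ⟨x, hx, rfl⟩ := M.O1 v (hc v rfl)
    obtain ⟨ρ, hρ⟩ := hcofr k x (M.Z2 x hx)
    apply key _ (w * (d ^ ((Q k).map j).rootMultiplicity x)⁻¹ * ρ)
    rw [M.I2 k x hx, mul_pow, mul_pow, hρ, inv_pow, ← pow_mul, ← pow_mul, mul_comm m]


theorem Mdl.notExpl (M : Mdl m j Q Ω e γ Z φ d w) (G : Subgroup (K ≃ₐ[ℚ] K))
    (hG : ∀ s ∈ G, ∀ f, s (j f) = j f) (τ' : E → 𝓞 K) (τ : E → F)
    (hτ : ∀ k, j (τ k) = (τ' k : K)) (hno : NoSol G m Ω e γ τ') : ¬ Expl m Q F τ := by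
  have hs : ∀ s ∈ G, ∀ f, (s : K →+* K) (j f) = j f := fun s hs f => hG s hs f
  have hd : ∀ s ∈ G, s d = d := fun s _ => M.dfix (s : K →+* K)
  have hw : ∀ s ∈ G, s w = w := fun s _ => M.wfix (s : K →+* K)
  have hzfix : ∀ z : F, ∀ s ∈ G, s (w * j z) = w * j z := fun z s hs' => by
    rw [map_mul, hw s hs', hG s hs']
  have hqfix : ∀ q : F, ∀ s ∈ G, s (j q * d ^ m) = j q * d ^ m := fun q s hs' => by
    rw [map_mul, map_pow, hd s hs', hG s hs']
  have hq0 : ∀ q : F, q ≠ 0 → j q * d ^ m ≠ 0 := fun q hq =>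
    mul_ne_zero ((map_ne_zero j).2 hq) M.D0
  intro h
  unfold Expl at h
  simp only [Algebra.algebraMap_self, Polynomial.map_id, RingHom.id_apply] at h
  rcases h with ⟨θ, q, hq, h⟩ | ⟨q, hq, h⟩
  · by_cases hx : j θ ∈ Z
    · refine hno.2 (some (φ (j θ))) ?_ ?_ (j q * d ^ m) (hq0 q hq) (hqfix q) fun k => ?_
      · rintro v hv
        obtain rfl := Option.some_injective _ hv
        exact M.O2 _ hx
      · intro s hsG
        rw [Option.map_some]
        congr 1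
        apply M.phi_eq hx
        change s ((φ (j θ) : 𝓞 K) : K) = _
        rw [M.phi _ hx, map_mul, map_pow, hd s hsG, hG s hsG]
      · obtain ⟨z, hz⟩ := h k
        refine ⟨w * j z, hzfix z, ?_⟩
        have h1 : eexp Ω (e k) (some (φ (j θ))) = (Q k).rootMultiplicity θ := by
          change e k (φ (j θ)) = _
          rw [M.ee k _ hx, map_mult]
        rw [h1, M.I2 k _ hx, map_cof, map_mult, ← hτ, mul_pow]
        have h2 := congrArg j hz
        rw [map_mul, map_mul, map_pow, map_pow] at h2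
        have h3 : (d ^ m) ^ (Q k).rootMultiplicity θ ≠ 0 := pow_ne_zero _ M.D0
        calc j (τ k) * (w ^ m * j z ^ m) = w ^ m * (j (τ k) * j z ^ m) := by ring
          _ = w ^ m * (j q ^ (Q k).rootMultiplicity θ *
            j (eval θ (Q k /ₘ (X - C θ) ^ rootMultiplicity θ (Q k)))) := by rw [h2]
          _ = _ := by
            rw [mul_pow]
            field_simp
    · refine hno.1 (d ^ m * j θ) ?_ ?_ fun k => ?_
      · intro s hsG
        rw [map_mul, map_pow, hd s hsG, hG s hsG]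
      · intro v hv hv'
        obtain ⟨x, hx', rfl⟩ := M.O1 v hv
        rw [M.phi x hx'] at hv'
        exact hx (by rwa [mul_left_cancel₀ M.D0 hv'])
      · obtain ⟨z, hz⟩ := h k
        refine ⟨w * j z, hzfix z, ?_⟩
        have h0 : ¬ IsRoot (Q k) θ := by
          intro hr
          apply hx
          apply M.Z1 k
          rw [eval_map_apply, hr, map_zero]
        rw [rootMultiplicity_eq_zero h0, pow_zero, pow_zero, divByMonic_one, one_mul] at hz
        rw [M.I1 k (j θ), ← hτ, mul_pow, eval_map_apply, ← hz, map_mul, map_pow]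
        ring
  · refine hno.2 none ?_ ?_ (j q * d ^ m) (hq0 q hq) (hqfix q) fun k => ?_
    · intro v hv
      exact absurd hv (by simp)
    · intro s _
      rfl
    · obtain ⟨z, hz⟩ := h k
      refine ⟨w * j z, hzfix z, ?_⟩
      have h1 : eexp Ω (e k) none = (Q k).natDegree := M.sum k
      have h2 : ((cof Ω (e k) (γ k) none : 𝓞 K) : K) = (γ k : K) := rfl
      rw [h1, h2, M.gv, ← hτ, mul_pow]
      have h3 := congrArg j hz
      rw [map_mul, map_mul, map_pow, map_pow] at h3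
      have h4 : (d ^ m) ^ (Q k).natDegree ≠ 0 := pow_ne_zero _ M.D0
      calc j (τ k) * (w ^ m * j z ^ m) = w ^ m * (j (τ k) * j z ^ m) := by ring
        _ = w ^ m * (j q ^ (Q k).natDegree * j (Q k).leadingCoeff) := by rw [h3]
        _ = _ := by
          rw [mul_pow]
          field_simp

end

section

variable {F K : Type} [Field F] [Field K] [NumberField K] {m : ℕ} {j : F →+* K} {I J : Type}
    {P : I → F[X]} {R : J → F[X]} {Ω : Finset (𝓞 K)} {e : I ⊕ J → 𝓞 K → ℕ}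
    {γ : I ⊕ J → 𝓞 K} {Z : Finset K} {φ : K → 𝓞 K} {d w : K}

theorem Mdl.hasFixed (M : Mdl m j (Sum.elim P R) Ω e γ Z φ d w) (G : Subgroup (K ≃ₐ[ℚ] K))
    (hfixF : ∀ x : K, (∀ s ∈ G, s x = x) → ∃ f, j f = x)
    (h : KFixed G m Ω e γ) : HasFixed m P R := by
  have hd : ∀ s ∈ G, s d = d := fun s _ => M.dfix (s : K →+* K)
  have hw : ∀ s ∈ G, s w = w := fun s _ => M.wfix (s : K →+* K)
  obtain ⟨i₀, hi₀, c, hc, hcG, hunit, hJ⟩ := h
  refine ⟨i₀, hi₀, ?_⟩
  rcases c with _ | v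
  · right
    have hb : ∀ k, ebar m Ω (e k) none = -(((Sum.elim P R k).natDegree : ℕ) : ZMod m) := by
      intro k
      change -∑ θ ∈ Ω, (e k θ : ZMod m) = _
      rw [← M.sum k, Nat.cast_sum]
    rw [hb, IsUnit.neg_iff, ZMod.isUnit_iff_coprime] at hunit
    refine ⟨hunit.symm, fun j' => ?_⟩
    obtain ⟨h1, ρ, hρ, hρG⟩ := hJ j'
    rw [hb, neg_eq_zero, ZMod.natCast_eq_zero_iff] at h1
    refine ⟨h1, ?_⟩
    obtain ⟨f, hf⟩ := hfixF ((ρ : K) * d ^ (R j').natDegree * w⁻¹) (by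
      intro s hs
      have h2 : s (ρ : K) = (ρ : K) := congrArg (fun v : 𝓞 K => (v : K)) (hρG s hs)
      rw [map_mul, map_mul, map_pow, map_inv₀, hd s hs, hw s hs, h2])
    refine ⟨f, j.injective ?_⟩
    have h3 : (ρ : K) ^ m = ((γ (Sum.inr j') : 𝓞 K) : K) := by
      have := congrArg (fun v : 𝓞 K => (v : K)) hρ
      exact this
    rw [M.gv] at h3
    rw [map_pow, hf, mul_pow, mul_pow, h3, inv_pow, ← pow_mul, ← pow_mul, mul_comm m]
    change w ^ m * (j (R j').leadingCoeff * (d ^ ((R j').natDegree * m))⁻¹) * _ * _ = _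
    have h4 : d ^ ((R j').natDegree * m) ≠ 0 := pow_ne_zero _ M.d0
    have h5 : w ^ m ≠ 0 := pow_ne_zero _ M.w0
    field_simp
  · left
    obtain ⟨x, hx, rfl⟩ := M.O1 v (hc v rfl)
    have hxG : ∀ s ∈ G, s x = x := by
      intro s hs
      have h1 := Option.some_injective _ (hcG s hs)
      have h2 : s ((φ x : 𝓞 K) : K) = ((φ x : 𝓞 K) : K) :=
        congrArg (fun v : 𝓞 K => (v : K)) h1
      rw [M.phi x hx, map_mul, map_pow, hd s hs] at h2
      exact mul_left_cancel₀ M.D0 h2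
    obtain ⟨θ, rfl⟩ := hfixF x hxG
    have hb : ∀ k, ebar m Ω (e k) (some (φ (j θ))) =
        (((Sum.elim P R k).rootMultiplicity θ : ℕ) : ZMod m) := by
      intro k
      change ((e k (φ (j θ)) : ℕ) : ZMod m) = _
      rw [M.ee k _ hx, map_mult]
    rw [hb, ZMod.isUnit_iff_coprime] at hunit
    refine ⟨θ, hunit.symm, fun j' => ?_⟩
    obtain ⟨h1, ρ, hρ, hρG⟩ := hJ j'
    rw [hb, ZMod.natCast_eq_zero_iff] at h1
    refine ⟨h1, ?_⟩
    obtain ⟨f, hf⟩ := hfixF ((ρ : K) * d ^ (R j').rootMultiplicity θ * w⁻¹) (by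
      intro s hs
      have h2 : s (ρ : K) = (ρ : K) := congrArg (fun v : 𝓞 K => (v : K)) (hρG s hs)
      rw [map_mul, map_mul, map_pow, map_inv₀, hd s hs, hw s hs, h2])
    refine ⟨f, j.injective ?_⟩
    have h3 : (ρ : K) ^ m =
        ((cof Ω (e (Sum.inr j')) (γ (Sum.inr j')) (some (φ (j θ))) : 𝓞 K) : K) := by
      have := congrArg (fun v : 𝓞 K => (v : K)) hρ
      exact this
    rw [M.I2 _ _ hx, map_cof, map_mult] at h3
    rw [map_pow, hf, mul_pow, mul_pow, h3, inv_pow, ← pow_mul, ← pow_mul, mul_comm m]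
    change w ^ m * (d ^ ((R j').rootMultiplicity θ * m))⁻¹ *
      j (eval θ (R j' /ₘ (X - C θ) ^ rootMultiplicity θ (R j'))) * _ * _ = _
    have h4 : d ^ ((R j').rootMultiplicity θ * m) ≠ 0 := pow_ne_zero _ M.d0
    have h5 : w ^ m ≠ 0 := pow_ne_zero _ M.w0
    field_simp

theorem Mdl.hst [NumberField F] [Fintype I] [Fintype J]
    (M : Mdl m j (Sum.elim P R) Ω e γ Z φ d w) (hm2 : 2 ≤ m) (hR : ∀ j', R j' ≠ 0)
    (hspl : ∀ j', ((R j').map j).Splits) (hirr : GeomIrred m P R) (j' : J) :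
    ∃ θ ∈ Ω, ¬ m ∣ e (Sum.inr j') θ := by
  classical
  obtain ⟨θ', hθ'⟩ := hirr (fun _ => 0) (Pi.single j' 1)
    (Or.inr ⟨j', by
      rw [Pi.single_eq_same, Nat.dvd_one]
      omega⟩)
  have h1 : ∑ i : I, 0 * ((P i).map (algebraMap F (AlgebraicClosure F))).rootMultiplicity θ' +
      ∑ i : J, (Pi.single j' 1 : J → ℕ) i *
        ((R i).map (algebraMap F (AlgebraicClosure F))).rootMultiplicity θ' =
      ((R j').map (algebraMap F (AlgebraicClosure F))).rootMultiplicity θ' := by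
    rw [Finset.sum_eq_single j']
    · simp
    · intro i _ hi
      rw [Pi.single_eq_of_ne hi, zero_mul]
    · intro hn
      exact absurd (Finset.mem_univ _) hn
  rw [h1] at hθ'
  let _ : Algebra F K := j.toAlgebra
  have halg : Algebra.IsAlgebraic F K := by
    have : IsScalarTower ℚ F K := IsScalarTower.of_algebraMap_eq' (Subsingleton.elim _ _)
    exact Algebra.IsAlgebraic.tower_top (K := ℚ) F
  let ψ : K →ₐ[F] AlgebraicClosure F := IsAlgClosed.lift
  have hψ : (R j').map (algebraMap F (AlgebraicClosure F)) =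
      ((R j').map j).map (ψ : K →+* AlgebraicClosure F) := by
    rw [Polynomial.map_map]
    congr 1
    ext f
    exact (ψ.commutes f).symm
  rw [hψ] at hθ'
  have h2 : ((R j').map j).map (ψ : K →+* AlgebraicClosure F) ≠ 0 :=
    map_ne_zero (map_ne_zero (hR j'))
  have h3 : θ' ∈ (((R j').map j).map (ψ : K →+* AlgebraicClosure F)).roots := by
    rw [mem_roots h2, ← rootMultiplicity_pos h2]
    rcases Nat.eq_zero_or_pos
      (rootMultiplicity θ' (((R j').map j).map (ψ : K →+* AlgebraicClosure F))) with h | h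
    · exact absurd (h ▸ dvd_zero m) hθ'
    · exact h
  rw [(hspl j').roots_map, Multiset.mem_map] at h3
  obtain ⟨x, hx, rfl⟩ := h3
  rw [← eq_rootMultiplicity_map (ψ : K →+* AlgebraicClosure F).injective] at hθ'
  have hx2 : x ∈ Z := by
    apply M.Z1 (Sum.inr j')
    rw [mem_roots (map_ne_zero (hR j'))] at hx
    exact hx
  refine ⟨φ x, M.O2 x hx2, ?_⟩
  rw [M.ee _ x hx2]
  exact hθ'

end

end FLevel

open FLevel in
theorem flevel (F : Type) [Field F] [NumberField F] (m : ℕ) (hm2 : 2 ≤ m) {I J : Type}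
    [Fintype I] [Fintype J] [Nonempty I] (hm : m.Prime ∨ (IsEmpty J ∧ Subsingleton I))
    (P : I → F[X]) (R : J → F[X]) (hP : ∀ i, P i ≠ 0) (hR : ∀ j, R j ≠ 0)
    (hirr : GeomIrred m P R) (hnot : ¬ HasFixed m P R) :
    ∃ t : I → F, (∀ i, t i ≠ 0) ∧
      ¬ Expl m (Sum.elim P R) F (Sum.elim t (fun _ => 1)) := by
  classical
  have hm0 : 0 < m := by omega
  have hQ0 : ∀ k, Sum.elim P R k ≠ 0 := by
    rintro (i | i)
    · exact hP i
    · exact hR i
  obtain ⟨K, hnf, hgal, j, ζ, hζ, hspl, hfixF, hlc, hcofr⟩ :=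
    exists_setup F m hm0 (Sum.elim P R) hQ0
  obtain ⟨Ω, e, γ, Z, φ, d, w, M⟩ := exists_mdl m hm0 j (Sum.elim P R) hQ0 hspl
  let G : Subgroup (K ≃ₐ[ℚ] K) :=
    { carrier := {s | ∀ f, s (j f) = j f}
      mul_mem' := by
        intro s t hs ht f
        rw [AlgEquiv.mul_apply, ht f, hs f]
      one_mem' := fun f => rfl
      inv_mem' := by
        intro s hs f
        apply s.injective
        have h1 : s ((s⁻¹ : K ≃ₐ[ℚ] K) (j f)) = j f := s.apply_symm_apply (j f)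
        rw [h1, hs f] }
  have hGj : ∀ s ∈ G, ∀ f, s (j f) = j f := fun s hs => hs
  have hGfix : ∀ x : K, (∀ s ∈ G, s x = x) → ∃ f, j f = x := fun x hx => hfixF x hx
  have hs1 : ∀ s ∈ G, ∀ f, (s : K →+* K) (j f) = j f := fun s hs f => hGj s hs f
  have hsm : ∀ (s : K ≃ₐ[ℚ] K) (v : 𝓞 K), ((s • v : 𝓞 K) : K) = s (v : K) := fun s v => rfl
  have hΩG : ∀ s ∈ G, ∀ θ ∈ Ω, s • θ ∈ Ω := by
    intro s hs θ hθ
    obtain ⟨x, hx, rfl⟩ := M.O1 θ hθ
    rw [M.phi_fix hQ0 (s : K →+* K) (hs1 s hs) hx (hsm s (φ x))]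
    exact M.O2 _ (M.memZ hQ0 (s : K →+* K) (hs1 s hs) hx)
  have heG : ∀ k, ∀ s ∈ G, ∀ θ ∈ Ω, e k (s • θ) = e k θ := fun k s hs θ hθ =>
    M.e_fix hQ0 (s : K →+* K) (hs1 s hs) k hθ (hsm s θ)
  have hγG : ∀ k, ∀ s ∈ G, s • γ k = γ k := by
    intro k s hs
    apply RingOfIntegers.ext
    exact M.g_fix (s : K →+* K) (hs1 s hs) k
  have hroots : ∀ j' : J, ∀ c : Option (𝓞 K), PtIn Ω c →
      ∃ ρ : 𝓞 K, ρ ^ m = cof Ω (e (Sum.inr j')) (γ (Sum.inr j')) c := fun j' c hc =>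
    M.root hm0 hlc hcofr (Sum.inr j') c hc
  have hKnot : ¬ KFixed G m Ω e γ := fun h => hnot (M.hasFixed G hGfix h)
  have hmain : ∃ t : I → 𝓞 K, (∀ i, t i ≠ 0) ∧ (∀ i, ∀ s ∈ G, s • t i = t i) ∧
      NoSol G m Ω e γ (Sum.elim t (fun _ => 1)) := by
    by_cases h2 : ∃ i₁ i₂ : I, i₁ ≠ i₂
    · obtain ⟨i₁, i₂, h12⟩ := h2
      have hmp : m.Prime := by
        rcases hm with h | ⟨_, h⟩
        · exact h
        · exact absurd (Subsingleton.elim i₁ i₂) h12
      exact case_a K G m hm2 ζ hζ Ω hΩG e heG γ M.g0 hγG hroots hmp i₁ i₂ h12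
    · push Not at h2
      obtain ⟨i₀⟩ := ‹Nonempty I›
      have hI : ∀ i, i = i₀ := fun i => h2 i i₀
      by_cases hJ : IsEmpty J
      · exact case_c K G m hm2 ζ hζ Ω hΩG e heG γ M.g0 hγG hroots hJ i₀ hI hKnot
      · have hJ' : Nonempty J := not_isEmpty_iff.1 hJ
        have hmp : m.Prime := by
          rcases hm with h | ⟨h, _⟩
          · exact h
          · exact absurd h hJ
        exact case_b K G m hm2 ζ hζ Ω hΩG e heG γ M.g0 hγG hroots hmp i₀ hI
          (fun j' => M.hst hm2 hR (fun j' => hspl (Sum.inr j')) hirr j') hKnot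
  obtain ⟨t, ht0, htG, hno⟩ := hmain
  have htF : ∀ i, ∃ f, j f = (t i : K) := fun i =>
    hGfix _ fun s hs => congrArg (fun v : 𝓞 K => (v : K)) (htG i s hs)
  choose tF htF using htF
  refine ⟨tF, fun i h => ?_, ?_⟩
  · apply ht0 i
    apply RingOfIntegers.ext
    rw [← htF, h, map_zero]
    rfl
  · refine M.notExpl G hGj (Sum.elim t (fun _ => 1)) _ ?_ hno
    rintro (i | i)
    · exact htF i
    · change j 1 = ((1 : 𝓞 K) : K)
      rw [map_one]
      rfl

end Pool.KT
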