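import Pool.Agent.Helper54.KT.FDefs

/-!
A rational fixed point gives points on all members of the family.

Proof. First alternative of `HasFixed`: `θ : F`, `e = rootMultiplicity θ (P i₀)` prime to `m`. Take
the first alternative of `Expl` with `algebraMap F L θ` (multiplicities and quotients by powers of
`X - C θ` commute with `map`: e.g. by the characterisation of the multiplicity through
`Q = (X - C θ) ^ e * S`, `S (θ) ≠ 0`). Let `c = (S (θ) : L) ≠ 0` be the cofactor of `P i₀`. Choose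
`u : ℕ` with `e * u ≡ 1` modulo `m`, `e * u = 1 + m * w` (for `m = 1` take anything), and
`q = (t i₀ / c) ^ u`. Then `q ^ e * c = t i₀ * ((t i₀ / c) ^ w) ^ m`. For `j`: the multiplicity is
`m * w'` and the cofactor is `ρ ^ m`, so `1 * (q ^ w' * ρ) ^ m` is the right side.
Second alternative: the same with `natDegree` and `leadingCoeff`.
-/

open Polynomial

namespace Pool.KT

private theorem fixed_pow {L : Type} [Field L] (m e : ℕ) (hm : 2 ≤ m) (he : Nat.Coprime m e)
    (t c : L) (ht : t ≠ 0) (hc : c ≠ 0) :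
    ∃ q : L, q ≠ 0 ∧ ∃ z : L, t * z ^ m = q ^ e * c := by
  obtain ⟨u, -, hu⟩ := Nat.exists_mul_mod_eq_one_of_coprime he.symm (by omega : 1 < m)
  refine ⟨(t / c) ^ u, pow_ne_zero _ (div_ne_zero ht hc), (t / c) ^ (e * u / m), ?_⟩
  have h1 : u * e = m * (e * u / m) + 1 := by
    rw [mul_comm u e]
    conv_lhs => rw [← Nat.div_add_mod (e * u) m, hu]
  rw [← pow_mul, ← pow_mul, h1, pow_succ, mul_comm (e * u / m) m]
  field_simp

private theorem fixed_cof {F : Type} [Field F] (L : Type) [Field L] [Algebra F L] (Q : F[X])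
    (θ : F) :
    (Q.map (algebraMap F L)).rootMultiplicity (algebraMap F L θ) = Q.rootMultiplicity θ ∧
    (((Q.map (algebraMap F L)) /ₘ (X - C (algebraMap F L θ)) ^ Q.rootMultiplicity θ).eval
      (algebraMap F L θ)) =
      algebraMap F L ((Q /ₘ (X - C θ) ^ Q.rootMultiplicity θ).eval θ) := by
  refine ⟨(Polynomial.eq_rootMultiplicity_map (algebraMap F L).injective θ).symm, ?_⟩
  have hmon : ((X - C θ) ^ Q.rootMultiplicity θ : F[X]).Monic := (monic_X_sub_C θ).pow _
  have h1 : ((X - C (algebraMap F L θ)) ^ Q.rootMultiplicity θ : L[X]) =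
      ((X - C θ) ^ Q.rootMultiplicity θ : F[X]).map (algebraMap F L) := by
    simp
  rw [h1, ← map_divByMonic _ hmon, eval_map, eval₂_at_apply]

theorem expl_of_fixed {F : Type} [Field F] {I J : Type} (m : ℕ) (hm : 2 ≤ m) (P : I → F[X])
    (R : J → F[X]) (hP : ∀ i, P i ≠ 0) (hR : ∀ j, R j ≠ 0) (hfix : HasFixed m P R)
    (L : Type) [Field L] [Algebra F L] (t : I → L) (ht : ∀ i, t i ≠ 0) :
    Expl m (Sum.elim P R) L (Sum.elim t (fun _ => 1)) := by
  obtain ⟨i₀, hi, h | h⟩ := hfix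
  · obtain ⟨θ, hco, hj⟩ := h
    have hc : algebraMap F L ((P i₀ /ₘ (X - C θ) ^ (P i₀).rootMultiplicity θ).eval θ) ≠ 0 := by
      rw [Ne, map_eq_zero]
      exact eval_divByMonic_pow_rootMultiplicity_ne_zero θ (hP i₀)
    obtain ⟨q, hq, z, hz⟩ := fixed_pow m _ hm hco (t i₀) _ (ht i₀) hc
    refine Or.inl ⟨algebraMap F L θ, q, hq, ?_⟩
    rintro (i | j)
    · obtain rfl := hi i
      refine ⟨z, ?_⟩
      simp only [Sum.elim_inl]
      rw [(fixed_cof L (P i) θ).1, (fixed_cof L (P i) θ).2]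
      exact hz
    · obtain ⟨⟨w, hw⟩, ρ, hρ⟩ := hj j
      refine ⟨q ^ w * algebraMap F L ρ, ?_⟩
      simp only [Sum.elim_inr]
      rw [(fixed_cof L (R j) θ).1, (fixed_cof L (R j) θ).2, ← hρ, hw, map_pow, mul_pow, one_mul,
        ← pow_mul, mul_comm w m]
  · obtain ⟨hco, hj⟩ := h
    have hc : algebraMap F L (P i₀).leadingCoeff ≠ 0 := by
      rw [Ne, map_eq_zero]
      exact leadingCoeff_ne_zero.mpr (hP i₀)
    obtain ⟨q, hq, z, hz⟩ := fixed_pow m _ hm hco (t i₀) _ (ht i₀) hc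
    refine Or.inr ⟨q, hq, ?_⟩
    rintro (i | j)
    · obtain rfl := hi i
      exact ⟨z, hz⟩
    · obtain ⟨⟨w, hw⟩, ρ, hρ⟩ := hj j
      refine ⟨q ^ w * algebraMap F L ρ, ?_⟩
      simp only [Sum.elim_inr]
      rw [← hρ, hw, map_pow, mul_pow, one_mul, ← pow_mul, mul_comm w m]

end Pool.KT
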