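import Pool.Agent.Helper54.KT.FDefs

/-!
Points over Laurent series and the explicit criterion.

Let `Q = Sum.elim P R`, `τ = Sum.elim t 1`; all the polynomials are regarded over `L`.

From a point to the criterion. Let `x` be the Laurent series.
(a) If `x` has a pole: `x = q⁻¹ s ^ (-k) + ...`; leading coefficients: `Q i (x)` has the leading
coefficient `lc (Q i) * (lead x) ^ natDegree`, and `τ i * (lead y) ^ m` on the other side; take
`q = lead x` (`HahnSeries.leadingCoeff` is multiplicative), second alternative. (b) Otherwise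
`x` is a power series; let `θ` be its constant coefficient. If `x = θ` take `q = 1`: then
`Q i (θ) ≠ 0`, the multiplicities are zero and `τ i * y ^ m = Q i (θ)`, take leading coefficients.
If `x ≠ θ` let `q` be the leading coefficient of `x - θ` (its order is positive). Then
`Q i = (X - θ) ^ e * S i`, `S i (θ) ≠ 0`, so `Q i (x) = (x - θ) ^ e * S i (x)` has leading
coefficient `q ^ e * S i (θ)`; first alternative with `z` the leading coefficient.

From the criterion to a point (`L` of characteristic zero). First alternative: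
`x = θ + q s ^ m`, then `Q i (x) = (q s ^ m) ^ e * S i (x)`, and `S i (x)` is a power series with
constant term `S i (θ) ≠ 0`, so `S i (x) = S i (θ) * w ^ m` for a power series `w` with constant
term `1` (an `m`-th root of a power series with constant term `1` exists in characteristic zero:
Hensel's lemma, or the binomial series, or by a recursion for the coefficients). So
`Q i (x) = τ i * (z * s ^ e * w) ^ m`. Second alternative: `x = q * s ^ (-m)`;
`Q i (x) = q ^ n * s ^ (-m n) * lc * (power series with constant term 1)`.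
-/

open Polynomial

namespace Pool.KT

namespace Laurent

section

variable {L : Type} [Field L]

/-- The embedding of power series into Laurent series. -/
private noncomputable def io : PowerSeries L →+* LaurentSeries L := HahnSeries.ofPowerSeries ℤ L

private theorem io_C (c : L) : io (PowerSeries.C c) = HahnSeries.C c := by
  simp [io]

private theorem io_X : io (PowerSeries.X : PowerSeries L) = HahnSeries.single 1 1 := by
  simp [io]

private theorem io_aeval (W : PowerSeries L) (p : L[X]) : aeval (io W) p = io (aeval W p) := by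
  rw [aeval_def, aeval_def, hom_eval₂]
  congr 1

private theorem cc_aeval (W : PowerSeries L) (p : L[X]) :
    PowerSeries.constantCoeff (aeval W p) = p.eval (PowerSeries.constantCoeff W) := by
  rw [aeval_def, hom_eval₂, eval, eval₂_eq_eval_map, eval₂_eq_eval_map]
  congr 1

private theorem coeff_zero_io (U : PowerSeries L) :
    (io U).coeff 0 = PowerSeries.constantCoeff U := by
  have := PowerSeries.coeff_coe U 0
  simpa [io] using this

private theorem lead_io (U : PowerSeries L) (h : PowerSeries.constantCoeff U ≠ 0) :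
    (io U).leadingCoeff = PowerSeries.constantCoeff U := by
  have h0 := coeff_zero_io U
  have hne : io U ≠ 0 := by
    intro h1
    rw [h1] at h0
    exact h h0.symm
  have ho : (io U).order = 0 := by
    apply le_antisymm
    · exact HahnSeries.order_le_of_coeff_ne_zero (by rw [h0]; exact h)
    · rw [HahnSeries.le_order_iff_forall hne]
      intro j hj
      have h2 := PowerSeries.coeff_coe U j
      rw [if_pos hj] at h2
      exact h2
  rw [HahnSeries.leadingCoeff_eq, ho, h0]

private theorem exists_io (x : LaurentSeries L) (hx : 0 ≤ x.order) :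
    ∃ U : PowerSeries L, x = io U := by
  obtain ⟨n, hn⟩ := Int.eq_ofNat_of_zero_le hx
  exact ⟨_, (LaurentSeries.X_order_mul_powerSeriesPart hn.symm).symm⟩

private theorem lead_C (c : L) : (HahnSeries.C c : LaurentSeries L).leadingCoeff = c := by
  rw [HahnSeries.C_apply, HahnSeries.leadingCoeff_of_single]

private theorem lead_pow (a : LaurentSeries L) (n : ℕ) :
    (a ^ n).leadingCoeff = a.leadingCoeff ^ n := by
  induction n with
  | zero => rw [pow_zero, pow_zero, HahnSeries.leadingCoeff_one]
  | succ n ih => rw [pow_succ, pow_succ, HahnSeries.leadingCoeff_mul, ih]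

/-- The value at the inverse of a power series without constant term. -/
private theorem aeval_inv {x : LaurentSeries L} (hx : x ≠ 0) (q : L[X]) :
    aeval x q = aeval x⁻¹ q.reverse * x ^ q.natDegree := by
  have : Invertible x := invertibleOfNonzero hx
  have h := eval₂_reverse_mul_pow (algebraMap L (LaurentSeries L)) x q
  rw [invOf_eq_inv] at h
  rw [aeval_def, aeval_def, h]

private theorem lead_neg {x : LaurentSeries L} (hx : x.order < 0) {q : L[X]} (hq : q ≠ 0) :
    (aeval x q).leadingCoeff = q.leadingCoeff * x.leadingCoeff ^ q.natDegree := by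
  have hx0 : x ≠ 0 := by
    rintro rfl
    rw [HahnSeries.order_zero] at hx
    exact lt_irrefl _ hx
  have hw0 : x⁻¹ ≠ 0 := inv_ne_zero hx0
  have ho : x.order + (x⁻¹).order = 0 := by
    rw [← HahnSeries.order_mul_of_ne_zero (mul_ne_zero (HahnSeries.leadingCoeff_ne_zero.2 hx0)
      (HahnSeries.leadingCoeff_ne_zero.2 hw0)), mul_inv_cancel₀ hx0, HahnSeries.order_one]
  obtain ⟨W, hW⟩ := exists_io x⁻¹ (by lia)
  have hW0 : PowerSeries.constantCoeff W = 0 := by
    rw [← coeff_zero_io, ← hW]
    exact HahnSeries.coeff_eq_zero_of_lt_order (by lia)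
  have h1 : (aeval x⁻¹ q.reverse).leadingCoeff = q.leadingCoeff := by
    have h2 : PowerSeries.constantCoeff (aeval W q.reverse) = q.leadingCoeff := by
      rw [cc_aeval, hW0, ← coeff_zero_eq_eval_zero, coeff_zero_reverse]
    rw [hW, io_aeval, lead_io _ (by rw [h2]; exact leadingCoeff_ne_zero.2 hq), h2]
  rw [aeval_inv hx0, HahnSeries.leadingCoeff_mul, lead_pow, h1]

private theorem algC {F : Type} [Field F] [Algebra F L] (c : F) :
    algebraMap F (LaurentSeries L) c = HahnSeries.C (algebraMap F L c) := by
  rw [HahnSeries.algebraMap_apply', PowerSeries.algebraMap_apply, HahnSeries.ofPowerSeries_C]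

private theorem split_eq (q : L[X]) (θ : L) (x : LaurentSeries L) :
    aeval x q = (x - HahnSeries.C θ) ^ q.rootMultiplicity θ *
      aeval x (q /ₘ (X - C θ) ^ q.rootMultiplicity θ) := by
  conv_lhs => rw [← pow_mul_divByMonic_rootMultiplicity_eq q θ]
  rw [map_mul, map_pow, map_sub, aeval_X, aeval_C, algC θ]
  rfl

private theorem eval_div_ne {q : L[X]} (hq : q ≠ 0) (θ : L) :
    (q /ₘ (X - C θ) ^ q.rootMultiplicity θ).eval θ ≠ 0 :=
  eval_divByMonic_pow_rootMultiplicity_ne_zero θ hq

private theorem lead_pos (U : PowerSeries L) {q : L[X]} (hq : q ≠ 0) :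
    (aeval (io U) q).leadingCoeff =
      (io U - HahnSeries.C (PowerSeries.constantCoeff U)).leadingCoeff ^
          q.rootMultiplicity (PowerSeries.constantCoeff U) *
        (q /ₘ (X - C (PowerSeries.constantCoeff U)) ^
          q.rootMultiplicity (PowerSeries.constantCoeff U)).eval
          (PowerSeries.constantCoeff U) := by
  rw [split_eq q (PowerSeries.constantCoeff U), HahnSeries.leadingCoeff_mul, lead_pow, io_aeval,
    lead_io _ (by rw [cc_aeval]; exact eval_div_ne hq _), cc_aeval]

/-- Roots of power series. -/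
private theorem root_ps [CharZero L] {m : ℕ} (hm : 0 < m) (G : PowerSeries L)
    (hG : PowerSeries.constantCoeff G ≠ 0) :
    ∃ H : PowerSeries L, G = PowerSeries.C (PowerSeries.constantCoeff G) * H ^ m := by
  set g := PowerSeries.constantCoeff G with hg
  set G' := PowerSeries.C g⁻¹ * G with hG'
  have hc : PowerSeries.constantCoeff (G' - 1) = 0 := by
    rw [map_sub, hG', map_mul, ← hg, PowerSeries.constantCoeff_C, inv_mul_cancel₀ hG, map_one,
      sub_self]
  have hs : PowerSeries.HasSubst (G' - 1) := PowerSeries.HasSubst.of_constantCoeff_zero' hc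
  set B : PowerSeries L := PowerSeries.binomialSeries L (1 / (m : ℚ)) with hB
  have hBn : ∀ n : ℕ, B ^ n = PowerSeries.binomialSeries L ((n : ℚ) * (1 / (m : ℚ))) := by
    intro n
    induction n with
    | zero => rw [pow_zero, Nat.cast_zero, zero_mul, PowerSeries.binomialSeries_zero]
    | succ n ih =>
      rw [pow_succ, ih, Nat.cast_succ, add_mul, one_mul, PowerSeries.binomialSeries_add]
  have hBm : B ^ m = 1 + PowerSeries.X := by
    rw [hBn, mul_one_div_cancel (by exact_mod_cast hm.ne')]
    have h1 := PowerSeries.binomialSeries_nat (R := ℚ) (A := L) 1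
    rw [Nat.cast_one, pow_one] at h1
    exact h1
  refine ⟨B.subst (G' - 1), ?_⟩
  have h2 : (B.subst (G' - 1)) ^ m = G' := by
    rw [← PowerSeries.subst_pow hs, hBm, PowerSeries.subst_add hs, PowerSeries.subst_X hs]
    have h3 : (1 : PowerSeries L).subst (G' - 1) = (1 : PowerSeries L) := by
      rw [← PowerSeries.coe_substAlgHom hs, map_one]
    rw [h3]
    ring
  rw [h2, hG', ← mul_assoc, ← map_mul, mul_inv_cancel₀ hG, map_one, one_mul]

/-- The equivalence for polynomials over `L`. -/
private theorem core [CharZero L] {E : Type} {m : ℕ} (hm : 0 < m) (q : E → L[X])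
    (hq : ∀ i, q i ≠ 0) (τ : E → L) :
    (∃ x : LaurentSeries L, ∀ i, ∃ y : LaurentSeries L, aeval x (q i) ≠ 0 ∧
      HahnSeries.C (τ i) * y ^ m = aeval x (q i)) ↔
    ((∃ θ a : L, a ≠ 0 ∧ ∀ i, ∃ z : L, τ i * z ^ m = a ^ (q i).rootMultiplicity θ *
      (q i /ₘ (X - C θ) ^ (q i).rootMultiplicity θ).eval θ) ∨
    (∃ a : L, a ≠ 0 ∧ ∀ i, ∃ z : L, τ i * z ^ m = a ^ (q i).natDegree *
      (q i).leadingCoeff)) := by
  constructor
  · rintro ⟨x, hx⟩
    rcases lt_or_ge x.order 0 with hlt | hge
    · right
      have hx0 : x ≠ 0 := by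
        rintro rfl
        rw [HahnSeries.order_zero] at hlt
        exact lt_irrefl _ hlt
      refine ⟨x.leadingCoeff, HahnSeries.leadingCoeff_ne_zero.2 hx0, fun i => ?_⟩
      obtain ⟨y, _, hy⟩ := hx i
      refine ⟨y.leadingCoeff, ?_⟩
      have h1 := congrArg HahnSeries.leadingCoeff hy
      rw [HahnSeries.leadingCoeff_mul, lead_C, lead_pow, lead_neg hlt (hq i)] at h1
      rw [h1, mul_comm]
    · left
      obtain ⟨U, rfl⟩ := exists_io x hge
      set θ := PowerSeries.constantCoeff U with hθ
      by_cases hw : io U - HahnSeries.C θ = 0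
      · refine ⟨θ, 1, one_ne_zero, fun i => ?_⟩
        obtain ⟨y, hne, hy⟩ := hx i
        refine ⟨y.leadingCoeff, ?_⟩
        have h1 := congrArg HahnSeries.leadingCoeff hy
        rw [HahnSeries.leadingCoeff_mul, lead_C, lead_pow, lead_pos U (hq i), ← hθ, hw,
          HahnSeries.leadingCoeff_zero] at h1
        have he : (q i).rootMultiplicity θ = 0 := by
          by_contra h2
          apply hne
          rw [← HahnSeries.leadingCoeff_eq_zero, lead_pos U (hq i), ← hθ, hw,
            HahnSeries.leadingCoeff_zero, zero_pow h2, zero_mul]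
        rw [he] at h1 ⊢
        rw [h1, pow_zero, one_pow, pow_zero]
      · refine ⟨θ, _, HahnSeries.leadingCoeff_ne_zero.2 hw, fun i => ?_⟩
        obtain ⟨y, hne, hy⟩ := hx i
        refine ⟨y.leadingCoeff, ?_⟩
        have h1 := congrArg HahnSeries.leadingCoeff hy
        rw [HahnSeries.leadingCoeff_mul, lead_C, lead_pow, lead_pos U (hq i), ← hθ] at h1
        exact h1
  · rintro (⟨θ, a, ha, h⟩ | ⟨a, ha, h⟩)
    · set U : PowerSeries L := PowerSeries.C θ + PowerSeries.C a * PowerSeries.X ^ m with hU
      have hU0 : PowerSeries.constantCoeff U = θ := by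
        rw [hU]
        simp [hm.ne']
      have hw : io U - HahnSeries.C θ = HahnSeries.C a * (HahnSeries.single 1 1) ^ m := by
        rw [hU, map_add, map_mul, map_pow, io_C, io_C, io_X, add_sub_cancel_left]
      have hs1 : (HahnSeries.single (1 : ℤ) (1 : L)) ≠ 0 := by
        simp
      have hCa : (HahnSeries.C a : LaurentSeries L) ≠ 0 := by
        rw [HahnSeries.C_apply]
        simpa using ha
      refine ⟨io U, fun i => ?_⟩
      obtain ⟨z, hz⟩ := h i
      set e := (q i).rootMultiplicity θ with he
      set S := q i /ₘ (X - C θ) ^ e with hS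
      have hS0 : PowerSeries.constantCoeff (aeval U S) = S.eval θ := by
        rw [cc_aeval, hU0]
      have hS1 : S.eval θ ≠ 0 := eval_div_ne (hq i) θ
      obtain ⟨H, hH⟩ := root_ps hm (aeval U S) (by rw [hS0]; exact hS1)
      rw [hS0] at hH
      have hval : aeval (io U) (q i) = HahnSeries.C (τ i) *
          (HahnSeries.C z * (HahnSeries.single 1 1) ^ e * io H) ^ m := by
        rw [split_eq (q i) θ, hw, io_aeval, ← he, ← hS, hH, map_mul, io_C, map_pow]
        have h4 : (HahnSeries.C (τ i) : LaurentSeries L) * HahnSeries.C z ^ m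
            = HahnSeries.C a ^ e * HahnSeries.C (S.eval θ) := by
          rw [← map_pow, ← map_pow, ← map_mul, ← map_mul, hz]
        calc (HahnSeries.C a * (HahnSeries.single 1 1) ^ m) ^ e *
              (HahnSeries.C (S.eval θ) * io H ^ m)
            = (HahnSeries.C a ^ e * HahnSeries.C (S.eval θ)) *
              (((HahnSeries.single 1 1) ^ m) ^ e * io H ^ m) := by ring
          _ = (HahnSeries.C (τ i) * HahnSeries.C z ^ m) *
              (((HahnSeries.single 1 1) ^ m) ^ e * io H ^ m) := by rw [h4]
          _ = _ := by ring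
      refine ⟨_, ?_, hval.symm⟩
      rw [split_eq (q i) θ, hw, io_aeval]
      refine mul_ne_zero (pow_ne_zero _ (mul_ne_zero hCa (pow_ne_zero _ hs1))) ?_
      intro h5
      have h6 := lead_io (aeval U S) (by rw [hS0]; exact hS1)
      rw [h5, HahnSeries.leadingCoeff_zero, hS0] at h6
      exact hS1 h6.symm
    · set x : LaurentSeries L := HahnSeries.C a * (HahnSeries.single (-1 : ℤ) (1 : L)) ^ m with hxd
      have hs1 : (HahnSeries.single (-1 : ℤ) (1 : L)) ≠ 0 := by
        simp
      have hCa : (HahnSeries.C a : LaurentSeries L) ≠ 0 := by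
        rw [HahnSeries.C_apply]
        simpa using ha
      have hx0 : x ≠ 0 := mul_ne_zero hCa (pow_ne_zero _ hs1)
      set W : PowerSeries L := PowerSeries.C a⁻¹ * PowerSeries.X ^ m with hW
      have hW0 : PowerSeries.constantCoeff W = 0 := by
        rw [hW]
        simp [hm.ne']
      have hxW : x⁻¹ = io W := by
        apply inv_eq_of_mul_eq_one_right
        have h7 : (HahnSeries.C a : LaurentSeries L) * HahnSeries.C a⁻¹ = 1 := by
          rw [← map_mul, mul_inv_cancel₀ ha, map_one]
        have h8 : (HahnSeries.single (-1 : ℤ) (1 : L)) * HahnSeries.single (1 : ℤ) (1 : L)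
            = 1 := by
          rw [HahnSeries.single_mul_single]
          simp
        rw [hxd, hW, map_mul, map_pow, io_C, io_X]
        calc HahnSeries.C a * (HahnSeries.single (-1 : ℤ) (1 : L)) ^ m *
              (HahnSeries.C a⁻¹ * (HahnSeries.single (1 : ℤ) (1 : L)) ^ m)
            = (HahnSeries.C a * HahnSeries.C a⁻¹) *
              ((HahnSeries.single (-1 : ℤ) (1 : L)) * HahnSeries.single (1 : ℤ) (1 : L)) ^ m := by
              ring
          _ = 1 := by rw [h7, h8, one_pow, one_mul]
      refine ⟨x, fun i => ?_⟩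
      obtain ⟨z, hz⟩ := h i
      set n := (q i).natDegree with hn
      have hS0 : PowerSeries.constantCoeff (aeval W (q i).reverse) = (q i).leadingCoeff := by
        rw [cc_aeval, hW0, ← coeff_zero_eq_eval_zero, coeff_zero_reverse]
      have hS1 : (q i).leadingCoeff ≠ 0 := leadingCoeff_ne_zero.2 (hq i)
      obtain ⟨H, hH⟩ := root_ps hm (aeval W (q i).reverse) (by rw [hS0]; exact hS1)
      rw [hS0] at hH
      have hval : aeval x (q i) = HahnSeries.C (τ i) *
          (HahnSeries.C z * (HahnSeries.single (-1 : ℤ) (1 : L)) ^ n * io H) ^ m := by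
        rw [aeval_inv hx0, hxW, io_aeval, hH, map_mul, io_C, map_pow, hxd, ← hn]
        have h4 : (HahnSeries.C (τ i) : LaurentSeries L) * HahnSeries.C z ^ m
            = HahnSeries.C a ^ n * HahnSeries.C (q i).leadingCoeff := by
          rw [← map_pow, ← map_pow, ← map_mul, ← map_mul, hz]
        calc HahnSeries.C (q i).leadingCoeff * io H ^ m *
              (HahnSeries.C a * (HahnSeries.single (-1 : ℤ) (1 : L)) ^ m) ^ n
            = (HahnSeries.C a ^ n * HahnSeries.C (q i).leadingCoeff) *
              (((HahnSeries.single (-1 : ℤ) (1 : L)) ^ m) ^ n * io H ^ m) := by ring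
          _ = (HahnSeries.C (τ i) * HahnSeries.C z ^ m) *
              (((HahnSeries.single (-1 : ℤ) (1 : L)) ^ m) ^ n * io H ^ m) := by rw [h4]
          _ = _ := by ring
      refine ⟨_, ?_, hval.symm⟩
      rw [aeval_inv hx0, hxW, io_aeval]
      refine mul_ne_zero ?_ (pow_ne_zero _ hx0)
      intro h5
      have h6 := lead_io (aeval W (q i).reverse) (by rw [hS0]; exact hS1)
      rw [h5, HahnSeries.leadingCoeff_zero, hS0] at h6
      exact hS1 h6.symm

end

end Laurent

theorem hasPoint_iff {F : Type} [Field F] {I J : Type} (m : ℕ) (hm : 0 < m) (P : I → F[X])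
    (R : J → F[X]) (hP : ∀ i, P i ≠ 0) (hR : ∀ j, R j ≠ 0) (L : Type) [Field L] [CharZero L]
    [Algebra F L] (t : I → L) (ht : ∀ i, t i ≠ 0) :
    HasPoint m P R L t ↔ Expl m (Sum.elim P R) L (Sum.elim t (fun _ => 1)) := by
  have hQ : ∀ e : I ⊕ J, (Sum.elim P R e).map (algebraMap F L) ≠ 0 := by
    intro e
    apply Polynomial.map_ne_zero
    cases e with
    | inl i => exact hP i
    | inr j => exact hR j
  have hF : ∀ (x : LaurentSeries L) (p : F[X]),
      aeval x (p.map (algebraMap F L)) = aeval x p := by
    intro x p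
    rw [aeval_def, aeval_def, eval₂_map]
    congr 1
    ext1 c
    rw [RingHom.comp_apply, Laurent.algC, Laurent.algC]
    rfl
  have h1 := Laurent.core hm (fun e : I ⊕ J => (Sum.elim P R e).map (algebraMap F L)) hQ
    (Sum.elim t (fun _ => 1))
  simp only [natDegree_map, leadingCoeff_map] at h1
  rw [Expl, ← h1]
  constructor
  · rintro ⟨x, y, z, hy, hz⟩
    refine ⟨x, fun e => ?_⟩
    cases e with
    | inl i => exact ⟨y i, by rw [hF]; exact hy i⟩
    | inr j =>
      refine ⟨z j, ?_⟩
      rw [hF]
      refine ⟨(hz j).1, ?_⟩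
      have h2 : (HahnSeries.C (1 : L) : LaurentSeries L) = 1 := map_one _
      change HahnSeries.C (1 : L) * z j ^ m = aeval x (R j)
      rw [h2, one_mul]
      exact (hz j).2
  · rintro ⟨x, hx⟩
    choose y hy using hx
    refine ⟨x, fun i => y (Sum.inl i), fun j => y (Sum.inr j), fun i => ?_, fun j => ?_⟩
    · have h2 := hy (Sum.inl i)
      rw [hF] at h2
      exact h2
    · have h2 := hy (Sum.inr j)
      rw [hF] at h2
      have h3 : (HahnSeries.C (1 : L) : LaurentSeries L) = 1 := map_one _
      refine ⟨h2.1, ?_⟩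
      have h4 : HahnSeries.C (1 : L) * y (Sum.inr j) ^ m = aeval x (R j) := h2.2
      rw [h3, one_mul] at h4
      exact h4

end Pool.KT
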