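import Pool.Agent.Helper54.KT.FDefs

/-!
Specialisation of the explicit criterion from the field of rational functions in several variables.

Let `A = MvPolynomial I F`, `M = FractionRing A`.

Proof. For `t : I → F` let `A_t` be the subring of `M` of the fractions `a / b` with
`eval t b ≠ 0`, and `ev : A_t → F` the evaluation, a ring homomorphism, identity on `F`, `X i ↦ t i`
(e.g. `IsLocalization.lift` for the localization of `A` at the complement of the kernel of
`eval t`, or a hand made construction). Given finitely many elements of `M` there is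
`h ∈ A`, `h ≠ 0` (a common denominator) with all of them in `A_t` whenever `eval t h ≠ 0`; for a
nonzero element include its inverse, so `ev` of it is not zero.

Second alternative (infinity): include `q`, `q⁻¹`, all `z i`. First alternative: the polynomials
`Q i` over `M` are `(X - C θ) ^ e i * S i` with `S i (θ) ≠ 0` and `S i` has coefficients which are
polynomials in `θ` (`S i` is the quotient by a monic polynomial); include `θ`, `q`, `q⁻¹`, all
`z i`, all coefficients of `S i`, and `S i (θ)⁻¹`. Applying `ev`:
`Q i = (X - C (ev θ)) ^ e i * (S i).map ev` over `F`, `((S i).map ev) (ev θ) = ev (S i (θ)) ≠ 0`, so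
`e i` is the multiplicity of `ev θ` in `Q i`, the quotient is `(S i).map ev`, and the equation
specialises.
-/

open Polynomial

namespace Pool.KT

namespace SpecAux

theorem spec_ring {F : Type} [Field F] {I : Type}
    (s : Finset (FractionRing (MvPolynomial I F))) :
    ∃ g : MvPolynomial I F, g ≠ 0 ∧ ∀ t : I → F, MvPolynomial.eval t g ≠ 0 →
      ∃ (ι : Localization.Away g →+* FractionRing (MvPolynomial I F))
        (ev : Localization.Away g →+* F), Function.Injective ι ∧
        (∀ a, ι (algebraMap (MvPolynomial I F) _ a) = algebraMap (MvPolynomial I F) _ a) ∧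
        (∀ a, ev (algebraMap (MvPolynomial I F) _ a) = MvPolynomial.eval t a) ∧
        ∀ x ∈ s, ∃ y, ι y = x := by
  obtain ⟨b, hb⟩ := IsLocalization.exist_integer_multiples_of_finset
    (nonZeroDivisors (MvPolynomial I F)) s
  have hb0 : (b : MvPolynomial I F) ≠ 0 := nonZeroDivisors.ne_zero b.2
  refine ⟨b, hb0, fun t ht => ?_⟩
  have hM : IsUnit (algebraMap (MvPolynomial I F) (FractionRing (MvPolynomial I F)) b) :=
    IsLocalization.map_units (FractionRing (MvPolynomial I F)) b
  have hF : IsUnit (MvPolynomial.eval t (b : MvPolynomial I F)) := isUnit_iff_ne_zero.2 ht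
  refine ⟨IsLocalization.Away.lift (b : MvPolynomial I F) hM,
    IsLocalization.Away.lift (b : MvPolynomial I F) hF, ?_, ?_, ?_, ?_⟩
  · rw [injective_iff_map_eq_zero]
    intro x hx
    obtain ⟨⟨a, c⟩, rfl⟩ := IsLocalization.mk'_surjective (Submonoid.powers (b : MvPolynomial I F)) x
    have h1 : IsLocalization.Away.lift (b : MvPolynomial I F) hM
        (IsLocalization.mk' (Localization.Away (b : MvPolynomial I F)) a c *
          algebraMap (MvPolynomial I F) _ (c : MvPolynomial I F)) = 0 := by
      rw [map_mul, hx, zero_mul]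
    rw [IsLocalization.mk'_spec, IsLocalization.Away.lift_eq] at h1
    have h2 : a = 0 := by
      apply IsFractionRing.injective (MvPolynomial I F) (FractionRing (MvPolynomial I F))
      rw [h1, map_zero]
    rw [h2]
    exact IsLocalization.mk'_zero _
  · intro a
    exact IsLocalization.Away.lift_eq _ hM a
  · intro a
    exact IsLocalization.Away.lift_eq _ hF a
  · intro x hx
    obtain ⟨c, hc⟩ := hb x hx
    refine ⟨IsLocalization.mk' (Localization.Away (b : MvPolynomial I F)) c
      ⟨(b : MvPolynomial I F), Submonoid.mem_powers _⟩, ?_⟩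
    have h1 : IsLocalization.Away.lift (b : MvPolynomial I F) hM
        (IsLocalization.mk' (Localization.Away (b : MvPolynomial I F)) c
          ⟨(b : MvPolynomial I F), Submonoid.mem_powers _⟩ *
          algebraMap (MvPolynomial I F) _ (b : MvPolynomial I F)) =
        algebraMap (MvPolynomial I F) (FractionRing (MvPolynomial I F)) c := by
      have h2 := IsLocalization.mk'_spec (Localization.Away (b : MvPolynomial I F)) c
        ⟨(b : MvPolynomial I F), Submonoid.mem_powers _⟩
      rw [h2, IsLocalization.Away.lift_eq]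
    rw [map_mul, IsLocalization.Away.lift_eq, hc, Algebra.smul_def, mul_comm] at h1
    exact hM.mul_left_cancel h1

theorem mult_of_eq {F : Type} [Field F] {Q S : F[X]} {θ : F} {e : ℕ}
    (h : Q = (X - C θ) ^ e * S) (hS : S.eval θ ≠ 0) :
    Q.rootMultiplicity θ = e ∧ Q /ₘ (X - C θ) ^ Q.rootMultiplicity θ = S := by
  have hS0 : S ≠ 0 := by
    rintro rfl
    simp at hS
  have h1 : Q.rootMultiplicity θ = e := by
    rw [h, rootMultiplicity_mul, rootMultiplicity_X_sub_C_pow, rootMultiplicity_eq_zero hS, add_zero]
    exact mul_ne_zero (pow_ne_zero _ (X_sub_C_ne_zero θ)) hS0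
  refine ⟨h1, ?_⟩
  rw [h1, h]
  exact mul_divByMonic_cancel_left _ ((monic_X_sub_C θ).pow e)

end SpecAux

theorem expl_spec {F : Type} [Field F] [Infinite F] {I E : Type} [Fintype I] [Fintype E] (m : ℕ)
    (Q : E → F[X]) (hQ : ∀ i, Q i ≠ 0) (τ : E → MvPolynomial I F)
    (h : Expl m Q (FractionRing (MvPolynomial I F))
      (fun i => algebraMap (MvPolynomial I F) (FractionRing (MvPolynomial I F)) (τ i))) :
    ∃ g : MvPolynomial I F, g ≠ 0 ∧ ∀ t : I → F, MvPolynomial.eval t g ≠ 0 →
      Expl m Q F (fun i => MvPolynomial.eval t (τ i)) := by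
  classical
  rcases h with ⟨θ, q, hq, hz⟩ | ⟨q, hq, hz⟩
  · choose z hz using hz
    set S : E → (FractionRing (MvPolynomial I F))[X] := fun i =>
      ((Q i).map (algebraMap F (FractionRing (MvPolynomial I F)))) /ₘ
        (X - C θ) ^ ((Q i).map
          (algebraMap F (FractionRing (MvPolynomial I F)))).rootMultiplicity θ with hS
    set e : E → ℕ := fun i => ((Q i).map
      (algebraMap F (FractionRing (MvPolynomial I F)))).rootMultiplicity θ with he
    have hQ0 : ∀ i, (Q i).map (algebraMap F (FractionRing (MvPolynomial I F))) ≠ 0 := fun i =>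
      (Polynomial.map_ne_zero_iff (algebraMap F (FractionRing (MvPolynomial I F))).injective).2
        (hQ i)
    have hSθ : ∀ i, (S i).eval θ ≠ 0 := fun i =>
      eval_divByMonic_pow_rootMultiplicity_ne_zero θ (hQ0 i)
    have hQS : ∀ i, (X - C θ) ^ e i * S i =
        (Q i).map (algebraMap F (FractionRing (MvPolynomial I F))) := fun i =>
      pow_mul_divByMonic_rootMultiplicity_eq _ θ
    obtain ⟨g, hg, hspec⟩ := SpecAux.spec_ring
      ({θ, q, q⁻¹} ∪ (Finset.univ.image z ∪ Finset.univ.image (fun i => ((S i).eval θ)⁻¹)))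
    refine ⟨g, hg, fun t ht => ?_⟩
    obtain ⟨ι, ev, hinj, hι, hev, hpre⟩ := hspec t ht
    obtain ⟨θ', hθ'⟩ := hpre θ (by simp)
    obtain ⟨q', hq'⟩ := hpre q (by simp)
    obtain ⟨r', hr'⟩ := hpre q⁻¹ (by simp)
    have hz' : ∀ i, ∃ y, ι y = z i := fun i => hpre _ (by simp)
    have hw' : ∀ i, ∃ y, ι y = ((S i).eval θ)⁻¹ := fun i => hpre _ (by simp)
    choose z' hz' using hz'
    choose w' hw' using hw'
    -- the base field
    have hιF : ι.comp (algebraMap F (Localization.Away g)) =
        algebraMap F (FractionRing (MvPolynomial I F)) := by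
      ext a
      rw [RingHom.comp_apply, IsScalarTower.algebraMap_apply F (MvPolynomial I F), hι,
        ← IsScalarTower.algebraMap_apply]
    have hevF : ev.comp (algebraMap F (Localization.Away g)) = RingHom.id F := by
      ext a
      rw [RingHom.comp_apply, IsScalarTower.algebraMap_apply F (MvPolynomial I F), hev]
      simp
    -- the quotients over the localization
    set S' : E → (Localization.Away g)[X] := fun i =>
      ((Q i).map (algebraMap F (Localization.Away g))) /ₘ (X - C θ') ^ e i with hS'
    have hmon : ∀ i, ((X - C θ' : (Localization.Away g)[X]) ^ e i).Monic := fun i =>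
      (monic_X_sub_C θ').pow _
    have hmapX : ∀ i, ((X - C θ' : (Localization.Away g)[X]) ^ e i).map ι = (X - C θ) ^ e i := by
      intro i
      rw [Polynomial.map_pow, Polynomial.map_sub, map_X, map_C, hθ']
    have hSS' : ∀ i, (S' i).map ι = S i := by
      intro i
      rw [hS']
      simp only []
      rw [map_divByMonic _ (hmon i), Polynomial.map_map, hιF, hmapX]
    have hQS' : ∀ i, (Q i).map (algebraMap F (Localization.Away g)) =
        (X - C θ') ^ e i * S' i := by
      intro i
      apply Polynomial.map_injective ι hinj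
      rw [Polynomial.map_map, hιF, Polynomial.map_mul, hmapX, hSS', hQS]
    have hSe : ∀ i, ι ((S' i).eval θ') = (S i).eval θ := by
      intro i
      rw [← hSS', ← hθ', eval_map, eval₂_at_apply]
    have hunit : ∀ i, (S' i).eval θ' * w' i = 1 := by
      intro i
      apply hinj
      rw [map_mul, hSe, hw', mul_inv_cancel₀ (hSθ i), map_one]
    have hqr : q' * r' = 1 := by
      apply hinj
      rw [map_mul, hq', hr', mul_inv_cancel₀ hq, map_one]
    have heq : ∀ i, algebraMap (MvPolynomial I F) (Localization.Away g) (τ i) * z' i ^ m =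
        q' ^ e i * (S' i).eval θ' := by
      intro i
      apply hinj
      rw [map_mul, map_mul, map_pow, map_pow, hι, hz', hq', hSe]
      exact hz i
    have hQev : ∀ i, Q i = (X - C (ev θ')) ^ e i * (S' i).map ev := by
      intro i
      have h1 := congrArg (Polynomial.map ev) (hQS' i)
      rwa [Polynomial.map_map, hevF, Polynomial.map_id, Polynomial.map_mul, Polynomial.map_pow,
        Polynomial.map_sub, map_X, map_C] at h1
    have hSev : ∀ i, ((S' i).map ev).eval (ev θ') = ev ((S' i).eval θ') := by
      intro i
      rw [eval_map, eval₂_at_apply]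
    have hSev0 : ∀ i, ((S' i).map ev).eval (ev θ') ≠ 0 := by
      intro i
      rw [hSev]
      have h1 := congrArg ev (hunit i)
      rw [map_mul, map_one] at h1
      exact left_ne_zero_of_mul_eq_one h1
    refine Or.inl ⟨ev θ', ev q', ?_, fun i => ⟨ev (z' i), ?_⟩⟩
    · have h1 := congrArg ev hqr
      rw [map_mul, map_one] at h1
      exact left_ne_zero_of_mul_eq_one h1
    · have h1 := congrArg ev (heq i)
      rw [map_mul, map_mul, map_pow, map_pow, hev, ← hSev] at h1
      obtain ⟨h2, h3⟩ := SpecAux.mult_of_eq (hQev i) (hSev0 i)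
      rw [Algebra.algebraMap_self, Polynomial.map_id, h3, h2]
      exact h1
  · choose z hz using hz
    obtain ⟨g, hg, hspec⟩ := SpecAux.spec_ring ({q, q⁻¹} ∪ Finset.univ.image z)
    refine ⟨g, hg, fun t ht => ?_⟩
    obtain ⟨ι, ev, hinj, hι, hev, hpre⟩ := hspec t ht
    obtain ⟨q', hq'⟩ := hpre q (by simp)
    obtain ⟨r', hr'⟩ := hpre q⁻¹ (by simp)
    have hz' : ∀ i, ∃ y, ι y = z i := fun i => hpre _ (by simp)
    choose z' hz' using hz'
    have hqr : q' * r' = 1 := by
      apply hinj
      rw [map_mul, hq', hr', mul_inv_cancel₀ hq, map_one]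
    have heq : ∀ i, algebraMap (MvPolynomial I F) (Localization.Away g) (τ i) * z' i ^ m =
        q' ^ (Q i).natDegree * algebraMap (MvPolynomial I F) (Localization.Away g)
          (MvPolynomial.C (Q i).leadingCoeff) := by
      intro i
      apply hinj
      rw [map_mul, map_mul, map_pow, map_pow, hι, hz', hq', hι]
      exact hz i
    refine Or.inr ⟨ev q', ?_, fun i => ⟨ev (z' i), ?_⟩⟩
    · have h1 := congrArg ev hqr
      rw [map_mul, map_one] at h1
      exact left_ne_zero_of_mul_eq_one h1
    · have h1 := congrArg ev (heq i)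
      rw [map_mul, map_mul, map_pow, map_pow, hev, hev, MvPolynomial.eval_C] at h1
      rw [Algebra.algebraMap_self, RingHom.id_apply]
      exact h1

end Pool.KT
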