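import Pool.Agent.Helper54.KT.FLevel
import Pool.Agent.Helper54.KT.Laurent
import Pool.Agent.Helper54.KT.Spec
import Pool.Agent.Helper54.KT.Fixed

/-!
The equivalence of arithmetic surjectivity, surjectivity over `F`, the existence of a section and
the existence of a rational fixed point.
-/

open NumberField Polynomial
open scoped Pointwise BigOperators

namespace Pool.KT

/-- The explicit criterion does not change if the `τ i` are multiplied by `m`-th powers. -/
theorem expl_twist {F : Type} [Field F] (m : ℕ) {E : Type} (Q : E → F[X]) (L : Type) [Field L]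
    [Algebra F L] (τ u : E → L)
    (h : Expl m Q L (fun i => τ i * u i ^ m)) : Expl m Q L τ := by
  rcases h with ⟨θ, q, hq, h⟩ | ⟨q, hq, h⟩
  · refine Or.inl ⟨θ, q, hq, fun i => ?_⟩
    obtain ⟨z, hz⟩ := h i
    exact ⟨u i * z, by rw [← hz]; ring⟩
  · refine Or.inr ⟨q, hq, fun i => ?_⟩
    obtain ⟨z, hz⟩ := h i
    exact ⟨u i * z, by rw [← hz]; ring⟩

/-- There are `m`-th power multiples of given nonzero elements outside of a hypersurface. -/
theorem exists_twist {F : Type} [Field F] [Infinite F] (m : ℕ) (hm : 0 < m) {I : Type}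
    (t : I → F) (ht : ∀ i, t i ≠ 0) (h : MvPolynomial I F) (hh : h ≠ 0) :
    ∃ u : I → F, (∀ i, u i ≠ 0) ∧ MvPolynomial.eval (fun i => t i * u i ^ m) h ≠ 0 := by
  classical
  by_contra hcon
  push Not at hcon
  apply hh
  refine MvPolynomial.funext_set (fun i => {y : F | ∃ u : F, u ≠ 0 ∧ y = t i * u ^ m}) ?_ ?_
  · intro i
    have h1 : ({u : F | u ≠ 0}).Infinite := by
      have h2 : ({u : F | u ≠ 0}) = ({0} : Set F)ᶜ := by
        ext u
        simp
      rw [h2]
      exact (Set.finite_singleton 0).infinite_compl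
    have h2 : {y : F | ∃ u : F, u ≠ 0 ∧ y = t i * u ^ m} =
        (fun u : F => t i * u ^ m) '' {u : F | u ≠ 0} := by
      ext y
      constructor
      · rintro ⟨u, hu, rfl⟩
        exact ⟨u, hu, rfl⟩
      · rintro ⟨u, hu, rfl⟩
        exact ⟨u, hu, rfl⟩
    rw [h2]
    intro hfin
    refine h1 (Set.Finite.of_finite_fibers (f := fun u : F => t i * u ^ m) hfin fun y _ => ?_)
    have h3 : ({u : F | u ≠ 0} ∩ (fun u : F => t i * u ^ m) ⁻¹' {y}) ⊆
        {u : F | IsRoot (X ^ m - C (y / t i)) u} := by
      rintro u ⟨-, hu⟩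
      have h4 : t i * u ^ m = y := hu
      change IsRoot _ u
      rw [IsRoot.def, eval_sub, eval_pow, eval_X, eval_C, ← h4, mul_div_cancel_left₀ _ (ht i),
        sub_self]
    refine Set.Finite.subset ?_ h3
    exact Polynomial.finite_setOf_isRoot (X_pow_sub_C_ne_zero hm _)
  · intro x hx
    rw [map_zero]
    choose u hu hxu using fun i => hx i (Set.mem_univ i)
    have h1 : x = fun i => t i * u i ^ m := funext hxu
    rw [h1]
    exact hcon u hu

theorem main (F : Type) [Field F] [NumberField F] (m : ℕ) (hm2 : 2 ≤ m) {I J : Type}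
    [Fintype I] [Fintype J] [Nonempty I] (hm : m.Prime ∨ (IsEmpty J ∧ Subsingleton I))
    (P : I → F[X]) (R : J → F[X]) (hP : ∀ i, P i ≠ 0) (hR : ∀ j, R j ≠ 0)
    (hirr : GeomIrred m P R) (h : MvPolynomial I F) (hh : h ≠ 0) :
    List.TFAE [ArithSurj m P R h,
      ∀ t : I → F, (∀ i, t i ≠ 0) → MvPolynomial.eval t h ≠ 0 → HasPoint m P R F t,
      HasSection m P R,
      HasFixed m P R] := by
  have hm0 : 0 < m := by omega
  have hsum : ∀ (L : Type) [Field L] (t u : I → L),
      (fun i => Sum.elim t (fun _ : J => (1 : L)) i * Sum.elim u (fun _ : J => (1 : L)) i ^ m) =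
        Sum.elim (fun i => t i * u i ^ m) (fun _ => 1) := by
    intro L _ t u
    funext i
    rcases i with i | j
    · rfl
    · simp
  -- no fixed point: members without points, outside of every hypersurface
  have hkey : ¬ HasFixed m P R → ∀ g : MvPolynomial I F, g ≠ 0 → ∃ t : I → F, (∀ i, t i ≠ 0) ∧
      MvPolynomial.eval t g ≠ 0 ∧ ¬ Expl m (Sum.elim P R) F (Sum.elim t (fun _ => 1)) := by
    intro hnot g hg
    obtain ⟨t, ht, hno⟩ := flevel F m hm2 hm P R hP hR hirr hnot
    obtain ⟨u, hu, hug⟩ := exists_twist m hm0 t ht g hg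
    refine ⟨fun i => t i * u i ^ m, fun i => mul_ne_zero (ht i) (pow_ne_zero m (hu i)), hug, ?_⟩
    intro hex
    apply hno
    refine expl_twist m _ F _ (Sum.elim u (fun _ => 1)) ?_
    rw [hsum]
    exact hex
  tfae_have 1 → 2 := by
    intro h1 t ht hth
    refine h1 F t ht ?_
    rw [← MvPolynomial.coe_aeval_eq_eval] at hth
    exact hth
  tfae_have 2 → 4 := by
    intro h2
    by_contra hnot
    obtain ⟨t, ht, hth, hno⟩ := hkey hnot h hh
    exact hno ((hasPoint_iff m hm0 P R hP hR F t ht).1 (h2 t ht hth))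
  tfae_have 3 → 4 := by
    intro h3
    by_contra hnot
    have hch : CharZero (FractionRing (MvPolynomial I F)) :=
      charZero_of_injective_algebraMap (IsFractionRing.injective (MvPolynomial I F)
        (FractionRing (MvPolynomial I F)))
    have hX : ∀ i, algebraMap (MvPolynomial I F) (FractionRing (MvPolynomial I F))
        (MvPolynomial.X i) ≠ 0 := by
      intro i h0
      exact MvPolynomial.X_ne_zero i ((IsFractionRing.to_map_eq_zero_iff).1 h0)
    have h4 := (hasPoint_iff m hm0 P R hP hR (FractionRing (MvPolynomial I F)) _ hX).1 h3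
    obtain ⟨g, hg, hg2⟩ := expl_spec m (Sum.elim P R) (by
      rintro (i | j)
      · exact hP i
      · exact hR j) (Sum.elim (fun i => MvPolynomial.X i) (fun _ => 1)) (by
      convert h4 using 1
      funext i
      rcases i with i | j
      · rfl
      · simp)
    obtain ⟨t, ht, htg, hno⟩ := hkey hnot g hg
    apply hno
    have h5 := hg2 t htg
    convert h5 using 1
    funext i
    rcases i with i | j
    · simp
    · simp
  tfae_have 4 → 1 := by
    intro h4 L _ _ _ t ht hth
    exact (hasPoint_iff m hm0 P R hP hR L t ht).2 (expl_of_fixed m hm2 P R hP hR h4 L t ht)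
  tfae_have 4 → 3 := by
    intro h4
    have hch : CharZero (FractionRing (MvPolynomial I F)) :=
      charZero_of_injective_algebraMap (IsFractionRing.injective (MvPolynomial I F)
        (FractionRing (MvPolynomial I F)))
    have hX : ∀ i, algebraMap (MvPolynomial I F) (FractionRing (MvPolynomial I F))
        (MvPolynomial.X i) ≠ 0 := by
      intro i h0
      exact MvPolynomial.X_ne_zero i ((IsFractionRing.to_map_eq_zero_iff).1 h0)
    exact (hasPoint_iff m hm0 P R hP hR _ _ hX).2 (expl_of_fixed m hm2 P R hP hR h4 _ _ hX)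
  tfae_finish

end Pool.KT
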