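import Pool.Agent.Helper54.KT.Defs
import Pool.Agent.TP2.Kummer

/-!
Automorphisms with prescribed values on `l`-th roots.

Proof (the case `l = 2` is `Pool.TP2.Kummer.signs_one`, adapt it). Put
`W = {s : J → ZMod l | ∃ χ fixing K pointwise, ∀ j, χ (r j) = ζ ^ (s j).val * r j}`. As `ζ ∈ K`,
`W` is closed under addition (use `ζ ^ (a + b).val = ζ ^ a.val * ζ ^ b.val`), hence a submodule
over `ZMod l` (scalars are multiples, or use powers of `χ`). If `W` is not everything there is a
nonzero linear functional `f s = ∑ a j * s j` vanishing on `W`. Then `∏ j, r j ^ (a j).val` is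
fixed by all automorphisms which fix `K` (every such automorphism multiplies `r j` by some power
of `ζ`, since `(χ (r j)) ^ l = r j ^ l`), hence lies in `K`, and its `l`-th power is
`∏ j, v j ^ (a j).val`, a contradiction to `hind`.
-/

open NumberField Polynomial
open scoped Pointwise BigOperators

namespace Pool.KT

open Pool.TP2

namespace Kummer

/-- powers of an `l`-th root of unity with exponents modulo `l` -/
theorem pow_val_add {l : ℕ} [Fact l.Prime] {z : Qb} (hz : z ^ l = 1) (a b : ZMod l) :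
    z ^ (a + b).val = z ^ a.val * z ^ b.val := by
  rw [ZMod.val_add, ← pow_eq_pow_mod _ hz, pow_add]

end Kummer

theorem exists_kummer (K : IntermediateField ℚ Qb) (l : ℕ) [Fact l.Prime] (ζ : K)
    (hζ : IsPrimitiveRoot ζ l) {J : Type} [Fintype J] (v : J → K) (hv : ∀ j, v j ≠ 0)
    (hind : ∀ a : J → ZMod l, a ≠ 0 → ¬ ∃ y : K, ∏ j, v j ^ (a j).val = y ^ l)
    (r : J → Qb) (hr : ∀ j, r j ^ l = v j) (ε : J → ZMod l) :
    ∃ χ : Qb ≃ₐ[ℚ] Qb, (∀ x : K, χ x = x) ∧ ∀ j, χ (r j) = (ζ : Qb) ^ (ε j).val * r j := by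
  classical
  have hζ' : IsPrimitiveRoot (ζ : Qb) l :=
    hζ.map_of_injective (f := (algebraMap K Qb)) (algebraMap K Qb).injective
  have hζl : (ζ : Qb) ^ l = 1 := hζ'.pow_eq_one
  have hl : 0 < l := (Fact.out : l.Prime).pos
  have hr0 : ∀ j, r j ≠ 0 := by
    intro j h
    have := hr j
    rw [h, zero_pow hl.ne'] at this
    exact hv j (Subtype.ext this.symm)
  let P : (J → ZMod l) → Prop := fun s => ∃ χ : Qb ≃ₐ[ℚ] Qb, (∀ x : K, χ x = x) ∧
        ∀ j, χ (r j) = (ζ : Qb) ^ (s j).val * r j
  have hP0 : P 0 := ⟨1, fun x => rfl, fun j => by simp⟩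
  have hPadd : ∀ s t, P s → P t → P (s + t) := by
    rintro s t ⟨χ, h1, h2⟩ ⟨χ', h1', h2'⟩
    refine ⟨χ * χ', fun x => ?_, fun j => ?_⟩
    · rw [AlgEquiv.mul_apply, h1', h1]
    · rw [AlgEquiv.mul_apply, h2', map_mul, h2, map_pow, h1, Pi.add_apply,
        Kummer.pow_val_add hζl]
      ring
  have hPn : ∀ (n : ℕ) s, P s → P (n • s) := by
    intro n s hs
    induction n with
    | zero => rw [zero_smul]; exact hP0
    | succ n ih => rw [succ_nsmul]; exact hPadd _ _ ih hs
  let W : Submodule (ZMod l) (J → ZMod l) :=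
    { carrier := {s | P s}
      add_mem' := fun {s t} hs ht => hPadd s t hs ht
      zero_mem' := hP0
      smul_mem' := by
        intro c s hs
        have h := hPn c.val s hs
        have e : c.val • s = c • s := by
          rw [← Nat.cast_smul_eq_nsmul (ZMod l), ZMod.natCast_zmod_val]
        rw [e] at h
        exact h }
  have hW : W = ⊤ := by
    by_contra hne
    obtain ⟨f, hf0, hf⟩ := Submodule.exists_le_ker_of_lt_top W (lt_top_iff_ne_top.2 hne)
    have hfs : ∀ s : J → ZMod l, f s = ∑ j, s j * f (Pi.single j 1) := by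
      intro s
      conv_lhs => rw [← Finset.univ_sum_single s]
      rw [map_sum]
      refine Finset.sum_congr rfl fun j _ => ?_
      have : (Pi.single j (s j) : J → ZMod l) = s j • (Pi.single j 1 : J → ZMod l) := by
        rw [← Pi.single_smul, smul_eq_mul, mul_one]
      rw [this, map_smul, smul_eq_mul]
    let a : J → ZMod l := fun j => f (Pi.single j 1)
    have ha : a ≠ 0 := by
      intro h
      apply hf0
      refine LinearMap.ext fun s => ?_
      rw [hfs, LinearMap.zero_apply]
      refine Finset.sum_eq_zero fun j _ => ?_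
      have : f (Pi.single j 1) = 0 := congrFun h j
      rw [this, mul_zero]
    have hgal : IsGalois ℚ Qb := Pool.TP2.Kummer.isGalois
    have hR : (∏ j, r j ^ (a j).val) ∈ K := by
      rw [← InfiniteGalois.fixedField_fixingSubgroup K, IntermediateField.mem_fixedField_iff]
      intro χ hχ
      rw [IntermediateField.mem_fixingSubgroup_iff] at hχ
      have hχ' : ∀ x : K, χ x = x := fun x => hχ x x.2
      have h2 : ∀ j, ∃ b : ZMod l, χ (r j) = (ζ : Qb) ^ b.val * r j := by
        intro j
        have h3 : (χ (r j) / r j) ^ l = 1 := by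
          rw [div_pow, ← map_pow, hr, hχ', ← hr, div_self (pow_ne_zero _ (hr0 j))]
        obtain ⟨i, hi, hi'⟩ := hζ'.eq_pow_of_pow_eq_one h3
        refine ⟨(i : ZMod l), ?_⟩
        rw [ZMod.val_natCast_of_lt hi, hi', div_mul_cancel₀ _ (hr0 j)]
      choose s hs using h2
      have hsW : s ∈ W := ⟨χ, hχ', hs⟩
      have hs0 : f s = 0 := hf hsW
      rw [hfs] at hs0
      have h5 : ∏ j, ((ζ : Qb) ^ (s j).val) ^ (a j).val = 1 := by
        have e1 : ∏ j, ((ζ : Qb) ^ (s j).val) ^ (a j).val
            = (ζ : Qb) ^ (∑ j, (s j).val * (a j).val) := by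
          rw [← Finset.prod_pow_eq_pow_sum]
          refine Finset.prod_congr rfl fun j _ => ?_
          rw [← pow_mul]
        rw [e1, hζ'.pow_eq_one_iff_dvd, ← ZMod.natCast_eq_zero_iff]
        push_cast
        rw [← hs0]
        refine Finset.sum_congr rfl fun j _ => ?_
        rw [ZMod.natCast_zmod_val, ZMod.natCast_zmod_val]
      rw [map_prod]
      have e2 : ∀ j, χ (r j ^ (a j).val)
          = ((ζ : Qb) ^ (s j).val) ^ (a j).val * r j ^ (a j).val := by
        intro j
        rw [map_pow, hs, mul_pow]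
      rw [Finset.prod_congr rfl fun j _ => e2 j, Finset.prod_mul_distrib, h5, one_mul]
    apply hind a ha
    refine ⟨⟨∏ j, r j ^ (a j).val, hR⟩, ?_⟩
    apply Subtype.ext
    have h7 : ((∏ j, v j ^ (a j).val : K) : Qb) = ∏ j, (v j : Qb) ^ (a j).val := by
      push_cast
      rfl
    rw [h7]
    change _ = (∏ j, r j ^ (a j).val) ^ l
    rw [← Finset.prod_pow]
    refine Finset.prod_congr rfl fun j _ => ?_
    rw [← hr, ← pow_mul, ← pow_mul, mul_comm]
  have : ε ∈ W := by rw [hW]; exact Submodule.mem_top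
  obtain ⟨χ, h1, h2⟩ := this
  exact ⟨χ, h1, h2⟩

end Pool.KT
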